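import Mathlib
import Pool.Agent.TH881.RK.Defs

/-! The asymptotic formula along arbitrary sets of arguments, for almost all vectors of shifts. -/

set_option autoImplicit false

namespace Pool.Agent.TH626.J4003

open Finset Filter Topology
open Pool.Agent.TH881
open Pool.Agent.TH881.RG
open Pool.Agent.TH881.RQ
open Pool.Agent.TH881.RK hiding lp
open Pool.Agent.H373R2.T7

/-! ### differences of products -/

theorem prod_diff {ι : Type*} [DecidableEq ι] (s : Finset ι) (a b : ι → ℝ) (ha : ∀ i, 0 ≤ a i)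
    (hb : ∀ i, 0 ≤ b i) :
    |∏ i ∈ s, a i - ∏ i ∈ s, b i| ≤ ∑ i ∈ s, |a i - b i| * ∏ j ∈ s.erase i, (a j + b j) := by
  induction s using Finset.induction_on with
  | empty => simp
  | insert k s hk ih =>
    rw [prod_insert hk, prod_insert hk, sum_insert hk, erase_insert hk]
    have hA : ∏ i ∈ s, a i ≤ ∏ j ∈ s, (a j + b j) :=
      prod_le_prod (fun i _ => ha i) (fun i _ => by linarith [hb i])
    have e : a k * ∏ i ∈ s, a i - b k * ∏ i ∈ s, b i =
        (a k - b k) * ∏ i ∈ s, a i + b k * (∏ i ∈ s, a i - ∏ i ∈ s, b i) := by ring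
    rw [e]
    refine (abs_add_le _ _).trans (add_le_add ?_ ?_)
    · rw [abs_mul, abs_of_nonneg (prod_nonneg fun i _ => ha i)]
      exact mul_le_mul_of_nonneg_left hA (abs_nonneg _)
    · rw [abs_mul, abs_of_nonneg (hb k)]
      refine (mul_le_mul_of_nonneg_left ih (hb k)).trans ?_
      rw [mul_sum]
      refine sum_le_sum fun i hi => ?_
      have hki : k ≠ i := fun h => hk (h ▸ hi)
      rw [erase_insert_of_ne hki, prod_insert (fun h => hk (mem_of_mem_erase h))]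
      have h0 : 0 ≤ |a i - b i| * ∏ j ∈ s.erase i, (a j + b j) :=
        mul_nonneg (abs_nonneg _) (prod_nonneg fun j _ => add_nonneg (ha j) (hb j))
      have h1 := mul_nonneg (ha k) h0
      nlinarith

theorem sum_prod_diff (m X : ℕ) (a b : ℕ → ℝ) (ha : ∀ i, 0 ≤ a i) (hb : ∀ i, 0 ≤ b i) (D T : ℝ)
    (hD : ∑ x ∈ Icc 1 X, |a x - b x| ≤ D) (hT : ∑ x ∈ Icc 1 X, (a x + b x) ≤ T) :
    ∑ h ∈ Fintype.piFinset (fun _ : Fin m => Icc 1 X), |∏ j, a (h j) - ∏ j, b (h j)| ≤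
      m * (D * T ^ (m - 1)) := by
  classical
  have hD0 : 0 ≤ ∑ x ∈ Icc 1 X, |a x - b x| := sum_nonneg fun x _ => abs_nonneg _
  have hT0 : 0 ≤ ∑ x ∈ Icc 1 X, (a x + b x) := sum_nonneg fun x _ => add_nonneg (ha x) (hb x)
  have h1 : ∀ h ∈ Fintype.piFinset (fun _ : Fin m => Icc 1 X),
      |∏ j, a (h j) - ∏ j, b (h j)| ≤
        ∑ i : Fin m, ∏ j, (if j = i then |a (h j) - b (h j)| else a (h j) + b (h j)) := by
    intro h _
    refine (prod_diff univ (fun j => a (h j)) (fun j => b (h j)) (fun j => ha _)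
      (fun j => hb _)).trans (le_of_eq ?_)
    refine sum_congr rfl fun i _ => ?_
    rw [← mul_prod_erase univ _ (mem_univ i), if_pos rfl]
    congr 1
    refine prod_congr rfl fun j hj => ?_
    rw [if_neg (ne_of_mem_erase hj)]
  refine (sum_le_sum h1).trans ?_
  rw [sum_comm]
  have h2 : ∀ i : Fin m, ∑ h ∈ Fintype.piFinset (fun _ : Fin m => Icc 1 X),
      ∏ j, (if j = i then |a (h j) - b (h j)| else a (h j) + b (h j)) ≤ D * T ^ (m - 1) := by
    intro i
    have e := (prod_univ_sum (fun _ : Fin m => Icc 1 X)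
      (fun j x => if j = i then |a x - b x| else a x + b x)).symm
    rw [e, ← mul_prod_erase univ _ (mem_univ i)]
    simp only [if_true]
    have e2 : ∏ j ∈ univ.erase i, ∑ x ∈ Icc 1 X, (if j = i then |a x - b x| else a x + b x) =
        (∑ x ∈ Icc 1 X, (a x + b x)) ^ (m - 1) := by
      rw [prod_congr rfl (g := fun _ => ∑ x ∈ Icc 1 X, (a x + b x)), prod_const,
        card_erase_of_mem (mem_univ i), card_univ, Fintype.card_fin]
      intro j hj
      refine sum_congr rfl fun x _ => ?_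
      rw [if_neg (ne_of_mem_erase hj)]
    rw [e2]
    exact mul_le_mul hD (pow_le_pow_left₀ hT0 hT _) (pow_nonneg hT0 _) (hD0.trans hD)
  refine (sum_le_sum fun i _ => h2 i).trans (le_of_eq ?_)
  rw [sum_const, card_univ, Fintype.card_fin, nsmul_eq_mul]

/-! ### primes -/

theorem lp_nonneg (n : ℕ) : 0 ≤ RK.lp n := by
  unfold RK.lp
  split_ifs
  · exact Real.log_natCast_nonneg n
  · exact le_rfl

theorem theta_bd (n : ℕ) (I : Finset ℕ) (Y : ℝ) (hY : 0 ≤ Y) (hI : ∀ x ∈ I, ((x + n : ℕ) : ℝ) ≤ Y) :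
    ∑ x ∈ I, RK.lp (x + n) ≤ 7 / 5 * Y := by
  have h4 : Real.log 4 ≤ 7 / 5 := by
    have h : Real.log 4 = 2 * Real.log 2 := by
      rw [show (4 : ℝ) = 2 ^ 2 by norm_num, Real.log_pow]
      norm_num
    have := Real.log_two_lt_d9
    linarith
  have h1 : ∑ x ∈ I, RK.lp (x + n) = ∑ q ∈ I.image (fun x => x + n), RK.lp q := by
    rw [sum_image]
    intro x _ y _ h
    exact Nat.add_right_cancel h
  have h2 : ∑ q ∈ I.image (fun x => x + n), RK.lp q ≤ Chebyshev.theta Y := by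
    unfold Chebyshev.theta RK.lp
    rw [← sum_filter]
    refine sum_le_sum_of_subset_of_nonneg ?_ (fun q _ _ => Real.log_natCast_nonneg q)
    intro q hq
    obtain ⟨hq1, hq2⟩ := mem_filter.mp hq
    obtain ⟨x, hx, rfl⟩ := mem_image.mp hq1
    rw [mem_filter, mem_Ioc]
    exact ⟨⟨hq2.pos, Nat.le_floor (hI x hx)⟩, hq2⟩
  rw [h1]
  refine h2.trans ((Chebyshev.theta_le_log4_mul_x hY).trans ?_)
  exact mul_le_mul_of_nonneg_right h4 hY

/-- one variable -/
theorem one_dim (η : ℝ) (hη : 0 < η) (hη1 : η ≤ 1) : ∃ X0 : ℕ, ∀ X : ℕ, X0 ≤ X →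
    ∀ n : ℕ, √(X : ℝ) < n → n ≤ X →
      ∑ x ∈ Icc 1 X, |(if (x + n).Prime then Real.log X else 0) - RK.lp (x + n)| ≤ 3 * η * X := by
  obtain ⟨A, hA⟩ : ∃ A : ℝ, A = Real.log 2 + Real.log (1 / η) := ⟨_, rfl⟩
  have hlη : 0 ≤ Real.log (1 / η) := by
    apply Real.log_nonneg
    rw [le_div_iff₀ hη]
    linarith
  have hl2 : 0 < Real.log 2 := Real.log_pos (by norm_num)
  have hA0 : 0 ≤ A := by rw [hA]; linarith
  have hlim : Tendsto (fun N : ℕ => Real.log (N : ℝ)) atTop atTop :=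
    Real.tendsto_log_atTop.comp (tendsto_natCast_atTop_atTop (R := ℝ))
  obtain ⟨X1, h1⟩ := eventually_atTop.1 (hlim.eventually_ge_atTop (6 * A / η + 1))
  refine ⟨X1 + 3, fun X hX n hn hnX => ?_⟩
  have hL := h1 X (by omega)
  have hXr : (3 : ℝ) ≤ X := by exact_mod_cast (by omega : 3 ≤ X)
  have hX0 : (0 : ℝ) < X := by linarith
  set L := Real.log X with hLdef
  have hL1 : 1 ≤ L := by
    have : 0 ≤ 6 * A / η := by positivity
    linarith
  have hpt : ∀ x ∈ Icc 1 X, |(if (x + n).Prime then L else 0) - RK.lp (x + n)| ≤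
      (2 * A / L) * RK.lp (x + n) + (if ((x + n : ℕ) : ℝ) ≤ η * X then RK.lp (x + n) else 0) := by
    intro x hx
    obtain ⟨hx1, hx2⟩ := mem_Icc.mp hx
    by_cases hp : (x + n).Prime
    · have hlp : RK.lp (x + n) = Real.log ((x + n : ℕ) : ℝ) := by unfold RK.lp; rw [if_pos hp]
      rw [if_pos hp, hlp]
      set q : ℝ := ((x + n : ℕ) : ℝ) with hq
      have hqn : (n : ℝ) ≤ q := by rw [hq]; exact_mod_cast Nat.le_add_left n x
      have hq2 : q ≤ 2 * X := by
        rw [hq]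
        exact_mod_cast (by omega : x + n ≤ 2 * X)
      have hqs : √(X : ℝ) ≤ q := hn.le.trans hqn
      have hs0 : 0 < √(X : ℝ) := Real.sqrt_pos.2 hX0
      have hq0 : 0 < q := hs0.trans_le hqs
      have hlow : L / 2 ≤ Real.log q := by
        have := Real.log_le_log hs0 hqs
        rw [Real.log_sqrt hX0.le] at this
        exact this
      have hup : Real.log q ≤ L + Real.log 2 := by
        have := Real.log_le_log hq0 hq2
        rw [Real.log_mul (by norm_num) hX0.ne'] at this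
        linarith
      have hlq : 0 < Real.log q := by linarith
      by_cases hqη : q ≤ η * X
      · rw [if_pos hqη]
        have h0 : 0 ≤ 2 * A / L * Real.log q := by positivity
        have h3 : |L - Real.log q| ≤ Real.log q := by
          rw [abs_le]
          constructor <;> linarith
        linarith
      · rw [if_neg hqη, add_zero]
        push Not at hqη
        have h3 : L - Real.log (1 / η) ≤ Real.log q := by
          have := Real.log_le_log (by positivity) hqη.le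
          rw [Real.log_mul hη.ne' hX0.ne'] at this
          rw [one_div, Real.log_inv]
          linarith
        have h4 : |L - Real.log q| ≤ A := by
          rw [abs_le, hA]
          constructor <;> linarith
        have h5 : A ≤ 2 * A / L * Real.log q := by
          rw [div_mul_eq_mul_div, le_div_iff₀ (by linarith)]
          nlinarith
        linarith
    · have hlp : RK.lp (x + n) = 0 := by unfold RK.lp; rw [if_neg hp]
      rw [if_neg hp, hlp]
      simp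
  refine (sum_le_sum hpt).trans ?_
  rw [sum_add_distrib, ← mul_sum, ← sum_filter]
  have e1 : ∑ x ∈ Icc 1 X, RK.lp (x + n) ≤ 7 / 5 * (2 * X) := by
    refine theta_bd n _ _ (by positivity) fun x hx => ?_
    have := (mem_Icc.mp hx).2
    exact_mod_cast (by omega : x + n ≤ 2 * X)
  have e2 : ∑ x ∈ (Icc 1 X).filter (fun x => ((x + n : ℕ) : ℝ) ≤ η * X), RK.lp (x + n) ≤
      7 / 5 * (η * X) :=
    theta_bd n _ _ (by positivity) fun x hx => (mem_filter.mp hx).2
  have e3 : 2 * A / L * ∑ x ∈ Icc 1 X, RK.lp (x + n) ≤ η * X := by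
    calc 2 * A / L * ∑ x ∈ Icc 1 X, RK.lp (x + n) ≤ 2 * A / L * (7 / 5 * (2 * X)) :=
          mul_le_mul_of_nonneg_left e1 (by positivity)
      _ = (28 / 5 * A / L) * X := by ring
      _ ≤ η * X := by
          refine mul_le_mul_of_nonneg_right ?_ hX0.le
          rw [div_le_iff₀ (by linarith)]
          have h6 : 6 * A / η ≤ L := by linarith
          rw [div_le_iff₀ hη] at h6
          nlinarith
  nlinarith

theorem card_K (pr : Bool) (X : ℕ) (hX : 3 ≤ X) (K : Finset ℕ)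
    (hK : ∀ n ∈ K, isArg pr n ∧ √(X : ℝ) < n ∧ n ≤ X) :
    (K.card : ℝ) ≤ 3 * ((X : ℝ) / (if pr = true then Real.log X else 1)) := by
  have hXr : (3 : ℝ) ≤ X := by exact_mod_cast hX
  have hX0 : (0 : ℝ) < X := by linarith
  have hs0 : 0 < √(X : ℝ) := Real.sqrt_pos.2 hX0
  by_cases hpr : pr = true
  · rw [if_pos hpr]
    have hL : 1 ≤ Real.log X := by
      rw [Real.le_log_iff_exp_le hX0]
      have := Real.exp_one_lt_d9
      linarith
    have h1 : ∑ x ∈ K, RK.lp (x + 0) ≤ 7 / 5 * X := by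
      refine theta_bd 0 K X hX0.le fun x hx => ?_
      exact_mod_cast (hK x hx).2.2
    have h2 : (K.card : ℝ) * (Real.log X / 2) ≤ ∑ x ∈ K, RK.lp (x + 0) := by
      rw [← nsmul_eq_mul, ← sum_const]
      refine sum_le_sum fun x hx => ?_
      obtain ⟨a1, a2, a3⟩ := hK x hx
      rw [add_zero]
      unfold RK.lp
      rw [if_pos (a1 hpr)]
      have := Real.log_le_log hs0 a2.le
      rw [Real.log_sqrt hX0.le] at this
      exact this
    rw [mul_div_assoc', le_div_iff₀ (by linarith)]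
    linarith
  · rw [if_neg hpr, div_one]
    have h1 : K ⊆ Icc 1 X := by
      intro n hn
      obtain ⟨_, a2, a3⟩ := hK n hn
      have : (0 : ℝ) < n := hs0.trans a2
      rw [mem_Icc]
      exact ⟨by exact_mod_cast this, a3⟩
    have h2 := card_le_card h1
    rw [Nat.card_Icc, Nat.add_sub_cancel] at h2
    have h3 : (K.card : ℝ) ≤ X := by exact_mod_cast h2
    linarith

/-- Markov's inequality for signed sums -/
theorem markov {ι : Type*} (I : Finset ι) (f : ι → ℝ) (δ ρ Z : ℝ) (hδ : 0 < δ)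
    (h : ∀ E ⊆ I, |∑ N ∈ E, f N| ≤ ρ * δ / 2 * Z) [DecidablePred (fun N => δ < |f N|)] :
    ((I.filter (fun N => δ < |f N|)).card : ℝ) ≤ ρ * Z := by
  classical
  have h1 : I.filter (fun N => δ < |f N|) ⊆ I.filter (fun N => δ < f N) ∪ I.filter (fun N => f N < -δ) := by
    intro N hN
    rw [mem_filter] at hN
    rw [mem_union, mem_filter, mem_filter]
    rcases lt_abs.1 hN.2 with h2 | h2
    · exact Or.inl ⟨hN.1, h2⟩
    · exact Or.inr ⟨hN.1, by linarith⟩
  have h2 : ((I.filter (fun N => δ < f N)).card : ℝ) * δ ≤ ρ * δ / 2 * Z := by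
    refine le_trans ?_ (le_trans (le_abs_self _) (h _ (filter_subset (fun N => δ < f N) I)))
    rw [← nsmul_eq_mul, ← sum_const]
    exact sum_le_sum fun N hN => (mem_filter.mp hN).2.le
  have h3 : ((I.filter (fun N => f N < -δ)).card : ℝ) * δ ≤ ρ * δ / 2 * Z := by
    refine le_trans ?_ (le_trans (neg_le_abs _) (h _ (filter_subset (fun N => f N < -δ) I)))
    rw [← nsmul_eq_mul, ← sum_const, ← sum_neg_distrib]
    exact sum_le_sum fun N hN => by linarith [(mem_filter.mp hN).2]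
  have h4 : ((I.filter (fun N => δ < |f N|)).card : ℝ) ≤
      (I.filter (fun N => δ < f N)).card + (I.filter (fun N => f N < -δ)).card := by
    exact_mod_cast (card_le_card h1).trans (card_union_le _ _)
  have h5 : ((I.filter (fun N => δ < |f N|)).card : ℝ) * δ ≤ (ρ * Z) * δ := by
    calc ((I.filter (fun N => δ < |f N|)).card : ℝ) * δ
        ≤ ((I.filter (fun N => δ < f N)).card + (I.filter (fun N => f N < -δ)).card) * δ :=
          mul_le_mul_of_nonneg_right h4 hδ.le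
      _ ≤ ρ * δ / 2 * Z + ρ * δ / 2 * Z := by rw [add_mul]; exact add_le_add h2 h3
      _ = _ := by ring
  exact le_of_mul_le_mul_right h5 hδ

/-- Markov's inequality -/
theorem markov' {ι : Type*} (I : Finset ι) (f : ι → ℝ) (δ Z : ℝ) (hδ : 0 < δ)
    (h : ∑ N ∈ I, |f N| ≤ Z * δ) [DecidablePred (fun N => δ < |f N|)] :
    ((I.filter (fun N => δ < |f N|)).card : ℝ) ≤ Z := by
  have h5 : ((I.filter (fun N => δ < |f N|)).card : ℝ) * δ ≤ Z * δ := by
    refine le_trans ?_ h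
    rw [← nsmul_eq_mul, ← sum_const]
    refine (sum_le_sum (g := fun N => |f N|) fun N hN => (mem_filter.mp hN).2.le).trans ?_
    exact sum_le_sum_of_subset_of_nonneg (filter_subset _ _) (fun N _ _ => abs_nonneg _)
  exact le_of_mul_le_mul_right h5 hδ

/-- small arguments -/
theorem small (m : ℕ) (V δ : ℝ) (hδ : 0 < δ) : ∃ X0 : ℕ, ∀ X : ℕ, X0 ≤ X →
    √(X : ℝ) * (Real.log X ^ m + V) * Real.log X ≤ δ * X := by
  have h1 := (isLittleO_log_rpow_rpow_atTop ((m : ℝ) + 1) (show (0 : ℝ) < 1 / 2 by norm_num)).bound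
    (show 0 < δ / 2 by positivity)
  have h2 := (isLittleO_log_rpow_rpow_atTop (1 : ℝ) (show (0 : ℝ) < 1 / 2 by norm_num)).bound
    (show 0 < δ / (2 * (|V| + 1)) by positivity)
  have h3 := (tendsto_natCast_atTop_atTop (R := ℝ)).eventually (h1.and h2)
  obtain ⟨X0, h0⟩ := eventually_atTop.1 h3
  refine ⟨X0 + 3, fun X hX => ?_⟩
  obtain ⟨a1, a2⟩ := h0 X (by omega)
  have hXr : (3 : ℝ) ≤ X := by exact_mod_cast (by omega : 3 ≤ X)
  have hX0 : (0 : ℝ) < X := by linarith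
  have hL : 1 ≤ Real.log X := by
    rw [Real.le_log_iff_exp_le hX0]
    have := Real.exp_one_lt_d9
    linarith
  have hL0 : 0 ≤ Real.log X := by linarith
  have hs := Real.mul_self_sqrt hX0.le
  have hs0 := Real.sqrt_pos.2 hX0
  rw [Real.norm_of_nonneg (by positivity), Real.norm_of_nonneg (by positivity),
    ← Real.sqrt_eq_rpow] at a1 a2
  have e1 : Real.log X ^ ((m : ℝ) + 1) = Real.log X ^ m * Real.log X := by
    rw [Real.rpow_add (by linarith), Real.rpow_natCast, Real.rpow_one]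
  rw [e1] at a1
  rw [Real.rpow_one] at a2
  have hV : V * Real.log X ≤ δ / 2 * √(X : ℝ) := by
    have h5 : V * Real.log X ≤ (|V| + 1) * Real.log X :=
      mul_le_mul_of_nonneg_right (by linarith [le_abs_self V]) hL0
    refine h5.trans ?_
    calc (|V| + 1) * Real.log X ≤ (|V| + 1) * (δ / (2 * (|V| + 1)) * √(X : ℝ)) :=
          mul_le_mul_of_nonneg_left a2 (by positivity)
      _ = _ := by field_simp
  calc √(X : ℝ) * (Real.log X ^ m + V) * Real.log X
      = √(X : ℝ) * (Real.log X ^ m * Real.log X + V * Real.log X) := by ring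
    _ ≤ √(X : ℝ) * (δ / 2 * √(X : ℝ) + δ / 2 * √(X : ℝ)) :=
        mul_le_mul_of_nonneg_left (add_le_add a1 hV) hs0.le
    _ = δ * (√(X : ℝ) * √(X : ℝ)) := by ring
    _ = _ := by rw [hs]

theorem gk_iff (m w n : ℕ) (h : Fin m → ℕ) :
    gk (fun j => (h j : ZMod (Wp w))) (n : ZMod (Wp w)) ↔
      ∀ j, ∀ p : ℕ, p.Prime → p ≤ w → ¬ p ∣ n + h j := by
  unfold gk
  refine forall_congr' fun j => ?_
  have e : ((h j : ℕ) : ZMod (Wp w)) + (n : ZMod (Wp w)) = ((n + h j : ℕ) : ZMod (Wp w)) := by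
    push_cast
    ring
  show IsUnit (((h j : ℕ) : ZMod (Wp w)) + (n : ZMod (Wp w))) ↔ _
  rw [e, ZMod.isUnit_iff_coprime]
  unfold Wp
  rw [Nat.coprime_prod_right_iff]
  constructor
  · intro H p hp hpw hd
    have h1 := H p (by
      unfold pz
      rw [mem_filter, mem_Icc]
      exact ⟨⟨hp.one_le, hpw⟩, hp⟩)
    exact (hp.coprime_iff_not_dvd.1 h1.symm) hd
  · intro H p hp
    unfold pz at hp
    rw [mem_filter, mem_Icc] at hp
    exact (hp.2.coprime_iff_not_dvd.2 (H p hp.2 hp.1.2)).symm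

theorem V_nonneg (w m : ℕ) : 0 ≤ (Vz w)⁻¹ ^ m := by
  apply pow_nonneg
  apply inv_nonneg.2
  unfold Vz pz
  refine prod_nonneg fun p hp => ?_
  have h1 : (1 : ℝ) ≤ p := by exact_mod_cast (mem_Icc.mp (mem_filter.mp hp).1).1
  rw [sub_nonneg, div_le_one (by linarith)]
  exact h1

/-- the small arguments -/
theorem card_small (X : ℕ) (K : Finset ℕ) (hK : ∀ n ∈ K, 1 ≤ n ∧ (n : ℝ) ≤ √(X : ℝ)) :
    (K.card : ℝ) ≤ √(X : ℝ) := by
  have h1 : K ⊆ Icc 1 ⌊√(X : ℝ)⌋₊ := by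
    intro n hn
    obtain ⟨a1, a2⟩ := hK n hn
    rw [mem_Icc]
    exact ⟨a1, Nat.le_floor a2⟩
  have h2 := card_le_card h1
  rw [Nat.card_Icc, Nat.add_sub_cancel] at h2
  have h3 : (K.card : ℝ) ≤ (⌊√(X : ℝ)⌋₊ : ℝ) := by exact_mod_cast h2
  exact h3.trans (Nat.floor_le (Real.sqrt_nonneg _))

open Classical in
theorem uniK (pr : Bool) (m : ℕ) (hm : 1 ≤ m)
    (hbil : ∀ ε : ℝ, 0 < ε → ∃ w0 : ℕ, ∀ w : ℕ, w0 ≤ w → ∃ X0 : ℕ, ∀ X : ℕ, X0 ≤ X →
      ∀ K : Finset ℕ, (∀ n ∈ K, isArg pr n ∧ √(X : ℝ) < n ∧ n ≤ X) →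
      ∀ E ⊆ Fintype.piFinset (fun _ : Fin m => Icc 1 X),
        |∑ N ∈ E, ∑ n ∈ K, ((∏ j, RK.lp (N j + n)) -
          (if gk (fun j => (N j : ZMod (Wp w))) (n : ZMod (Wp w)) then (Vz w)⁻¹ ^ m else 0))| ≤
          ε * ((X : ℝ) ^ m * ((X : ℝ) / (if pr = true then Real.log X else 1))))
    (ε : ℝ) (hε : 0 < ε) :
    ∃ w0 : ℕ, ∀ w : ℕ, w0 ≤ w → ∃ X0 : ℕ, ∀ X : ℕ, X0 ≤ X → ∀ S : Set ℕ,
      (((Fintype.piFinset (fun _ : Fin m => Icc 1 X)).filter (fun h : Fin m → ℕ =>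
        ε * ((X : ℝ) / (if pr = true then Real.log X else 1)) <
          |(((Icc 1 X).filter (fun n => n ∈ S ∧ isArg pr n ∧ ∀ j, (n + h j).Prime)).card : ℝ) * Real.log X ^ m -
            (Vz w)⁻¹ ^ m * (((Icc 1 X).filter (fun n => n ∈ S ∧ isArg pr n ∧
              ∀ j, ∀ p : ℕ, p.Prime → p ≤ w → ¬ p ∣ n + h j)).card : ℝ)|)).card : ℝ) ≤ ε * (X : ℝ) ^ m := by
  have hmr : (1 : ℝ) ≤ m := by exact_mod_cast hm
  obtain ⟨η, hη, hη1, hηb⟩ : ∃ η : ℝ, 0 < η ∧ η ≤ 1 ∧ 9 * m * η * 9 ^ (m - 1) ≤ ε ^ 2 / 6 := by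
    refine ⟨min 1 (ε ^ 2 / 6 / (9 * m * 9 ^ (m - 1))), lt_min one_pos (by positivity),
      min_le_left _ _, ?_⟩
    calc 9 * m * min 1 (ε ^ 2 / 6 / (9 * m * 9 ^ (m - 1))) * 9 ^ (m - 1)
        ≤ 9 * m * (ε ^ 2 / 6 / (9 * m * 9 ^ (m - 1))) * 9 ^ (m - 1) := by
          refine mul_le_mul_of_nonneg_right ?_ (by positivity)
          exact mul_le_mul_of_nonneg_left (min_le_right _ _) (by positivity)
      _ = ε ^ 2 / 6 := by field_simp
  obtain ⟨w0, hw0⟩ := hbil (ε ^ 2 / 12) (by positivity)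
  refine ⟨w0, fun w hw => ?_⟩
  obtain ⟨X1, hX1⟩ := hw0 w hw
  obtain ⟨X2, hX2⟩ := one_dim η hη hη1
  obtain ⟨X3, hX3⟩ := small m ((Vz w)⁻¹ ^ m) (ε / 3) (by positivity)
  have hV0 := V_nonneg w m
  obtain ⟨V, hV⟩ : ∃ V : ℝ, V = (Vz w)⁻¹ ^ m := ⟨_, rfl⟩
  rw [← hV] at hV0 hX3
  refine ⟨X1 + X2 + X3 + 3, fun X hX S => ?_⟩
  have hXr : (3 : ℝ) ≤ X := by exact_mod_cast (by omega : 3 ≤ X)
  have hX0 : (0 : ℝ) < X := by linarith
  have hL : 1 ≤ Real.log X := by
    rw [Real.le_log_iff_exp_le hX0]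
    have := Real.exp_one_lt_d9
    linarith
  obtain ⟨T, hT⟩ : ∃ T : ℝ, T = (X : ℝ) / (if pr = true then Real.log X else 1) := ⟨_, rfl⟩
  have hTL : (X : ℝ) / Real.log X ≤ T := by
    rw [hT]
    apply div_le_div_of_nonneg_left hX0.le
    · split_ifs <;> linarith
    · split_ifs <;> linarith
  have hT0 : 0 < T := lt_of_lt_of_le (by positivity) hTL
  have hB := hX1 X (by omega)
  have hO := hX2 X (by omega)
  have hS := hX3 X (by omega)
  simp only [← hT, ← hV] at hB ⊢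
  set L := Real.log X with hLdef
  set I := Fintype.piFinset (fun _ : Fin m => Icc 1 X) with hI
  -- the arguments
  obtain ⟨K0, hK0⟩ : ∃ K0 : Finset ℕ, K0 = (Icc 1 X).filter (fun n => n ∈ S ∧ isArg pr n) := ⟨_, rfl⟩
  obtain ⟨K, hK⟩ : ∃ K : Finset ℕ, K = K0.filter (fun n : ℕ => √(X : ℝ) < n) := ⟨_, rfl⟩
  obtain ⟨K', hK'⟩ : ∃ K' : Finset ℕ, K' = K0.filter (fun n : ℕ => ¬ √(X : ℝ) < n) := ⟨_, rfl⟩
  have hKm : ∀ n ∈ K, isArg pr n ∧ √(X : ℝ) < n ∧ n ≤ X := by
    intro n hn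
    rw [hK, hK0, mem_filter, mem_filter, mem_Icc] at hn
    exact ⟨hn.1.2.2, hn.2, hn.1.1.2⟩
  have hK'm : ∀ n ∈ K', 1 ≤ n ∧ (n : ℝ) ≤ √(X : ℝ) := by
    intro n hn
    rw [hK', hK0, mem_filter, mem_filter, mem_Icc] at hn
    exact ⟨hn.1.1.1, not_lt.1 hn.2⟩
  -- the three terms
  obtain ⟨P, hP⟩ : ∃ P : (Fin m → ℕ) → ℕ → ℝ, P = fun (h : Fin m → ℕ) (n : ℕ) => ∏ j, RK.lp (h j + n) := ⟨_, rfl⟩
  obtain ⟨Q, hQ⟩ : ∃ Q : (Fin m → ℕ) → ℕ → ℝ,
    Q = fun (h : Fin m → ℕ) (n : ℕ) => ∏ j, (if (h j + n).Prime then L else 0) := ⟨_, rfl⟩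
  obtain ⟨U, hU⟩ : ∃ U : (Fin m → ℕ) → ℕ → ℝ,
    U = fun (h : Fin m → ℕ) (n : ℕ) => if gk (fun j => (h j : ZMod (Wp w))) (n : ZMod (Wp w)) then V else 0 := ⟨_, rfl⟩
  have hQe : ∀ h n, Q h n = if ∀ j, (n + h j).Prime then L ^ m else 0 := by
    intro h n
    rw [hQ]
    show ∏ j, (if (h j + n).Prime then L else 0) = _
    by_cases hall : ∀ j, (n + h j).Prime
    · rw [if_pos hall]
      rw [prod_congr rfl (g := fun _ => L)]
      · rw [prod_const, card_univ, Fintype.card_fin]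
      · intro j _
        rw [if_pos (by rw [add_comm]; exact hall j)]
    · rw [if_neg hall]
      push Not at hall
      obtain ⟨j, hj⟩ := hall
      refine prod_eq_zero (mem_univ j) ?_
      rw [if_neg (by rw [add_comm]; exact hj)]
  have hUe : ∀ h n, U h n = if ∀ j, ∀ p : ℕ, p.Prime → p ≤ w → ¬ p ∣ n + h j then V else 0 := by
    intro h n
    rw [hU]
    exact if_congr (gk_iff m w n h) rfl rfl
  have hexp : ∀ h : Fin m → ℕ,
      (((Icc 1 X).filter (fun n => n ∈ S ∧ isArg pr n ∧ ∀ j, (n + h j).Prime)).card : ℝ) * L ^ m -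
        V * (((Icc 1 X).filter (fun n => n ∈ S ∧ isArg pr n ∧
          ∀ j, ∀ p : ℕ, p.Prime → p ≤ w → ¬ p ∣ n + h j)).card : ℝ) = ∑ n ∈ K0, (Q h n - U h n) := by
    intro h
    rw [sum_sub_distrib, sum_congr rfl (fun n _ => hQe h n), sum_congr rfl (fun n _ => hUe h n),
      ← sum_filter, ← sum_filter, sum_const, sum_const, nsmul_eq_mul, nsmul_eq_mul, hK0,
      filter_filter, filter_filter]
    have e1 : (Icc 1 X).filter (fun n => (n ∈ S ∧ isArg pr n) ∧ ∀ j, (n + h j).Prime) =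
        (Icc 1 X).filter (fun n => n ∈ S ∧ isArg pr n ∧ ∀ j, (n + h j).Prime) :=
      filter_congr fun n _ => and_assoc
    have e2 : (Icc 1 X).filter (fun n => (n ∈ S ∧ isArg pr n) ∧
        ∀ j, ∀ p : ℕ, p.Prime → p ≤ w → ¬ p ∣ n + h j) =
        (Icc 1 X).filter (fun n => n ∈ S ∧ isArg pr n ∧
          ∀ j, ∀ p : ℕ, p.Prime → p ≤ w → ¬ p ∣ n + h j) :=
      filter_congr fun n _ => and_assoc
    rw [e1, e2, mul_comm V]
  have hsplit : ∀ h : Fin m → ℕ, ∑ n ∈ K0, (Q h n - U h n) =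
      ∑ n ∈ K, (P h n - U h n) + ∑ n ∈ K, (Q h n - P h n) + ∑ n ∈ K', (Q h n - U h n) := by
    intro h
    rw [hK, hK', ← sum_add_distrib,
      ← sum_filter_add_sum_filter_not K0 (fun n : ℕ => √(X : ℝ) < n) (fun n => Q h n - U h n)]
    congr 1
    refine sum_congr rfl fun n _ => ?_
    ring
  have h3 : ∀ h : Fin m → ℕ, |∑ n ∈ K', (Q h n - U h n)| ≤ ε / 3 * T := by
    intro h
    have hL0 : 0 ≤ L ^ m := by positivity
    have b1 : ∀ n ∈ K', |Q h n - U h n| ≤ L ^ m + V := by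
      intro n _
      rw [hQe, hUe, abs_le]
      split_ifs <;> constructor <;> linarith
    have b2 : |∑ n ∈ K', (Q h n - U h n)| ≤ √(X : ℝ) * (L ^ m + V) := by
      refine (abs_sum_le_sum_abs _ _).trans ((sum_le_sum b1).trans ?_)
      rw [sum_const, nsmul_eq_mul]
      exact mul_le_mul_of_nonneg_right (card_small X K' hK'm) (by linarith)
    refine b2.trans ?_
    have b3 : √(X : ℝ) * (L ^ m + V) ≤ ε / 3 * (X / L) := by
      rw [← mul_div_assoc, le_div_iff₀ (by linarith)]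
      exact hS
    exact b3.trans (mul_le_mul_of_nonneg_left hTL (by positivity))
  have hδ : 0 < ε / 3 * T := by positivity
  have hsub : I.filter (fun h : Fin m → ℕ => ε * T <
      |(((Icc 1 X).filter (fun n => n ∈ S ∧ isArg pr n ∧ ∀ j, (n + h j).Prime)).card : ℝ) * L ^ m -
        V * (((Icc 1 X).filter (fun n => n ∈ S ∧ isArg pr n ∧
          ∀ j, ∀ p : ℕ, p.Prime → p ≤ w → ¬ p ∣ n + h j)).card : ℝ)|) ⊆
      I.filter (fun h => ε / 3 * T < |∑ n ∈ K, (P h n - U h n)|) ∪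
        I.filter (fun h => ε / 3 * T < |∑ n ∈ K, (Q h n - P h n)|) := by
    intro h hh
    rw [mem_filter, hexp h, hsplit h] at hh
    rw [mem_union, mem_filter, mem_filter]
    by_contra hcon
    push Not at hcon
    have c1 := hcon.1 hh.1
    have c2 := hcon.2 hh.1
    have c3 := h3 h
    have c4 := (abs_add_le (∑ n ∈ K, (P h n - U h n) + ∑ n ∈ K, (Q h n - P h n))
      (∑ n ∈ K', (Q h n - U h n))).trans (add_le_add (abs_add_le _ _) le_rfl)
    have c5 := hh.2
    linarith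
  have h1 : ((I.filter (fun h => ε / 3 * T < |∑ n ∈ K, (P h n - U h n)|)).card : ℝ) ≤
      ε / 2 * (X : ℝ) ^ m := by
    refine markov I (fun h => ∑ n ∈ K, (P h n - U h n)) (ε / 3 * T) (ε / 2) ((X : ℝ) ^ m) hδ ?_
    intro E hE
    have := hB K hKm E hE
    rw [hP, hU]
    refine this.trans (le_of_eq ?_)
    ring
  have h2 : ((I.filter (fun h => ε / 3 * T < |∑ n ∈ K, (Q h n - P h n)|)).card : ℝ) ≤
      ε / 2 * (X : ℝ) ^ m := by
    refine markov' I (fun h => ∑ n ∈ K, (Q h n - P h n)) (ε / 3 * T) (ε / 2 * (X : ℝ) ^ m) hδ ?_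
    have d1 : ∀ n ∈ K, ∑ h ∈ I, |Q h n - P h n| ≤ m * ((3 * η * X) * (9 * X) ^ (m - 1)) := by
      intro n hn
      obtain ⟨_, n2, n3⟩ := hKm n hn
      have o1 := hO n n2 n3
      rw [hQ, hP]
      have o2 : ∑ x ∈ Icc 1 X, RK.lp (x + n) ≤ 7 / 5 * (2 * X) := by
        refine theta_bd n _ _ (by positivity) fun x hx => ?_
        have := (mem_Icc.mp hx).2
        exact_mod_cast (by omega : x + n ≤ 2 * X)
      have o3 : ∑ x ∈ Icc 1 X, ((if (x + n).Prime then L else 0) + RK.lp (x + n)) ≤ 9 * X := by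
        have o4 : ∑ x ∈ Icc 1 X, ((if (x + n).Prime then L else 0) + RK.lp (x + n)) ≤
            ∑ x ∈ Icc 1 X, (|(if (x + n).Prime then L else 0) - RK.lp (x + n)| + 2 * RK.lp (x + n)) := by
          refine sum_le_sum fun x _ => ?_
          have := le_abs_self ((if (x + n).Prime then L else 0) - RK.lp (x + n))
          linarith
        refine o4.trans ?_
        rw [sum_add_distrib, ← mul_sum]
        nlinarith
      refine sum_prod_diff m X (fun x => if (x + n).Prime then L else 0) (fun x => RK.lp (x + n))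
        ?_ (fun x => lp_nonneg _) _ _ o1 o3
      intro x
      show (0 : ℝ) ≤ if (x + n).Prime then L else 0
      split_ifs
      · linarith
      · exact le_rfl
    calc ∑ h ∈ I, |∑ n ∈ K, (Q h n - P h n)| ≤ ∑ h ∈ I, ∑ n ∈ K, |Q h n - P h n| :=
          sum_le_sum fun h _ => abs_sum_le_sum_abs _ _
      _ = ∑ n ∈ K, ∑ h ∈ I, |Q h n - P h n| := sum_comm
      _ ≤ ∑ n ∈ K, m * ((3 * η * X) * (9 * X) ^ (m - 1)) := sum_le_sum d1
      _ = K.card * (m * ((3 * η * X) * (9 * X) ^ (m - 1))) := by rw [sum_const, nsmul_eq_mul]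
      _ ≤ (3 * T) * (m * ((3 * η * X) * (9 * X) ^ (m - 1))) := by
          refine mul_le_mul_of_nonneg_right ?_ (by positivity)
          rw [hT]
          exact card_K pr X (by omega) K hKm
      _ = (9 * m * η * 9 ^ (m - 1)) * (X : ℝ) ^ m * T := by
          have : (X : ℝ) ^ m = X * X ^ (m - 1) := by
            rw [← pow_succ', Nat.sub_add_cancel hm]
          rw [this, mul_pow]
          ring
      _ ≤ (ε ^ 2 / 6) * (X : ℝ) ^ m * T := by
          refine mul_le_mul_of_nonneg_right ?_ hT0.le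
          exact mul_le_mul_of_nonneg_right hηb (by positivity)
      _ = ε / 2 * (X : ℝ) ^ m * (ε / 3 * T) := by ring
  have h4 : ((I.filter (fun h : Fin m → ℕ => ε * T <
      |(((Icc 1 X).filter (fun n => n ∈ S ∧ isArg pr n ∧ ∀ j, (n + h j).Prime)).card : ℝ) * L ^ m -
        V * (((Icc 1 X).filter (fun n => n ∈ S ∧ isArg pr n ∧
          ∀ j, ∀ p : ℕ, p.Prime → p ≤ w → ¬ p ∣ n + h j)).card : ℝ)|)).card : ℝ) ≤
      (I.filter (fun h => ε / 3 * T < |∑ n ∈ K, (P h n - U h n)|)).card +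
        (I.filter (fun h => ε / 3 * T < |∑ n ∈ K, (Q h n - P h n)|)).card := by
    exact_mod_cast (card_le_card hsub).trans (card_union_le _ _)
  linarith

end Pool.Agent.TH626.J4003
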