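import Mathlib
import Pool.Agent.TH813.Ell0K

set_option autoImplicit false
open Filter Finset
open scoped Topology PeriodPair ComplexConjugate
noncomputable section
namespace Pool.Agent.TH813.Ell
open H667R3 Pool.Agent.W245.EB

namespace J2167

theorem om_zero (L : PeriodPair) (D : Derivation ℚ ℂ ℂ) : om L D 0 = 0 :=
  om_of_mem L D (zero_mem _)

/-- rational linearity of an additive function -/
theorem rat_lin (f : ℂ → ℂ) (hf : ∀ u v, f (u + v) = f u + f v) (q : ℚ) (z : ℂ) :
    f ((q : ℂ) * z) = q * f z := by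
  have h0 : f 0 = 0 := by
    have := hf 0 0
    rw [add_zero] at this
    linear_combination -this
  have h := map_rat_smul (⟨⟨f, h0⟩, hf⟩ : ℂ →+ ℂ) q z
  rw [Rat.smul_def, Rat.smul_def] at h
  exact h

theorem xi_add (L : PeriodPair) (κ : ℂ) (D : Derivation ℚ ℂ ℂ) (h2 : D L.g₂ = 0)
    (h3 : D L.g₃ = 0) (u v : ℂ) : xi L κ D (u + v) = xi L κ D u + xi L κ D v := by
  unfold xi
  rw [et_add L D h2 h3, om_add L D h2 h3, map_add]
  ring

theorem om_tors (L : PeriodPair) (D : Derivation ℚ ℂ ℂ) (h2 : D L.g₂ = 0)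
    (h3 : D L.g₃ = 0) {m : ℕ} (hm : 0 < m) {x : ℂ} (hx : (m : ℂ) * x ∈ L.lattice) :
    om L D x = 0 := by
  have h := rat_lin (om L D) (om_add L D h2 h3) (m : ℚ) x
  rw [Rat.cast_natCast, om_of_mem L D hx] at h
  exact (mul_eq_zero.1 h.symm).resolve_left (by exact_mod_cast hm.ne')

/-- the relation for `et` -/
theorem et_mul (L : PeriodPair) (D : Derivation ℚ ℂ ℂ) (h2 : D L.g₂ = 0)
    (h3 : D L.g₃ = 0) {α : ℂ} (hα : α ≠ 0) (hm : ∀ w ∈ L.lattice, α * w ∈ L.lattice) {c c₂ : ℂ}
    (hc : ∀ z, α * z ∉ L.lattice →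
      α ^ 2 * ℘[L] (α * z) = ∑ x ∈ ker hα hm, ℘[L] (z - x.out) + c)
    (hc₂ : ∀ z, α * z ∉ L.lattice →
      α * zeta L (α * z) = ∑ x ∈ ker hα hm, zeta L (z - x.out) - c * z + c₂)
    (hDc : D c = 0) (hom : ∀ z, om L D (α * z) = α * om L D z) (z : ℂ) :
    α * et L D (α * z) = ((ker hα hm).card : ℂ) * et L D z + c * (om L D z - D z) := by
  have hDα : D α = 0 := der_kL (L := L) D (mult_mem_kL hm)
  obtain ⟨m, hm0, htors⟩ := exists_tors hα hm
  set K : ℂ := D c₂ - ∑ x ∈ ker hα hm, et L D x.out with hK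
  have hgen : ∀ z, α * z ∉ L.lattice →
      α * et L D (α * z) = ((ker hα hm).card : ℂ) * et L D z + c * (om L D z - D z) + K := by
    intro z hz
    have h1 := congrArg D (hc₂ z hz)
    rw [D_mul, hDα, mul_zero, add_zero, map_add, map_sub, map_sum, D_mul, hDc, mul_zero,
      add_zero] at h1
    have e1 : D (zeta L (α * z)) = et L D (α * z) - ℘[L] (α * z) * om L D (α * z) := by
      rw [et, zt_of_notMem hz]; ring
    have e2 : ∀ x ∈ ker hα hm, D (zeta L (z - x.out)) =
        et L D z - et L D x.out - ℘[L] (z - x.out) * om L D z := by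
      intro x hx
      have hx' := sub_out_notMem hz hx
      have h4 : om L D x.out = 0 := om_tors L D h2 h3 hm0 (htors _ (mem_ker.1 hx))
      have h5 : om L D (z - x.out) = om L D z := by
        rw [sub_eq_add_neg, om_add L D h2 h3, om_neg, h4, neg_zero, add_zero]
      have h6 : et L D (z - x.out) = et L D z - et L D x.out := by
        rw [sub_eq_add_neg, et_add L D h2 h3, et_neg]; ring
      have h7 : D (zeta L (z - x.out)) =
          et L D (z - x.out) - ℘[L] (z - x.out) * om L D (z - x.out) := by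
        rw [et, zt_of_notMem hx']; ring
      rw [h7, h5, h6]
    rw [Finset.sum_congr rfl e2, Finset.sum_sub_distrib, Finset.sum_sub_distrib,
      Finset.sum_const, nsmul_eq_mul, ← Finset.sum_mul, e1, hom] at h1
    have h8 := hc z hz
    rw [hK]
    linear_combination h1 + om L D z * h8
  -- a generic point
  obtain ⟨w, hw⟩ := exists_generic L {0}
  have hw0 : 2 * w ∉ L.lattice := by simpa using hw 0 (by simp)
  have hw1 : w ∉ L.lattice := two_mul_notMem_of L hw0
  set u : ℂ := α⁻¹ * w with hu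
  have hu1 : α * u = w := by rw [hu]; field_simp
  have hu2 : α * (u + u) = 2 * w := by rw [mul_add, hu1]; ring
  have hK0 : K = 0 := by
    have g1 := hgen u (by rw [hu1]; exact hw1)
    have g2 := hgen (u + u) (by rw [hu2]; exact hw0)
    rw [mul_add α u u, et_add L D h2 h3, et_add L D h2 h3, om_add L D h2 h3, map_add] at g2
    linear_combination g2 - 2 * g1
  by_cases hz : α * z ∈ L.lattice
  · have hzu : α * (z + u) ∉ L.lattice := by
      intro h
      rw [mul_add, hu1] at h
      apply hw1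
      have := sub_mem h hz
      rwa [add_sub_cancel_left] at this
    have g1 := hgen u (by rw [hu1]; exact hw1)
    have g2 := hgen (z + u) hzu
    rw [mul_add α z u, et_add L D h2 h3, et_add L D h2 h3, om_add L D h2 h3, map_add] at g2
    linear_combination g2 - g1
  · have g1 := hgen z hz
    rw [hK0, add_zero] at g1
    exact g1

end J2167

/-- **The differential of the second kind which is an eigenvector of the multiplications.** The
hypotheses are the results of two other jobs. -/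
theorem exists_kappa_of
    (om_mult_const : ∀ {L : PeriodPair} (D : Derivation ℚ ℂ ℂ),
      D L.g₂ = 0 → D L.g₃ = 0 → ∀ {α : ℂ}
      (hα : α ≠ 0) (hm : ∀ w ∈ L.lattice, α * w ∈ L.lattice) {c : ℂ},
      (∀ z, α * z ∉ L.lattice →
        α ^ 2 * ℘[L] (α * z) = ∑ x ∈ ker hα hm, ℘[L] (z - x.out) + c) →
      D c = 0 ∧ ∀ z, om L D (α * z) = α * om L D z)
    (card_ker : ∀ {L : PeriodPair} {α : ℂ} (hα : α ≠ 0)
      (hm : ∀ w ∈ L.lattice, α * w ∈ L.lattice), ((ker hα hm).card : ℂ) = α * conj α)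
    (mult_real : ∀ {L : PeriodPair} {α : ℂ}, (∀ w ∈ L.lattice, α * w ∈ L.lattice) →
      conj α = α → ∃ n : ℤ, α = n)
    (kL_eq : ∀ {L : PeriodPair} {α : ℂ}, (∀ w ∈ L.lattice, α * w ∈ L.lattice) →
      conj α ≠ α → ∀ {c : ℂ}, c ∈ kL L → ∃ p q : ℚ, c = p + q * α)
    (L : PeriodPair) :
    ∃ κ : ℂ, (∀ D : Derivation ℚ ℂ ℂ, D L.g₂ = 0 → D L.g₃ = 0 → D κ = 0) ∧
      ∀ D : Derivation ℚ ℂ ℂ, D L.g₂ = 0 → D L.g₃ = 0 → ∀ c ∈ kL L, ∀ z,
        om L D (c * z) = c * om L D z ∧ xi L κ D (c * z) = conj c * xi L κ D z := by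
  by_cases hr : ∀ α : ℂ, (∀ w ∈ L.lattice, α * w ∈ L.lattice) → conj α = α
  · refine ⟨0, fun D _ _ => map_zero D, ?_⟩
    intro D h2 h3 c hc z
    obtain ⟨n, hn, hmul⟩ := hc
    obtain ⟨m, hm⟩ := mult_real hmul (hr _ hmul)
    have hn0 : (n : ℂ) ≠ 0 := by exact_mod_cast hn.ne'
    have hcq : c = (((m : ℚ) / (n : ℚ) : ℚ) : ℂ) := by
      push_cast
      rw [eq_div_iff hn0, mul_comm]
      exact hm
    have hconj : conj c = c := by
      rw [hcq]
      exact map_ratCast _ _
    rw [hconj, hcq]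
    exact ⟨J2167.rat_lin _ (om_add L D h2 h3) _ z,
      J2167.rat_lin _ (J2167.xi_add L 0 D h2 h3) _ z⟩
  · push Not at hr
    obtain ⟨α, hm, hne⟩ := hr
    have hα : α ≠ 0 := by
      rintro rfl
      exact hne (map_zero _)
    -- the constants
    obtain ⟨w, hw⟩ := exists_generic L {0}
    have hw0 : 2 * w ∉ L.lattice := by simpa using hw 0 (by simp)
    have hw1 : w ∉ L.lattice := two_mul_notMem_of L hw0
    have hu1 : α * (α⁻¹ * w) ∉ L.lattice := by
      rw [← mul_assoc, mul_inv_cancel₀ hα, one_mul]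
      exact hw1
    set c : ℂ := α ^ 2 * ℘[L] (α * (α⁻¹ * w)) - ∑ x ∈ ker hα hm, ℘[L] (α⁻¹ * w - x.out) with hcdef
    have hc : ∀ z, α * z ∉ L.lattice →
        α ^ 2 * ℘[L] (α * z) = ∑ x ∈ ker hα hm, ℘[L] (z - x.out) + c := by
      intro z hz
      have := wp_mul_const hα hm z (α⁻¹ * w) hz hu1
      rw [hcdef, ← this]
      ring
    obtain ⟨c₂, hc₂⟩ := zeta_mul hα hm hc
    have hd : conj α - α ≠ 0 := sub_ne_zero.2 hne
    have hden : α * (conj α - α) ≠ 0 := mul_ne_zero hα hd
    set κ : ℂ := c / (α * (conj α - α)) with hκ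
    have hκ1 : κ * (α * (conj α - α)) = c := div_mul_cancel₀ _ hden
    have hαk : α ∈ kL L := mult_mem_kL hm
    refine ⟨κ, ?_, ?_⟩
    · intro D h2 h3
      obtain ⟨hDc, _⟩ := om_mult_const D h2 h3 hα hm hc
      have h1 := congrArg D hκ1
      rw [D_mul, D_mul, map_sub, der_kL (L := L) D hαk, der_kL (L := L) D (conj_mem_kL hαk),
        hDc] at h1
      have h4 : (α * (conj α - α)) * D κ = 0 := by linear_combination h1
      exact (mul_eq_zero.1 h4).resolve_left hden
    · intro D h2 h3 c' hc' z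
      obtain ⟨hDc, hom⟩ := om_mult_const D h2 h3 hα hm hc
      have hDα : D α = 0 := der_kL (L := L) D hαk
      have hxi : ∀ z, xi L κ D (α * z) = conj α * xi L κ D z := by
        intro z
        have h4 := J2167.et_mul L D h2 h3 hα hm hc hc₂ hDc hom z
        rw [card_ker hα hm] at h4
        unfold xi
        rw [hom, D_mul, hDα, mul_zero, add_zero]
        apply mul_left_cancel₀ hα
        linear_combination h4 - (om L D z - D z) * hκ1
      obtain ⟨p, q, rfl⟩ := kL_eq hm hne hc'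
      have e1 : ((p : ℂ) + q * α) * z = p * z + q * (α * z) := by ring
      have e2 : conj ((p : ℂ) + q * α) = p + q * conj α := by
        rw [map_add, map_mul, map_ratCast, map_ratCast]
      constructor
      · rw [e1, om_add L D h2 h3, J2167.rat_lin _ (om_add L D h2 h3),
          J2167.rat_lin _ (om_add L D h2 h3), hom]
        ring
      · rw [e1, e2, J2167.xi_add L κ D h2 h3, J2167.rat_lin _ (J2167.xi_add L κ D h2 h3),
          J2167.rat_lin _ (J2167.xi_add L κ D h2 h3), hxi]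
        ring

end Pool.Agent.TH813.Ell
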