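import Mathlib
import Pool.Agent.TH881.RG.StD
import Pool.Agent.TH494.J1511

set_option autoImplicit false

namespace Pool.Agent.TH626.J2029

open Finset Filter Topology
open Pool.Agent.TH881 Pool.Agent.TH881.RG
open Pool.Agent.H373R2.T7
open Pool.Agent.TH494.RG

lemma dens_ge_diff (hPC : StPC) (w : ℕ) (hw : 2 ≤ w) (C : Finset (ZMod (Wp w)))
    (hC : ∀ a : ZMod (Wp w), IsUnit a → IsUnit (a + 2) → a ∈ C) :
    1 / (Wp w : ℝ) ≤ lowerDensity (nodiff {p : ℕ | (p : ZMod (Wp w)) ∉ C}) := by
  classical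
  have hW2 : 2 ∣ Wp w := (prime_dvd_Wp Nat.prime_two).2 hw
  have hW : 2 ≤ Wp w := Nat.le_of_dvd (Wp_pos w) hW2
  -- the exceptional set
  have hsub : ∀ N : ℕ, ((Icc 1 N).filter (fun n : ℕ => (n : ZMod (Wp w)) = 2)).card ≤
      cnt (nodiff {p : ℕ | (p : ZMod (Wp w)) ∉ C}) N +
      (range (w + 1) ∪ (range (w + 1)).biUnion
        (fun l => (Icc 1 N).filter (fun n => (l + n).Prime))).card := by
    intro N
    apply card_le_cnt _ _ _ _ (filter_subset _ _)
    intro n hn
    rw [mem_filter, mem_Icc] at hn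
    by_cases hex : n ∈ (range (w + 1) ∪ (range (w + 1)).biUnion
        (fun l => (Icc 1 N).filter (fun n => (l + n).Prime)))
    · exact Or.inr hex
    · left
      rw [mem_union, not_or, mem_range, mem_biUnion] at hex
      obtain ⟨hex1, hex2⟩ := hex
      refine ⟨?_, ?_⟩
      · have h1 : ((n : ℕ) : ZMod (Wp w)) = ((2 : ℕ) : ZMod (Wp w)) := by
          rw [hn.2]; norm_num
        rw [ZMod.natCast_eq_natCast_iff] at h1
        have h2 : n ≡ 2 [MOD 2] := h1.of_dvd hW2
        rw [Nat.even_iff]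
        exact h2
      · rintro ⟨p, q, ⟨hp1, hp2⟩, ⟨hq1, hq2⟩, hpq⟩
        have hpw : w < p := by omega
        have hqw : w < q := by
          by_contra h
          apply hex2
          refine ⟨q, mem_range.2 (by omega), ?_⟩
          rw [mem_filter, mem_Icc]
          refine ⟨hn.1, ?_⟩
          rw [← hpq]
          exact hp1
        have hup : IsUnit (p : ZMod (Wp w)) := by
          rw [ZMod.isUnit_iff_coprime, Nat.Prime.coprime_iff_not_dvd hp1, prime_dvd_Wp hp1]
          omega
        have huq : IsUnit (q : ZMod (Wp w)) := by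
          rw [ZMod.isUnit_iff_coprime, Nat.Prime.coprime_iff_not_dvd hq1, prime_dvd_Wp hq1]
          omega
        have hp3 : (p : ZMod (Wp w)) = q + 2 := by
          rw [← hn.2, hpq]
          push_cast
          ring
        rw [hp3] at hup
        exact hq2 (hC _ huq hup)
  have hT : ∀ N : ℕ, ((range (w + 1) ∪ (range (w + 1)).biUnion
        (fun l => (Icc 1 N).filter (fun n => (l + n).Prime))).card : ℝ) ≤
      ((w : ℝ) + 1) * ((w : ℝ) + 1) + ((w : ℝ) + 1) * (((Icc 1 N).filter Nat.Prime).card : ℝ) := by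
    intro N
    have h1 : ∀ l ∈ range (w + 1), ((Icc 1 N).filter (fun n => (l + n).Prime)).card ≤
        w + ((Icc 1 N).filter Nat.Prime).card := by
      intro l hl
      have hl' := mem_range.1 hl
      have h2 : ((Icc 1 N).filter (fun n => (l + n).Prime)).image (fun n => l + n) ⊆
          (Icc (N + 1) (N + w)) ∪ ((Icc 1 N).filter Nat.Prime) := by
        intro p hp
        obtain ⟨n, hn, rfl⟩ := mem_image.1 hp
        rw [mem_filter, mem_Icc] at hn
        rw [mem_union, mem_filter, mem_Icc, mem_Icc]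
        by_cases h : l + n ≤ N
        · right
          exact ⟨⟨by omega, h⟩, hn.2⟩
        · left
          exact ⟨by omega, by omega⟩
      have h3 := (card_le_card h2).trans (card_union_le _ _)
      rw [card_image_of_injective _ (add_right_injective l), Nat.card_Icc] at h3
      have h4 : N + w + 1 - (N + 1) = w := by omega
      rw [h4] at h3
      exact h3
    have h5 : (range (w + 1) ∪ (range (w + 1)).biUnion
        (fun l => (Icc 1 N).filter (fun n => (l + n).Prime))).card ≤
        (w + 1) * (w + 1) + (w + 1) * ((Icc 1 N).filter Nat.Prime).card := by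
      refine (card_union_le _ _).trans ?_
      rw [card_range]
      have h6 := (card_biUnion_le (s := range (w + 1))
        (t := fun l => (Icc 1 N).filter (fun n => (l + n).Prime))).trans (sum_le_sum h1)
      rw [sum_const, card_range, smul_eq_mul] at h6
      calc w + 1 + _ ≤ w + 1 + (w + 1) * (w + ((Icc 1 N).filter Nat.Prime).card) :=
            Nat.add_le_add_left h6 _
        _ = _ := by ring
    exact_mod_cast h5
  have key : ∀ ε : ℝ, 0 < ε → 1 / (Wp w : ℝ) - ε ≤
      lowerDensity (nodiff {p : ℕ | (p : ZMod (Wp w)) ∉ C}) := by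
    intro ε hε
    apply le_of_eventually
    have hlin : ∀ᶠ N : ℕ in atTop, ((w : ℝ) + 1) * ((w : ℝ) + 1) + 1 ≤ ε / 2 * (N : ℝ) :=
      (tendsto_natCast_atTop_atTop.const_mul_atTop (by positivity)).eventually_ge_atTop _
    filter_upwards [primes_small hPC (ε / (2 * (w + 1))) (by positivity), hlin] with N h1 h2
    have h3 := hsub N
    have h4 := hT N
    have h5 := class_two (Wp w) N hW
    have h6 : (((Icc 1 N).filter (fun n : ℕ => (n : ZMod (Wp w)) = 2)).card : ℝ) ≤
        (cnt (nodiff {p : ℕ | (p : ZMod (Wp w)) ∉ C}) N : ℝ) +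
          ((range (w + 1) ∪ (range (w + 1)).biUnion
        (fun l => (Icc 1 N).filter (fun n => (l + n).Prime))).card : ℝ) := by
      exact_mod_cast h3
    have h8 : ((w : ℝ) + 1) * (((Icc 1 N).filter Nat.Prime).card : ℝ) ≤ ε / 2 * N := by
      calc ((w : ℝ) + 1) * (((Icc 1 N).filter Nat.Prime).card : ℝ) ≤
          ((w : ℝ) + 1) * (ε / (2 * (w + 1)) * N) := by gcongr
        _ = _ := by field_simp
    have h9 : (1 / (Wp w : ℝ) - ε) * N = (N : ℝ) / Wp w - ε * N := by ring
    rw [h9]
    linarith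
  apply le_of_forall_pos_le_add
  intro ε hε
  linarith [key ε hε]

lemma om_lim : Tendsto om atTop (𝓝 0) := by
  have h1 := om_log
  have h2 : Tendsto (fun y : ℕ => (Real.log y)⁻¹) atTop (𝓝 0) :=
    (Real.tendsto_log_atTop.comp tendsto_natCast_atTop_atTop).inv_tendsto_atTop
  have h3 := h1.mul h2
  rw [mul_zero] at h3
  refine h3.congr' ?_
  filter_upwards [eventually_ge_atTop 2] with y hy
  have h3 : (2 : ℝ) ≤ y := by exact_mod_cast hy
  have h4 : 0 < Real.log y := Real.log_pos (by linarith)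
  field_simp

/-- the choice of the parameter -/
lemma choice2 (δ : ℝ) (hδ : 0 < δ) : ∃ η0 : ℝ, 0 < η0 ∧ ∀ η : ℝ, 0 < η → η ≤ η0 →
    ∃ y : ℕ, 2 ≤ y ∧ om y ≤ η ∧
      η * Real.log (Real.log (Wp y)) ≤
        2 * (C2 * Real.exp (-Real.eulerMascheroniConstant)) + δ := by
  classical
  set c := 2 * (C2 * Real.exp (-Real.eulerMascheroniConstant)) with hc
  have hlim : Tendsto (fun k : ℕ => om k * Real.log k) atTop (𝓝 c) := by
    have := om_log
    rwa [mul_assoc, ← hc] at this
  have h1 : ∀ᶠ y : ℕ in atTop, om y * Real.log y < c + δ / 2 :=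
    hlim.eventually (gt_mem_nhds (by linarith))
  obtain ⟨Y, hY⟩ := eventually_atTop.1 h1
  obtain ⟨m, hm0, hm⟩ : ∃ m : ℝ, 0 < m ∧ ∀ y ∈ range (Y + 4), m ≤ om y := by
    obtain ⟨x, hx, hmin⟩ := exists_min_image (range (Y + 4)) om ⟨0, mem_range.2 (by omega)⟩
    exact ⟨om x, om_pos x, hmin⟩
  refine ⟨min (m / 2) (δ / 6), by positivity, fun η hη hη0 => ?_⟩
  have hη1 : η ≤ m / 2 := hη0.trans (min_le_left _ _)
  have hη2 : η ≤ δ / 6 := hη0.trans (min_le_right _ _)
  have hex : ∃ y : ℕ, om y ≤ η := by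
    obtain ⟨y, hy⟩ := (om_lim.eventually (gt_mem_nhds hη)).exists
    exact ⟨y, hy.le⟩
  set y := Nat.find hex with hyd
  have hy1 : om y ≤ η := Nat.find_spec hex
  have hyY : Y + 4 ≤ y := by
    by_contra h
    have := hm y (mem_range.2 (by omega))
    linarith
  have hy2 : η < om (y - 1) := by
    have := Nat.find_min hex (show y - 1 < Nat.find hex by omega)
    push Not at this
    exact this
  refine ⟨y, by omega, hy1, ?_⟩
  have h2 := hY (y - 1) (by omega)
  have hyR : (4 : ℝ) ≤ y := by exact_mod_cast (by omega : 4 ≤ y)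
  have hc1 : ((y - 1 : ℕ) : ℝ) = y - 1 := by
    rw [Nat.cast_sub (by omega)]; norm_num
  rw [hc1] at h2
  have hlog1 : 0 < Real.log ((y : ℝ) - 1) := Real.log_pos (by linarith)
  have h3 : η * Real.log ((y : ℝ) - 1) ≤ c + δ / 2 := by
    have : η * Real.log ((y : ℝ) - 1) ≤ om (y - 1) * Real.log ((y : ℝ) - 1) := by gcongr
    linarith
  have hWle : (Wp y : ℝ) ≤ 4 ^ y := by exact_mod_cast Wp_le y
  have hW2 : 2 ≤ Wp y := Nat.le_of_dvd (Wp_pos y) ((prime_dvd_Wp Nat.prime_two).2 (by omega))
  have hW2R : (2 : ℝ) ≤ Wp y := by exact_mod_cast hW2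
  have hlogW : 0 < Real.log (Wp y) := Real.log_pos (by linarith)
  have h4 : Real.log (Wp y) ≤ y * Real.log 4 := by
    have := Real.log_le_log (by linarith) hWle
    rwa [Real.log_pow] at this
  have hlog4 : Real.log 4 ≤ 2 := by
    have h5 : Real.log 4 = 2 * Real.log 2 := by
      rw [show (4 : ℝ) = 2 ^ 2 by norm_num, Real.log_pow]
      norm_num
    have := Real.log_two_lt_d9
    linarith
  have h5 : Real.log (Real.log (Wp y)) ≤ Real.log ((y : ℝ) - 1) + 3 := by
    have h6 : Real.log (Wp y) ≤ ((y : ℝ) - 1) * Real.exp 3 := by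
      have he : (4 : ℝ) ≤ Real.exp 3 := by
        have := Real.add_one_le_exp (3 : ℝ)
        linarith
      calc Real.log (Wp y) ≤ y * 2 := h4.trans (by gcongr)
        _ ≤ ((y : ℝ) - 1) * 4 := by linarith
        _ ≤ _ := by
          apply mul_le_mul_of_nonneg_left he
          linarith
    have h7 := Real.log_le_log hlogW h6
    rwa [Real.log_mul (by linarith) (Real.exp_pos 3).ne', Real.log_exp] at h7
  calc η * Real.log (Real.log (Wp y)) ≤ η * (Real.log ((y : ℝ) - 1) + 3) := by gcongr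
    _ = η * Real.log ((y : ℝ) - 1) + 3 * η := by ring
    _ ≤ _ := by linarith

theorem example_diff (hPC : StPC) (δ : ℝ) (hδ : 0 < δ) :
    ∃ η0 : ℝ, 0 < η0 ∧ ∀ η : ℝ, 0 < η → η ≤ η0 → ∃ A : Set ℕ, 1 - η ≤ relLower A ∧
      Real.exp (-Real.exp ((2 * (C2 * Real.exp (-Real.eulerMascheroniConstant)) + δ) / η)) ≤
        lowerDensity (nodiff A) := by
  classical
  obtain ⟨η0, hη0, h0⟩ := choice2 δ hδ
  refine ⟨η0, hη0, fun η hη hηle => ?_⟩
  obtain ⟨y, hy2, hyD, hyL⟩ := h0 η hη hηle
  have hφ := totient_Wp_pos y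
  set C : Finset (ZMod (Wp y)) :=
    univ.filter (fun a : ZMod (Wp y) => IsUnit a ∧ IsUnit (a + 2)) with hC
  set S : Finset (ZMod (Wp y)) :=
    univ.filter (fun a : ZMod (Wp y) => IsUnit a ∧ IsUnit (2 - a)) with hS
  have hwt : (S.card : ℝ) / Nat.totient (Wp y) = om y := by
    rw [← wt_two y hy2]
    unfold wt
    congr 3
  have hCS : C.card = S.card := by
    refine card_bij (fun a _ => -a) ?_ ?_ ?_
    · intro a ha
      rw [hC, mem_filter] at ha
      rw [hS, mem_filter]
      refine ⟨mem_univ _, ha.2.1.neg, ?_⟩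
      rw [sub_neg_eq_add, add_comm]
      exact ha.2.2
    · intro a _ b _ hab
      exact neg_injective hab
    · intro b hb
      rw [hS, mem_filter] at hb
      refine ⟨-b, ?_, neg_neg b⟩
      rw [hC, mem_filter]
      refine ⟨mem_univ _, hb.2.1.neg, ?_⟩
      rw [add_comm, ← sub_eq_add_neg]
      exact hb.2.2
  refine ⟨{p : ℕ | (p : ZMod (Wp y)) ∉ C}, ?_, ?_⟩
  · have h1 := relLower_ge hPC y C (fun a ha => (mem_filter.1 ha).2.1)
    rw [hCS, hwt] at h1
    linarith
  · have h1 := dens_ge_diff hPC y hy2 C (by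
      intro a ha hb
      rw [hC, mem_filter]; exact ⟨mem_univ _, ha, hb⟩)
    refine le_trans ?_ h1
    have hW2 : 2 ≤ Wp y := Nat.le_of_dvd (Wp_pos y) ((prime_dvd_Wp Nat.prime_two).2 (by omega))
    have hW2R : (2 : ℝ) ≤ Wp y := by exact_mod_cast hW2
    have hlogW : 0 < Real.log (Wp y) := Real.log_pos (by linarith)
    have h2 : Real.log (Real.log (Wp y)) ≤
        (2 * (C2 * Real.exp (-Real.eulerMascheroniConstant)) + δ) / η := by
      rw [le_div_iff₀ hη]
      linarith
    have h3 : Real.log (Wp y) ≤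
        Real.exp ((2 * (C2 * Real.exp (-Real.eulerMascheroniConstant)) + δ) / η) := by
      rw [← Real.log_le_iff_le_exp hlogW]
      exact h2
    rw [Real.exp_neg, one_div]
    apply inv_anti₀ (by linarith)
    rw [← Real.log_le_iff_le_exp (by linarith)]
    exact h3

end Pool.Agent.TH626.J2029
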