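import Mathlib

set_option autoImplicit false

open Set Filter Metric MeasureTheory

namespace Pool.Agent.TH626.J1686

theorem tail_int {T P : ℝ} (hT : 0 < T) (hP : 0 ≤ P) :
    ∫⁻ t in Ioi T, ENNReal.ofReal (P / t ^ 2) = ENNReal.ofReal (P / T) := by
  have h1 : ∀ t ∈ Ioi T, P / t ^ 2 = P * t ^ (-2 : ℝ) := by
    intro t ht
    have ht0 : 0 < t := hT.trans ht
    rw [Real.rpow_neg ht0.le, div_eq_mul_inv]
    norm_cast
  have hint : IntegrableOn (fun t : ℝ => P * t ^ (-2 : ℝ)) (Ioi T) :=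
    (integrableOn_Ioi_rpow_of_lt (by norm_num) hT).const_mul P
  have h2 : ∫⁻ t in Ioi T, ENNReal.ofReal (P / t ^ 2) = ∫⁻ t in Ioi T, ENNReal.ofReal (P * t ^ (-2 : ℝ)) := by
    apply setLIntegral_congr_fun measurableSet_Ioi
    intro t ht
    simp only
    rw [h1 t ht]
  rw [h2, ← ofReal_integral_eq_lintegral_ofReal hint, integral_const_mul, integral_Ioi_rpow_of_lt (by norm_num) hT]
  · congr 1
    have : T ^ ((-2 : ℝ) + 1) = T⁻¹ := by
      rw [show (-2 : ℝ) + 1 = -1 by norm_num, Real.rpow_neg_one]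
    rw [this]
    field_simp
    norm_num
  · rw [EventuallyLE, ae_restrict_iff' measurableSet_Ioi]
    exact Eventually.of_forall fun t ht => mul_nonneg hP (Real.rpow_nonneg (hT.trans ht).le _)

/-- bound of a layer cake integral -/
theorem split3 {g : ℝ → ENNReal} {T₀ T₁ M₀ P Q R : ℝ} (hT₀ : 0 < T₀) (hT : T₀ ≤ T₁) (hM : 0 ≤ M₀) (hP : 0 ≤ P)
    (hQ : 0 ≤ Q) (hR : 0 ≤ R) (h1 : ∀ t, 0 < t → t ≤ T₀ → g t ≤ ENNReal.ofReal M₀)
    (h2 : ∀ t, T₀ < t → t ≤ T₁ → g t ≤ ENNReal.ofReal (P / t ^ 2 + Q))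
    (h3 : ∀ t, T₁ < t → g t ≤ ENNReal.ofReal (R / t ^ 2)) :
    ∫⁻ t in Ioi (0 : ℝ), g t ≤ ENNReal.ofReal (M₀ * T₀ + (P / T₀ + Q * T₁) + R / T₁) := by
  have hT₁ : 0 < T₁ := hT₀.trans_le hT
  have e1 : Ioi (0 : ℝ) = (Ioc 0 T₀ ∪ Ioc T₀ T₁) ∪ Ioi T₁ := by
    rw [Ioc_union_Ioc_eq_Ioc hT₀.le hT, Ioc_union_Ioi_eq_Ioi hT₁.le]
  rw [e1]
  have i1 : ∫⁻ t in Ioc 0 T₀, g t ≤ ENNReal.ofReal (M₀ * T₀) := by
    calc ∫⁻ t in Ioc 0 T₀, g t ≤ ∫⁻ _t in Ioc 0 T₀, ENNReal.ofReal M₀ :=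
          setLIntegral_mono' measurableSet_Ioc fun t ht => h1 t ht.1 ht.2
      _ = ENNReal.ofReal (M₀ * T₀) := by
          rw [setLIntegral_const, Real.volume_Ioc, sub_zero, ← ENNReal.ofReal_mul hM]
  have i2 : ∫⁻ t in Ioc T₀ T₁, g t ≤ ENNReal.ofReal (P / T₀ + Q * T₁) := by
    calc ∫⁻ t in Ioc T₀ T₁, g t ≤ ∫⁻ t in Ioc T₀ T₁, (ENNReal.ofReal (P / t ^ 2) + ENNReal.ofReal Q) := by
          apply setLIntegral_mono' measurableSet_Ioc
          intro t ht
          rw [← ENNReal.ofReal_add (by positivity) hQ]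
          exact h2 t ht.1 ht.2
      _ = (∫⁻ t in Ioc T₀ T₁, ENNReal.ofReal (P / t ^ 2)) + ∫⁻ _t in Ioc T₀ T₁, ENNReal.ofReal Q :=
          lintegral_add_right _ measurable_const
      _ ≤ (∫⁻ t in Ioi T₀, ENNReal.ofReal (P / t ^ 2)) + ∫⁻ _t in Ioc 0 T₁, ENNReal.ofReal Q :=
          add_le_add (lintegral_mono_set Ioc_subset_Ioi_self) (lintegral_mono_set (Ioc_subset_Ioc_left hT₀.le))
      _ = ENNReal.ofReal (P / T₀ + Q * T₁) := by
          rw [tail_int hT₀ hP, setLIntegral_const, Real.volume_Ioc, sub_zero, ← ENNReal.ofReal_mul hQ,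
            ← ENNReal.ofReal_add (by positivity) (by positivity)]
  have i3 : ∫⁻ t in Ioi T₁, g t ≤ ENNReal.ofReal (R / T₁) := by
    calc ∫⁻ t in Ioi T₁, g t ≤ ∫⁻ t in Ioi T₁, ENNReal.ofReal (R / t ^ 2) :=
          setLIntegral_mono' measurableSet_Ioi fun t ht => h3 t ht
      _ = _ := tail_int hT₁ hR
  calc ∫⁻ t in (Ioc 0 T₀ ∪ Ioc T₀ T₁) ∪ Ioi T₁, g t
      ≤ ((∫⁻ t in Ioc 0 T₀, g t) + ∫⁻ t in Ioc T₀ T₁, g t) + ∫⁻ t in Ioi T₁, g t :=
        (lintegral_union_le _ _ _).trans (add_le_add (lintegral_union_le _ _ _) le_rfl)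
    _ ≤ (ENNReal.ofReal (M₀ * T₀) + ENNReal.ofReal (P / T₀ + Q * T₁)) + ENNReal.ofReal (R / T₁) :=
        add_le_add (add_le_add i1 i2) i3
    _ = _ := by
        rw [← ENNReal.ofReal_add (by positivity) (by positivity), ← ENNReal.ofReal_add (by positivity) (by positivity)]

theorem vol_ball (c : ℂ) {r : ℝ} (hr : 0 ≤ r) : volume (ball c r) = ENNReal.ofReal (Real.pi * r ^ 2) := by
  rw [Complex.volume_ball, ENNReal.ofReal_mul Real.pi_pos.le, ENNReal.ofReal_pow hr, mul_comm]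
  congr 1
  rw [← NNReal.coe_real_pi, ENNReal.ofReal_coe_nnreal]

theorem cake {A : Set ℂ} (c : ℂ) :
    ∫⁻ w in A, ENNReal.ofReal (1 / ‖w - c‖) = ∫⁻ t in Ioi (0 : ℝ), volume.restrict A {w : ℂ | t < 1 / ‖w - c‖} := by
  apply lintegral_eq_lintegral_meas_lt
  · exact Eventually.of_forall fun w => by positivity
  · apply Measurable.aemeasurable
    fun_prop

theorem level_sub (c : ℂ) {t : ℝ} (ht : 0 < t) : {w : ℂ | t < 1 / ‖w - c‖} ⊆ ball c (1 / t) := by
  intro w hw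
  have hw' : t < 1 / ‖w - c‖ := hw
  have h0 : 0 < ‖w - c‖ := by
    by_contra h
    have : ‖w - c‖ = 0 := le_antisymm (not_lt.mp h) (norm_nonneg _)
    rw [this] at hw'
    simp at hw'
    linarith
  rw [mem_ball, dist_eq_norm, lt_div_iff₀ ht]
  rw [lt_div_iff₀ h0] at hw'
  linarith

theorem level_meas (c : ℂ) (t : ℝ) : MeasurableSet {w : ℂ | t < 1 / ‖w - c‖} := by
  apply measurableSet_lt measurable_const
  fun_prop

theorem near_crit (C₂ s₀ : ℝ) (hC₂ : 0 ≤ C₂) (hs₀ : 0 < s₀) : ∃ C : ℝ, 0 < C ∧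
    ∀ (c v : ℂ) (η V δ : ℝ) (S : Set ℂ), MeasurableSet S → 0 < η → ‖c - v‖ ≤ η → 0 ≤ V → 0 < δ →
      η ≤ s₀ / 8 → δ ^ 2 ≤ s₀ / 8 →
      (∀ s : ℝ, η ≤ s → s ≤ s₀ → volume (S ∩ ball v s) ≤ ENNReal.ofReal (C₂ * s ^ 2 * V)) →
      ∫⁻ w in S ∩ ball c (δ ^ 2), ENNReal.ofReal (1 / ‖w - c‖) ≤
        ENNReal.ofReal (C * (δ ^ 2 * V + η * √V)) := by
  have hpi := Real.pi_pos
  refine ⟨4 * C₂ + 4 * C₂ + 2 * Real.pi, by positivity, ?_⟩
  intro c v η V δ S hS hη hcv hV hδ hηs hδs hvol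
  set ρ := δ ^ 2 with hρ
  have hρ0 : 0 < ρ := by positivity
  set A := S ∩ ball c ρ with hA
  have hAm : MeasurableSet A := hS.inter measurableSet_ball
  rcases hV.eq_or_lt with hV0 | hV0
  · -- V = 0
    have h1 : volume A = 0 := by
      have h2 := hvol s₀ (by linarith) le_rfl
      rw [← hV0, mul_zero, ENNReal.ofReal_zero] at h2
      refine measure_mono_null ?_ (le_antisymm h2 zero_le)
      apply inter_subset_inter_right
      apply ball_subset_ball'
      rw [dist_eq_norm]; linarith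
    rw [setLIntegral_measure_zero _ _ h1]
    exact zero_le
  set a := η * √V with ha
  have ha0 : 0 < a := by positivity
  rw [cake]
  have hg : ∀ t, volume.restrict A {w : ℂ | t < 1 / ‖w - c‖} = volume ({w : ℂ | t < 1 / ‖w - c‖} ∩ A) := fun t =>
    Measure.restrict_apply (level_meas c t)
  have hball : ∀ t, 0 < t → volume ({w : ℂ | t < 1 / ‖w - c‖} ∩ A) ≤ ENNReal.ofReal (Real.pi / t ^ 2) := by
    intro t ht
    refine (measure_mono (inter_subset_left.trans (level_sub c ht))).trans ?_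
    rw [vol_ball c (by positivity)]
    apply ENNReal.ofReal_le_ofReal
    apply le_of_eq; field_simp
  by_cases hcase : ρ ≤ a
  · have h := split3 (g := fun t => volume.restrict A {w : ℂ | t < 1 / ‖w - c‖}) (T₀ := 1 / ρ) (T₁ := 1 / ρ)
      (M₀ := Real.pi * ρ ^ 2) (P := 0) (Q := 0) (R := Real.pi) (by positivity) le_rfl (by positivity) le_rfl le_rfl hpi.le
      (by
        intro t _ _
        rw [hg]
        refine (measure_mono (inter_subset_right.trans inter_subset_right)).trans ?_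
        rw [vol_ball c hρ0.le])
      (by intro t h1 h2; linarith)
      (by
        intro t h1
        rw [hg]
        exact hball t (lt_trans (by positivity) h1))
    refine h.trans (ENNReal.ofReal_le_ofReal ?_)
    have e1 : Real.pi * ρ ^ 2 * (1 / ρ) + (0 / (1 / ρ) + 0 * (1 / ρ)) + Real.pi / (1 / ρ) = 2 * Real.pi * ρ := by
      field_simp; ring
    rw [e1]
    have e2 : 2 * Real.pi * ρ ≤ 2 * Real.pi * a := mul_le_mul_of_nonneg_left hcase (by positivity)
    have e3 : 0 ≤ ρ * V := by positivity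
    nlinarith [mul_nonneg hC₂ e3, mul_nonneg hC₂ ha0.le, mul_nonneg hpi.le e3]
  · push Not at hcase
    have hvolr : ∀ r, 0 < r → r ≤ ρ → volume (ball c r ∩ A) ≤ ENNReal.ofReal (2 * C₂ * V * (r ^ 2 + η ^ 2)) := by
      intro r hr hrρ
      have h1 : ball c r ∩ A ⊆ S ∩ ball v (r + η) := by
        rintro w ⟨hw1, hw2, -⟩
        refine ⟨hw2, ?_⟩
        rw [mem_ball] at hw1 ⊢
        have : dist c v ≤ η := by rw [dist_eq_norm]; exact hcv
        linarith [dist_triangle w c v]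
      refine (measure_mono h1).trans ((hvol (r + η) (by linarith) (by linarith)).trans (ENNReal.ofReal_le_ofReal ?_))
      have h2 : (r + η) ^ 2 ≤ 2 * (r ^ 2 + η ^ 2) := by nlinarith [sq_nonneg (r - η)]
      calc C₂ * (r + η) ^ 2 * V = (C₂ * V) * (r + η) ^ 2 := by ring
        _ ≤ (C₂ * V) * (2 * (r ^ 2 + η ^ 2)) := mul_le_mul_of_nonneg_left h2 (by positivity)
        _ = _ := by ring
    have h := split3 (g := fun t => volume.restrict A {w : ℂ | t < 1 / ‖w - c‖}) (T₀ := 1 / ρ) (T₁ := 1 / a)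
      (M₀ := 2 * C₂ * V * (ρ ^ 2 + η ^ 2)) (P := 2 * C₂ * V) (Q := 2 * C₂ * V * η ^ 2) (R := Real.pi) (by positivity)
      (one_div_le_one_div_of_le ha0 hcase.le) (by positivity) (by positivity) (by positivity) hpi.le
      (by
        intro t _ _
        rw [hg]
        refine (measure_mono ?_).trans (hvolr ρ hρ0 le_rfl)
        rintro w ⟨_, hw⟩
        exact ⟨hw.2, hw⟩)
      (by
        intro t h1 h2
        rw [hg]
        have ht : 0 < t := lt_trans (by positivity) h1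
        refine (measure_mono (inter_subset_inter_left _ (level_sub c ht))).trans ?_
        refine (hvolr (1 / t) (by positivity) ?_).trans (ENNReal.ofReal_le_ofReal ?_)
        · rw [div_le_iff₀ ht]; rw [div_lt_iff₀ hρ0] at h1; linarith
        · apply le_of_eq; field_simp)
      (by
        intro t h1
        rw [hg]
        exact hball t (lt_trans (by positivity) h1))
    refine h.trans (ENNReal.ofReal_le_ofReal ?_)
    have hsq : √V * √V = V := Real.mul_self_sqrt hV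
    have hsV : 0 < √V := Real.sqrt_pos.2 hV0
    -- η ^ 2 * V / ρ ≤ a and η ^ 2 V / a = a / 1
    have e1 : V * η ^ 2 / a = a := by
      rw [ha, div_eq_iff (by positivity)]; nlinarith [hsq]
    have e2 : V * η ^ 2 / ρ ≤ a := by
      rw [div_le_iff₀ hρ0]
      have : V * η ^ 2 = a * a := by rw [ha]; nlinarith [hsq]
      rw [this]
      exact mul_le_mul_of_nonneg_left hcase.le ha0.le
    have e3 : 2 * C₂ * V * (ρ ^ 2 + η ^ 2) * (1 / ρ) + (2 * C₂ * V / (1 / ρ) + 2 * C₂ * V * η ^ 2 * (1 / a)) + Real.pi / (1 / a) =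
        4 * C₂ * (ρ * V) + 2 * C₂ * (V * η ^ 2 / ρ) + 2 * C₂ * (V * η ^ 2 / a) + Real.pi * a := by
      field_simp; ring
    rw [e3, e1]
    have e4 : 2 * C₂ * (V * η ^ 2 / ρ) ≤ 2 * C₂ * a := mul_le_mul_of_nonneg_left e2 (by positivity)
    have e5 : 0 ≤ ρ * V := by positivity
    nlinarith [mul_nonneg hC₂ e5, mul_nonneg hC₂ ha0.le, mul_nonneg hpi.le e5, mul_nonneg hpi.le ha0.le]

end Pool.Agent.TH626.J1686
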