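import Pool.Agent.TH279.MZ.Defs

set_option autoImplicit false

open Set Filter Metric MeasureTheory
open Pool.Agent.TH279.MZ

namespace Pool.Agent.TH626.J1685

theorem hasDeriv (c : ℂ) (m : ℕ) (z : ℂ) :
    HasDerivAt ((f c)^[m]) (∏ j ∈ Finset.range m, (2 * (f c)^[j] z)) z := by
  induction m with
  | zero => simpa using hasDerivAt_id z
  | succ m ih =>
    have h1 : HasDerivAt (f c) (2 * (f c)^[m] z) ((f c)^[m] z) := by
      have h2 : HasDerivAt (fun x : ℂ => x ^ 2 + c) (2 * (f c)^[m] z) ((f c)^[m] z) := by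
        have h3 : HasDerivAt (fun x : ℂ => x ^ 2) (2 * (f c)^[m] z) ((f c)^[m] z) := by
          simpa using hasDerivAt_pow 2 ((f c)^[m] z)
        exact h3.add_const c
      exact h2
    rw [Function.iterate_succ', Finset.prod_range_succ, mul_comm]
    exact h1.comp z ih

/-! ### products along an eventually periodic sequence -/

section prod
variable {x : ℕ → ℝ} {b Λ τ : ℝ} {k p : ℕ}

theorem per_prod (hb : 0 < b) (hx : ∀ j, b ≤ x j) (hper : ∀ j, k + 1 ≤ j → x (j + p) = x j) :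
    ∀ j, k + 1 ≤ j → ∏ i ∈ Finset.Ico j (j + p), x i = ∏ i ∈ Finset.Ico (k + 1) (k + 1 + p), x i := by
  intro j hj
  induction j, hj using Nat.le_induction with
  | base => rfl
  | succ j hj ih =>
    rw [← ih]
    have h1 : ∏ i ∈ Finset.Ico j (j + p + 1), x i = (∏ i ∈ Finset.Ico j (j + p), x i) * x (j + p) :=
      Finset.prod_Ico_succ_top (by omega) _
    have h2 : ∏ i ∈ Finset.Ico j (j + p + 1), x i = x j * ∏ i ∈ Finset.Ico (j + 1) (j + p + 1), x i :=
      Finset.prod_eq_prod_Ico_succ_bot (by omega) _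
    have h3 : x j ≠ 0 := (hb.trans_le (hx j)).ne'
    rw [hper j hj] at h1
    have h4 : x j * ∏ i ∈ Finset.Ico (j + 1) (j + p + 1), x i = x j * ∏ i ∈ Finset.Ico j (j + p), x i := by
      rw [← h2, h1]; ring
    have h5 := mul_left_cancel₀ h3 h4
    rw [show j + 1 + p = j + p + 1 by ring]
    exact h5

theorem pow_prod (hb : 0 < b) (hx : ∀ j, b ≤ x j) (hper : ∀ j, k + 1 ≤ j → x (j + p) = x j) (hΛ : 0 ≤ Λ)
    (hL : Λ ≤ ∏ i ∈ Finset.Ico (k + 1) (k + 1 + p), x i) (q : ℕ) : ∀ j, k + 1 ≤ j →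
    Λ ^ q ≤ ∏ i ∈ Finset.Ico j (j + q * p), x i := by
  induction q with
  | zero => intro j _; simp
  | succ q ih =>
    intro j hj
    have h1 := Finset.prod_Ico_consecutive x (show j ≤ j + p by omega) (show j + p ≤ j + (q + 1) * p by nlinarith)
    rw [← h1, per_prod hb hx hper j hj, pow_succ, mul_comm]
    have h2 := ih (j + p) (by omega)
    have e : j + p + q * p = j + (q + 1) * p := by ring
    rw [e] at h2
    exact mul_le_mul hL h2 (pow_nonneg hΛ q) (hΛ.trans hL)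

theorem b_prod (hb : 0 < b) (hx : ∀ j, b ≤ x j) (r j : ℕ) : b ^ r ≤ ∏ i ∈ Finset.Ico j (j + r), x i := by
  have : b ^ r = ∏ _i ∈ Finset.Ico j (j + r), b := by
    rw [Finset.prod_const, Nat.card_Ico]; congr 1; omega
  rw [this]
  exact Finset.prod_le_prod (fun _ _ => hb.le) (fun i _ => hx i)

theorem E_bound (hb : 0 < b) (hb1 : b ≤ 1) (hx : ∀ j, b ≤ x j) (hp : 0 < p)
    (hper : ∀ j, k + 1 ≤ j → x (j + p) = x j) (hτ : 1 ≤ τ)
    (hL : τ ^ p ≤ ∏ i ∈ Finset.Ico (k + 1) (k + 1 + p), x i) (j m : ℕ) :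
    (b ^ (k + 1 + p) / τ ^ (k + 1 + p)) * τ ^ m ≤ ∏ i ∈ Finset.Ico j (j + m), x i := by
  have hτ0 : 0 < τ := by linarith
  -- tail estimate
  have tail : ∀ j, k + 1 ≤ j → ∀ m, (b ^ p / τ ^ p) * τ ^ m ≤ ∏ i ∈ Finset.Ico j (j + m), x i := by
    intro j hj m
    have hdm := Nat.div_add_mod m p
    have hmod := Nat.mod_lt m hp
    set q := m / p with hq
    set r := m % p with hr
    have e1 : j + m = (j + q * p) + r := by rw [mul_comm q p]; omega
    have h1 := Finset.prod_Ico_consecutive x (show j ≤ j + q * p by omega) (show j + q * p ≤ (j + q * p) + r by omega)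
    rw [e1, ← h1]
    have h2 := pow_prod hb hx hper (by positivity) hL q j hj
    have h3 := b_prod hb hx r (j + q * p)
    have h4 : b ^ p ≤ b ^ r := pow_le_pow_of_le_one hb.le hb1 hmod.le
    have h5 : τ ^ m ≤ (τ ^ p) ^ q * τ ^ p := by
      rw [← pow_mul, ← pow_add]
      exact pow_le_pow_right₀ hτ (by omega)
    calc (b ^ p / τ ^ p) * τ ^ m ≤ (b ^ p / τ ^ p) * ((τ ^ p) ^ q * τ ^ p) := mul_le_mul_of_nonneg_left h5 (by positivity)
      _ = (τ ^ p) ^ q * b ^ p := by field_simp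
      _ ≤ (∏ i ∈ Finset.Ico j (j + q * p), x i) * ∏ i ∈ Finset.Ico (j + q * p) ((j + q * p) + r), x i :=
          mul_le_mul h2 (h4.trans h3) (by positivity) ((by positivity : (0:ℝ) ≤ (τ ^ p) ^ q).trans h2)
  by_cases hm : m ≤ k + 1
  · have h1 := b_prod hb hx m j
    have h2 : b ^ (k + 1 + p) ≤ b ^ m := pow_le_pow_of_le_one hb.le hb1 (by omega)
    have h3 : τ ^ m ≤ τ ^ (k + 1 + p) := pow_le_pow_right₀ hτ (by omega)
    refine le_trans ?_ (h2.trans h1)
    rw [div_mul_eq_mul_div, div_le_iff₀ (by positivity)]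
    exact mul_le_mul_of_nonneg_left h3 (by positivity)
  · push Not at hm
    have h1 := Finset.prod_Ico_consecutive x (show j ≤ j + (k + 1) by omega) (show j + (k + 1) ≤ j + m by omega)
    rw [← h1]
    have h2 := b_prod hb hx (k + 1) j
    have h3 := tail (j + (k + 1)) (by omega) (m - (k + 1))
    have e1 : j + (k + 1) + (m - (k + 1)) = j + m := by omega
    rw [e1] at h3
    have h4 : (b ^ (k + 1 + p) / τ ^ (k + 1 + p)) * τ ^ m = b ^ (k + 1) * ((b ^ p / τ ^ p) * τ ^ (m - (k + 1))) := by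
      have : τ ^ m = τ ^ (k + 1) * τ ^ (m - (k + 1)) := by rw [← pow_add]; congr 1; omega
      rw [this, pow_add b, pow_add τ]
      field_simp
    rw [h4]
    exact mul_le_mul h2 h3 (by positivity) ((by positivity : (0:ℝ) ≤ b ^ (k + 1)).trans h2)

end prod

theorem geom {x : ℝ} (hx : 0 ≤ x) (hx1 : x < 1) (m : ℕ) : ∑ j ∈ Finset.range m, x ^ (m - j) ≤ x / (1 - x) := by
  have h1 : 0 < 1 - x := by linarith
  induction m with
  | zero =>
    rw [Finset.range_zero, Finset.sum_empty]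
    positivity
  | succ m ih =>
    have e : ∑ j ∈ Finset.range (m + 1), x ^ (m + 1 - j) = x * ∑ j ∈ Finset.range m, x ^ (m - j) + x := by
      rw [Finset.sum_range_succ, Finset.mul_sum]
      congr 1
      · apply Finset.sum_congr rfl
        intro j hj
        rw [Finset.mem_range] at hj
        rw [← pow_succ']; congr 1; omega
      · simp
    rw [e]
    calc x * ∑ j ∈ Finset.range m, x ^ (m - j) + x ≤ x * (x / (1 - x)) + x := by gcongr
      _ = x / (1 - x) := by field_simp; ring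

section dist
variable {c v : ℂ} {a τ b t r : ℝ} {n : ℕ}

/-- derivative of the iterates at `v` -/
noncomputable def DD (c v : ℂ) (n : ℕ) : ℂ := ∏ j ∈ Finset.range n, (2 * vv c v j)

theorem DD_ratio (hE : ∀ j m, a * τ ^ m ≤ ∏ i ∈ Finset.Ico j (j + m), ‖2 * vv c v i‖) {j m : ℕ} (hjm : j ≤ m) :
    ‖DD c v j‖ * (a * τ ^ (m - j)) ≤ ‖DD c v m‖ := by
  have h1 : DD c v m = DD c v j * ∏ i ∈ Finset.Ico j m, (2 * vv c v i) :=
    (Finset.prod_range_mul_prod_Ico _ hjm).symm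
  rw [h1, norm_mul, norm_prod]
  have h := hE j (m - j)
  rw [show j + (m - j) = m by omega] at h
  exact mul_le_mul_of_nonneg_left h (norm_nonneg _)

theorem sumD (ha : 0 < a) (hτ : 1 < τ) (hE : ∀ j m, a * τ ^ m ≤ ∏ i ∈ Finset.Ico j (j + m), ‖2 * vv c v i‖) (m : ℕ) :
    ∑ j ∈ Finset.range m, ‖DD c v j‖ ≤ ‖DD c v m‖ / (a * (τ - 1)) := by
  have hτ0 : 0 < τ := by linarith
  have hτ1 : 0 < τ - 1 := by linarith
  have h1 : ∀ j ∈ Finset.range m, ‖DD c v j‖ ≤ (‖DD c v m‖ / a) * τ⁻¹ ^ (m - j) := by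
    intro j hj
    have h2 := DD_ratio hE (Finset.mem_range.1 hj).le
    rw [inv_pow, ← div_eq_mul_inv, div_div, le_div_iff₀ (by positivity)]
    exact h2
  refine (Finset.sum_le_sum h1).trans ?_
  rw [← Finset.mul_sum]
  have h3 := geom (x := τ⁻¹) (by positivity) (inv_lt_one_of_one_lt₀ hτ) m
  calc (‖DD c v m‖ / a) * ∑ j ∈ Finset.range m, τ⁻¹ ^ (m - j) ≤ (‖DD c v m‖ / a) * (τ⁻¹ / (1 - τ⁻¹)) :=
        mul_le_mul_of_nonneg_left h3 (by positivity)
    _ = ‖DD c v m‖ / (a * (τ - 1)) := by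
        have : 1 - τ⁻¹ = (τ - 1) / τ := by field_simp
        rw [this]; field_simp

theorem distort (ha : 0 < a) (hτ : 1 < τ) (hb : 0 < b) (hx : ∀ j, b ≤ ‖2 * vv c v j‖)
    (hE : ∀ j m, a * τ ^ m ≤ ∏ i ∈ Finset.Ico j (j + m), ‖2 * vv c v i‖)
    (ht : 16 * t ≤ b * (a * (τ - 1))) (hr0 : 0 < r) (hr : ∀ j, j ≤ n → ‖DD c v j‖ * r ≤ t) :
    ∀ m, m ≤ n → (∀ z ∈ ball v r, ‖∏ j ∈ Finset.range m, (2 * (f c)^[j] z) - DD c v m‖ ≤ ‖DD c v m‖ / 2) ∧
      ∀ z ∈ ball v r, ∀ w ∈ ball v r,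
        ‖(f c)^[m] z - (f c)^[m] w - DD c v m * (z - w)‖ ≤ ‖DD c v m‖ / 2 * ‖z - w‖ := by
  have hτ0 : 0 < τ := by linarith
  have hτ1 : 0 < τ - 1 := by linarith
  intro m
  induction m using Nat.strong_induction_on with
  | _ m ih =>
  intro hmn
  have key : ∀ z ∈ ball v r, ‖∏ j ∈ Finset.range m, (2 * (f c)^[j] z) - DD c v m‖ ≤ ‖DD c v m‖ / 2 := by
    intro z hz
    have hzr : ‖z - v‖ < r := by rw [← dist_eq_norm]; exact hz
    set x : ℕ → ℂ := fun j => ((f c)^[j] z - vv c v j) / vv c v j with hxdef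
    have h5 : ∀ j, b / 2 ≤ ‖vv c v j‖ := by
      intro j
      have := hx j
      rw [norm_mul] at this
      norm_num at this
      linarith
    have hv0 : ∀ j, vv c v j ≠ 0 := by
      intro j h0
      have := h5 j
      rw [h0, norm_zero] at this
      linarith
    have e1 : ∏ j ∈ Finset.range m, (2 * (f c)^[j] z) = DD c v m * ∏ j ∈ Finset.range m, (1 + x j) := by
      unfold DD
      rw [← Finset.prod_mul_distrib]
      apply Finset.prod_congr rfl
      intro j _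
      have := hv0 j
      simp only [hxdef]
      field_simp
      ring
    have h2 : ∀ j ∈ Finset.range m, ‖x j‖ ≤ (4 * r / b) * ‖DD c v j‖ := by
      intro j hj
      have h3 := (ih j (Finset.mem_range.1 hj) (by have := Finset.mem_range.1 hj; omega)).2 z hz v (mem_ball_self hr0)
      have h4 : ‖(f c)^[j] z - vv c v j‖ ≤ 2 * ‖DD c v j‖ * r := by
        have e2 : (f c)^[j] z - vv c v j = ((f c)^[j] z - (f c)^[j] v - DD c v j * (z - v)) + DD c v j * (z - v) := by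
          unfold vv; ring
        rw [e2]
        refine (norm_add_le _ _).trans ?_
        rw [norm_mul]
        have h8 := norm_nonneg (DD c v j)
        have h9 : ‖DD c v j‖ * ‖z - v‖ ≤ ‖DD c v j‖ * r := mul_le_mul_of_nonneg_left hzr.le h8
        nlinarith [norm_nonneg (z - v)]
      show ‖((f c)^[j] z - vv c v j) / vv c v j‖ ≤ _
      rw [norm_div, div_le_iff₀ (lt_of_lt_of_le (by positivity) (h5 j))]
      calc ‖(f c)^[j] z - vv c v j‖ ≤ 2 * ‖DD c v j‖ * r := h4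
        _ = (4 * r / b * ‖DD c v j‖) * (b / 2) := by field_simp; ring
        _ ≤ (4 * r / b * ‖DD c v j‖) * ‖vv c v j‖ := mul_le_mul_of_nonneg_left (h5 j) (by positivity)
    have h6 : ∑ j ∈ Finset.range m, ‖x j‖ ≤ 1 / 4 := by
      calc ∑ j ∈ Finset.range m, ‖x j‖ ≤ ∑ j ∈ Finset.range m, (4 * r / b) * ‖DD c v j‖ := Finset.sum_le_sum h2
        _ = (4 * r / b) * ∑ j ∈ Finset.range m, ‖DD c v j‖ := by rw [Finset.mul_sum]
        _ ≤ (4 * r / b) * (‖DD c v m‖ / (a * (τ - 1))) := mul_le_mul_of_nonneg_left (sumD ha hτ hE m) (by positivity)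
        _ = 4 * (‖DD c v m‖ * r) / (b * (a * (τ - 1))) := by field_simp
        _ ≤ 4 * t / (b * (a * (τ - 1))) := by
            apply div_le_div_of_nonneg_right _ (by positivity)
            linarith [hr m hmn]
        _ ≤ 1 / 4 := by
            rw [div_le_iff₀ (by positivity)]; linarith
    have h7 := Finset.norm_prod_one_add_sub_one_le (Finset.range m) x
    have h8 : Real.exp (∑ j ∈ Finset.range m, ‖x j‖) ≤ 3 / 2 := by
      refine (Real.exp_le_exp.2 h6).trans ?_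
      have h9 := Real.add_one_le_exp (-(1 / 4 : ℝ))
      have h10 : Real.exp (-(1 / 4)) * Real.exp (1 / 4) = 1 := by rw [← Real.exp_add]; simp
      nlinarith [Real.exp_pos (1 / 4 : ℝ)]
    rw [e1]
    have e3 : DD c v m * ∏ j ∈ Finset.range m, (1 + x j) - DD c v m = DD c v m * (∏ j ∈ Finset.range m, (1 + x j) - 1) := by ring
    rw [e3, norm_mul]
    have h11 : ‖∏ j ∈ Finset.range m, (1 + x j) - 1‖ ≤ 1 / 2 := by linarith
    calc ‖DD c v m‖ * ‖∏ j ∈ Finset.range m, (1 + x j) - 1‖ ≤ ‖DD c v m‖ * (1 / 2) :=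
          mul_le_mul_of_nonneg_left h11 (norm_nonneg _)
      _ = ‖DD c v m‖ / 2 := by ring
  refine ⟨key, ?_⟩
  intro z hz w hw
  have h1 := Convex.norm_image_sub_le_of_norm_hasDerivWithin_le
    (f := fun y => (f c)^[m] y - DD c v m * y) (f' := fun y => ∏ j ∈ Finset.range m, (2 * (f c)^[j] y) - DD c v m)
    (s := ball v r) (C := ‖DD c v m‖ / 2) (fun y _ => by
      have h2 := hasDeriv c m y
      have h3 : HasDerivAt (fun y => DD c v m * y) (DD c v m) y := by
        simpa using (hasDerivAt_id y).const_mul (DD c v m)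
      exact (h2.sub h3).hasDerivWithinAt) key (convex_ball v r) hw hz
  have e4 : (f c)^[m] z - (f c)^[m] w - DD c v m * (z - w) =
      ((f c)^[m] z - DD c v m * z) - ((f c)^[m] w - DD c v m * w) := by ring
  rw [e4]
  exact h1

end dist

theorem vv_cont (j : ℕ) : Continuous (fun p : ℂ × ℂ => vv p.1 p.2 j) := by
  induction j with
  | zero => simpa [vv] using continuous_snd
  | succ j ih =>
    simp_rw [vv_succ]
    exact (ih.pow 2).add continuous_fst

theorem orb_per {L k : ℕ} {c v : ℂ} (h : Orb L k c v) : ∀ j, k + 1 ≤ j → vv c v (j + (L - k)) = vv c v j := by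
  have hlt := h.lt
  intro j hj
  induction j, hj using Nat.le_induction with
  | base =>
    rw [show k + 1 + (L - k) = L + 1 by omega, vv_succ, vv_succ, h.opp]; ring
  | succ j hj ih =>
    rw [show j + 1 + (L - k) = (j + (L - k)) + 1 by omega, vv_succ, vv_succ, ih]

theorem orb_red {L k : ℕ} {c v : ℂ} (h : Orb L k c v) : ∀ j, ∃ i, i ≤ L ∧ vv c v j = vv c v i := by
  have hlt := h.lt
  intro j
  induction j using Nat.strong_induction_on with
  | _ j ih =>
  by_cases hj : j ≤ L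
  · exact ⟨j, hj, rfl⟩
  · obtain ⟨i, hi1, hi2⟩ := ih (j - (L - k)) (by omega)
    refine ⟨i, hi1, ?_⟩
    rw [← hi2, ← orb_per h (j - (L - k)) (by omega)]
    congr 1; omega

theorem orb_ne {L k : ℕ} {c₀ : ℂ} (h : Orb L k c₀ c₀) : ∀ j, j ≤ L → vv c₀ c₀ j ≠ 0 := by
  have hlt := h.lt
  have main : ∀ j, j < L → vv c₀ c₀ j ≠ 0 := by
    intro j hj h0
    have h1 : vv c₀ c₀ (j + 1) = vv c₀ c₀ 0 := by
      rw [vv_succ, h0, vv_zero]; ring
    have := h.inj (j + 1) (by omega) 0 (by omega) h1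
    omega
  intro j hj h0
  rcases hj.lt_or_eq with h1 | h1
  · exact main j h1 h0
  · subst h1
    have := h.opp
    rw [h0] at this
    exact main k hlt (neg_eq_zero.1 this.symm)

theorem expand {L k : ℕ} {c₀ : ℂ} (h : Orb L k c₀ c₀)
    (hmu : 1 < ‖∏ j ∈ Finset.Icc (k + 1) L, (2 * vv c₀ c₀ j)‖) :
    ∃ ρ κ s₀ C : ℝ, 0 < ρ ∧ 0 < κ ∧ 0 < s₀ ∧ 0 < C ∧ ∀ c v : ℂ, ‖c - c₀‖ ≤ ρ → ‖v - c₀‖ ≤ ρ →
      Orb L k c v → ∀ s : ℝ, 0 < s → s ≤ s₀ → ∃ n : ℕ, (n : ℝ) ≤ C * (1 + |Real.log s|) ∧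
        InjOn ((f c)^[n]) (ball v s) ∧ ∀ z ∈ ball v s, κ / s ≤ ‖deriv ((f c)^[n]) z‖ := by
  have hlt := h.lt
  set p := L - k with hp
  have hp0 : 0 < p := by omega
  -- constants
  obtain ⟨jm, hjm, hmin⟩ := Finset.exists_min_image (Finset.range (L + 1)) (fun j => ‖2 * vv c₀ c₀ j‖) ⟨0, by simp⟩
  obtain ⟨jM, hjM, hmax⟩ := Finset.exists_max_image (Finset.range (L + 1)) (fun j => ‖2 * vv c₀ c₀ j‖) ⟨0, by simp⟩
  have hm0 : 0 < ‖2 * vv c₀ c₀ jm‖ := by
    rw [norm_pos_iff]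
    exact mul_ne_zero two_ne_zero (orb_ne h jm (by have := Finset.mem_range.1 hjm; omega))
  set b : ℝ := min 1 (‖2 * vv c₀ c₀ jm‖ / 2) with hb
  have hb0 : 0 < b := lt_min one_pos (by positivity)
  have hb1 : b ≤ 1 := min_le_left _ _
  set B : ℝ := ‖2 * vv c₀ c₀ jM‖ + 1 with hB
  have hB0 : 0 < B := by positivity
  set Λ : ℝ := (1 + ‖∏ j ∈ Finset.Icc (k + 1) L, (2 * vv c₀ c₀ j)‖) / 2 with hΛ
  have hΛ1 : 1 < Λ := by rw [hΛ]; linarith
  have hΛ2 : Λ < ‖∏ j ∈ Finset.Icc (k + 1) L, (2 * vv c₀ c₀ j)‖ := by rw [hΛ]; linarith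
  set τ : ℝ := Λ ^ ((p : ℝ)⁻¹) with hτ
  have hτ1 : 1 < τ := Real.one_lt_rpow hΛ1 (by positivity)
  have hτp : τ ^ p = Λ := Real.rpow_inv_natCast_pow (by linarith) hp0.ne'
  set a : ℝ := b ^ (k + 1 + p) / τ ^ (k + 1 + p) with ha
  have hτ0 : 0 < τ := by linarith
  have ha0 : 0 < a := by positivity
  have hτ10 : 0 < τ - 1 := by linarith
  set t : ℝ := b * (a * (τ - 1)) / 16 with ht
  have ht0 : 0 < t := by positivity
  -- the neighbourhood
  have ev : ∀ᶠ q : ℂ × ℂ in nhds (c₀, c₀), (∀ j ∈ Finset.range (L + 1), b < ‖2 * vv q.1 q.2 j‖ ∧ ‖2 * vv q.1 q.2 j‖ < B) ∧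
      Λ < ‖∏ j ∈ Finset.Icc (k + 1) L, (2 * vv q.1 q.2 j)‖ := by
    apply Filter.Eventually.and
    · rw [Filter.eventually_all_finset]
      intro j hj
      have hc : Continuous (fun q : ℂ × ℂ => ‖2 * vv q.1 q.2 j‖) := (continuous_const.mul (vv_cont j)).norm
      have h1 : b < ‖2 * vv c₀ c₀ j‖ := by
        have := hmin j hj
        have h2 : b ≤ ‖2 * vv c₀ c₀ jm‖ / 2 := min_le_right _ _
        linarith
      have h2 : ‖2 * vv c₀ c₀ j‖ < B := by
        have := hmax j hj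
        rw [hB]; linarith
      have e1 : {q : ℂ × ℂ | b < ‖2 * vv q.1 q.2 j‖} ∈ nhds (c₀, c₀) := (isOpen_lt continuous_const hc).mem_nhds h1
      have e2 : {q : ℂ × ℂ | ‖2 * vv q.1 q.2 j‖ < B} ∈ nhds (c₀, c₀) := (isOpen_lt hc continuous_const).mem_nhds h2
      exact Filter.inter_mem e1 e2
    · have hc : Continuous (fun q : ℂ × ℂ => ‖∏ j ∈ Finset.Icc (k + 1) L, (2 * vv q.1 q.2 j)‖) :=
        (continuous_finsetProd _ fun j _ => continuous_const.mul (vv_cont j)).norm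
      exact (isOpen_lt continuous_const hc).mem_nhds hΛ2
  rw [Metric.eventually_nhds_iff] at ev
  obtain ⟨ε, hε, hev⟩ := ev
  have hlogτ : 0 < Real.log τ := Real.log_pos hτ1
  refine ⟨ε / 2, t / (2 * B), t, (|Real.log (t / a)| + 1) / Real.log τ, by positivity, by positivity, ht0, by positivity, ?_⟩
  intro c v hc hv ho s hs hst
  have hq := hev (y := (c, v)) (by
    rw [Prod.dist_eq, dist_eq_norm, dist_eq_norm]
    exact lt_of_le_of_lt (max_le hc hv) (by linarith))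
  obtain ⟨hq1, hq2⟩ := hq
  have hx : ∀ j, b ≤ ‖2 * vv c v j‖ := by
    intro j
    obtain ⟨i, hi1, hi2⟩ := orb_red ho j
    rw [hi2]
    exact (hq1 i (Finset.mem_range.2 (by omega))).1.le
  have hxB : ∀ j, ‖2 * vv c v j‖ ≤ B := by
    intro j
    obtain ⟨i, hi1, hi2⟩ := orb_red ho j
    rw [hi2]
    exact (hq1 i (Finset.mem_range.2 (by omega))).2.le
  have hE : ∀ j m, a * τ ^ m ≤ ∏ i ∈ Finset.Ico j (j + m), ‖2 * vv c v i‖ := by
    intro j m
    apply E_bound hb0 hb1 hx hp0 _ hτ1.le _ j m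
    · intro j hj
      rw [orb_per ho j hj]
    · rw [hτp]
      have e1 : Finset.Ico (k + 1) (k + 1 + p) = Finset.Icc (k + 1) L := by
        ext i; rw [Finset.mem_Ico, Finset.mem_Icc]; omega
      rw [e1, ← norm_prod]
      exact hq2.le
  -- the derivative grows
  have hD0 : DD c v 0 = 1 := by unfold DD; simp
  have hgrow : ∀ n, a * τ ^ n ≤ ‖DD c v n‖ := by
    intro n
    have := DD_ratio hE (Nat.zero_le n)
    rw [hD0, norm_one, one_mul, Nat.sub_zero] at this
    exact this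
  have hex : ∃ n, t < ‖DD c v n‖ * s := by
    obtain ⟨n, hn⟩ := pow_unbounded_of_one_lt (t / (a * s)) hτ1
    refine ⟨n, ?_⟩
    rw [div_lt_iff₀ (by positivity)] at hn
    have := mul_le_mul_of_nonneg_right (hgrow n) hs.le
    calc t < τ ^ n * (a * s) := hn
      _ = a * τ ^ n * s := by ring
      _ ≤ _ := this
  classical
  set N := Nat.find hex with hN
  have hN1 : t < ‖DD c v N‖ * s := Nat.find_spec hex
  have hN2 : ∀ j, j < N → ‖DD c v j‖ * s ≤ t := fun j hj => not_lt.1 (Nat.find_min hex hj)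
  have hN0 : N ≠ 0 := by
    intro h0
    rw [h0, hD0, norm_one, one_mul] at hN1
    linarith
  obtain ⟨n, hn⟩ := Nat.exists_eq_succ_of_ne_zero hN0
  have hr : ∀ j, j ≤ n → ‖DD c v j‖ * s ≤ t := fun j hj => hN2 j (by omega)
  have hlow : t / (B * s) ≤ ‖DD c v n‖ := by
    rw [div_le_iff₀ (by positivity)]
    have e1 : DD c v N = DD c v n * (2 * vv c v n) := by
      rw [hn]; unfold DD; rw [Finset.prod_range_succ]
    rw [e1, norm_mul] at hN1
    calc t ≤ ‖DD c v n‖ * ‖2 * vv c v n‖ * s := hN1.le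
      _ ≤ ‖DD c v n‖ * B * s := by gcongr; exact hxB n
      _ = ‖DD c v n‖ * (B * s) := by ring
  have hDpos : 0 < ‖DD c v n‖ := lt_of_lt_of_le (by positivity) hlow
  have hmain := distort ha0 hτ1 hb0 hx hE (by rw [ht]; linarith) hs hr n le_rfl
  refine ⟨n, ?_, ?_, ?_⟩
  · -- bound on n
    have h1 : a * τ ^ n ≤ t / s := by
      rw [le_div_iff₀ hs]
      exact (mul_le_mul_of_nonneg_right (hgrow n) hs.le).trans (hr n le_rfl)
    have h2 : τ ^ n ≤ (t / a) / s := by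
      rw [le_div_iff₀ hs, le_div_iff₀ ha0]
      rw [le_div_iff₀ hs] at h1
      linarith
    have h3 := Real.log_le_log (by positivity) h2
    rw [Real.log_pow, Real.log_div (by positivity) hs.ne'] at h3
    rw [div_mul_eq_mul_div, le_div_iff₀ hlogτ]
    have h4 := le_abs_self (Real.log (t / a))
    have h5 := neg_abs_le (Real.log s)
    nlinarith [abs_nonneg (Real.log (t / a)), abs_nonneg (Real.log s),
      mul_nonneg (abs_nonneg (Real.log (t / a))) (abs_nonneg (Real.log s))]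
  · intro z hz w hw hzw
    have h1 := hmain.2 z hz w hw
    rw [hzw, sub_self, zero_sub, norm_neg, norm_mul] at h1
    have h2 : ‖z - w‖ ≤ 0 := by
      by_contra hcon
      push Not at hcon
      nlinarith [mul_pos hDpos hcon]
    exact sub_eq_zero.1 (norm_eq_zero.1 (le_antisymm h2 (norm_nonneg _)))
  · intro z hz
    rw [(hasDeriv c n z).deriv]
    have h1 := hmain.1 z hz
    have h2 : ‖DD c v n‖ - ‖∏ j ∈ Finset.range n, (2 * (f c)^[j] z)‖ ≤ ‖DD c v n‖ / 2 := by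
      refine (norm_sub_norm_le _ _).trans ?_
      rw [norm_sub_rev]; exact h1
    have h3 : t / (2 * B) / s ≤ ‖DD c v n‖ / 2 := by
      calc t / (2 * B) / s = (t / (B * s)) / 2 := by field_simp
        _ ≤ ‖DD c v n‖ / 2 := div_le_div_of_nonneg_right hlow (by norm_num)
    linarith

end Pool.Agent.TH626.J1685
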