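import Pool.Agent.TH37.SD.Defs

/-! Extension of homogeneous class functions (helper626, for helper37). -/

set_option autoImplicit false

namespace Pool.Agent.TH626.SDKx

open Pool.Agent.TH37.SD

section

variable {p : ℕ} {P : Type} [Group P]

theorem zpow_cong (hexp : ∀ g : P, g ^ p = 1) {i j : ℤ} (h : (i : ZMod p) = (j : ZMod p)) (g : P) :
    g ^ i = g ^ j := by
  have h1 : (p : ℤ) ∣ i - j := by
    rw [← ZMod.intCast_zmod_eq_zero_iff_dvd]
    push_cast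
    rw [h, sub_self]
  obtain ⟨k, hk⟩ := h1
  have h2 : i = j + p * k := by linarith
  rw [h2, zpow_add, zpow_mul, zpow_natCast, hexp, one_zpow, mul_one]

theorem cong_of_zpow (hp : p.Prime) (hexp : ∀ g : P, g ^ p = 1) {i j : ℤ} {g : P} (hg : g ≠ 1)
    (h : g ^ i = g ^ j) : (i : ZMod p) = (j : ZMod p) := by
  have : Fact p.Prime := ⟨hp⟩
  have ho : orderOf g = p := orderOf_eq_prime (hexp g) hg
  have h1 : g ^ (i - j) = 1 := by rw [zpow_sub, h, mul_inv_cancel]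
  have h2 : (p : ℤ) ∣ i - j := by
    rw [← ho]
    exact orderOf_dvd_iff_zpow_eq_one.2 h1
  have h3 := (ZMod.intCast_zmod_eq_zero_iff_dvd (i - j) p).2 h2
  push_cast at h3
  exact sub_eq_zero.1 h3

theorem conj_iter {w s : P} {i : ℤ} (h : w * s * w⁻¹ = s ^ i) (n : ℕ) :
    w ^ n * s * (w ^ n)⁻¹ = s ^ (i ^ n) := by
  induction n with
  | zero => simp
  | succ n ih =>
    have h1 : w ^ (n + 1) * s * (w ^ (n + 1))⁻¹ = w * (w ^ n * s * (w ^ n)⁻¹) * w⁻¹ := by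
      rw [pow_succ']
      group
    rw [h1, ih, ← conj_zpow, h, ← zpow_mul, pow_succ']

theorem key (hp : p.Prime) (hexp : ∀ g : P, g ^ p = 1) {w s : P} (hs : s ≠ 1) {i : ℤ}
    (h : w * s * w⁻¹ = s ^ i) : (i : ZMod p) = 1 := by
  have : Fact p.Prime := ⟨hp⟩
  have h1 := conj_iter h p
  rw [hexp w, one_mul, inv_one, mul_one] at h1
  have h2 : s ^ (1 : ℤ) = s ^ (i ^ p) := by rw [zpow_one]; exact h1
  have h3 := cong_of_zpow hp hexp hs h2
  push_cast at h3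
  rw [ZMod.pow_card] at h3
  exact h3.symm

theorem exists_inv (hp : p.Prime) {j : ℤ} (hj : ¬ (p : ℤ) ∣ j) :
    ∃ j' : ℤ, ((j * j' : ℤ) : ZMod p) = 1 ∧ ¬ (p : ℤ) ∣ j' := by
  have : Fact p.Prime := ⟨hp⟩
  have h0 : (j : ZMod p) ≠ 0 := fun h => hj ((ZMod.intCast_zmod_eq_zero_iff_dvd j p).1 h)
  obtain ⟨j', hj'⟩ := ZMod.intCast_surjective ((j : ZMod p)⁻¹)
  have h1 : ((j * j' : ℤ) : ZMod p) = 1 := by
    push_cast
    rw [hj', mul_inv_cancel₀ h0]
  refine ⟨j', h1, fun h => ?_⟩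
  have h2 := (ZMod.intCast_zmod_eq_zero_iff_dvd j' p).2 h
  push_cast at h1
  rw [h2, mul_zero] at h1
  exact zero_ne_one h1

/-- the equivalence relation -/
def sd (hp : p.Prime) (hexp : ∀ g : P, g ^ p = 1) : Setoid P where
  r g h := ∃ (u : P) (j : ℤ), ¬ (p : ℤ) ∣ j ∧ h = u * g ^ j * u⁻¹
  iseqv := by
    have hp1 : ¬ (p : ℤ) ∣ 1 := by
      intro h
      have := Int.le_of_dvd (by norm_num) h
      have := hp.two_le
      omega
    refine ⟨fun g => ⟨1, 1, hp1, by simp⟩, ?_, ?_⟩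
    · rintro g h ⟨u, j, hj, rfl⟩
      obtain ⟨j', h1, h2⟩ := exists_inv hp hj
      refine ⟨u⁻¹, j', h2, ?_⟩
      rw [conj_zpow, ← zpow_mul, zpow_cong hexp (i := j * j') (j := 1) (by rw [h1]; simp) g]
      group
    · rintro g h k ⟨u, j, hj, rfl⟩ ⟨v, i, hi, rfl⟩
      refine ⟨v * u, j * i, ?_, ?_⟩
      · intro h
        rcases (Nat.prime_iff_prime_int.1 hp).dvd_or_dvd h with h | h
        · exact hj h
        · exact hi h
      · rw [conj_zpow, ← zpow_mul]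
        group

theorem uniq (hp : p.Prime) (hexp : ∀ g : P, g ^ p = 1) {s u u' : P} (hs : s ≠ 1) {j j' : ℤ}
    (hj : ¬ (p : ℤ) ∣ j) (h : u * s ^ j * u⁻¹ = u' * s ^ j' * u'⁻¹) :
    (j : ZMod p) = (j' : ZMod p) := by
  obtain ⟨i, hi1, -⟩ := exists_inv hp hj
  have h1 : (u'⁻¹ * u) * s ^ j * (u'⁻¹ * u)⁻¹ = s ^ j' := by
    have : (u'⁻¹ * u) * s ^ j * (u'⁻¹ * u)⁻¹ = u'⁻¹ * (u * s ^ j * u⁻¹) * u' := by group
    rw [this, h]
    group
  have h2 : (u'⁻¹ * u) * s * (u'⁻¹ * u)⁻¹ = s ^ (j' * i) := by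
    have e1 : s = s ^ (j * i) := by
      rw [zpow_cong hexp (i := j * i) (j := 1) (by rw [hi1]; simp) s, zpow_one]
    have e2 : (u'⁻¹ * u) * s ^ (j * i) * (u'⁻¹ * u)⁻¹ = s ^ (j' * i) := by
      rw [zpow_mul, ← conj_zpow, h1, ← zpow_mul]
    rwa [← e1] at e2
  have h3 := key hp hexp hs h2
  have : Fact p.Prime := ⟨hp⟩
  push_cast at h3 hi1
  have hi0 : (i : ZMod p) ≠ 0 := by
    intro h0
    rw [h0, mul_zero] at hi1
    exact zero_ne_one hi1
  exact mul_right_cancel₀ hi0 (hi1.trans h3.symm)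

end

theorem kx : KxStmt := by
  classical
  intro p hp P _ hexp R hR hR0
  have : Fact p.Prime := ⟨hp⟩
  let S : Setoid P := sd hp hexp
  have hne : ∀ {g : P} {j : ℤ}, g ≠ 1 → ¬ (p : ℤ) ∣ j → g ^ j ≠ 1 := by
    intro g j hg hj h
    apply hj
    rw [← orderOf_eq_prime (hexp g) hg]
    exact orderOf_dvd_iff_zpow_eq_one.2 h
  have hcl : ∀ q : Quotient S, ∃ (s : P) (a : ZMod p), Quotient.mk S s = q ∧ a ≠ 0 ∧
      ∀ (t : P) (b : ZMod p), R t b → t ≠ 1 → Quotient.mk S t = q →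
        ∀ (u : P) (j : ℤ), t = u * s ^ j * u⁻¹ → b = j * a := by
    intro q
    by_cases h : ∃ (s : P) (a : ZMod p), R s a ∧ s ≠ 1 ∧ Quotient.mk S s = q
    · obtain ⟨s, a, h1, h2, h3⟩ := h
      exact ⟨s, a, h3, hR0 s a h1 h2, fun t b h4 h5 _ u j h6 => hR s t u j a b h1 h4 h2 h5 h6⟩
    · refine ⟨Quotient.out q, 1, Quotient.out_eq q, one_ne_zero, ?_⟩
      intro t b h1 h2 h3
      exact absurd ⟨t, b, h1, h2, h3⟩ h
  choose s0 a0 hs0 ha0 hRa using hcl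
  have hrel : ∀ g : P, ∃ (u : P) (j : ℤ), ¬ (p : ℤ) ∣ j ∧
      g = u * (s0 (Quotient.mk S g)) ^ j * u⁻¹ := fun g => Quotient.exact (hs0 (Quotient.mk S g))
  choose uu jj hjj huu using hrel
  have hs1 : ∀ g : P, g ≠ 1 → s0 (Quotient.mk S g) ≠ 1 := by
    intro g hg h
    apply hg
    rw [huu g, h, one_zpow, mul_one, mul_inv_cancel]
  obtain ⟨κ, hκ⟩ : ∃ κ : P → ZMod p, ∀ g, κ g =
      if g = 1 then 0 else (jj g : ZMod p) * a0 (Quotient.mk S g) := ⟨_, fun g => rfl⟩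
  have hκ1 : κ 1 = 0 := by rw [hκ, if_pos rfl]
  have hval : ∀ (g : P), g ≠ 1 → ∀ (u : P) (j : ℤ), g = u * (s0 (Quotient.mk S g)) ^ j * u⁻¹ →
      κ g = j * a0 (Quotient.mk S g) := by
    intro g hg u j h
    rw [hκ, if_neg hg]
    congr 1
    exact uniq hp hexp (hs1 g hg) (hjj g) ((huu g).symm.trans h)
  refine ⟨κ, ⟨?_, ?_⟩, ?_⟩
  · intro g u j
    by_cases hj : (p : ℤ) ∣ j
    · obtain ⟨k, rfl⟩ := hj
      rw [zpow_mul, zpow_natCast, hexp, one_zpow, mul_one, mul_inv_cancel, hκ1]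
      push_cast
      rw [ZMod.natCast_self]
      ring
    by_cases hg : g = 1
    · rw [hg, one_zpow, mul_one, mul_inv_cancel, hκ1, mul_zero]
    have hcls : Quotient.mk S (u * g ^ j * u⁻¹) = Quotient.mk S g :=
      (Quotient.sound (⟨u, j, hj, rfl⟩ : (sd hp hexp).r g (u * g ^ j * u⁻¹))).symm
    have hn : u * g ^ j * u⁻¹ ≠ 1 := by
      intro h
      apply hne hg hj
      rw [mul_inv_eq_one] at h
      exact mul_eq_left.1 h
    have e := huu g
    rw [hval _ hn (u * uu g) (jj g * j) (by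
      rw [hcls]
      conv_lhs => rw [e]
      rw [conj_zpow, ← zpow_mul]
      group), hcls, hκ g, if_neg hg]
    push_cast
    ring
  · intro g h
    by_contra hg
    rw [hκ, if_neg hg] at h
    rcases mul_eq_zero.1 h with h | h
    · exact hjj g ((ZMod.intCast_zmod_eq_zero_iff_dvd _ p).1 h)
    · exact ha0 _ h
  · intro s a h1 h2
    have h3 := hRa (Quotient.mk S s) s a h1 h2 rfl (uu s) (jj s) (huu s)
    rw [hκ, if_neg h2, h3]

end Pool.Agent.TH626.SDKx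


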