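import Pool.Agent.TH626.LK_EXP

set_option autoImplicit false

namespace Pool.Agent.TH626.LK_AV0

open Finset Filter Topology MeasureTheory Complex MonoidAlgebra
open Pool.Agent.W184.NZ
open Pool.Agent.TH806
open Pool.Agent.TH806.LK
open Pool.Agent.TH626.LK_EXP
open Pool.Agent.H306R2.SM (om cl Yf)
open Pool.Agent.H262R4.TM (Rng Ck)

noncomputable section

theorem t_AV0 : P_AV0 := by
  have hlog := Real.tendsto_log_atTop
  have hsm : ∀ᶠ T : ℝ in atTop, 4 * Real.log T ^ 2 ≤ T ^ (2 / 5 : ℝ) := by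
    have h := (isLittleO_log_rpow_atTop (show (0:ℝ) < 1 / 10 by norm_num)).bound
      (show (0:ℝ) < 1 / 2 by norm_num)
    filter_upwards [h, eventually_ge_atTop (1:ℝ)] with T h1 hT1
    have hT0 : 0 < T := by linarith
    have hL : 0 ≤ Real.log T := Real.log_nonneg hT1
    rw [Real.norm_eq_abs, Real.norm_eq_abs, abs_of_nonneg hL, abs_of_nonneg (by positivity)] at h1
    have h2 : (1:ℝ) ≤ T ^ (1 / 5 : ℝ) := Real.one_le_rpow hT1 (by norm_num)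
    have h3 : T ^ (1 / 10 : ℝ) * T ^ (1 / 10 : ℝ) = T ^ (1 / 5 : ℝ) := by
      rw [← Real.rpow_add hT0]; norm_num
    have h4 : T ^ (1 / 5 : ℝ) * T ^ (1 / 5 : ℝ) = T ^ (2 / 5 : ℝ) := by
      rw [← Real.rpow_add hT0]; norm_num
    have h5 : 4 * Real.log T ^ 2 ≤ T ^ (1 / 5 : ℝ) := by
      have : Real.log T ^ 2 ≤ (1 / 2 * T ^ (1 / 10 : ℝ)) ^ 2 := pow_le_pow_left₀ hL h1 2
      nlinarith
    nlinarith
  filter_upwards [hsm, eventually_gt_atTop (3:ℝ), hlog.eventually_ge_atTop 1] with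
    T hsm hT3 hL1 κ hκ c Q C J I b K f ν hR hν hf hsum
  have hT0 : 0 < T := by linarith
  have hT1 : 1 ≤ T := by linarith
  have hκ1R : (1:ℝ) ≤ κ := by
    have := hκ.1
    nlinarith
  have hκ1 : 1 ≤ κ := by exact_mod_cast hκ1R
  have hκ4 : (κ:ℝ) ≤ T ^ (2 / 5 : ℝ) := hκ.2.trans hsm
  have hIp : ∀ i, ∀ p ∈ I i, p.Prime := fun i p hp => (hR.pr i p hp).1
  have hIb : ∀ i, ∀ p ∈ I i, p.Prime ∧ (p:ℝ) ≤ b i := fun i p hp => ⟨(hR.pr i p hp).1, (hR.pr i p hp).2.2⟩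
  have hb1 : ∀ i < J, 1 ≤ b i := fun i hi => by linarith [hR.b10 i hi]
  have hb0 : ∀ i < J, 0 < b i := fun i hi => by linarith [hR.b10 i hi]
  -- the coefficients
  have hcex : ∀ i, ∃ c : ℕ → ℕ → ℂ, i < J → (∀ k l, ‖c k l‖ ≤ 2 ^ (K i)) ∧ ∀ z, f i z = Fc (K i) c z := by
    intro i
    by_cases hi : i < J
    · obtain ⟨c, h1, h2⟩ := (hf i hi).2.1
      exact ⟨c, fun _ => ⟨h1, h2⟩⟩
    · exact ⟨0, fun h => absurd h hi⟩
  choose cc hcc using hcex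
  -- the size of the monomials
  set N : ℝ := ∏ i ∈ range J, b i ^ (2 * K i) with hN
  have hN1 : 1 ≤ N := by
    rw [hN]
    have : ∀ i ∈ range J, (1:ℝ) ≤ b i ^ (2 * K i) := fun i hi => one_le_pow₀ (hb1 i (mem_range.1 hi))
    calc (1:ℝ) = ∏ _i ∈ range J, (1:ℝ) := by rw [prod_const_one]
      _ ≤ _ := prod_le_prod (fun _ _ => zero_le_one) this
  have hNT : N ≤ T ^ (1 / 50 : ℝ) := by
    have := prod_pow_le hT0 hb0 hsum 2
    have e : ((2:ℕ) : ℝ) * (1 / 100) = 1 / 50 := by norm_num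
    rw [e] at this
    exact this
  have hST : ∏ i ∈ range J, b i ^ (K i) ≤ T ^ (1 / 100 : ℝ) := by
    have := prod_pow_le hT0 hb0 hsum 1
    simp only [one_mul, Nat.cast_one] at this
    exact this
  have hcN : N * κ / T ≤ T ^ (-(29 / 50) : ℝ) := by
    have h1 : N * κ ≤ T ^ (1 / 50 : ℝ) * T ^ (2 / 5 : ℝ) := by
      have : (0:ℝ) ≤ κ := by linarith
      gcongr
    have h2 : T ^ (1 / 50 : ℝ) * T ^ (2 / 5 : ℝ) = T ^ (-(29 / 50) : ℝ) * T := by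
      rw [← Real.rpow_add hT0]
      nth_rewrite 3 [← Real.rpow_one T]
      rw [← Real.rpow_add hT0]
      norm_num
    rw [div_le_iff₀ hT0, ← h2]
    exact h1
  have hcN1 : N * κ / T ≤ 1 := by
    refine hcN.trans (Real.rpow_le_one_of_one_le_of_nonpos hT1 (by norm_num))
  -- the expansion
  have e1 : ∀ t : ℝ, ∏ i ∈ range J, f i (zz I t i) = ∑ φ ∈ ix J K, cf cc φ * ev t (mon I φ) := by
    intro t
    rw [← exp_ev hIp]
    exact prod_congr rfl fun i hi => (hcc i (mem_range.1 hi)).2 _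
  have e2 : ∏ i ∈ range J, ∫ q, q.2 * f i q.1 ∂(ν i) =
      ∑ φ ∈ ix J K, cf cc φ * ((lam w0 (mon I φ) : ℝ) : ℂ) := by
    rw [← exp_law hν K cc (mon_lam goodW0 hIp hR.dj)]
    refine prod_congr rfl fun i hi => ?_
    refine integral_congr_ae (Eventually.of_forall fun q => ?_)
    simp only
    rw [(hcc i (mem_range.1 hi)).2]
  have hav : ∀ φ ∈ ix J K, _ := fun φ hφ =>
    avgOc (f := mon I φ) (mon_Bd hb1 hIb hφ) hT0 hκ1 hN1 hcN1
  have e3 : ∫ t in Set.Ioi (0:ℝ), ((om κ (κ / T) t : ℝ) : ℂ) * ∏ i ∈ range J, f i (zz I t i) =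
      ∑ φ ∈ ix J K, cf cc φ * ∫ t in Set.Ioi (0:ℝ), ((om κ (κ / T) t : ℝ) : ℂ) * ev t (mon I φ) := by
    have h1 : ∀ t : ℝ, ((om κ (κ / T) t : ℝ) : ℂ) * ∏ i ∈ range J, f i (zz I t i) =
        ∑ φ ∈ ix J K, cf cc φ * (((om κ (κ / T) t : ℝ) : ℂ) * ev t (mon I φ)) := by
      intro t
      rw [e1, mul_sum]
      exact sum_congr rfl fun φ _ => by ring
    simp_rw [h1]
    rw [integral_finsetSum _ fun φ hφ => (hav φ hφ).1.const_mul _]
    exact sum_congr rfl fun φ _ => integral_const_mul _ _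
  rw [e3, e2, ← sum_sub_distrib]
  refine (norm_sum_le _ _).trans ?_
  have h4 : ∀ φ ∈ ix J K, ‖cf cc φ * (∫ t in Set.Ioi (0:ℝ), ((om κ (κ / T) t : ℝ) : ℂ) * ev t (mon I φ)) -
      cf cc φ * ((lam w0 (mon I φ) : ℝ) : ℂ)‖ ≤ ‖cf cc φ‖ * (T ^ (-(29 / 50) : ℝ) * T ^ (1 / 50 : ℝ)) := by
    intro φ hφ
    rw [← mul_sub, norm_mul]
    refine mul_le_mul_of_nonneg_left ((hav φ hφ).2.trans ?_) (norm_nonneg _)
    exact mul_le_mul hcN ((mon_l1 hb1 hIb hφ).trans hNT) (l1_nonneg _) (by positivity)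
  refine (sum_le_sum h4).trans ?_
  rw [← sum_mul]
  have h5 := sum_cf_PB (c := cc) (fun i hi => (hf i hi).1) hR.b10 (fun i hi => (hcc i hi).1)
  calc (∑ φ ∈ ix J K, ‖cf cc φ‖) * (T ^ (-(29 / 50) : ℝ) * T ^ (1 / 50 : ℝ)) ≤
      T ^ (1 / 100 : ℝ) * (T ^ (-(29 / 50) : ℝ) * T ^ (1 / 50 : ℝ)) :=
        mul_le_mul_of_nonneg_right (h5.trans hST) (by positivity)
    _ = T ^ (-(55 / 100) : ℝ) := by
        rw [← Real.rpow_add hT0, ← Real.rpow_add hT0]; norm_num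
    _ ≤ T ^ (-(1 / 2) : ℝ) := Real.rpow_le_rpow_of_exponent_le hT1 (by norm_num)

end

end Pool.Agent.TH626.LK_AV0
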