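import Pool.Agent.TH168.Mil.Defs

set_option autoImplicit false

namespace Pool.Agent.TH626.J1783

open Set Filter Topology MeasureTheory
open scoped ContDiff
open Pool.Agent.TH168.Mil

theorem prim {g : ℝ → ℝ} (hg : ContinuousOn g (Ioi 0)) {y : ℝ} (hy : 0 < y) :
    HasDerivAt (fun y => ∫ s in y..1, g s) (-g y) y := by
  have hsub : uIcc y 1 ⊆ Ioi 0 := by
    intro x hx
    rw [mem_uIcc] at hx
    rcases hx with h | h
    · exact hy.trans_le h.1
    · exact one_pos.trans_le h.1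
  apply intervalIntegral.integral_hasDerivAt_left
  · exact (hg.mono hsub).intervalIntegrable
  · exact hg.stronglyMeasurableAtFilter isOpen_Ioi y hy
  · exact hg.continuousAt (Ioi_mem_nhds hy)

theorem prim_smooth {g : ℝ → ℝ} (hg : ContDiffOn ℝ ∞ g (Ioi 0)) :
    ContDiffOn ℝ ∞ (fun y => ∫ s in y..1, g s) (Ioi 0) := by
  rw [contDiffOn_infty_iff_deriv_of_isOpen isOpen_Ioi]
  constructor
  · intro y hy
    exact (prim hg.continuousOn hy).differentiableAt.differentiableWithinAt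
  · apply hg.neg.congr
    intro y hy
    exact (prim hg.continuousOn hy).deriv

theorem prim0 {g : ℝ → ℝ} (hg : Continuous g) (t : ℝ) : HasDerivAt (fun t => ∫ s in (0:ℝ)..t, g s) (g t) t :=
  intervalIntegral.integral_hasDerivAt_right (hg.intervalIntegrable _ _) (hg.stronglyMeasurableAtFilter _ _)
    hg.continuousAt

theorem prim0_smooth {g : ℝ → ℝ} (hg : ContDiff ℝ ∞ g) : ContDiff ℝ ∞ (fun t => ∫ s in (0:ℝ)..t, g s) := by
  rw [contDiff_infty_iff_deriv]
  constructor
  · intro t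
    exact (prim0 hg.continuous t).differentiableAt
  · have : deriv (fun t => ∫ s in (0:ℝ)..t, g s) = g := by
      ext t; exact (prim0 hg.continuous t).deriv
    rw [this]; exact hg

theorem tau_smooth : ContDiff ℝ ∞ tau := by
  unfold tau
  exact Real.smoothTransition.contDiff.comp (by fun_prop)

theorem tc_smooth : ContDiff ℝ ∞ (fun s => tau s * Real.cos s) := tau_smooth.mul Real.contDiff_cos
theorem ts_smooth : ContDiff ℝ ∞ (fun s => tau s * Real.sin s) := tau_smooth.mul Real.contDiff_sin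

theorem Gc_smooth : ContDiff ℝ ∞ Gc := prim0_smooth tc_smooth
theorem Gs_smooth : ContDiff ℝ ∞ Gs := prim0_smooth ts_smooth

theorem Gc_deriv (t : ℝ) : HasDerivAt Gc (tau t * Real.cos t) t := prim0 tc_smooth.continuous t
theorem Gs_deriv (t : ℝ) : HasDerivAt Gs (tau t * Real.sin t) t := prim0 ts_smooth.continuous t

theorem sinh_ne {y : ℝ} (hy : 0 < y) : Real.sinh y ≠ 0 := (Real.sinh_pos_iff.2 hy).ne'

theorem hasDerivAt_phi {y : ℝ} (hy : 0 < y) : HasDerivAt phi (-2 * coth y) y := by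
  have h1 : HasDerivAt (fun y => 1000 * Real.sinh y) (1000 * Real.cosh y) y := (Real.hasDerivAt_sinh y).const_mul 1000
  have hs := sinh_ne hy
  have h2 := (h1.log (mul_ne_zero (by norm_num) hs)).const_mul (-2)
  have e : -2 * (1000 * Real.cosh y / (1000 * Real.sinh y)) = -2 * coth y := by
    unfold coth; field_simp
  rw [e] at h2
  exact h2

theorem hasDerivAt_coth {y : ℝ} (hy : 0 < y) : HasDerivAt coth (-(1 / Real.sinh y ^ 2)) y := by
  have hs := sinh_ne hy
  have h := (Real.hasDerivAt_cosh y).div (Real.hasDerivAt_sinh y) hs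
  have e : (Real.sinh y * Real.sinh y - Real.cosh y * Real.cosh y) / Real.sinh y ^ 2 = -(1 / Real.sinh y ^ 2) := by
    have := Real.cosh_sq y
    rw [← neg_div]
    congr 1
    nlinarith
  rw [e] at h
  exact h

/-! ### smoothness -/

theorem contDiffOn_phi : ContDiffOn ℝ ∞ phi (Ioi 0) := by
  have h1 : ContDiffOn ℝ ∞ (fun y => 1000 * Real.sinh y) (Ioi 0) := (contDiff_const.mul Real.contDiff_sinh).contDiffOn
  exact contDiffOn_const.mul (h1.log fun y hy => mul_ne_zero (by norm_num) (sinh_ne hy))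

theorem contDiffOn_coth : ContDiffOn ℝ ∞ coth (Ioi 0) :=
  Real.contDiff_cosh.contDiffOn.div Real.contDiff_sinh.contDiffOn fun _ hy => sinh_ne hy

theorem sg_smooth : ContDiffOn ℝ ∞ sg (Ioi 0) := by
  unfold sg
  exact Real.smoothTransition.contDiff.comp_contDiffOn (contDiffOn_const.mul contDiffOn_phi)

theorem cphi_smooth : ContDiffOn ℝ ∞ (fun y => Real.cos (phi y)) (Ioi 0) := contDiffOn_phi.cos
theorem sphi_smooth : ContDiffOn ℝ ∞ (fun y => Real.sin (phi y)) (Ioi 0) := contDiffOn_phi.sin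
theorem tauphi_smooth : ContDiffOn ℝ ∞ (fun y => tau (phi y)) (Ioi 0) := tau_smooth.comp_contDiffOn contDiffOn_phi
theorem expn_smooth : ContDiffOn ℝ ∞ (fun y : ℝ => Real.exp (-y)) (Ioi 0) := (contDiff_neg.exp).contDiffOn

theorem ic_smooth : ContDiffOn ℝ ∞ ic (Ioi 0) :=
  sg_smooth.mul ((contDiffOn_const.mul cphi_smooth).add (contDiffOn_const.mul sphi_smooth))

theorem js_smooth : ContDiffOn ℝ ∞ js (Ioi 0) :=
  sg_smooth.mul (((contDiffOn_const.mul sphi_smooth).sub (contDiffOn_const.mul cphi_smooth)).add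
    (contDiffOn_const.mul expn_smooth))

theorem Ic_smooth : ContDiffOn ℝ ∞ Ic (Ioi 0) := prim_smooth ic_smooth
theorem Is_smooth : ContDiffOn ℝ ∞ Is (Ioi 0) := prim_smooth js_smooth

theorem C1_smooth : ContDiffOn ℝ ∞ C1 (Ioi 0) := (Gc_smooth.comp_contDiffOn contDiffOn_phi).sub Ic_smooth

theorem D1_smooth : ContDiffOn ℝ ∞ D1 (Ioi 0) :=
  (expn_smooth.add (Gs_smooth.comp_contDiffOn contDiffOn_phi)).sub Is_smooth

theorem contDiffOn_Cc : ContDiffOn ℝ ∞ Cc (Ioi 0) := (prim_smooth C1_smooth).neg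

theorem Dt_smooth : ContDiffOn ℝ ∞ Dt (Ioi 0) := (prim_smooth (D1_smooth.sub expn_smooth)).neg

theorem contDiffOn_Dd : ContDiffOn ℝ ∞ Dd (Ioi 0) := expn_smooth.neg.add Dt_smooth

theorem Bc_smooth : ContDiffOn ℝ ∞ Bc (Ioi 0) :=
  ((((contDiffOn_const.mul tauphi_smooth).mul contDiffOn_coth).mul cphi_smooth).add ic_smooth).add
    (contDiffOn_const.mul contDiffOn_Cc)

theorem Bs_smooth : ContDiffOn ℝ ∞ Bs (Ioi 0) :=
  (((((contDiffOn_const.mul tauphi_smooth).mul contDiffOn_coth).mul sphi_smooth).add js_smooth).sub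
    (contDiffOn_const.mul expn_smooth)).add (contDiffOn_const.mul Dt_smooth)

theorem al_smooth : ContDiffOn ℝ ∞ al (Ioi 0) :=
  sg_smooth.neg.mul ((Bc_smooth.mul cphi_smooth).add (Bs_smooth.mul sphi_smooth))

theorem Jc_smooth : ContDiffOn ℝ ∞ Jc (Ioi 0) := prim_smooth (Real.contDiff_cosh.contDiffOn.mul al_smooth)
theorem Js_smooth : ContDiffOn ℝ ∞ Js (Ioi 0) := prim_smooth (Real.contDiff_sinh.contDiffOn.mul al_smooth)

theorem contDiffOn_a0 : ContDiffOn ℝ ∞ a0 (Ioi 0) :=
  (Real.contDiff_cosh.contDiffOn.mul Js_smooth).sub (Real.contDiff_sinh.contDiffOn.mul Jc_smooth)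

theorem continuousOn_al : ContinuousOn al (Ioi 0) := al_smooth.continuousOn

/-! ### derivatives -/

theorem hasDerivAt_C1 {y : ℝ} (hy : 0 < y) : HasDerivAt C1 (Bc y - 3 * Cc y) y := by
  have h1 : HasDerivAt (fun y => Gc (phi y)) (tau (phi y) * Real.cos (phi y) * (-2 * coth y)) y :=
    (Gc_deriv (phi y)).comp y (hasDerivAt_phi hy)
  have h2 : HasDerivAt Ic (-ic y) y := prim ic_smooth.continuousOn hy
  have h := h1.sub h2
  have e : tau (phi y) * Real.cos (phi y) * (-2 * coth y) - -ic y = Bc y - 3 * Cc y := by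
    unfold Bc; ring
  rw [e] at h
  exact h

theorem hasDerivAt_expn (y : ℝ) : HasDerivAt (fun y : ℝ => Real.exp (-y)) (-Real.exp (-y)) y := by
  have := (hasDerivAt_neg y).exp
  simpa using this

theorem hasDerivAt_D1 {y : ℝ} (hy : 0 < y) : HasDerivAt D1 (Bs y - 3 * Dd y) y := by
  have h1 : HasDerivAt (fun y => Gs (phi y)) (tau (phi y) * Real.sin (phi y) * (-2 * coth y)) y :=
    (Gs_deriv (phi y)).comp y (hasDerivAt_phi hy)
  have h2 : HasDerivAt Is (-js y) y := prim js_smooth.continuousOn hy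
  have h := ((hasDerivAt_expn y).add h1).sub h2
  have e : -Real.exp (-y) + tau (phi y) * Real.sin (phi y) * (-2 * coth y) - -js y = Bs y - 3 * Dd y := by
    unfold Bs Dd; ring
  rw [e] at h
  exact h

theorem hasDerivAt_Cc {y : ℝ} (hy : 0 < y) : HasDerivAt Cc (C1 y) y := by
  have h := (prim C1_smooth.continuousOn hy).neg
  rw [neg_neg] at h
  exact h

theorem hasDerivAt_Dd {y : ℝ} (hy : 0 < y) : HasDerivAt Dd (D1 y) y := by
  have h1 := (prim (D1_smooth.sub expn_smooth).continuousOn hy).neg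
  have h := (hasDerivAt_expn y).neg.add h1
  have e : - -Real.exp (-y) + - -(D1 y - Real.exp (-y)) = D1 y := by ring
  rw [e] at h
  exact h

theorem hasDerivAt_Jc {y : ℝ} (hy : 0 < y) : HasDerivAt Jc (-(Real.cosh y * al y)) y :=
  prim (Real.contDiff_cosh.contDiffOn.mul al_smooth).continuousOn hy

theorem hasDerivAt_Js {y : ℝ} (hy : 0 < y) : HasDerivAt Js (-(Real.sinh y * al y)) y :=
  prim (Real.contDiff_sinh.contDiffOn.mul al_smooth).continuousOn hy

theorem hasDerivAt_a0 {y : ℝ} (hy : 0 < y) : HasDerivAt a0 (a1 y) y := by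
  have h := ((Real.hasDerivAt_cosh y).mul (hasDerivAt_Js hy)).sub ((Real.hasDerivAt_sinh y).mul (hasDerivAt_Jc hy))
  have e : Real.sinh y * Js y + Real.cosh y * -(Real.sinh y * al y) -
      (Real.cosh y * Jc y + Real.sinh y * -(Real.cosh y * al y)) = a1 y := by
    unfold a1; ring
  rw [e] at h
  exact h

theorem hasDerivAt_a1 {y : ℝ} (hy : 0 < y) : HasDerivAt a1 (a0 y + al y) y := by
  have h := ((Real.hasDerivAt_sinh y).mul (hasDerivAt_Js hy)).sub ((Real.hasDerivAt_cosh y).mul (hasDerivAt_Jc hy))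
  have e : Real.cosh y * Js y + Real.sinh y * -(Real.sinh y * al y) -
      (Real.sinh y * Jc y + Real.cosh y * -(Real.cosh y * al y)) = a0 y + al y := by
    have := Real.cosh_sq y
    unfold a0
    linear_combination (al y) * this
  rw [e] at h
  exact h

end Pool.Agent.TH626.J1783
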