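import Pool.Agent.TH168.Mil.Defs

set_option autoImplicit false

namespace Pool.Agent.TH626.J1785

open Set Filter Topology MeasureTheory
open Pool.Agent.TH168.Mil

theorem exp_small {s : ℝ} (h0 : 0 ≤ s) (h1 : s ≤ 1 / 2) : Real.exp s ≤ 1 + 2 * s := by
  have h2 := Real.add_one_le_exp (-s)
  have h3 : Real.exp (-s) * Real.exp s = 1 := by rw [← Real.exp_add]; simp
  have h4 := Real.exp_pos s
  have h5 : (1 - s) * Real.exp s ≤ 1 := by
    rw [← h3]; exact mul_le_mul_of_nonneg_right (by linarith) h4.le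
  nlinarith

theorem cosh_small {s : ℝ} (h0 : 0 ≤ s) (h1 : s ≤ 1 / 2) : Real.cosh s ≤ 1 + s := by
  have h2 := exp_small h0 h1
  have h3 : Real.exp (-s) ≤ 1 := Real.exp_le_one_iff.2 (by linarith)
  rw [Real.cosh_eq]; linarith

theorem sinh_small {s : ℝ} (h0 : 0 ≤ s) (h1 : s ≤ 1 / 2) : Real.sinh s ≤ 2 * s := by
  have h2 := exp_small h0 h1
  have h3 := Real.add_one_le_exp (-s)
  rw [Real.sinh_eq]; linarith

theorem ivl {w : ℝ → ℝ} (hw : Continuous w) (hc : ContinuousOn al (Ioi 0)) {a b : ℝ} (ha : 0 < a) (hb : 0 < b) :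
    IntervalIntegrable (fun s => w s * al s) volume a b := by
  apply ContinuousOn.intervalIntegrable
  apply hw.continuousOn.mul
  apply hc.mono
  intro x hx
  rw [mem_uIcc] at hx
  rcases hx with h | h
  · exact ha.trans_le h.1
  · exact hb.trans_le h.1

theorem van {w : ℝ → ℝ} (h0 : ∀ y : ℝ, 1 / 1000 ≤ y → al y = 0) {a b : ℝ} (ha : 1 / 1000 ≤ a) (hb : 1 / 1000 ≤ b) :
    ∫ s in a..b, w s * al s = 0 := by
  have : ∫ s in a..b, w s * al s = ∫ _s in a..b, (0 : ℝ) := by
    apply intervalIntegral.integral_congr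
    intro x hx
    rw [mem_uIcc] at hx
    have : al x = 0 := by
      apply h0
      rcases hx with h | h
      · exact ha.trans h.1
      · exact hb.trans h.1
    simp only [this, mul_zero]
  rw [this]; simp

theorem cut {w : ℝ → ℝ} (hw : Continuous w) (hc : ContinuousOn al (Ioi 0)) (h0 : ∀ y : ℝ, 1 / 1000 ≤ y → al y = 0)
    {y : ℝ} (hy : 0 < y) : ∫ s in y..1, w s * al s = ∫ s in y..(1 / 1000), w s * al s := by
  rw [← intervalIntegral.integral_add_adjacent_intervals (ivl hw hc hy (by norm_num : (0:ℝ) < 1 / 1000))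
    (ivl hw hc (by norm_num) (by norm_num)), van h0 le_rfl (by norm_num), add_zero]

theorem a0_zero (h0 : ∀ y : ℝ, 1 / 1000 ≤ y → al y = 0) {y : ℝ} (hy : 1 / 1000 ≤ y) :
    a0 y = 0 ∧ a1 y = 0 := by
  have h1 : Jc y = 0 := van h0 hy (by norm_num)
  have h2 : Js y = 0 := van h0 hy (by norm_num)
  unfold a0 a1
  rw [h1, h2]; simp

/-- pointwise bounds of the source -/
theorem pt (h1 : ∀ y : ℝ, 0 < y → |al y| ≤ 4 * coth y + 30) {s : ℝ} (hs : 0 < s) (hs1 : s ≤ 1 / 1000) :
    Real.sinh s * |al s| ≤ 5 ∧ Real.cosh s ≤ 101 / 100 ∧ Real.sinh s ≤ 1 / 100 := by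
  have hsinh := Real.sinh_pos_iff.2 hs
  have hc := cosh_small hs.le (by linarith)
  have hs2 := sinh_small hs.le (by linarith)
  have h2 := h1 s hs
  have h3 : Real.sinh s * (4 * coth s + 30) = 4 * Real.cosh s + 30 * Real.sinh s := by
    unfold coth; field_simp
  have h4 : Real.sinh s * |al s| ≤ 4 * Real.cosh s + 30 * Real.sinh s := by
    rw [← h3]; exact mul_le_mul_of_nonneg_left h2 hsinh.le
  exact ⟨by linarith, by linarith, by linarith⟩

theorem Js_bd (hc : ContinuousOn al (Ioi 0)) (h1 : ∀ y : ℝ, 0 < y → |al y| ≤ 4 * coth y + 30)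
    (h0 : ∀ y : ℝ, 1 / 1000 ≤ y → al y = 0) {y : ℝ} (hy : 0 < y) (hy1 : y ≤ 1 / 1000) :
    |Js y| ≤ 1 / 200 := by
  have e : Js y = ∫ s in y..(1 / 1000), Real.sinh s * al s := cut Real.continuous_sinh hc h0 hy
  rw [e, ← Real.norm_eq_abs]
  have h := intervalIntegral.norm_integral_le_of_norm_le_const (a := y) (b := 1 / 1000) (C := 5)
    (f := fun s => Real.sinh s * al s) (by
      intro s hs
      rw [uIoc_of_le hy1] at hs
      have hs0 : 0 < s := hy.trans hs.1
      rw [Real.norm_eq_abs, abs_mul, abs_of_pos (Real.sinh_pos_iff.2 hs0)]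
      exact (pt h1 hs0 hs.2).1)
  refine h.trans ?_
  rw [abs_of_nonneg (by linarith)]
  linarith

theorem Jc_bd (hc : ContinuousOn al (Ioi 0)) (h1 : ∀ y : ℝ, 0 < y → |al y| ≤ 4 * coth y + 30)
    (h0 : ∀ y : ℝ, 1 / 1000 ≤ y → al y = 0) {y : ℝ} (hy : 0 < y) (hy1 : y ≤ 1 / 1000) :
    |Real.sinh y * Jc y| ≤ 1 / 100 := by
  have e : Jc y = ∫ s in y..(1 / 1000), Real.cosh s * al s := cut Real.continuous_cosh hc h0 hy
  rw [e, ← intervalIntegral.integral_const_mul, ← Real.norm_eq_abs]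
  have h := intervalIntegral.norm_integral_le_of_norm_le_const (a := y) (b := 1 / 1000) (C := 6)
    (f := fun s => Real.sinh y * (Real.cosh s * al s)) (by
      intro s hs
      rw [uIoc_of_le hy1] at hs
      have hs0 : 0 < s := hy.trans hs.1
      obtain ⟨k1, k2, k3⟩ := pt h1 hs0 hs.2
      rw [Real.norm_eq_abs, abs_mul, abs_mul, abs_of_pos (Real.sinh_pos_iff.2 hy), abs_of_pos (Real.cosh_pos s)]
      have k4 : Real.sinh y ≤ Real.sinh s := Real.sinh_le_sinh.2 hs.1.le
      have k5 : Real.sinh y * |al s| ≤ 5 := (mul_le_mul_of_nonneg_right k4 (abs_nonneg _)).trans k1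
      have k6 : 0 ≤ Real.sinh y * |al s| := mul_nonneg (Real.sinh_pos_iff.2 hy).le (abs_nonneg _)
      calc Real.sinh y * (Real.cosh s * |al s|) = Real.cosh s * (Real.sinh y * |al s|) := by ring
        _ ≤ 101 / 100 * 5 := mul_le_mul k2 k5 k6 (by norm_num)
        _ ≤ 6 := by norm_num)
  refine h.trans ?_
  rw [abs_of_nonneg (by linarith)]
  linarith

theorem a0_bound' (hc : ContinuousOn al (Ioi 0))
    (h1 : ∀ y : ℝ, 0 < y → |al y| ≤ 4 * coth y + 30)
    (h0 : ∀ y : ℝ, 1 / 1000 ≤ y → al y = 0) {y : ℝ} (hy : 0 < y) :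
    |a0 y| ≤ 1 / 10 ∧ |Real.sinh y * a1 y| ≤ 1 / 10 := by
  by_cases hy1 : 1 / 1000 ≤ y
  · obtain ⟨e1, e2⟩ := a0_zero h0 hy1
    rw [e1, e2]; norm_num
  · push Not at hy1
    have k1 := Js_bd hc h1 h0 hy hy1.le
    have k2 := Jc_bd hc h1 h0 hy hy1.le
    obtain ⟨-, k3, k4⟩ := pt h1 hy hy1.le
    have k5 := Real.sinh_pos_iff.2 hy
    have k6 := Real.cosh_pos y
    constructor
    · unfold a0
      refine (abs_sub _ _).trans ?_
      rw [abs_mul, abs_of_pos k6]
      have : Real.cosh y * |Js y| ≤ 101 / 100 * (1 / 200) := mul_le_mul k3 k1 (abs_nonneg _) (by norm_num)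
      linarith
    · unfold a1
      have e : Real.sinh y * (Real.sinh y * Js y - Real.cosh y * Jc y) =
          Real.sinh y * (Real.sinh y * Js y) - Real.cosh y * (Real.sinh y * Jc y) := by ring
      rw [e]
      refine (abs_sub _ _).trans ?_
      rw [abs_mul, abs_mul, abs_of_pos k5, abs_mul, abs_of_pos k6]
      have m1 : Real.sinh y * |Js y| ≤ 1 / 100 * (1 / 200) := mul_le_mul k4 k1 (abs_nonneg _) (by norm_num)
      have m2 : Real.sinh y * (Real.sinh y * |Js y|) ≤ 1 / 100 * (1 / 100 * (1 / 200)) :=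
        mul_le_mul k4 m1 (mul_nonneg k5.le (abs_nonneg _)) (by norm_num)
      have m3 : Real.cosh y * |Real.sinh y * Jc y| ≤ 101 / 100 * (1 / 100) := mul_le_mul k3 k2 (abs_nonneg _) (by norm_num)
      linarith

theorem phi_big {y : ℝ} (hy : 0 < y) (hy1 : y ≤ 1 / 10000) : 13 / 5 ≤ phi y := by
  unfold phi
  have h1 : 1000 * Real.sinh y ≤ 1 / 5 := by
    have := sinh_small hy.le (by linarith)
    linarith
  have h2 : 0 < 1000 * Real.sinh y := by
    have := Real.sinh_pos_iff.2 hy; positivity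
  have h3 : Real.log (1000 * Real.sinh y) ≤ Real.log (1 / 5) := Real.log_le_log h2 h1
  have h4 : Real.log (1 / 5) ≤ -(13 / 10) := by
    rw [Real.log_le_iff_le_exp (by norm_num)]
    have h5 : Real.exp (13 / 10) ≤ 5 := by
      have e1 : Real.exp (13 / 10) = Real.exp 1 * Real.exp (3 / 10) := by rw [← Real.exp_add]; norm_num
      have e2 := Real.exp_one_lt_d9
      have e3 := exp_small (s := 3 / 10) (by norm_num) (by norm_num)
      rw [e1]
      calc Real.exp 1 * Real.exp (3 / 10) ≤ 2.7182818286 * (1 + 2 * (3 / 10)) :=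
            mul_le_mul e2.le e3 (Real.exp_pos _).le (by norm_num)
        _ ≤ 5 := by norm_num
    rw [Real.exp_neg, div_le_iff₀ (by norm_num), inv_mul_eq_div, le_div_iff₀ (Real.exp_pos _)]
    linarith
  linarith

theorem tendsto_Jc' (hc : ContinuousOn al (Ioi 0))
    (h1 : ∀ y : ℝ, 0 < y → |al y| ≤ 4 * coth y + 30)
    (h2 : ∀ y : ℝ, 0 < y → 13 / 5 ≤ phi y → coth y ≤ al y) :
    Tendsto Jc (𝓝[>] 0) atTop := by
  have _ := h1
  set b : ℝ := 1 / 10000 with hb
  have hb0 : 0 < b := by norm_num [hb]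
  have hlow : ∀ y, 0 < y → y < b → Jc b + (Real.log b - Real.log y) / 2 ≤ Jc y := by
    intro y hy hyb
    have e1 : Jc y = (∫ s in y..b, Real.cosh s * al s) + Jc b :=
      (intervalIntegral.integral_add_adjacent_intervals (ivl Real.continuous_cosh hc hy hb0)
        (ivl Real.continuous_cosh hc hb0 one_pos)).symm
    have e2 : ∫ s in y..b, (1 / 2) * s⁻¹ = (Real.log b - Real.log y) / 2 := by
      rw [intervalIntegral.integral_const_mul, integral_inv_of_pos hy hb0, Real.log_div hb0.ne' hy.ne']; ring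
    have e3 : ∫ s in y..b, (1 / 2) * s⁻¹ ≤ ∫ s in y..b, Real.cosh s * al s := by
      apply intervalIntegral.integral_mono_on hyb.le
      · apply ContinuousOn.intervalIntegrable
        apply continuousOn_const.mul
        apply continuousOn_inv₀.mono
        intro x hx
        rw [uIcc_of_le hyb.le] at hx
        exact (hy.trans_le hx.1).ne'
      · exact ivl Real.continuous_cosh hc hy hb0
      · intro s hs
        have hs0 : 0 < s := hy.trans_le hs.1
        have hs1 : s ≤ 1 / 10000 := hs.2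
        have k1 := h2 s hs0 (phi_big hs0 hs1)
        have k2 := Real.one_le_cosh s
        have k3 := sinh_small hs0.le (by linarith)
        have k4 := Real.sinh_pos_iff.2 hs0
        have k5 : 1 / 2 * s⁻¹ ≤ coth s := by
          unfold coth
          rw [le_div_iff₀ k4]
          have : s⁻¹ * s = 1 := inv_mul_cancel₀ hs0.ne'
          have k6 : 0 < s⁻¹ := inv_pos.2 hs0
          nlinarith
        have k7 : 0 ≤ coth s := div_nonneg (Real.cosh_pos s).le k4.le
        calc 1 / 2 * s⁻¹ ≤ coth s := k5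
          _ ≤ al s := k1
          _ = 1 * al s := (one_mul _).symm
          _ ≤ Real.cosh s * al s := mul_le_mul_of_nonneg_right k2 (k7.trans k1)
    rw [e1]; linarith
  have hlim : Tendsto (fun y : ℝ => Jc b + (Real.log b - Real.log y) / 2) (𝓝[>] 0) atTop := by
    apply tendsto_atTop_add_const_left
    apply Tendsto.atTop_div_const (by norm_num)
    have := Real.tendsto_log_nhdsGT_zero
    have h3 : Tendsto (fun y : ℝ => -Real.log y) (𝓝[>] 0) atTop := tendsto_neg_atBot_atTop.comp this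
    simpa [sub_eq_add_neg] using tendsto_atTop_add_const_left _ (Real.log b) h3
  refine tendsto_atTop_mono' _ ?_ hlim
  have : Ioo (0:ℝ) b ∈ 𝓝[>] (0:ℝ) := Ioo_mem_nhdsGT hb0
  filter_upwards [this] with y hy
  exact hlow y hy.1 hy.2

theorem a1_le' (hc : ContinuousOn al (Ioi 0))
    (h1 : ∀ y : ℝ, 0 < y → |al y| ≤ 4 * coth y + 30)
    (h0 : ∀ y : ℝ, 1 / 1000 ≤ y → al y = 0)
    (h3 : ∀ y : ℝ, 0 < y → -1 ≤ al y) {y : ℝ} (hy : 0 < y) :
    a1 y ≤ 1 - Jc y := by
  by_cases hy1 : 1 / 1000 ≤ y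
  · obtain ⟨e1, e2⟩ := a0_zero h0 hy1
    have e3 : Jc y = 0 := van h0 hy1 (by norm_num)
    rw [e2, e3]; norm_num
  · push Not at hy1
    have k1 := Js_bd hc h1 h0 hy hy1.le
    obtain ⟨-, k3, k4⟩ := pt h1 hy hy1.le
    have k5 := Real.sinh_pos_iff.2 hy
    have k6 := Real.one_le_cosh y
    have k7 : -(1 / 500) ≤ Jc y := by
      have e : Jc y = ∫ s in y..(1 / 1000), Real.cosh s * al s := cut Real.continuous_cosh hc h0 hy
      rw [e]
      have h4 : ∫ _s in y..(1 / 1000), (-2 : ℝ) ≤ ∫ s in y..(1 / 1000), Real.cosh s * al s := by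
        apply intervalIntegral.integral_mono_on hy1.le intervalIntegrable_const
          (ivl Real.continuous_cosh hc hy (by norm_num))
        intro s hs
        have hs0 : 0 < s := hy.trans_le hs.1
        have m1 := cosh_small hs0.le (by linarith [hs.2])
        have m2 := Real.one_le_cosh s
        have m3 := h3 s hs0
        have m4 : s ≤ 1 / 1000 := hs.2
        nlinarith
      rw [intervalIntegral.integral_const, smul_eq_mul] at h4
      linarith
    have k8 : Real.sinh y * Js y ≤ 1 / 2 := by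
      have := abs_le.1 k1
      nlinarith
    have k9 : -(1 / 2) ≤ (Real.cosh y - 1) * Jc y := by nlinarith
    unfold a1
    nlinarith

end Pool.Agent.TH626.J1785
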