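import Pool.Agent.TH317.CC.Riem

set_option autoImplicit false

universe u

namespace Pool.Agent.TH317.CC

open Set Manifold Bundle
open scoped ContDiff Topology

namespace TH626

/-- the points of the ball are mapped into the larger ball -/
theorem phi_mem {E : Type} [NormedAddCommGroup E] {M : Type u} [MetricSpace M] {C : NNReal}
    {R r : ℝ} {φ : M → E} {x : M} (hR : 0 < R) (hφ : LipschitzOnWith C φ (Metric.ball x R))
    {y : M} (hy : y ∈ Metric.ball x R) (hr : dist y x ≤ r) : dist (φ y) (φ x) ≤ C * r := by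
  have h1 := hφ.dist_le_mul y hy x (Metric.mem_ball_self hR)
  exact h1.trans (mul_le_mul_of_nonneg_left hr C.coe_nonneg)

end TH626

theorem locUM_of_locSC {E : Type} [NormedAddCommGroup E] [NormedSpace ℝ E] {M : Type u}
    [MetricSpace M] (h : LocSC E M) : LocUM M := by
  intro K hK
  choose C R c φ ψ hC hR hc hφ hψφ hψ hsc using h
  -- a finite cover
  obtain ⟨t, ht⟩ := hK.elim_finite_subcover (fun x : M => Metric.ball x (R x))
    (fun x => Metric.isOpen_ball) (fun x _ => Set.mem_iUnion.2 ⟨x, Metric.mem_ball_self (hR x)⟩)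
  obtain ⟨r, hr0, hr⟩ := lebesgue_number_lemma_of_metric (c := fun i : t => Metric.ball (i : M) (R i))
    hK (fun i => Metric.isOpen_ball) (by
      intro x hx
      obtain ⟨i, hi, hxi⟩ := Set.mem_iUnion₂.1 (ht hx)
      exact Set.mem_iUnion.2 ⟨⟨i, hi⟩, hxi⟩)
  refine ⟨min r 1, lt_min hr0 one_pos, fun ε hε => ?_⟩
  -- the choice of `δ`
  obtain ⟨δ, hδ⟩ : ∃ δ : ℝ, (0 < δ ∧ δ ≤ 1) ∧ ∀ i ∈ t, δ ≤ c i * ε ^ 2 / (16 * (C i : ℝ) ^ 2) := by
    have h1 : ∀ᶠ δ : ℝ in 𝓝[>] 0, 0 < δ ∧ δ ≤ 1 := by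
      filter_upwards [Ioo_mem_nhdsGT (show (0:ℝ) < 1 from one_pos)] with δ hδ
      exact ⟨hδ.1, hδ.2.le⟩
    have h2 : ∀ᶠ δ : ℝ in 𝓝[>] 0, ∀ i ∈ t, δ ≤ c i * ε ^ 2 / (16 * (C i : ℝ) ^ 2) := by
      rw [Filter.eventually_all_finset]
      intro i _
      have hCi : (0:ℝ) < C i := by exact_mod_cast hC i
      have : 0 < c i * ε ^ 2 / (16 * (C i : ℝ) ^ 2) := by
        have := hc i
        positivity
      filter_upwards [Ioo_mem_nhdsGT this] with δ hδ
      exact hδ.2.le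
    exact (h1.and h2).exists
  obtain ⟨⟨hδ0, hδ1⟩, hδt⟩ := hδ
  refine ⟨δ, hδ0, ?_⟩
  intro x hx y hy z hz y' hy' z' hz' m hm m' hm' hyy' hzz' h1 h2 h3 h4
  obtain ⟨⟨i, hi⟩, hball⟩ := hr x hx
  have hsub : Metric.ball x (min r 1) ⊆ Metric.ball i (R i) :=
    (Metric.ball_subset_ball (min_le_left _ _)).trans hball
  have hCi : (0:ℝ) < C i := by exact_mod_cast hC i
  have hci := hc i
  have hδi := hδt i hi
  set D := dist y z with hD
  have hD0 : 0 ≤ D := dist_nonneg
  have hD2 : D ≤ 2 := by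
    have e1 := dist_triangle_right y z x
    have e2 : dist y x < min r 1 := hy
    have e3 : dist z x < min r 1 := hz
    have e4 : min r 1 ≤ 1 := min_le_right _ _
    linarith
  set En := ‖φ i m - φ i m'‖ ^ 2 with hEn
  have hEn0 : 0 ≤ En := by positivity
  set n := ψ i ((1 / 2 : ℝ) • (φ i m + φ i m')) with hn
  have s1 := hsc i y (hsub hy) m (hsub hm) m' (hsub hm')
  have s2 := hsc i z (hsub hz) m (hsub hm) m' (hsub hm')
  rw [← hn, ← hEn] at s1 s2
  have hD' : dist y' z' ≤ D + 2 * δ := by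
    have e1 := dist_triangle4 y' y z z'
    rw [dist_comm y' y] at e1
    linarith
  have a1 : dist y m ≤ D / 2 + 3 * δ := by linarith
  have a2 : dist z m ≤ D / 2 + 3 * δ := by
    rw [dist_comm]
    linarith
  have a3 : dist y m' ≤ D / 2 + 3 * δ := by
    have := dist_triangle y y' m'
    linarith
  have a4 : dist z m' ≤ D / 2 + 3 * δ := by
    have e1 := dist_triangle z z' m'
    rw [dist_comm z' m'] at e1
    linarith
  have b : ∀ u : ℝ, 0 ≤ u → u ≤ D / 2 + 3 * δ → u ^ 2 ≤ (D / 2 + 3 * δ) ^ 2 := fun u h0 h1 =>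
    pow_le_pow_left₀ h0 h1 2
  have b1 := b _ dist_nonneg a1
  have b2 := b _ dist_nonneg a2
  have b3 := b _ dist_nonneg a3
  have b4 := b _ dist_nonneg a4
  have t1 : dist y n ^ 2 ≤ (D / 2 + 3 * δ) ^ 2 - c i * En := by linarith
  have t2 : dist z n ^ 2 ≤ (D / 2 + 3 * δ) ^ 2 - c i * En := by linarith
  have t3 : D ≤ dist y n + dist z n := dist_triangle_right y z n
  have t4 : c i * En ≤ 3 * D * δ + 9 * δ ^ 2 := by
    have e1 : D ^ 2 ≤ (dist y n + dist z n) ^ 2 := pow_le_pow_left₀ hD0 t3 2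
    nlinarith [sq_nonneg (dist y n - dist z n)]
  have t5 : c i * En ≤ 15 * δ := by nlinarith
  have t6 : (C i : ℝ) ^ 2 * En < ε ^ 2 := by
    have e1 : δ * (16 * (C i : ℝ) ^ 2) ≤ c i * ε ^ 2 := by
      rwa [le_div_iff₀ (by positivity)] at hδi
    have e2 : c i * ((C i : ℝ) ^ 2 * En) < c i * ε ^ 2 := by
      calc c i * ((C i : ℝ) ^ 2 * En) = (C i : ℝ) ^ 2 * (c i * En) := by ring
        _ ≤ (C i : ℝ) ^ 2 * (15 * δ) := by gcongr
        _ < (C i : ℝ) ^ 2 * (16 * δ) := by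
          have : 0 < (C i : ℝ) ^ 2 := by positivity
          nlinarith
        _ ≤ c i * ε ^ 2 := by linarith
    exact lt_of_mul_lt_mul_left e2 hci.le
  have hmem : ∀ u ∈ Metric.ball i (R i), φ i u ∈ Metric.ball (φ i i) (C i * R i) := by
    intro u hu
    rw [Metric.mem_ball]
    refine lt_of_le_of_lt (TH626.phi_mem (hR i) (hφ i) hu le_rfl) ?_
    exact mul_lt_mul_of_pos_left hu hCi
  have t7 : dist m m' ≤ C i * ‖φ i m - φ i m'‖ := by
    have e1 := (hψ i).dist_le_mul _ (hmem m (hsub hm)) _ (hmem m' (hsub hm'))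
    rwa [hψφ i m (hsub hm), hψφ i m' (hsub hm'), dist_eq_norm] at e1
  have t8 : (C i * ‖φ i m - φ i m'‖) ^ 2 < ε ^ 2 := by
    rw [mul_pow]
    exact t6
  have t9 : C i * ‖φ i m - φ i m'‖ < ε := lt_of_pow_lt_pow_left₀ 2 hε.le t8
  exact lt_of_le_of_lt t7 t9

theorem locallyCompact_of_locLip {E : Type} [NormedAddCommGroup E] [NormedSpace ℝ E]
    [FiniteDimensional ℝ E] {M : Type u} [MetricSpace M] (h : LocLip E M) :
    LocallyCompactSpace M := by
  have : ProperSpace E := FiniteDimensional.proper ℝ E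
  have : WeaklyLocallyCompactSpace M := by
    refine ⟨fun x => ?_⟩
    obtain ⟨C, R, φ, ψ, hC, hR, hφ, hψφ, hψ⟩ := h x
    have hCR : (0:ℝ) < C := by exact_mod_cast hC
    refine ⟨Metric.closedBall x (R / 2), ?_, Metric.closedBall_mem_nhds x (by positivity)⟩
    have hsub : Metric.closedBall (φ x) (C * (R / 2)) ⊆ Metric.ball (φ x) (C * R) := by
      apply Metric.closedBall_subset_ball
      exact mul_lt_mul_of_pos_left (by linarith) hCR
    have hcomp : IsCompact (ψ '' Metric.closedBall (φ x) (C * (R / 2))) :=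
      (isCompact_closedBall _ _).image_of_continuousOn (hψ.continuousOn.mono hsub)
    refine hcomp.of_isClosed_subset Metric.isClosed_closedBall ?_
    intro y hy
    have hy' : y ∈ Metric.ball x R := Metric.closedBall_subset_ball (by linarith) hy
    refine ⟨φ y, ?_, hψφ y hy'⟩
    rw [Metric.mem_closedBall]
    exact TH626.phi_mem hR hφ hy' hy
  infer_instance

end Pool.Agent.TH317.CC
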