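import Pool.Agent.TH444.ML.Defs

/-! Job 3090 (helper626 for helper444): number of quadratic extensions of `M`. -/

set_option autoImplicit false

open NumberField Filter Topology
open Pool.Agent.TH444.ML

namespace Pool.Agent.TH626.J3090

theorem exists_rep (M : Type) [Field M] [NumberField M] :
    ∃ rep : ClassGroup (𝓞 M) → Ideal (𝓞 M), Rep M rep := by
  choose f hf using (ClassGroup.mk0_surjective (R := 𝓞 M))
  exact ⟨fun C => (f C : Ideal (𝓞 M)), fun C => ⟨(f C).2, hf C⟩⟩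

theorem rep_ne_bot {M : Type} [Field M] [NumberField M]
    {rep : ClassGroup (𝓞 M) → Ideal (𝓞 M)} (h : Rep M rep) (C : ClassGroup (𝓞 M)) :
    rep C ≠ ⊥ := by
  obtain ⟨h, -⟩ := h C
  exact nonZeroDivisors.ne_zero h

/-- squares of units -/
def sqU (M : Type) [Field M] [NumberField M] : Subgroup (𝓞 M)ˣ :=
  (powMonoidHom 2 : (𝓞 M)ˣ →* (𝓞 M)ˣ).range

theorem mem_sqU {M : Type} [Field M] [NumberField M] {u : (𝓞 M)ˣ} :
    u ∈ sqU M ↔ ∃ v : (𝓞 M)ˣ, v ^ 2 = u := Iff.rfl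

theorem finite_quot (M : Type) [Field M] [NumberField M] : Finite ((𝓞 M)ˣ ⧸ sqU M) := by
  have : Group.FG (𝓞 M)ˣ := Group.fg_iff_monoid_fg.2 inferInstance
  refine CommGroup.finite_of_fg_isMulTorsion _ fun g => ?_
  rw [isOfFinOrder_iff_pow_eq_one]
  refine ⟨2, by norm_num, ?_⟩
  obtain ⟨u, rfl⟩ := QuotientGroup.mk_surjective g
  rw [← QuotientGroup.mk_pow, QuotientGroup.eq_one_iff]
  exact ⟨u, rfl⟩

theorem sqf_unit {M : Type} [Field M] [NumberField M] {𝔠 : Ideal (𝓞 M)} {α : 𝓞 M} (u : (𝓞 M)ˣ) :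
    Sqf M 𝔠 ((u : 𝓞 M) * α) ↔ Sqf M 𝔠 α := by
  unfold Sqf
  rw [Ideal.span_singleton_mul_left_unit u.isUnit, mul_ne_zero_iff]
  simp [Units.ne_zero]

theorem nrm_eq {M : Type} [Field M] [NumberField M] (α : 𝓞 M) :
    nrm α = (Ideal.absNorm (Ideal.span {α}) : ℝ) := by
  rw [Ideal.absNorm_span_singleton, nrm, Nat.cast_natAbs]

theorem nrm_unit {M : Type} [Field M] [NumberField M] {α : 𝓞 M} (u : (𝓞 M)ˣ) :
    nrm ((u : 𝓞 M) * α) = nrm α := by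
  rw [nrm_eq, nrm_eq, Ideal.span_singleton_mul_left_unit u.isUnit]

/-- the norm in the square case -/
theorem nrm_sq {M : Type} [Field M] [NumberField M] {𝔠 : Ideal (𝓞 M)} (h𝔠 : 𝔠 ≠ ⊥) {α : 𝓞 M}
    (hS : Sqf M 𝔠 α) (hsq : IsSquare (α : M)) : nrm α = (Ideal.absNorm 𝔠 : ℝ) ^ 2 := by
  obtain ⟨hα, 𝔡, h𝔡, hspan⟩ := hS
  obtain ⟨γ, hγ⟩ := hsq
  have hint : IsIntegral (𝓞 M) γ := by
    apply IsIntegral.of_pow (n := 2) (by norm_num)
    rw [pow_two, ← hγ]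
    exact isIntegral_algebraMap
  obtain ⟨δ, hδ⟩ := IsIntegrallyClosed.algebraMap_eq_of_integral hint
  have hαδ : α = δ ^ 2 := by
    apply FaithfulSMul.algebraMap_injective (𝓞 M) M
    rw [map_pow, hδ, pow_two]
    exact hγ
  have h1 : Ideal.span {α} = (Ideal.span {δ}) ^ 2 := by
    rw [hαδ, Ideal.span_singleton_pow]
  have h2 : 𝔠 ∣ Ideal.span {δ} := by
    rw [← UniqueFactorizationMonoid.pow_dvd_pow_iff_dvd (n := 2) (by norm_num), ← h1, hspan]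
    exact Dvd.intro_left _ rfl
  obtain ⟨𝔞, h𝔞⟩ := h2
  have h3 : 𝔡 = 𝔞 ^ 2 := by
    have : 𝔡 * 𝔠 ^ 2 = 𝔞 ^ 2 * 𝔠 ^ 2 := by
      rw [← hspan, h1, h𝔞]; ring
    exact mul_right_cancel₀ (pow_ne_zero 2 h𝔠) this
  have h4 : IsUnit 𝔞 := h𝔡 𝔞 (by rw [h3, pow_two])
  have h5 : 𝔡 = 1 := by
    rw [h3, Ideal.isUnit_iff.1 h4]
    simp
  rw [nrm_eq, hspan, h5, one_mul, map_pow]
  push_cast
  rfl

/-- the weight -/
noncomputable def wt {M : Type} [Field M] [NumberField M] (k : Ideal (𝓞 M) → 𝓞 M → ℕ)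
    (𝔠 : Ideal (𝓞 M)) (β : 𝓞 M) : ℝ :=
  (k 𝔠 β : ℝ) ^ 2 * (Ideal.absNorm 𝔠 : ℝ) ^ 2 / 4 ^ Module.finrank ℚ M

theorem wt_nonneg {M : Type} [Field M] [NumberField M] (k : Ideal (𝓞 M) → 𝓞 M → ℕ)
    (𝔠 : Ideal (𝓞 M)) (β : 𝓞 M) : 0 ≤ wt k 𝔠 β := by
  unfold wt
  positivity

theorem wt_le {M : Type} [Field M] [NumberField M] {k : Ideal (𝓞 M) → 𝓞 M → ℕ} (hk : IsK M k)
    {𝔠 : Ideal (𝓞 M)} (h𝔠 : 𝔠 ≠ ⊥) (β : 𝓞 M) :
    wt k 𝔠 β ≤ (4 ^ Module.finrank ℚ M) ^ 2 * (Ideal.absNorm 𝔠 : ℝ) ^ 2 := by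
  unfold wt
  have h1 : (k 𝔠 β : ℝ) ≤ 4 ^ Module.finrank ℚ M := by exact_mod_cast hk.le 𝔠 β h𝔠
  have h2 : (1 : ℝ) ≤ 4 ^ Module.finrank ℚ M := one_le_pow₀ (by norm_num)
  have h3 : (k 𝔠 β : ℝ) ^ 2 ≤ (4 ^ Module.finrank ℚ M) ^ 2 :=
    pow_le_pow_left₀ (by positivity) h1 2
  calc (k 𝔠 β : ℝ) ^ 2 * (Ideal.absNorm 𝔠 : ℝ) ^ 2 / 4 ^ Module.finrank ℚ M
      ≤ (k 𝔠 β : ℝ) ^ 2 * (Ideal.absNorm 𝔠 : ℝ) ^ 2 := div_le_self (by positivity) h2
    _ ≤ _ := mul_le_mul_of_nonneg_right h3 (by positivity)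

/-- the discriminant condition -/
theorem mem_QS_iff {M E : Type} [Field M] [NumberField M] [Field E] [Algebra M E]
    {k : Ideal (𝓞 M) → 𝓞 M → ℕ} (hk : IsK M k) {𝔠 : Ideal (𝓞 M)} (h𝔠 : 𝔠 ≠ ⊥) {β : 𝓞 M}
    (hS : Sqf M 𝔠 β) {s : E} (hs : s ^ 2 = algebraMap M E (β : M))
    (hns : ∀ x : M, algebraMap M E x ≠ s)
    (h2 : Module.finrank M (IntermediateField.adjoin M {s}) = 2) (Y : ℝ) :
    IntermediateField.adjoin M {s} ∈ QS M E Y ↔ nrm β ≤ Y * wt k 𝔠 β := by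
  obtain ⟨hβ, 𝔡, h𝔡, hspan⟩ := hS
  have hfin : FiniteDimensional M (IntermediateField.adjoin M {s}) :=
    FiniteDimensional.of_finrank_pos (by omega)
  have hnf : NumberField (IntermediateField.adjoin M {s}) := NumberField.of_module_finite M _
  have hsL : s ∈ IntermediateField.adjoin M {s} := IntermediateField.mem_adjoin_simple_self M s
  have hd := hk.disc (IntermediateField.adjoin M {s}) ⟨s, hsL⟩ β 𝔡 𝔠 h2
    (Subtype.ext (by simpa using hs)) (fun x hx => hns x (by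
      have := congrArg Subtype.val hx
      simpa using this)) hβ h𝔡 hspan
  have hk1 : (1 : ℝ) ≤ k 𝔠 β := by exact_mod_cast hk.pos 𝔠 β h𝔠
  have hN : (0 : ℝ) < Ideal.absNorm 𝔠 := by
    have : Ideal.absNorm 𝔠 ≠ 0 := fun h => h𝔠 (Ideal.absNorm_eq_zero_iff.1 h)
    exact_mod_cast Nat.pos_of_ne_zero this
  have hdM : (0 : ℝ) < ((discr M).natAbs : ℝ) := by
    exact_mod_cast Int.natAbs_pos.2 (discr_ne_zero M)
  have hnr : nrm β = (Ideal.absNorm 𝔡 : ℝ) * (Ideal.absNorm 𝔠 : ℝ) ^ 2 := by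
    rw [nrm_eq, hspan, map_mul, map_pow]
    push_cast
    rfl
  have hdR : ((discr (IntermediateField.adjoin M {s})).natAbs : ℝ) * (k 𝔠 β : ℝ) ^ 2 =
      4 ^ Module.finrank ℚ M * ((discr M).natAbs : ℝ) ^ 2 * (Ideal.absNorm 𝔡 : ℝ) := by
    exact_mod_cast hd
  have e1 : ((discr M : ℤ) : ℝ) ^ 2 = ((discr M).natAbs : ℝ) ^ 2 := by
    rw [Nat.cast_natAbs]
    push_cast
    rw [sq_abs]
  have key : nrm β ≤ Y * wt k 𝔠 β ↔
      ((discr (IntermediateField.adjoin M {s})).natAbs : ℝ) ≤ Y * ((discr M : ℤ) : ℝ) ^ 2 := by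
    rw [hnr, wt, e1]
    have h4 : (0 : ℝ) < 4 ^ Module.finrank ℚ M := by positivity
    have hk2 : (0 : ℝ) < (k 𝔠 β : ℝ) ^ 2 := by positivity
    have h5 : (Ideal.absNorm 𝔡 : ℝ) * (Ideal.absNorm 𝔠 : ℝ) ^ 2 =
        ((discr (IntermediateField.adjoin M {s})).natAbs : ℝ) / ((discr M).natAbs : ℝ) ^ 2 *
          ((k 𝔠 β : ℝ) ^ 2 * (Ideal.absNorm 𝔠 : ℝ) ^ 2 / 4 ^ Module.finrank ℚ M) := by
      field_simp
      linear_combination -hdR
    rw [h5, mul_le_mul_iff_left₀ (by positivity), div_le_iff₀ (by positivity)]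
  rw [key]
  constructor
  · rintro ⟨-, h, hle⟩
    have : ((|@discr (IntermediateField.adjoin M {s}) _ h| : ℤ) : ℝ) =
        ((discr (IntermediateField.adjoin M {s})).natAbs : ℝ) := by
      rw [Nat.cast_natAbs]
    rw [← this]
    exact hle
  · intro hle
    refine ⟨h2, hnf, ?_⟩
    rw [Nat.cast_natAbs] at hle
    exact hle

section Count

set_option linter.unusedSectionVars false

variable {M E : Type} [Field M] [NumberField M] [Field E] [Algebra M E] [IsAlgClosed E]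

variable (E) in
/-- a square root -/
noncomputable def sr (β : 𝓞 M) : E :=
  (IsAlgClosed.exists_pow_nat_eq (algebraMap M E (β : M)) (n := 2) (by norm_num)).choose

variable (E) in
theorem sr_sq (β : 𝓞 M) : sr E β ^ 2 = algebraMap M E (β : M) :=
  (IsAlgClosed.exists_pow_nat_eq (algebraMap M E (β : M)) (n := 2) (by norm_num)).choose_spec

theorem notSq_iff {β : 𝓞 M} {s : E} (hs : s ^ 2 = algebraMap M E (β : M)) :
    (∀ x : M, algebraMap M E x ≠ s) ↔ ¬ IsSquare (β : M) := by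
  constructor
  · rintro h ⟨y, hy⟩
    have h1 : s ^ 2 = (algebraMap M E y) ^ 2 := by
      rw [hs, hy, map_mul, pow_two]
    rcases sq_eq_sq_iff_eq_or_eq_neg.1 h1 with h2 | h2
    · exact h y h2.symm
    · exact h (-y) (by rw [map_neg, h2])
  · rintro h x hx
    apply h
    refine ⟨x, ?_⟩
    apply FaithfulSMul.algebraMap_injective M E
    rw [map_mul, hx, ← pow_two, hs]

/-- the index set -/
abbrev P (M : Type) [Field M] [NumberField M] : Type :=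
  ClassGroup (𝓞 M) × ((𝓞 M)ˣ ⧸ sqU M)

/-- the representative -/
noncomputable def rr (p : P M) : (𝓞 M)ˣ := Quotient.out p.2

theorem rr_spec (p : P M) : ((rr p : (𝓞 M)ˣ) : (𝓞 M)ˣ ⧸ sqU M) = p.2 :=
  QuotientGroup.out_eq' p.2

/-- the sets that are counted -/
def S1 (rep : ClassGroup (𝓞 M) → Ideal (𝓞 M)) (k : Ideal (𝓞 M) → 𝓞 M → ℕ) (Y : ℝ) (p : P M) :
    Set (𝓞 M) :=
  {α | α ∈ cone M ∧ Sqf M (rep p.1) α ∧ nrm α ≤ Y * wt k (rep p.1) ((rr p : 𝓞 M) * α)}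

/-- the nonsquares -/
def S2 (rep : ClassGroup (𝓞 M) → Ideal (𝓞 M)) (k : Ideal (𝓞 M) → 𝓞 M → ℕ) (Y : ℝ) (p : P M) :
    Set (𝓞 M) :=
  {α | α ∈ S1 rep k Y p ∧ ¬ IsSquare (((rr p : 𝓞 M) * α : 𝓞 M) : M)}

/-- the squares -/
def S3 (rep : ClassGroup (𝓞 M) → Ideal (𝓞 M)) (p : P M) : Set (𝓞 M) :=
  {α | α ∈ cone M ∧ Sqf M (rep p.1) α ∧ IsSquare (((rr p : 𝓞 M) * α : 𝓞 M) : M)}

theorem S3_finite (h3 : ConeFacts) {rep : ClassGroup (𝓞 M) → Ideal (𝓞 M)} (hrep : Rep M rep)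
    (p : P M) : (S3 rep p).Finite := by
  refine ((h3 M).1 ((Ideal.absNorm (rep p.1) : ℝ) ^ 2)).subset ?_
  rintro α ⟨h1, h2, hsq⟩
  refine ⟨h1, ?_⟩
  rw [← nrm_unit (rr p), nrm_sq (rep_ne_bot hrep p.1) ((sqf_unit (rr p)).2 h2) hsq]

theorem S1_finite (h3 : ConeFacts) {rep : ClassGroup (𝓞 M) → Ideal (𝓞 M)} (hrep : Rep M rep)
    {k : Ideal (𝓞 M) → 𝓞 M → ℕ} (hk : IsK M k) {Y : ℝ} (hY : 0 ≤ Y)
    (p : P M) : (S1 rep k Y p).Finite := by
  refine ((h3 M).1 (Y * ((4 ^ Module.finrank ℚ M) ^ 2 *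
    (Ideal.absNorm (rep p.1) : ℝ) ^ 2))).subset ?_
  rintro α ⟨h1, h2, hle⟩
  exact ⟨h1, hle.trans (mul_le_mul_of_nonneg_left (wt_le hk (rep_ne_bot hrep p.1) _) hY)⟩

theorem adjoin_unit_mul {s s₀ : E} {v : (𝓞 M)ˣ}
    (h : s ^ 2 = (algebraMap M E ((v : 𝓞 M) : M) * s₀) ^ 2) :
    IntermediateField.adjoin M {s} = IntermediateField.adjoin M {s₀} := by
  have hv : algebraMap M E ((v : 𝓞 M) : M) ≠ 0 := by
    rw [Ne, FaithfulSMul.algebraMap_eq_zero_iff]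
    intro h0
    exact v.ne_zero ((FaithfulSMul.algebraMap_eq_zero_iff (𝓞 M) M).1 h0)
  have h1 : s = algebraMap M E ((v : 𝓞 M) : M) * s₀ ∨ s = algebraMap M E (-((v : 𝓞 M) : M)) * s₀ := by
    rcases sq_eq_sq_iff_eq_or_eq_neg.1 h with h2 | h2
    · exact Or.inl h2
    · right
      rw [h2, map_neg, neg_mul]
  have key : ∀ c : M, algebraMap M E c ≠ 0 → s = algebraMap M E c * s₀ →
      IntermediateField.adjoin M {s} = IntermediateField.adjoin M {s₀} := by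
    intro c hc hs
    apply le_antisymm
    · rw [IntermediateField.adjoin_simple_le_iff, hs]
      exact mul_mem (IntermediateField.algebraMap_mem _ c)
        (IntermediateField.mem_adjoin_simple_self M s₀)
    · rw [IntermediateField.adjoin_simple_le_iff]
      have : s₀ = algebraMap M E c⁻¹ * s := by
        rw [hs, map_inv₀, ← mul_assoc, inv_mul_cancel₀ hc, one_mul]
      rw [this]
      exact mul_mem (IntermediateField.algebraMap_mem _ c⁻¹)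
        (IntermediateField.mem_adjoin_simple_self M s)
  rcases h1 with h1 | h1
  · exact key _ hv h1
  · refine key _ ?_ h1
    rw [map_neg]
    exact neg_ne_zero.2 hv

/-- the map -/
noncomputable def fld (E : Type) [Field E] [Algebra M E] [IsAlgClosed E] (x : P M × 𝓞 M) :
    IntermediateField M E :=
  IntermediateField.adjoin M {sr E ((rr x.1 : 𝓞 M) * x.2)}

theorem fld_mem (h2 : KumP) {rep : ClassGroup (𝓞 M) → Ideal (𝓞 M)} (hrep : Rep M rep)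
    {k : Ideal (𝓞 M) → 𝓞 M → ℕ} (hk : IsK M k) {Y : ℝ} {x : P M × 𝓞 M}
    (hx : x.2 ∈ S2 rep k Y x.1) : fld E x ∈ QS M E Y := by
  obtain ⟨⟨h1, hS, hle⟩, hns⟩ := hx
  have hs := sr_sq E ((rr x.1 : 𝓞 M) * x.2)
  have hns' := (notSq_iff hs).2 hns
  rw [fld, mem_QS_iff hk (rep_ne_bot hrep x.1.1) ((sqf_unit (rr x.1)).2 hS) hs hns'
    ((h2 M E rep hrep).2.2 _ _ hs hns'), nrm_unit]
  exact hle

theorem fiber_card (h2 : KumP) (h3 : ConeFacts) {rep : ClassGroup (𝓞 M) → Ideal (𝓞 M)}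
    (hrep : Rep M rep) {k : Ideal (𝓞 M) → 𝓞 M → ℕ} (hk : IsK M k) {Y : ℝ}
    {L : IntermediateField M E} (hL : L ∈ QS M E Y) :
    Set.ncard {x : P M × 𝓞 M | x.2 ∈ S2 rep k Y x.1 ∧ fld E x = L} = Units.torsionOrder M := by
  obtain ⟨C₀, α₀, s₀, hS₀, hs₀, hns₀, hL₀⟩ := (h2 M E rep hrep).1 L hL.1
  have hα₀ : α₀ ≠ 0 := hS₀.1
  rw [← (h3 M).2.2 α₀ hα₀]
  symm
  refine Set.ncard_congr (fun u _ => ((C₀, ((u⁻¹ : (𝓞 M)ˣ) : (𝓞 M)ˣ ⧸ sqU M)), (u : 𝓞 M) * α₀))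
    ?_ ?_ ?_
  · intro u hu
    obtain ⟨r, hr⟩ : ∃ r, r = rr ((C₀, ((u⁻¹ : (𝓞 M)ˣ) : (𝓞 M)ˣ ⧸ sqU M)) : P M) := ⟨_, rfl⟩
    have hr1 : ((u⁻¹ : (𝓞 M)ˣ) : (𝓞 M)ˣ ⧸ sqU M) = (r : (𝓞 M)ˣ ⧸ sqU M) := by
      rw [hr]
      exact (rr_spec ((C₀, ((u⁻¹ : (𝓞 M)ˣ) : (𝓞 M)ˣ ⧸ sqU M)) : P M)).symm
    rw [QuotientGroup.eq, inv_inv] at hr1
    obtain ⟨v, hv⟩ := mem_sqU.1 hr1
    have hβ : (r : 𝓞 M) * ((u : 𝓞 M) * α₀) = (v : 𝓞 M) ^ 2 * α₀ := by
      have : ((v ^ 2 : (𝓞 M)ˣ) : 𝓞 M) = ((u * r : (𝓞 M)ˣ) : 𝓞 M) := by rw [hv]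
      push_cast at this
      rw [this]
      ring
    have hs := sr_sq E ((r : 𝓞 M) * ((u : 𝓞 M) * α₀))
    have hs' : sr E ((r : 𝓞 M) * ((u : 𝓞 M) * α₀)) ^ 2 =
        (algebraMap M E ((v : 𝓞 M) : M) * s₀) ^ 2 := by
      have hc1 : (((v : 𝓞 M) ^ 2 * α₀ : 𝓞 M) : M) = ((v : 𝓞 M) : M) ^ 2 * (α₀ : M) := by
        have h := map_mul (algebraMap (𝓞 M) M) ((v : 𝓞 M) ^ 2) α₀
        rw [map_pow] at h
        exact h
      rw [hs, hβ, mul_pow, hs₀, hc1, map_mul, map_pow]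
    have hadj : IntermediateField.adjoin M {sr E ((r : 𝓞 M) * ((u : 𝓞 M) * α₀))} = L := by
      rw [hL₀]
      exact adjoin_unit_mul hs'
    have hS : Sqf M (rep C₀) ((u : 𝓞 M) * α₀) := (sqf_unit u).2 hS₀
    have hns : ∀ x : M, algebraMap M E x ≠ sr E ((r : 𝓞 M) * ((u : 𝓞 M) * α₀)) := by
      intro x hx
      have h5 : sr E ((r : 𝓞 M) * ((u : 𝓞 M) * α₀)) ∈ (⊥ : IntermediateField M E) :=
        IntermediateField.mem_bot.2 ⟨x, hx⟩
      have h6 : IntermediateField.adjoin M {sr E ((r : 𝓞 M) * ((u : 𝓞 M) * α₀))} = ⊥ :=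
        IntermediateField.adjoin_simple_eq_bot_iff.2 h5
      have h7 : s₀ ∈ (⊥ : IntermediateField M E) := by
        rw [← h6, hadj, hL₀]
        exact IntermediateField.mem_adjoin_simple_self M s₀
      obtain ⟨y, hy⟩ := IntermediateField.mem_bot.1 h7
      exact hns₀ y hy
    refine ⟨⟨⟨hu, hS, ?_⟩, ?_⟩, ?_⟩
    · have h8 := (mem_QS_iff hk (rep_ne_bot hrep C₀) ((sqf_unit r).2 hS) hs hns
        ((h2 M E rep hrep).2.2 _ _ hs hns) Y).1 (by rw [hadj]; exact hL)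
      rw [nrm_unit] at h8
      rw [hr] at h8
      exact h8
    · rw [← hr]
      exact (notSq_iff hs).1 hns
    · simp only [fld]
      rw [← hr]
      exact hadj
  · intro u u' _ _ h
    have h9 := congrArg Prod.snd h
    simp only at h9
    exact Units.ext (mul_right_cancel₀ hα₀ h9)
  · rintro ⟨⟨C, ρ⟩, α⟩ ⟨⟨⟨hc, hS, hle⟩, hns⟩, hfld⟩
    simp only at hc hS hle hns
    obtain ⟨r, hr⟩ : ∃ r, r = rr ((C, ρ) : P M) := ⟨_, rfl⟩
    have hr1 : (r : (𝓞 M)ˣ ⧸ sqU M) = ρ := by rw [hr]; exact rr_spec ((C, ρ) : P M)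
    rw [← hr] at hns hle
    simp only [fld] at hfld
    rw [← hr] at hfld
    have hs := sr_sq E ((r : 𝓞 M) * α)
    obtain ⟨hC, u, hu⟩ := (h2 M E rep hrep).2.1 C₀ C α₀ ((r : 𝓞 M) * α) s₀
      (sr E ((r : 𝓞 M) * α)) hS₀ ((sqf_unit r).2 hS) hs₀ hs hns₀ (by rw [hfld, hL₀])
    have hv : ((r⁻¹ * u ^ 2 : (𝓞 M)ˣ) : 𝓞 M) * α₀ = α := by
      push_cast
      rw [mul_assoc, ← hu, ← mul_assoc, Units.inv_mul, one_mul]
    refine ⟨r⁻¹ * u ^ 2, by rw [Set.mem_ofPred_eq, hv]; exact hc, ?_⟩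
    rw [hv, hC]
    refine Prod.ext (Prod.ext rfl ?_) rfl
    simp only
    rw [← hr1, QuotientGroup.eq]
    refine ⟨u, ?_⟩
    simp only [powMonoidHom_apply]
    rw [inv_inv, mul_comm r⁻¹, inv_mul_cancel_right]

theorem count (h2 : KumP) (h3 : ConeFacts) {rep : ClassGroup (𝓞 M) → Ideal (𝓞 M)}
    (hrep : Rep M rep) {k : Ideal (𝓞 M) → 𝓞 M → ℕ} (hk : IsK M k) [Fintype (P M)] {Y : ℝ}
    (hY : 0 ≤ Y) :
    (QS M E Y).ncard * Units.torsionOrder M = ∑ p : P M, (S2 rep k Y p).ncard := by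
  classical
  have hw : 0 < Units.torsionOrder M := Units.torsionOrder_pos M
  have hfin2 : ∀ p : P M, (S2 rep k Y p).Finite := fun p =>
    (S1_finite h3 hrep hk hY p).subset fun α h => h.1
  have hT : {x : P M × 𝓞 M | x.2 ∈ S2 rep k Y x.1}.Finite := by
    have : {x : P M × 𝓞 M | x.2 ∈ S2 rep k Y x.1} = ⋃ p : P M, (Prod.mk p) '' (S2 rep k Y p) := by
      ext ⟨p, α⟩
      simp
    rw [this]
    exact Set.finite_iUnion fun p => (hfin2 p).image _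
  have himg : fld E '' {x : P M × 𝓞 M | x.2 ∈ S2 rep k Y x.1} = QS M E Y := by
    apply Set.Subset.antisymm
    · rintro _ ⟨x, hx, rfl⟩
      exact fld_mem h2 hrep hk hx
    · intro L hL
      have h5 := fiber_card h2 h3 hrep hk hL
      have h6 : {x : P M × 𝓞 M | x.2 ∈ S2 rep k Y x.1 ∧ fld E x = L}.Nonempty :=
        Set.nonempty_of_ncard_ne_zero (by rw [h5]; omega)
      obtain ⟨x, hx1, hx2⟩ := h6
      exact ⟨x, hx1, hx2⟩
  have hQ : (QS M E Y).Finite := by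
    rw [← himg]
    exact hT.image _
  have e1 : hT.toFinset.card = ∑ L ∈ hQ.toFinset, (hT.toFinset.filter fun x => fld E x = L).card :=
    Finset.card_eq_sum_card_fiberwise (by
      intro x hx
      rw [Set.Finite.coe_toFinset] at hx ⊢
      exact fld_mem h2 hrep hk hx)
  have e2 : hT.toFinset.card = ∑ p : P M, (hT.toFinset.filter fun x => x.1 = p).card :=
    Finset.card_eq_sum_card_fiberwise (by
      intro x hx
      exact Finset.mem_coe.2 (Finset.mem_univ _))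
  have e3 : ∀ L ∈ hQ.toFinset, (hT.toFinset.filter fun x => fld E x = L).card =
      Units.torsionOrder M := by
    intro L hL
    rw [← fiber_card h2 h3 hrep hk (hQ.mem_toFinset.1 hL), ← Set.ncard_coe_finset]
    congr 1
    ext x
    simp
  have e4 : ∀ p : P M, (hT.toFinset.filter fun x => x.1 = p).card = (S2 rep k Y p).ncard := by
    intro p
    rw [← Set.ncard_coe_finset, ← Set.ncard_image_of_injective (S2 rep k Y p)
      (Prod.mk_right_injective p)]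
    congr 1
    ext ⟨p', α⟩
    simp only [Finset.coe_filter, Set.Finite.mem_toFinset, Set.mem_ofPred_eq, Set.mem_image,
      Prod.mk.injEq]
    constructor
    · rintro ⟨h7, rfl⟩
      exact ⟨α, h7, rfl, rfl⟩
    · rintro ⟨β, h7, rfl, rfl⟩
      exact ⟨h7, rfl⟩
  rw [Finset.sum_congr rfl e3, Finset.sum_const, smul_eq_mul, e2,
    Finset.sum_congr rfl fun p _ => e4 p] at e1
  rw [Set.ncard_eq_toFinset_card _ hQ, ← e1]

end Count

theorem quadLim (h1 : DiscQuad) (h2 : KumP) (h3 : ConeFacts) (h4 : ConeSqf) : QuadLim := by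
  intro M E _ _ _ _ _
  obtain ⟨rep, hrep⟩ := exists_rep M
  obtain ⟨k, hk⟩ := h1 M
  have := finite_quot M
  have : Fintype (P M) := Fintype.ofFinite _
  have hlim : ∀ p : P M, ∃ c : ℝ, Tendsto (fun Y : ℝ => ((S1 rep k Y p).ncard : ℝ) / Y) atTop
      (𝓝 c) := by
    intro p
    refine h4 M (rep p.1) (Ideal.span {(4 : 𝓞 M)} * (rep p.1) ^ 2) (rep_ne_bot hrep p.1) ?_
      (fun α => wt k (rep p.1) ((rr p : 𝓞 M) * α)) ?_ (fun α => wt_nonneg _ _ _)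
    · refine mul_ne_zero ?_ (pow_ne_zero 2 (rep_ne_bot hrep p.1))
      rw [Ne, Ideal.zero_eq_bot, Ideal.span_singleton_eq_bot]
      norm_num
    · intro α α' h
      simp only [wt]
      rw [hk.congr (rep p.1) ((rr p : 𝓞 M) * α) ((rr p : 𝓞 M) * α') (rep_ne_bot hrep p.1) (by
        rw [← mul_sub]
        exact Ideal.mul_mem_left _ _ h)]
  have hlim2 : ∀ p : P M, ∃ c : ℝ, Tendsto (fun Y : ℝ => ((S2 rep k Y p).ncard : ℝ) / Y) atTop
      (𝓝 c) := by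
    intro p
    obtain ⟨c, hc⟩ := hlim p
    refine ⟨c, ?_⟩
    have h5 : Tendsto (fun Y : ℝ => (((S1 rep k Y p) ∩ (S3 rep p)).ncard : ℝ) / Y) atTop (𝓝 0) := by
      have h6 : Tendsto (fun Y : ℝ => ((S3 rep p).ncard : ℝ) / Y) atTop (𝓝 0) :=
        tendsto_const_nhds.div_atTop tendsto_id
      refine squeeze_zero' ?_ ?_ h6
      · filter_upwards [eventually_gt_atTop (0 : ℝ)] with Y hY
        positivity
      · filter_upwards [eventually_gt_atTop (0 : ℝ)] with Y hY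
        refine div_le_div_of_nonneg_right ?_ hY.le
        exact_mod_cast Set.ncard_le_ncard Set.inter_subset_right (S3_finite h3 hrep p)
    have h7 := hc.sub h5
    rw [sub_zero] at h7
    refine h7.congr' ?_
    filter_upwards [eventually_gt_atTop (0 : ℝ)] with Y hY
    rw [← sub_div]
    congr 1
    have hf := S1_finite h3 hrep hk hY.le p
    have h8 : S2 rep k Y p = S1 rep k Y p \ S3 rep p := by
      ext α
      simp only [S2, S3, Set.mem_ofPred_eq, Set.mem_sdiff, not_and]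
      constructor
      · rintro ⟨h9, h10⟩
        exact ⟨h9, fun _ _ => h10⟩
      · rintro ⟨h9, h10⟩
        exact ⟨h9, h10 h9.1 h9.2.1⟩
    have h11 := Set.ncard_inter_add_ncard_sdiff_eq_ncard (S1 rep k Y p) (S3 rep p) hf
    rw [h8, ← h11]
    push_cast
    ring
  choose c hc using hlim2
  have hsum := tendsto_finsetSum (Finset.univ : Finset (P M)) fun p _ => hc p
  have hw : (0 : ℝ) < Units.torsionOrder M := by exact_mod_cast Units.torsionOrder_pos M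
  refine ⟨(∑ p : P M, c p) / Units.torsionOrder M, ?_⟩
  refine (hsum.div_const _).congr' ?_
  filter_upwards [eventually_gt_atTop (0 : ℝ)] with Y hY
  have h12 := count (E := E) h2 h3 hrep hk hY.le
  have h13 : ((QS M E Y).ncard : ℝ) * Units.torsionOrder M =
      ∑ p : P M, ((S2 rep k Y p).ncard : ℝ) := by exact_mod_cast h12
  rw [← Finset.sum_div, ← h13]
  field_simp

end Pool.Agent.TH626.J3090
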