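import Pool.Agent.TH597.FD.Stm
import Pool.Agent.H744R2.Falc.FrostH

set_option autoImplicit false

/-!
From product coordinates to a subspace `V` of `ℝ^d` (job FD_FINAL of helper597).
-/

namespace Pool.Agent.TH626.FD_FINAL

open MeasureTheory Set Metric Filter Topology
open scoped ENNReal Real NNReal
open Pool.Agent.TH597.FD

noncomputable section

variable {d : ℕ}

/-- the components of a vector in `Vᗮ` and `V` in orthonormal coordinates -/
def Phi (V : Submodule ℝ (E d)) (x : E d) :
    E (Module.finrank ℝ Vᗮ) × E (Module.finrank ℝ V) :=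
  ((stdOrthonormalBasis ℝ Vᗮ).repr (Vᗮ.orthogonalProjectionOnto x),
    (stdOrthonormalBasis ℝ V).repr (V.orthogonalProjectionOnto x))

lemma Phi_cont (V : Submodule ℝ (E d)) : Continuous (Phi V) := by
  unfold Phi
  fun_prop

lemma Phi_sub (V : Submodule ℝ (E d)) (x y : E d) : Phi V x - Phi V y = Phi V (x - y) := by
  unfold Phi
  simp only [map_sub, Prod.mk_sub_mk]

lemma Phi_fst (V : Submodule ℝ (E d)) (x : E d) : ‖(Phi V x).1‖ = ‖x - V.starProjection x‖ := by
  unfold Phi
  simp only [LinearIsometryEquiv.norm_map]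
  rw [← Submodule.starProjection_orthogonal_val]
  rfl

lemma Phi_snd (V : Submodule ℝ (E d)) (x : E d) : ‖(Phi V x).2‖ = ‖V.starProjection x‖ := by
  unfold Phi
  simp only [LinearIsometryEquiv.norm_map]
  rfl

lemma norm_sq_split (V : Submodule ℝ (E d)) (x : E d) :
    ‖x‖ ^ 2 = ‖x - V.starProjection x‖ ^ 2 + ‖V.starProjection x‖ ^ 2 := by
  rw [V.norm_sq_eq_add_norm_sq_starProjection x, Submodule.starProjection_orthogonal_val]
  ring

lemma Phi_norm (V : Submodule ℝ (E d)) (x : E d) : ‖x‖ ≤ 2 * ‖Phi V x‖ := by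
  have h1 := norm_sq_split V x
  rw [← Phi_fst, ← Phi_snd] at h1
  have h2 := norm_fst_le (Phi V x)
  have h3 := norm_snd_le (Phi V x)
  have n1 := norm_nonneg (Phi V x).1
  have n2 := norm_nonneg (Phi V x).2
  have n3 := norm_nonneg x
  have n4 := norm_nonneg (Phi V x)
  by_contra hcon
  rw [not_le] at hcon
  nlinarith

lemma Phi_dist (V : Submodule ℝ (E d)) (x y : E d) :
    dist x y ≤ 2 * dist (Phi V x) (Phi V y) := by
  rw [dist_eq_norm, dist_eq_norm, Phi_sub]
  exact Phi_norm V (x - y)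

lemma stretch_sub (V : Submodule ℝ (E d)) (lam : ℝ) (x y : E d) :
    stretch V lam x - stretch V lam y = stretch V lam (x - y) := by
  unfold stretch
  rw [map_sub, smul_sub]
  abel

lemma stretch_norm (V : Submodule ℝ (E d)) (lam : ℝ) (z : E d) :
    ‖stretch V lam z‖ ^ 2 = ‖(Phi V z).1‖ ^ 2 + lam ^ 2 * ‖(Phi V z).2‖ ^ 2 := by
  have h1 : V.starProjection (stretch V lam z) = lam • V.starProjection z := by
    unfold stretch
    rw [map_add, map_smul]
    have : V.starProjection (V.starProjection z) = V.starProjection z :=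
      Submodule.starProjection_eq_self_iff.2 (V.starProjection_apply_mem z)
    rw [this, sub_smul, one_smul]
    abel
  have h2 : stretch V lam z - V.starProjection (stretch V lam z) = z - V.starProjection z := by
    rw [h1]
    unfold stretch
    rw [sub_smul, one_smul]
    abel
  rw [norm_sq_split V (stretch V lam z), h2, h1, Phi_fst, Phi_snd, norm_smul, mul_pow,
    Real.norm_eq_abs, sq_abs]

lemma quad_image (V : Submodule ℝ (E d)) (A : Set (E d)) (lam : ℝ) :
    quadSet (Phi V '' A) (lam ^ 2) = (fun t : ℝ => t ^ 2) '' distanceSet (stretch V lam '' A) := by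
  ext t
  constructor
  · rintro ⟨_, ⟨x, hx, rfl⟩, _, ⟨y, hy, rfl⟩, rfl⟩
    refine ⟨dist (stretch V lam x) (stretch V lam y),
      ⟨_, ⟨x, hx, rfl⟩, _, ⟨y, hy, rfl⟩, rfl⟩, ?_⟩
    show dist (stretch V lam x) (stretch V lam y) ^ 2 = _
    rw [dist_eq_norm, stretch_sub, stretch_norm, ← Phi_sub]
    rfl
  · rintro ⟨_, ⟨_, ⟨x, hx, rfl⟩, _, ⟨y, hy, rfl⟩, rfl⟩, rfl⟩
    refine ⟨_, ⟨x, hx, rfl⟩, _, ⟨y, hy, rfl⟩, ?_⟩
    show dist (stretch V lam x) (stretch V lam y) ^ 2 = _
    rw [dist_eq_norm, stretch_sub, stretch_norm, ← Phi_sub]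
    rfl

lemma null_sq {D : Set ℝ} (h : volume D = 0) : volume ((fun t : ℝ => t ^ 2) '' D) = 0 := by
  refine addHaar_image_eq_zero_of_differentiableOn_of_addHaar_eq_zero volume ?_ h
  exact (differentiable_pow 2).differentiableOn

lemma fro_push (V : Submodule ℝ (E d)) (A : Set (E d)) (hA : IsCompact A) (s : ℝ)
    (h : Pool.Agent.H744R2.Falc.Fro A s) : Pool.Agent.H744R2.Falc.Fro (Phi V '' A) s := by
  obtain ⟨μ, hμ, hμA, C, hC, hb⟩ := h
  have hm : Measurable (Phi V) := (Phi_cont V).measurable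
  have hcl : MeasurableSet (Phi V '' A) := (hA.image (Phi_cont V)).measurableSet
  refine ⟨μ.map (Phi V), Measure.isProbabilityMeasure_map hm.aemeasurable, ?_,
    C * (4 : ℝ) ^ s, by positivity, ?_⟩
  · rw [Measure.map_apply hm hcl.compl]
    refine measure_mono_null ?_ hμA
    intro x hx hxA
    exact hx ⟨x, hxA, rfl⟩
  · intro p r hr
    rw [Measure.map_apply hm measurableSet_closedBall]
    by_cases hne : (Phi V ⁻¹' closedBall p r).Nonempty
    · obtain ⟨x0, hx0⟩ := hne
      rw [mem_preimage, mem_closedBall] at hx0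
      have hsub : Phi V ⁻¹' closedBall p r ⊆ closedBall x0 (4 * r) := by
        intro x hx
        rw [mem_preimage, mem_closedBall] at hx
        rw [mem_closedBall]
        have h1 := Phi_dist V x x0
        have h2 := dist_triangle_right (Phi V x) (Phi V x0) p
        linarith
      refine (measure_mono hsub).trans ((hb x0 (4 * r) (by linarith)).trans ?_)
      rw [Real.mul_rpow (by norm_num) hr.le, mul_assoc]
    · rw [not_nonempty_iff_eq_empty] at hne
      rw [hne, measure_empty]
      exact zero_le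

/-- the theorem for a subspace -/
theorem final (h : Pool.Agent.TH597.FD.XMAIN) : Pool.Agent.TH597.FD.FINAL := by
  intro d V hV0 hV1 A hA hdim
  set m := Module.finrank ℝ Vᗮ with hm
  set k := Module.finrank ℝ V with hk
  have hsum : k + m = d := by
    have := V.finrank_add_finrank_orthogonal
    rw [finrank_euclideanSpace_fin] at this
    exact this
  have hk1 : 1 ≤ k := by
    rw [hk, Nat.one_le_iff_ne_zero]
    intro h0
    exact hV0 (Submodule.finrank_eq_zero.1 h0)
  have hm1 : 1 ≤ m := by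
    rw [Nat.one_le_iff_ne_zero]
    intro h0
    apply hV1
    apply Submodule.eq_top_of_finrank_eq
    rw [finrank_euclideanSpace_fin]
    omega
  have hsumR : ((m : ℝ) + k) / 2 = (d : ℝ) / 2 := by
    rw [← hsum]
    push_cast
    ring
  set Sq : Set ℝ := {lam : ℝ | 0 < lam ∧ volume (quadSet (Phi V '' A) lam) = 0} with hSq
  set S : Set ℝ := {lam : ℝ | 0 < lam ∧ volume (distanceSet (stretch V lam '' A)) = 0} with hS
  have hSS : S ⊆ Real.sqrt '' Sq := by
    rintro lam ⟨h0, h1⟩
    refine ⟨lam ^ 2, ⟨by positivity, ?_⟩, Real.sqrt_sq h0.le⟩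
    rw [quad_image]
    exact null_sq h1
  have hdS : dimH S ≤ dimH Sq := by
    refine (dimH_mono hSS).trans ?_
    apply ContDiffOn.dimH_image_le (s := Ioi (0 : ℝ)) _ (convex_Ioi 0)
    · intro lam hl
      exact hl.1
    · intro x hx
      exact (Real.contDiffAt_sqrt (ne_of_gt hx)).contDiffWithinAt
  -- the dimension of A
  have hfin : dimH A ≠ ⊤ := Real.dimH_ne_top A
  set D := (dimH A).toReal with hD
  have hDA : ENNReal.ofReal D = dimH A := ENNReal.ofReal_toReal hfin
  have hhalf : (d : ℝ≥0∞) / 2 = ENNReal.ofReal ((d : ℝ) / 2) := by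
    rw [ENNReal.ofReal_div_of_pos (by norm_num)]
    simp
  have hdD : (d : ℝ) / 2 < D := by
    rw [hhalf, ← hDA] at hdim
    exact (ENNReal.ofReal_lt_ofReal_iff_of_nonneg (by positivity)).1 hdim
  have hD0 : 0 ≤ D := ENNReal.toReal_nonneg
  have hq : dimH Sq ≤ ENNReal.ofReal (1 + (d : ℝ) / 2 - D) := by
    have ht : Tendsto (fun s : ℝ => ENNReal.ofReal (1 + (d : ℝ) / 2 - s)) (𝓝[<] D)
        (𝓝 (ENNReal.ofReal (1 + (d : ℝ) / 2 - D))) := by
      apply Tendsto.mono_left _ nhdsWithin_le_nhds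
      have : Continuous (fun s : ℝ => ENNReal.ofReal (1 + (d : ℝ) / 2 - s)) :=
        ENNReal.continuous_ofReal.comp (by fun_prop)
      exact this.tendsto D
    refine ge_of_tendsto ht ?_
    have hev : ∀ᶠ s in 𝓝[<] D, (d : ℝ) / 2 < s := by
      apply eventually_nhdsWithin_of_eventually_nhds
      exact lt_mem_nhds hdD
    filter_upwards [hev, self_mem_nhdsWithin] with s hs1 hs2
    have hs0 : 0 ≤ s := le_trans (by positivity) hs1.le
    have hfro : Pool.Agent.H744R2.Falc.Fro A s := by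
      apply Pool.Agent.H744R2.Falc.frostman_dimH d A hA s hs0
      rw [← hDA]
      exact (ENNReal.ofReal_lt_ofReal_iff_of_nonneg hs0).2 hs2
    have := h m k (Phi V '' A) s (hA.image (Phi_cont V)) hm1 hk1 (by rw [hsumR]; exact hs1)
      (fro_push V A hA s hfro)
    rw [hsumR] at this
    exact this
  have hconv : ENNReal.ofReal (1 + (d : ℝ) / 2 - D) = 1 + (d : ℝ≥0∞) / 2 - dimH A := by
    rw [ENNReal.ofReal_sub _ hD0, hDA, ENNReal.ofReal_add (by norm_num) (by positivity), ← hhalf,
      ENNReal.ofReal_one]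
  have hmain : dimH S ≤ 1 + (d : ℝ≥0∞) / 2 - dimH A := by
    rw [← hconv]
    exact hdS.trans hq
  refine ⟨hmain, ?_⟩
  have hlt : dimH S < ((1 : ℝ≥0) : ℝ≥0∞) := by
    refine (hdS.trans hq).trans_lt ?_
    rw [ENNReal.coe_one, ← ENNReal.ofReal_one]
    exact (ENNReal.ofReal_lt_ofReal_iff (by norm_num)).2 (by linarith)
  have h0 := hausdorffMeasure_of_dimH_lt hlt
  rw [NNReal.coe_one, hausdorffMeasure_real] at h0
  have hae := measure_eq_zero_iff_ae_notMem.1 h0
  filter_upwards [hae] with lam hlam hpos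
  rw [pos_iff_ne_zero]
  intro hz
  exact hlam ⟨hpos, hz⟩

end

end Pool.Agent.TH626.FD_FINAL
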