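import Pool.Agent.TH597.IV.Stm
import Pool.Agent.H721R2.Quart.A1

/-!
# Ivrii's conjecture for almost every linear image: closed trajectories of period at most the
dimension are negligible
-/

set_option autoImplicit false

namespace Pool.Agent.TH626.IV_NULL

open MeasureTheory Set Filter Topology
open scoped InnerProductSpace
open Pool.Agent.TH597.IV

section
variable {E Z : Type} [NormedAddCommGroup E] [InnerProductSpace ℝ E]
  [NormedAddCommGroup Z] [NormedSpace ℝ Z]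

theorem dx (F : Fam E Z) {z : (E →L[ℝ] E) × Z} (hz : z ∈ F.U) {k : ℕ} (hk : k ≤ F.n) :
    DifferentiableAt ℝ (F.x k) z := (F.cx k hk z hz).differentiableAt (by norm_num)

theorem de (F : Fam E Z) {z : (E →L[ℝ] E) × Z} (hz : z ∈ F.U) {k : ℕ} (hk : k ≤ F.n) :
    DifferentiableAt ℝ (F.e k) z := (F.ce k hk z hz).differentiableAt (by norm_num)

theorem dτ (F : Fam E Z) {z : (E →L[ℝ] E) × Z} (hz : z ∈ F.U) {k : ℕ} (hk : k < F.n) :
    DifferentiableAt ℝ (F.τ k) z := (F.cτ k hk z hz).differentiableAt (by norm_num)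

theorem dΔ (F : Fam E Z) {z : (E →L[ℝ] E) × Z} (hz : z ∈ F.U) {k : ℕ} (hk : k < F.n) :
    DifferentiableAt ℝ (F.Δ k) z := (dx F hz hk).sub (dx F hz hk.le)

/-- the value of the operator at `v` -/
noncomputable def col (F : Fam E Z) (v : E) (z : (E →L[ℝ] E) × Z) : E :=
  ∑ k ∈ Finset.range F.n, ((F.τ k z)⁻¹ * ⟪F.Δ k z, v⟫_ℝ) • F.Δ k z

theorem dcol (F : Fam E Z) {z : (E →L[ℝ] E) × Z} (hz : z ∈ F.U) (v : E) :
    DifferentiableAt ℝ (col F v) z := by
  unfold col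
  refine DifferentiableAt.fun_sum fun k hk => ?_
  have hk' := Finset.mem_range.mp hk
  have h1 := dΔ F hz hk'
  exact (((dτ F hz hk').inv (F.τpos k hk' z hz).ne').mul (h1.inner ℝ (differentiableAt_const v))).smul h1

theorem fcol [FiniteDimensional ℝ E] (F : Fam E Z) {z : (E →L[ℝ] E) × Z} (hz : z ∈ F.U) (v : E)
    (hm : ∀ (C : E →L[ℝ] E) (η : Z), fderiv ℝ (F.m C) z (0, η) = 0) (η : Z) :
    fderiv ℝ (col F v) z (0, η) = 0 := by
  refine ext_inner_left ℝ fun w => ?_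
  rw [inner_zero_right]
  have h1 : (fun z => ⟪w, col F v z⟫_ℝ) = F.m ((innerSL ℝ w).smulRight v) := by
    funext y
    unfold col Fam.m
    rw [inner_sum]
    refine Finset.sum_congr rfl fun k _ => ?_
    rw [ContinuousLinearMap.smulRight_apply, innerSL_apply_apply, inner_smul_right, inner_smul_right]
    ring
  have h2 := fderiv_inner_apply ℝ (differentiableAt_const w) (dcol F hz v) (0, η)
  rw [h1, hm] at h2
  simp only [fderiv_fun_const, Pi.zero_apply, _root_.zero_apply, inner_zero_left, add_zero] at h2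
  exact h2.symm

variable [FiniteDimensional ℝ E] {ι : Type} [Fintype ι]

/-- the operator `∑ τ⁻¹ Δ ⊗ Δ` -/
noncomputable def MM (F : Fam E Z) (b : OrthonormalBasis ι ℝ E) (z : (E →L[ℝ] E) × Z) : E →L[ℝ] E :=
  ∑ i, ContinuousLinearMap.smulRightL ℝ E E (innerSL ℝ (b i)) (col F (b i) z)

theorem MM_apply (F : Fam E Z) (b : OrthonormalBasis ι ℝ E) (z : (E →L[ℝ] E) × Z) (v : E) :
    MM F b z v = col F v z := by
  unfold MM col
  rw [_root_.sum_apply]
  have h1 : ∀ i, (ContinuousLinearMap.smulRightL ℝ E E (innerSL ℝ (b i)))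
      (∑ k ∈ Finset.range F.n, ((F.τ k z)⁻¹ * ⟪F.Δ k z, b i⟫_ℝ) • F.Δ k z) v =
      ∑ k ∈ Finset.range F.n, (⟪b i, v⟫_ℝ * ((F.τ k z)⁻¹ * ⟪F.Δ k z, b i⟫_ℝ)) • F.Δ k z := by
    intro i
    show ⟪b i, v⟫_ℝ • (∑ k ∈ Finset.range F.n, ((F.τ k z)⁻¹ * ⟪F.Δ k z, b i⟫_ℝ) • F.Δ k z) = _
    rw [Finset.smul_sum]
    refine Finset.sum_congr rfl fun k _ => ?_
    rw [smul_smul]
  rw [Finset.sum_congr rfl fun i _ => h1 i, Finset.sum_comm]
  refine Finset.sum_congr rfl fun k _ => ?_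
  rw [← Finset.sum_smul]
  congr 1
  rw [← b.sum_inner_mul_inner (F.Δ k z) v, Finset.mul_sum]
  refine Finset.sum_congr rfl fun i _ => ?_
  ring

theorem hMM (F : Fam E Z) (b : OrthonormalBasis ι ℝ E) {z : (E →L[ℝ] E) × Z} (hz : z ∈ F.U) :
    HasFDerivAt (MM F b) (∑ i, (ContinuousLinearMap.smulRightL ℝ E E (innerSL ℝ (b i))).comp
      (fderiv ℝ (col F (b i)) z)) z := by
  unfold MM
  refine HasFDerivAt.fun_sum fun i _ => ?_
  exact (ContinuousLinearMap.smulRightL ℝ E E (innerSL ℝ (b i))).hasFDerivAt.comp z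
    (dcol F hz (b i)).hasFDerivAt

theorem fMM (F : Fam E Z) (b : OrthonormalBasis ι ℝ E) {z : (E →L[ℝ] E) × Z} (hz : z ∈ F.U)
    (hm : ∀ (C : E →L[ℝ] E) (η : Z), fderiv ℝ (F.m C) z (0, η) = 0) (η : Z) :
    fderiv ℝ (MM F b) z (0, η) = 0 := by
  rw [(hMM F b hz).fderiv, _root_.sum_apply]
  refine Finset.sum_eq_zero fun i _ => ?_
  rw [ContinuousLinearMap.comp_apply, fcol F hz (b i) hm η, map_zero]

/-- the operator `P M P + (1 - P)` -/
noncomputable def QQ (F : Fam E Z) (b : OrthonormalBasis ι ℝ E) (J : Finset ι)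
    (z : (E →L[ℝ] E) × Z) : E →L[ℝ] E :=
  PJ b J * MM F b z * PJ b J + (1 - PJ b J)

theorem dQQ (F : Fam E Z) (b : OrthonormalBasis ι ℝ E) (J : Finset ι) {z : (E →L[ℝ] E) × Z}
    (hz : z ∈ F.U) : DifferentiableAt ℝ (QQ F b J) z := by
  unfold QQ
  exact (((differentiableAt_const _).mul (hMM F b hz).differentiableAt).mul
    (differentiableAt_const _)).add (differentiableAt_const _)

/-- the point which is mapped to `Δ 0` -/
noncomputable def gg (F : Fam E Z) (b : OrthonormalBasis ι ℝ E) (J : Finset ι)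
    (z : (E →L[ℝ] E) × Z) : E := Ring.inverse (QQ F b J z) (PJ b J (F.Δ 0 z))

theorem dgg (F : Fam E Z) (b : OrthonormalBasis ι ℝ E) (J : Finset ι) {z : (E →L[ℝ] E) × Z}
    (hz : z ∈ F.U) (hu : IsUnit (QQ F b J z)) : DifferentiableAt ℝ (gg F b J) z := by
  have h1 : DifferentiableAt ℝ (fun z => Ring.inverse (QQ F b J z)) z := by
    have h := (differentiableAt_inverse (𝕜 := ℝ) hu)
    exact h.comp z (dQQ F b J hz)
  have h2 : DifferentiableAt ℝ (fun z => PJ b J (F.Δ 0 z)) z :=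
    (PJ b J).differentiableAt.comp z (dΔ F hz F.hn)
  exact h1.clm_apply h2

/-- the function which vanishes -/
noncomputable def hh (F : Fam E Z) (b : OrthonormalBasis ι ℝ E) (J : Finset ι)
    (z : (E →L[ℝ] E) × Z) : E := F.Δ 0 z - MM F b z (gg F b J z)

theorem hhh (F : Fam E Z) (b : OrthonormalBasis ι ℝ E) (J : Finset ι) {z : (E →L[ℝ] E) × Z}
    (hz : z ∈ F.U) (hu : IsUnit (QQ F b J z)) :
    HasFDerivAt (hh F b J) (fderiv ℝ (F.Δ 0) z - ((MM F b z).comp (fderiv ℝ (gg F b J) z) +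
      (fderiv ℝ (MM F b) z).flip (gg F b J z))) z := by
  unfold hh
  exact (dΔ F hz F.hn).hasFDerivAt.sub
    ((hMM F b hz).differentiableAt.hasFDerivAt.clm_apply (dgg F b J hz hu).hasFDerivAt)

/-- the derivative of the first side is in the range of the operator -/
theorem fΔ (F : Fam E Z) (b : OrthonormalBasis ι ℝ E) (J : Finset ι) {z : (E →L[ℝ] E) × Z}
    (hz : z ∈ F.U) (hm : ∀ (C : E →L[ℝ] E) (η : Z), fderiv ℝ (F.m C) z (0, η) = 0)
    (hu : IsUnit (QQ F b J z)) (h1 : fderiv ℝ (hh F b J) z = 0) (η : Z) :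
    ∃ v, MM F b z v = fderiv ℝ (F.Δ 0) z (0, η) := by
  refine ⟨fderiv ℝ (gg F b J) z (0, η), ?_⟩
  have h2 := (hhh F b J hz hu).fderiv
  rw [h1] at h2
  have h3 := congrArg (fun L : ((E →L[ℝ] E) × Z) →L[ℝ] E => L (0, η)) h2
  simp only [_root_.zero_apply, _root_.sub_apply, _root_.add_apply, ContinuousLinearMap.comp_apply,
    ContinuousLinearMap.flip_apply, fMM F b hz hm η, add_zero] at h3
  exact (sub_eq_zero.mp h3.symm).symm

/-- there is no such point -/
theorem no_point (F : Fam E Z) (b : OrthonormalBasis ι ℝ E) (J : Finset ι)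
    {z : (E →L[ℝ] E) × Z} (hA : z ∈ F.A) (hn : F.n ≤ Module.finrank ℝ E)
    (hm : ∀ (C : E →L[ℝ] E) (η : Z), fderiv ℝ (F.m C) z (0, η) = 0)
    (hu : IsUnit (QQ F b J z)) (h0 : hh F b J z = 0) (h1 : fderiv ℝ (hh F b J) z = 0) : False := by
  have hz : z ∈ F.U := hA.1
  have hn1 := F.hn
  set R : Submodule ℝ E := LinearMap.range (MM F b z : E →ₗ[ℝ] E) with hR
  have hR1 : ∀ η : Z, fderiv ℝ (F.Δ 0) z (0, η) ∈ R := by
    intro η
    obtain ⟨v, hv⟩ := fΔ F b J hz hm hu h1 η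
    exact ⟨v, hv⟩
  have hR0 : F.Δ 0 z ∈ R := ⟨gg F b J z, (sub_eq_zero.mp h0).symm⟩
  -- the inverse of `T`
  obtain ⟨u, hu1⟩ := F.inv z hz
  set Ti : E →L[ℝ] E := (↑u⁻¹ : E →L[ℝ] E) with hTi
  have hT1 : ∀ v, Ti (z.1 v) = v := by
    intro v
    have h : (↑u⁻¹ : E →L[ℝ] E) * (↑u : E →L[ℝ] E) = 1 := Units.inv_mul u
    rw [hu1] at h
    exact congrArg (fun L : E →L[ℝ] E => L v) h
  have hτ0 : 0 < F.τ 0 z := F.τpos 0 hn1 z hz
  have he0 : Ti (F.e 0 z) ∈ R := by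
    have h2 : z.1 (F.Δ 0 z) = F.τ 0 z • F.e 0 z := F.step 0 hn1 z hz
    have h3 : Ti (F.e 0 z) = (F.τ 0 z)⁻¹ • F.Δ 0 z := by
      have h4 : F.Δ 0 z = F.τ 0 z • Ti (F.e 0 z) := by
        rw [← map_smul, ← h2, hT1]
      rw [h4, smul_smul, inv_mul_cancel₀ hτ0.ne', one_smul]
    rw [h3]
    exact R.smul_mem _ hR0
  -- the derivative of the first step
  have hder : ∀ η : Z, z.1 (fderiv ℝ (F.Δ 0) z (0, η)) =
      F.τ 0 z • fderiv ℝ (F.e 0) z (0, η) + (fderiv ℝ (F.τ 0) z (0, η)) • F.e 0 z := by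
    intro η
    have a1 : HasFDerivAt (fun y : (E →L[ℝ] E) × Z => y.1 (F.Δ 0 y))
        ((z.1).comp (fderiv ℝ (F.Δ 0) z) +
          (ContinuousLinearMap.fst ℝ (E →L[ℝ] E) Z).flip (F.Δ 0 z)) z :=
      (hasFDerivAt_fst).clm_apply (dΔ F hz hn1).hasFDerivAt
    have a2 : HasFDerivAt (fun y : (E →L[ℝ] E) × Z => F.τ 0 y • F.e 0 y)
        (F.τ 0 z • fderiv ℝ (F.e 0) z + (fderiv ℝ (F.τ 0) z).smulRight (F.e 0 z)) z :=
      (dτ F hz hn1).hasFDerivAt.smul (de F hz (Nat.zero_le _)).hasFDerivAt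
    have a3 : (fun y : (E →L[ℝ] E) × Z => y.1 (F.Δ 0 y)) =ᶠ[𝓝 z]
        fun y : (E →L[ℝ] E) × Z => F.τ 0 y • F.e 0 y := by
      filter_upwards [F.hU.mem_nhds hz] with y hy
      exact F.step 0 hn1 y hy
    have a4 := (a2.congr_of_eventuallyEq a3).unique a1
    have a5 := congrArg (fun L : ((E →L[ℝ] E) × Z) →L[ℝ] E => L (0, η)) a4
    simp only [_root_.add_apply, _root_.smul_apply, ContinuousLinearMap.smulRight_apply,
      ContinuousLinearMap.comp_apply, ContinuousLinearMap.flip_apply,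
      ContinuousLinearMap.coe_fst', _root_.zero_apply, add_zero] at a5
    exact a5.symm
  have hδ : ∀ δ, ⟪F.e 0 z, δ⟫_ℝ = 0 → Ti δ ∈ R := by
    intro δ hδ
    obtain ⟨η, hη⟩ := F.surj z hz δ hδ
    have b1 := congrArg Ti (hder η)
    rw [hT1, map_add, map_smul, map_smul, hη] at b1
    have b2 : Ti δ = (F.τ 0 z)⁻¹ • (fderiv ℝ (F.Δ 0) z (0, η) -
        (fderiv ℝ (F.τ 0) z (0, η)) • Ti (F.e 0 z)) := by
      rw [b1, add_sub_cancel_right, smul_smul, inv_mul_cancel₀ hτ0.ne', one_smul]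
    rw [b2]
    exact R.smul_mem _ (R.sub_mem (hR1 η) (R.smul_mem _ he0))
  have hall : ∀ v, Ti v ∈ R := by
    intro v
    have c1 : v = ⟪F.e 0 z, v⟫_ℝ • F.e 0 z + (v - ⟪F.e 0 z, v⟫_ℝ • F.e 0 z) := by abel
    rw [c1, map_add, map_smul]
    refine R.add_mem (R.smul_mem _ he0) (hδ _ ?_)
    rw [inner_sub_right, inner_smul_right, F.ee 0 (Nat.zero_le _) z hz, mul_one, sub_self]
  have htop : R = ⊤ := by
    rw [eq_top_iff]
    intro w _
    rw [← hT1 w]
    exact hall _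
  -- the dimension of the range
  classical
  set s : Finset E := (Finset.range (F.n - 1)).image fun k => F.Δ k z with hs
  have hmem : ∀ k < F.n, F.Δ k z ∈ Submodule.span ℝ (s : Set E) := by
    have d1 : ∀ k < F.n - 1, F.Δ k z ∈ Submodule.span ℝ (s : Set E) := by
      intro k hk
      apply Submodule.subset_span
      rw [hs, Finset.mem_coe, Finset.mem_image]
      exact ⟨k, Finset.mem_range.mpr hk, rfl⟩
    intro k hk
    rcases lt_or_eq_of_le (Nat.le_sub_one_of_lt hk) with h | h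
    · exact d1 k h
    · have d2 : ∑ j ∈ Finset.range F.n, F.Δ j z = 0 := by
        have : ∑ j ∈ Finset.range F.n, (F.x (j + 1) z - F.x j z) = F.x F.n z - F.x 0 z :=
          Finset.sum_range_sub (fun j => F.x j z) F.n
        rw [hA.2.1, sub_self] at this
        exact this
      have d3 : F.n = F.n - 1 + 1 := by omega
      rw [d3, Finset.sum_range_succ, ← h] at d2
      rw [eq_neg_of_add_eq_zero_right d2]
      apply Submodule.neg_mem
      refine Submodule.sum_mem _ fun j hj => ?_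
      apply d1 j
      rw [h] at hj
      exact Finset.mem_range.mp hj
  have hle : R ≤ Submodule.span ℝ (s : Set E) := by
    rintro _ ⟨v, rfl⟩
    show MM F b z v ∈ _
    rw [MM_apply]
    unfold col
    refine Submodule.sum_mem _ fun k hk => ?_
    exact Submodule.smul_mem _ _ (hmem k (Finset.mem_range.mp hk))
  have hcard : s.card ≤ F.n - 1 := by
    rw [hs]
    exact Finset.card_image_le.trans (by rw [Finset.card_range])
  have hfin : Module.finrank ℝ E ≤ s.card := by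
    have e1 : Submodule.span ℝ (s : Set E) = ⊤ := by
      rw [eq_top_iff, ← htop]
      exact hle
    have e2 := finrank_span_finset_le_card (R := ℝ) s
    rw [Set.finrank, e1, finrank_top] at e2
    exact e2
  omega

end

theorem null (h1 : Pool.Agent.TH597.IV.MCONST) (h2 : Pool.Agent.TH597.IV.LINALG) :
    Pool.Agent.TH597.IV.NULL := by
  intro E Z _ _ _ _ _ _ _ _ μ _ F hn
  obtain ⟨B, hBA, hBm, hB0, hBm'⟩ := h1 E Z μ F
  set b := stdOrthonormalBasis ℝ E with hb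
  -- the pieces
  have hpm : ∀ J : Finset (Fin (Module.finrank ℝ E)),
      MeasurableSet (B ∩ {z | z ∈ F.U ∧ IsUnit (QQ F b J z)}) := by
    intro J
    apply hBm.inter
    have hc : ContinuousOn (QQ F b J) F.U := fun z hz =>
      (dQQ F b J hz).continuousAt.continuousWithinAt
    have ho : IsOpen (F.U ∩ QQ F b J ⁻¹' {x | IsUnit x}) :=
      hc.isOpen_inter_preimage F.hU Units.isOpen
    exact ho.measurableSet
  have hex : ∀ J : Finset (Fin (Module.finrank ℝ E)),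
      ∃ B' ⊆ B ∩ {z | z ∈ F.U ∧ IsUnit (QQ F b J z)}, MeasurableSet B' ∧
        μ ((B ∩ {z | z ∈ F.U ∧ IsUnit (QQ F b J z)}) \ B') = 0 ∧
        ∀ z ∈ B', hh F b J z = 0 → fderiv ℝ (hh F b J) z = 0 := by
    intro J
    refine Pool.Agent.H721R2.Quart.ae_zero μ (hpm J) ?_
    rintro z ⟨_, hz, hu⟩
    exact (hhh F b J hz hu).differentiableAt
  choose B' hB's _ hB'0 hB'd using hex
  have hBsub : B ⊆ ⋃ J, ((B ∩ {z | z ∈ F.U ∧ IsUnit (QQ F b J z)}) \ B' J) := by
    intro z hz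
    have hzA := hBA hz
    have hzU : z ∈ F.U := hzA.1
    obtain ⟨J, hJ1, hJ2⟩ := h2 E F.n (fun k => (F.τ k z)⁻¹) (fun k => F.Δ k z)
      (fun k hk => inv_pos.mpr (F.τpos k hk z hzU)) (Fin (Module.finrank ℝ E)) b (MM F b z)
      (fun v => MM_apply F b z v)
    rw [mem_iUnion]
    refine ⟨J, ⟨hz, hzU, hJ1⟩, fun hzB' => ?_⟩
    have h0 : hh F b J z = 0 := by
      unfold hh gg QQ
      rw [sub_eq_zero]
      exact (hJ2 0 F.hn).symm
    exact no_point F b J hzA hn (hBm' z hz) hJ1 h0 (hB'd J z hzB' h0)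
  have hB00 : μ B = 0 := measure_mono_null hBsub (measure_iUnion_null hB'0)
  have hsub : F.A ⊆ (F.A \ B) ∪ B := by
    intro z hz
    by_cases h : z ∈ B
    · exact Or.inr h
    · exact Or.inl ⟨hz, h⟩
  exact measure_mono_null hsub (measure_union_null hB0 hB00)

end Pool.Agent.TH626.IV_NULL
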