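import Pool.Agent.TH196.Cara.Defs

/-!
`Gs (-1/5)` avoids `[0, ∞)` off `W = -1` (Caratheodory project of helper196, job 3230; helper626).
-/

set_option autoImplicit false
set_option maxRecDepth 100000
open Complex
open scoped ContDiff

namespace Pool.Agent.TH626.CJ3230

open Pool.Agent.TH196.Cara
open Pool.Agent.TH196.Loew (QQ)

/-- row of the real part -/
def R0 (X Y : ℝ) : ℝ := (-105920)*X^14 + (-88864)*X^13*Y + (-731328)*X^12*Y^2 + (156608)*X^11*Y^3 + (1475136)*X^10*Y^4 + (-2120192)*X^9*Y^5 + (-1772224)*X^8*Y^6 + (-2556864)*X^7*Y^7 + (-1266304)*X^6*Y^8 + (269600)*X^5*Y^9 + (3105792)*X^4*Y^10 + (460800)*X^3*Y^11 + (603392)*X^2*Y^12 + (104064)*Y^14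

/-- row of the real part -/
def R1 (X Y : ℝ) : ℝ := (3200)*X^14 + (-360320)*X^13*Y + (-262272)*X^12*Y^2 + (3580032)*X^11*Y^3 + (589824)*X^10*Y^4 + (6655104)*X^9*Y^5 + (-306688)*X^8*Y^6 + (-8604800)*X^7*Y^7 + (-1189248)*X^6*Y^8 + (6338816)*X^5*Y^9 + (184704)*X^4*Y^10 + (2298368)*X^3*Y^11 + (213248)*X^2*Y^12 + (1280)*Y^14

/-- row of the real part -/
def R2 (X Y : ℝ) : ℝ := (-327200)*X^14 + (-1712416)*X^12*Y^2 + (-1299008)*X^10*Y^4 + (3062464)*X^8*Y^6 + (11718880)*X^6*Y^8 + (8706016)*X^4*Y^10 + (184192)*X^2*Y^12 + (220800)*Y^14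

/-- row of the real part -/
def R3 (X Y : ℝ) : ℝ := (-3200)*X^14 + (-360320)*X^13*Y + (262272)*X^12*Y^2 + (3580032)*X^11*Y^3 + (-589824)*X^10*Y^4 + (6655104)*X^9*Y^5 + (306688)*X^8*Y^6 + (-8604800)*X^7*Y^7 + (1189248)*X^6*Y^8 + (6338816)*X^5*Y^9 + (-184704)*X^4*Y^10 + (2298368)*X^3*Y^11 + (-213248)*X^2*Y^12 + (-1280)*Y^14

/-- row of the real part -/
def R4 (X Y : ℝ) : ℝ := (-105920)*X^14 + (88864)*X^13*Y + (-731328)*X^12*Y^2 + (-156608)*X^11*Y^3 + (1475136)*X^10*Y^4 + (2120192)*X^9*Y^5 + (-1772224)*X^8*Y^6 + (2556864)*X^7*Y^7 + (-1266304)*X^6*Y^8 + (-269600)*X^5*Y^9 + (3105792)*X^4*Y^10 + (-460800)*X^3*Y^11 + (603392)*X^2*Y^12 + (104064)*Y^14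

/-- row of the imaginary part -/
def Y0 (X Y : ℝ) : ℝ := (-75840)*X^9 + (-220160)*X^8*Y + (925440)*X^7*Y^2 + (-890880)*X^6*Y^3 + (-206720)*X^5*Y^4 + (-1835520)*X^4*Y^5 + (-4537600)*X^3*Y^6 + (-2452480)*X^2*Y^7 + (1790400)*X*Y^8 + (-1287680)*Y^9

/-- row of the imaginary part -/
def Y1 (X Y : ℝ) : ℝ := (-92800)*X^9 + (431360)*X^8*Y + (-1328640)*X^7*Y^2 + (-3845120)*X^6*Y^3 + (1992960)*X^5*Y^4 + (-729600)*X^4*Y^5 + (4610560)*X^3*Y^6 + (3281920)*X^2*Y^7 + (-666240)*X*Y^8 + (-264960)*Y^9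

/-- row of the imaginary part -/
def Y2 (X Y : ℝ) : ℝ := (-216320)*X^8*Y + (-3701760)*X^6*Y^3 + (-3525120)*X^4*Y^5 + (-2872320)*X^2*Y^7 + (-2832640)*Y^9

/-- row of the imaginary part -/
def Y3 (X Y : ℝ) : ℝ := (-92800)*X^9 + (-431360)*X^8*Y + (-1328640)*X^7*Y^2 + (3845120)*X^6*Y^3 + (1992960)*X^5*Y^4 + (729600)*X^4*Y^5 + (4610560)*X^3*Y^6 + (-3281920)*X^2*Y^7 + (-666240)*X*Y^8 + (264960)*Y^9

/-- row of the imaginary part -/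
def Y4 (X Y : ℝ) : ℝ := (75840)*X^9 + (-220160)*X^8*Y + (-925440)*X^7*Y^2 + (-890880)*X^6*Y^3 + (206720)*X^5*Y^4 + (-1835520)*X^4*Y^5 + (4537600)*X^3*Y^6 + (-2452480)*X^2*Y^7 + (-1790400)*X*Y^8 + (-1287680)*Y^9

/-- real part, homogeneous form -/
def PR (A B X Y : ℝ) : ℝ :=
    A^4*R0 X Y + A^3*B*R1 X Y + A^2*B^2*R2 X Y + A*B^3*R3 X Y + B^4*R4 X Y

/-- imaginary part, homogeneous form -/
def PY (A B X Y : ℝ) : ℝ :=
    A^4*Y0 X Y + A^3*B*Y1 X Y + A^2*B^2*Y2 X Y + A*B^3*Y3 X Y + B^4*Y4 X Y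

theorem boxY_0 (c d x y : ℝ) (hc : 0 ≤ c) (hd : 0 ≤ d) (hx : 0 ≤ x) (hy : 0 ≤ y) (A B X Y : ℝ)
    (hA : A = (1)*c + (1)*d) (hB : B = (0)*c + (1)*d)
    (hX : X = (1)*x + (1)*y) (hY : Y = (0)*x + (1)*y) :
    0 ≤ -PY A B X Y - (A^2 + B^2)^2 * ((X^2 + Y^2)^4 * (X + Y)) := by
  have h0 : 0 ≤ (-1)*Y0 X Y + (-1)*((X^2 + Y^2)^4 * (X + Y)) := by
    have h : (-1)*Y0 X Y + (-1)*((X^2 + Y^2)^4 * (X + Y)) =
        75839*x^9 + 902710*x^8*y + 3566032*x^7*y^2 + 6947696*x^6*y^3 + 8002264*x^5*y^4 + 8808528*x^4*y^5 + 18073152*x^3*y^6 + 31968960*x^2*y^7 + 26413936*x*y^8 + 8791008*y^9 := by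
      subst hX hY
      simp only [Y0]
      ring
    rw [h]
    positivity
  have h1 : 0 ≤ (-4)*Y0 X Y + (-1)*Y1 X Y + (-4)*((X^2 + Y^2)^4 * (X + Y)) := by
    have h : (-4)*Y0 X Y + (-1)*Y1 X Y + (-4)*((X^2 + Y^2)^4 * (X + Y)) =
        396156*x^9 + 4014680*x^8*y + 15482688*x^7*y^2 + 36653504*x^6*y^3 + 68524896*x^5*y^4 + 111675712*x^4*y^5 + 157714688*x^3*y^6 + 172051200*x^2*y^7 + 108635584*x*y^8 + 31774592*y^9 := by
      subst hX hY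
      simp only [Y0, Y1]
      ring
    rw [h]
    positivity
  have h2 : 0 ≤ (-6)*Y0 X Y + (-3)*Y1 X Y + (-1)*Y2 X Y + (-8)*((X^2 + Y^2)^4 * (X + Y)) := by
    have h : (-6)*Y0 X Y + (-3)*Y1 X Y + (-1)*Y2 X Y + (-8)*((X^2 + Y^2)^4 * (X + Y)) =
        733432*x^9 + 6844080*x^8*y + 26782336*x^7*y^2 + 78032768*x^6*y^3 + 191884992*x^5*y^4 + 356369024*x^4*y^5 + 464953856*x^3*y^6 + 409945600*x^2*y^7 + 211209088*x*y^8 + 55725824*y^9 := by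
      subst hX hY
      simp only [Y0, Y1, Y2]
      ring
    rw [h]
    positivity
  have h3 : 0 ≤ (-4)*Y0 X Y + (-3)*Y1 X Y + (-2)*Y2 X Y + (-1)*Y3 X Y + (-8)*((X^2 + Y^2)^4 * (X + Y)) := by
    have h : (-4)*Y0 X Y + (-3)*Y1 X Y + (-2)*Y2 X Y + (-1)*Y3 X Y + (-8)*((X^2 + Y^2)^4 * (X + Y)) =
        674552*x^9 + 6521520*x^8*y + 29501056*x^7*y^2 + 99224448*x^6*y^3 + 248891072*x^5*y^4 + 432964224*x^4*y^5 + 503149056*x^3*y^6 + 382400000*x^2*y^7 + 173198208*x*y^8 + 45649664*y^9 := by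
      subst hX hY
      simp only [Y0, Y1, Y2, Y3]
      ring
    rw [h]
    positivity
  have h4 : 0 ≤ (-1)*Y0 X Y + (-1)*Y1 X Y + (-1)*Y2 X Y + (-1)*Y3 X Y + (-1)*Y4 X Y + (-4)*((X^2 + Y^2)^4 * (X + Y)) := by
    have h : (-1)*Y0 X Y + (-1)*Y1 X Y + (-1)*Y2 X Y + (-1)*Y3 X Y + (-1)*Y4 X Y + (-4)*((X^2 + Y^2)^4 * (X + Y)) =
        185596*x^9 + 2327000*x^8*y + 14591808*x^7*y^2 + 58060224*x^6*y^3 + 144874336*x^5*y^4 + 231872832*x^4*y^5 + 234739968*x^3*y^6 + 146553600*x^2*y^7 + 56503744*x*y^8 + 17489792*y^9 := by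
      subst hX hY
      simp only [Y0, Y1, Y2, Y3, Y4]
      ring
    rw [h]
    positivity
  have h : -PY A B X Y - (A^2 + B^2)^2 * ((X^2 + Y^2)^4 * (X + Y)) =
      c^4*((-1)*Y0 X Y + (-1)*((X^2 + Y^2)^4 * (X + Y))) +
      c^3*d*((-4)*Y0 X Y + (-1)*Y1 X Y + (-4)*((X^2 + Y^2)^4 * (X + Y))) +
      c^2*d^2*((-6)*Y0 X Y + (-3)*Y1 X Y + (-1)*Y2 X Y + (-8)*((X^2 + Y^2)^4 * (X + Y))) +
      c*d^3*((-4)*Y0 X Y + (-3)*Y1 X Y + (-2)*Y2 X Y + (-1)*Y3 X Y + (-8)*((X^2 + Y^2)^4 * (X + Y))) +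
      d^4*((-1)*Y0 X Y + (-1)*Y1 X Y + (-1)*Y2 X Y + (-1)*Y3 X Y + (-1)*Y4 X Y + (-4)*((X^2 + Y^2)^4 * (X + Y))) := by
    subst hA hB
    simp only [PY]
    generalize (X ^ 2 + Y ^ 2) = nn
    generalize Y0 X Y = r0
    generalize Y1 X Y = r1
    generalize Y2 X Y = r2
    generalize Y3 X Y = r3
    generalize Y4 X Y = r4
    ring
  rw [h]
  positivity

theorem boxY_1 (c d x y : ℝ) (hc : 0 ≤ c) (hd : 0 ≤ d) (hx : 0 ≤ x) (hy : 0 ≤ y) (A B X Y : ℝ)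
    (hA : A = (1)*c + (1)*d) (hB : B = (0)*c + (1)*d)
    (hX : X = (1)*x + (0)*y) (hY : Y = (1)*x + (1)*y) :
    0 ≤ -PY A B X Y - (A^2 + B^2)^2 * ((X^2 + Y^2)^4 * (X + Y)) := by
  have h0 : 0 ≤ (-1)*Y0 X Y + (-1)*((X^2 + Y^2)^4 * (X + Y)) := by
    have h : (-1)*Y0 X Y + (-1)*((X^2 + Y^2)^4 * (X + Y)) =
        8791008*x^9 + 52705136*x^8*y + 137133760*x^7*y^2 + 204564032*x^6*y^3 + 200204368*x^5*y^4 + 142548184*x^4*y^5 + 79738736*x^3*y^6 + 34485712*x^2*y^7 + 9798710*x*y^8 + 1287679*y^9 := by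
      subst hX hY
      simp only [Y0]
      ring
    rw [h]
    positivity
  have h1 : 0 ≤ (-4)*Y0 X Y + (-1)*Y1 X Y + (-4)*((X^2 + Y^2)^4 * (X + Y)) := by
    have h : (-4)*Y0 X Y + (-1)*Y1 X Y + (-4)*((X^2 + Y^2)^4 * (X + Y)) =
        31774592*x^9 + 177335744*x^8*y + 446851840*x^7*y^2 + 673913088*x^6*y^3 + 698468672*x^5*y^4 + 545033056*x^4*y^5 + 332282304*x^3*y^6 + 149529408*x^2*y^7 + 42245720*x*y^8 + 5415676*y^9 := by
      subst hX hY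
      simp only [Y0, Y1]
      ring
    rw [h]
    positivity
  have h2 : 0 ≤ (-6)*Y0 X Y + (-3)*Y1 X Y + (-1)*Y2 X Y + (-8)*((X^2 + Y^2)^4 * (X + Y)) := by
    have h : (-6)*Y0 X Y + (-3)*Y1 X Y + (-1)*Y2 X Y + (-8)*((X^2 + Y^2)^4 * (X + Y)) =
        55725824*x^9 + 290323328*x^8*y + 726402560*x^7*y^2 + 1171780096*x^6*y^3 + 1369248384*x^5*y^4 + 1200565952*x^4*y^5 + 776462208*x^3*y^6 + 346521216*x^2*y^7 + 93438640*x*y^8 + 11353592*y^9 := by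
      subst hX hY
      simp only [Y0, Y1, Y2]
      ring
    rw [h]
    positivity
  have h3 : 0 ≤ (-4)*Y0 X Y + (-3)*Y1 X Y + (-2)*Y2 X Y + (-1)*Y3 X Y + (-8)*((X^2 + Y^2)^4 * (X + Y)) := by
    have h : (-4)*Y0 X Y + (-3)*Y1 X Y + (-2)*Y2 X Y + (-1)*Y3 X Y + (-8)*((X^2 + Y^2)^4 * (X + Y)) =
        45649664*x^9 + 237648768*x^8*y + 640202240*x^7*y^2 + 1158672896*x^6*y^3 + 1497227904*x^5*y^4 + 1380677312*x^4*y^5 + 889793408*x^3*y^6 + 381470336*x^2*y^7 + 97616560*x*y^8 + 11345912*y^9 := by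
      subst hX hY
      simp only [Y0, Y1, Y2, Y3]
      ring
    rw [h]
    positivity
  have h4 : 0 ≤ (-1)*Y0 X Y + (-1)*Y1 X Y + (-1)*Y2 X Y + (-1)*Y3 X Y + (-1)*Y4 X Y + (-4)*((X^2 + Y^2)^4 * (X + Y)) := by
    have h : (-1)*Y0 X Y + (-1)*Y1 X Y + (-1)*Y2 X Y + (-1)*Y3 X Y + (-1)*Y4 X Y + (-4)*((X^2 + Y^2)^4 * (X + Y)) =
        17489792*x^9 + 100904384*x^8*y + 324156160*x^7*y^2 + 678172928*x^6*y^3 + 940562752*x^5*y^4 + 871218016*x^4*y^5 + 536800704*x^3*y^6 + 213124928*x^2*y^7 + 50004440*x*y^8 + 5407996*y^9 := by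
      subst hX hY
      simp only [Y0, Y1, Y2, Y3, Y4]
      ring
    rw [h]
    positivity
  have h : -PY A B X Y - (A^2 + B^2)^2 * ((X^2 + Y^2)^4 * (X + Y)) =
      c^4*((-1)*Y0 X Y + (-1)*((X^2 + Y^2)^4 * (X + Y))) +
      c^3*d*((-4)*Y0 X Y + (-1)*Y1 X Y + (-4)*((X^2 + Y^2)^4 * (X + Y))) +
      c^2*d^2*((-6)*Y0 X Y + (-3)*Y1 X Y + (-1)*Y2 X Y + (-8)*((X^2 + Y^2)^4 * (X + Y))) +
      c*d^3*((-4)*Y0 X Y + (-3)*Y1 X Y + (-2)*Y2 X Y + (-1)*Y3 X Y + (-8)*((X^2 + Y^2)^4 * (X + Y))) +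
      d^4*((-1)*Y0 X Y + (-1)*Y1 X Y + (-1)*Y2 X Y + (-1)*Y3 X Y + (-1)*Y4 X Y + (-4)*((X^2 + Y^2)^4 * (X + Y))) := by
    subst hA hB
    simp only [PY]
    generalize (X ^ 2 + Y ^ 2) = nn
    generalize Y0 X Y = r0
    generalize Y1 X Y = r1
    generalize Y2 X Y = r2
    generalize Y3 X Y = r3
    generalize Y4 X Y = r4
    ring
  rw [h]
  positivity

theorem boxR_2 (c d x y : ℝ) (hc : 0 ≤ c) (hd : 0 ≤ d) (hx : 0 ≤ x) (hy : 0 ≤ y) (A B X Y : ℝ)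
    (hA : A = (1)*c + (0)*d) (hB : B = (1)*c + (1)*d)
    (hX : X = (1)*x + (2)*y) (hY : Y = (0)*x + (1)*y) :
    0 ≤ -PR A B X Y - (A^2 + B^2)^2 * (X^2 + Y^2)^7 := by
  have h0 : 0 ≤ (-1)*R0 X Y + (-1)*R1 X Y + (-1)*R2 X Y + (-1)*R3 X Y + (-1)*R4 X Y + (-4)*((X^2 + Y^2)^7) := by
    have h : (-1)*R0 X Y + (-1)*R1 X Y + (-1)*R2 X Y + (-1)*R3 X Y + (-1)*R4 X Y + (-4)*((X^2 + Y^2)^7) =
        539036*x^14 + 15813648*x^13*y + 218120788*x^12*y^2 + 1863553504*x^11*y^3 + 10961063756*x^10*y^4 + 46743450096*x^9*y^5 + 148435964132*x^8*y^6 + 355126058304*x^7*y^7 + 640378503636*x^6*y^8 + 861508735472*x^5*y^9 + 845041799164*x^4*y^10 + 579561198304*x^3*y^11 + 257456213060*x^2*y^12 + 63338115600*x*y^13 + 5621527500*y^14 := by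
      subst hX hY
      simp only [R0, R1, R2, R3, R4]
      ring
    rw [h]
    positivity
  have h1 : 0 ≤ (-1)*R1 X Y + (-2)*R2 X Y + (-3)*R3 X Y + (-4)*R4 X Y + (-8)*((X^2 + Y^2)^7) := by
    have h : (-1)*R1 X Y + (-2)*R2 X Y + (-3)*R3 X Y + (-4)*R4 X Y + (-8)*((X^2 + Y^2)^7) =
        1084472*x^14 + 31451040*x^13*y + 428804776*x^12*y^2 + 3622878912*x^11*y^3 + 21087828120*x^10*y^4 + 89060222944*x^9*y^5 + 280194428360*x^8*y^6 + 663930719104*x^7*y^7 + 1183893939880*x^6*y^8 + 1569065085024*x^5*y^9 + 1504486478840*x^4*y^10 + 992536617408*x^3*y^11 + 408779446920*x^2*y^12 + 83603207200*x*y^13 + 2874735000*y^14 := by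
      subst hX hY
      simp only [R1, R2, R3, R4]
      ring
    rw [h]
    positivity
  have h2 : 0 ≤ (-1)*R2 X Y + (-3)*R3 X Y + (-6)*R4 X Y + (-8)*((X^2 + Y^2)^7) := by
    have h : (-1)*R2 X Y + (-3)*R3 X Y + (-6)*R4 X Y + (-8)*((X^2 + Y^2)^7) =
        972312*x^14 + 27772512*x^13*y + 373477256*x^12*y^2 + 3120002496*x^11*y^3 + 18007235288*x^10*y^4 + 75604099424*x^9*y^5 + 236954061832*x^8*y^6 + 560069833600*x^7*y^7 + 996619555592*x^6*y^8 + 1317226434592*x^5*y^9 + 1256740594776*x^4*y^10 + 820894747840*x^3*y^11 + 330861366280*x^2*y^12 + 63671623200*x*y^13 + 972927000*y^14 := by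
      subst hX hY
      simp only [R2, R3, R4]
      ring
    rw [h]
    positivity
  have h3 : 0 ≤ (-1)*R3 X Y + (-4)*R4 X Y + (-4)*((X^2 + Y^2)^7) := by
    have h : (-1)*R3 X Y + (-4)*R4 X Y + (-4)*((X^2 + Y^2)^7) =
        426876*x^14 + 11957392*x^13*y + 158172340*x^12*y^2 + 1305539168*x^11*y^3 + 7480720012*x^10*y^4 + 31318785392*x^9*y^5 + 98213165860*x^8*y^6 + 232784424384*x^7*y^7 + 415775974708*x^6*y^8 + 551397228016*x^5*y^9 + 526939812572*x^4*y^10 + 343461937120*x^3*y^11 + 137039864260*x^2*y^12 + 25464336400*x*y^13 + 104231500*y^14 := by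
      subst hX hY
      simp only [R3, R4]
      ring
    rw [h]
    positivity
  have h4 : 0 ≤ (-1)*R4 X Y + (-1)*((X^2 + Y^2)^7) := by
    have h : (-1)*R4 X Y + (-1)*((X^2 + Y^2)^7) =
        105919*x^14 + 2876868*x^13*y + 36975373*x^12*y^2 + 298418872*x^11*y^3 + 1688116835*x^10*y^4 + 7058946044*x^9*y^5 + 22393874825*x^8*y^6 + 54436222544*x^7*y^7 + 101253688045*x^6*y^8 + 142484956092*x^5*y^9 + 148296074839*x^4*y^10 + 109802058104*x^3*y^11 + 54067004465*x^2*y^12 + 15552727300*x*y^13 + 1895073875*y^14 := by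
      subst hX hY
      simp only [R4]
      ring
    rw [h]
    positivity
  have h : -PR A B X Y - (A^2 + B^2)^2 * (X^2 + Y^2)^7 =
      c^4*((-1)*R0 X Y + (-1)*R1 X Y + (-1)*R2 X Y + (-1)*R3 X Y + (-1)*R4 X Y + (-4)*((X^2 + Y^2)^7)) +
      c^3*d*((-1)*R1 X Y + (-2)*R2 X Y + (-3)*R3 X Y + (-4)*R4 X Y + (-8)*((X^2 + Y^2)^7)) +
      c^2*d^2*((-1)*R2 X Y + (-3)*R3 X Y + (-6)*R4 X Y + (-8)*((X^2 + Y^2)^7)) +
      c*d^3*((-1)*R3 X Y + (-4)*R4 X Y + (-4)*((X^2 + Y^2)^7)) +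
      d^4*((-1)*R4 X Y + (-1)*((X^2 + Y^2)^7)) := by
    subst hA hB
    simp only [PR]
    generalize (X ^ 2 + Y ^ 2) = nn
    generalize R0 X Y = r0
    generalize R1 X Y = r1
    generalize R2 X Y = r2
    generalize R3 X Y = r3
    generalize R4 X Y = r4
    ring
  rw [h]
  positivity

theorem boxY_3 (c d x y : ℝ) (hc : 0 ≤ c) (hd : 0 ≤ d) (hx : 0 ≤ x) (hy : 0 ≤ y) (A B X Y : ℝ)
    (hA : A = (1)*c + (0)*d) (hB : B = (1)*c + (1)*d)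
    (hX : X = (2)*x + (1)*y) (hY : Y = (1)*x + (1)*y) :
    0 ≤ -PY A B X Y - (A^2 + B^2)^2 * ((X^2 + Y^2)^4 * (X + Y)) := by
  have h0 : 0 ≤ (-1)*Y0 X Y + (-1)*Y1 X Y + (-1)*Y2 X Y + (-1)*Y3 X Y + (-1)*Y4 X Y + (-4)*((X^2 + Y^2)^4 * (X + Y)) := by
    have h : (-1)*Y0 X Y + (-1)*Y1 X Y + (-1)*Y2 X Y + (-1)*Y3 X Y + (-1)*Y4 X Y + (-4)*((X^2 + Y^2)^4 * (X + Y)) =
        907198900*x^9 + 4988305880*x^8*y + 12187209280*x^7*y^2 + 17413813440*x^6*y^3 + 16113689888*x^5*y^4 + 10085861696*x^4*y^5 + 4311862528*x^3*y^6 + 1228216064*x^2*y^7 + 213911872*x*y^8 + 17489792*y^9 := by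
      subst hX hY
      simp only [Y0, Y1, Y2, Y3, Y4]
      ring
    rw [h]
    positivity
  have h1 : 0 ≤ (-1)*Y1 X Y + (-2)*Y2 X Y + (-3)*Y3 X Y + (-4)*Y4 X Y + (-8)*((X^2 + Y^2)^4 * (X + Y)) := by
    have h : (-1)*Y1 X Y + (-2)*Y2 X Y + (-3)*Y3 X Y + (-4)*Y4 X Y + (-8)*((X^2 + Y^2)^4 * (X + Y)) =
        1706621800*x^9 + 8937514160*x^8*y + 20528100480*x^7*y^2 + 27250170240*x^6*y^3 + 23234079296*x^5*y^4 + 13410230912*x^4*y^5 + 5383379456*x^3*y^6 + 1501490688*x^2*y^7 + 271602304*x*y^8 + 24309504*y^9 := by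
      subst hX hY
      simp only [Y1, Y2, Y3, Y4]
      ring
    rw [h]
    positivity
  have h2 : 0 ≤ (-1)*Y2 X Y + (-3)*Y3 X Y + (-6)*Y4 X Y + (-8)*((X^2 + Y^2)^4 * (X + Y)) := by
    have h : (-1)*Y2 X Y + (-3)*Y3 X Y + (-6)*Y4 X Y + (-8)*((X^2 + Y^2)^4 * (X + Y)) =
        1479153000*x^9 + 7577146800*x^8*y + 16940076160*x^7*y^2 + 21832744320*x^6*y^3 + 18122322496*x^5*y^4 + 10319635072*x^4*y^5 + 4208359936*x^3*y^6 + 1240923648*x^2*y^7 + 244077184*x*y^8 + 23715584*y^9 := by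
      subst hX hY
      simp only [Y2, Y3, Y4]
      ring
    rw [h]
    positivity
  have h3 : 0 ≤ (-1)*Y3 X Y + (-4)*Y4 X Y + (-4)*((X^2 + Y^2)^4 * (X + Y)) := by
    have h : (-1)*Y3 X Y + (-4)*Y4 X Y + (-4)*((X^2 + Y^2)^4 * (X + Y)) =
        760312500*x^9 + 4011853400*x^8*y + 9226861120*x^7*y^2 + 12213977280*x^6*y^3 + 10374661408*x^5*y^4 + 5993793856*x^4*y^5 + 2441096448*x^3*y^6 + 705218304*x^2*y^7 + 134388032*x*y^8 + 12687232*y^9 := by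
      subst hX hY
      simp only [Y3, Y4]
      ring
    rw [h]
    positivity
  have h4 : 0 ≤ (-1)*Y4 X Y + (-1)*((X^2 + Y^2)^4 * (X + Y)) := by
    have h : (-1)*Y4 X Y + (-1)*((X^2 + Y^2)^4 * (X + Y)) =
        194132525*x^9 + 1111496630*x^8*y + 2786696080*x^7*y^2 + 4042633520*x^6*y^3 + 3771426632*x^5*y^4 + 2373971024*x^4*y^5 + 1024144192*x^3*y^6 + 297326016*x^2*y^7 + 53534288*x*y^8 + 4582368*y^9 := by
      subst hX hY
      simp only [Y4]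
      ring
    rw [h]
    positivity
  have h : -PY A B X Y - (A^2 + B^2)^2 * ((X^2 + Y^2)^4 * (X + Y)) =
      c^4*((-1)*Y0 X Y + (-1)*Y1 X Y + (-1)*Y2 X Y + (-1)*Y3 X Y + (-1)*Y4 X Y + (-4)*((X^2 + Y^2)^4 * (X + Y))) +
      c^3*d*((-1)*Y1 X Y + (-2)*Y2 X Y + (-3)*Y3 X Y + (-4)*Y4 X Y + (-8)*((X^2 + Y^2)^4 * (X + Y))) +
      c^2*d^2*((-1)*Y2 X Y + (-3)*Y3 X Y + (-6)*Y4 X Y + (-8)*((X^2 + Y^2)^4 * (X + Y))) +
      c*d^3*((-1)*Y3 X Y + (-4)*Y4 X Y + (-4)*((X^2 + Y^2)^4 * (X + Y))) +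
      d^4*((-1)*Y4 X Y + (-1)*((X^2 + Y^2)^4 * (X + Y))) := by
    subst hA hB
    simp only [PY]
    generalize (X ^ 2 + Y ^ 2) = nn
    generalize Y0 X Y = r0
    generalize Y1 X Y = r1
    generalize Y2 X Y = r2
    generalize Y3 X Y = r3
    generalize Y4 X Y = r4
    ring
  rw [h]
  positivity

theorem boxY_4 (c d x y : ℝ) (hc : 0 ≤ c) (hd : 0 ≤ d) (hx : 0 ≤ x) (hy : 0 ≤ y) (A B X Y : ℝ)
    (hA : A = (1)*c + (0)*d) (hB : B = (1)*c + (1)*d)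
    (hX : X = (1)*x + (0)*y) (hY : Y = (1)*x + (1)*y) :
    0 ≤ -PY A B X Y - (A^2 + B^2)^2 * ((X^2 + Y^2)^4 * (X + Y)) := by
  have h0 : 0 ≤ (-1)*Y0 X Y + (-1)*Y1 X Y + (-1)*Y2 X Y + (-1)*Y3 X Y + (-1)*Y4 X Y + (-4)*((X^2 + Y^2)^4 * (X + Y)) := by
    have h : (-1)*Y0 X Y + (-1)*Y1 X Y + (-1)*Y2 X Y + (-1)*Y3 X Y + (-1)*Y4 X Y + (-4)*((X^2 + Y^2)^4 * (X + Y)) =
        17489792*x^9 + 100904384*x^8*y + 324156160*x^7*y^2 + 678172928*x^6*y^3 + 940562752*x^5*y^4 + 871218016*x^4*y^5 + 536800704*x^3*y^6 + 213124928*x^2*y^7 + 50004440*x*y^8 + 5407996*y^9 := by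
      subst hX hY
      simp only [Y0, Y1, Y2, Y3, Y4]
      ring
    rw [h]
    positivity
  have h1 : 0 ≤ (-1)*Y1 X Y + (-2)*Y2 X Y + (-3)*Y3 X Y + (-4)*Y4 X Y + (-8)*((X^2 + Y^2)^4 * (X + Y)) := by
    have h : (-1)*Y1 X Y + (-2)*Y2 X Y + (-3)*Y3 X Y + (-4)*Y4 X Y + (-8)*((X^2 + Y^2)^4 * (X + Y)) =
        24309504*x^9 + 165968768*x^8*y + 656422400*x^7*y^2 + 1554018816*x^6*y^3 + 2265023104*x^5*y^4 + 2104194752*x^4*y^5 + 1257409408*x^3*y^6 + 471029376*x^2*y^7 + 102401200*x*y^8 + 10286072*y^9 := by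
      subst hX hY
      simp only [Y1, Y2, Y3, Y4]
      ring
    rw [h]
    positivity
  have h2 : 0 ≤ (-1)*Y2 X Y + (-3)*Y3 X Y + (-6)*Y4 X Y + (-8)*((X^2 + Y^2)^4 * (X + Y)) := by
    have h : (-1)*Y2 X Y + (-3)*Y3 X Y + (-6)*Y4 X Y + (-8)*((X^2 + Y^2)^4 * (X + Y)) =
        23715584*x^9 + 182803328*x^8*y + 750732800*x^7*y^2 + 1764798976*x^6*y^3 + 2520941184*x^5*y^4 + 2285842112*x^4*y^5 + 1327886208*x^3*y^6 + 480859776*x^2*y^7 + 100615600*x*y^8 + 9763832*y^9 := by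
      subst hX hY
      simp only [Y2, Y3, Y4]
      ring
    rw [h]
    positivity
  have h3 : 0 ≤ (-1)*Y3 X Y + (-4)*Y4 X Y + (-4)*((X^2 + Y^2)^4 * (X + Y)) := by
    have h : (-1)*Y3 X Y + (-4)*Y4 X Y + (-4)*((X^2 + Y^2)^4 * (X + Y)) =
        12687232*x^9 + 93982144*x^8*y + 381971200*x^7*y^2 + 906320128*x^6*y^3 + 1310595392*x^5*y^4 + 1198938976*x^4*y^5 + 698464704*x^3*y^6 + 251601728*x^2*y^7 + 51799640*x*y^8 + 4885756*y^9 := by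
      subst hX hY
      simp only [Y3, Y4]
      ring
    rw [h]
    positivity
  have h4 : 0 ≤ (-1)*Y4 X Y + (-1)*((X^2 + Y^2)^4 * (X + Y)) := by
    have h : (-1)*Y4 X Y + (-1)*((X^2 + Y^2)^4 * (X + Y)) =
        4582368*x^9 + 28948336*x^8*y + 100638400*x^7*y^2 + 221931072*x^6*y^3 + 314318928*x^5*y^4 + 288621784*x^4*y^5 + 170925936*x^3*y^6 + 63132112*x^2*y^7 + 13379510*x*y^8 + 1287679*y^9 := by
      subst hX hY
      simp only [Y4]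
      ring
    rw [h]
    positivity
  have h : -PY A B X Y - (A^2 + B^2)^2 * ((X^2 + Y^2)^4 * (X + Y)) =
      c^4*((-1)*Y0 X Y + (-1)*Y1 X Y + (-1)*Y2 X Y + (-1)*Y3 X Y + (-1)*Y4 X Y + (-4)*((X^2 + Y^2)^4 * (X + Y))) +
      c^3*d*((-1)*Y1 X Y + (-2)*Y2 X Y + (-3)*Y3 X Y + (-4)*Y4 X Y + (-8)*((X^2 + Y^2)^4 * (X + Y))) +
      c^2*d^2*((-1)*Y2 X Y + (-3)*Y3 X Y + (-6)*Y4 X Y + (-8)*((X^2 + Y^2)^4 * (X + Y))) +
      c*d^3*((-1)*Y3 X Y + (-4)*Y4 X Y + (-4)*((X^2 + Y^2)^4 * (X + Y))) +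
      d^4*((-1)*Y4 X Y + (-1)*((X^2 + Y^2)^4 * (X + Y))) := by
    subst hA hB
    simp only [PY]
    generalize (X ^ 2 + Y ^ 2) = nn
    generalize Y0 X Y = r0
    generalize Y1 X Y = r1
    generalize Y2 X Y = r2
    generalize Y3 X Y = r3
    generalize Y4 X Y = r4
    ring
  rw [h]
  positivity

theorem boxR_5 (c d x y : ℝ) (hc : 0 ≤ c) (hd : 0 ≤ d) (hx : 0 ≤ x) (hy : 0 ≤ y) (A B X Y : ℝ)
    (hA : A = (0)*c + (-1)*d) (hB : B = (1)*c + (1)*d)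
    (hX : X = (1)*x + (2)*y) (hY : Y = (0)*x + (1)*y) :
    0 ≤ -PR A B X Y - (A^2 + B^2)^2 * (X^2 + Y^2)^7 := by
  have h0 : 0 ≤ (-1)*R4 X Y + (-1)*((X^2 + Y^2)^7) := by
    have h : (-1)*R4 X Y + (-1)*((X^2 + Y^2)^7) =
        105919*x^14 + 2876868*x^13*y + 36975373*x^12*y^2 + 298418872*x^11*y^3 + 1688116835*x^10*y^4 + 7058946044*x^9*y^5 + 22393874825*x^8*y^6 + 54436222544*x^7*y^7 + 101253688045*x^6*y^8 + 142484956092*x^5*y^9 + 148296074839*x^4*y^10 + 109802058104*x^3*y^11 + 54067004465*x^2*y^12 + 15552727300*x*y^13 + 1895073875*y^14 := by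
      subst hX hY
      simp only [R4]
      ring
    rw [h]
    positivity
  have h1 : 0 ≤ (1)*R3 X Y + (-4)*R4 X Y + (-4)*((X^2 + Y^2)^7) := by
    have h : (1)*R3 X Y + (-4)*R4 X Y + (-4)*((X^2 + Y^2)^7) =
        420476*x^14 + 11057552*x^13*y + 137630644*x^12*y^2 + 1081811808*x^11*y^3 + 6024214668*x^10*y^4 + 25152782960*x^9*y^5 + 80937832740*x^8*y^6 + 202705355968*x^7*y^7 + 394253529652*x^6*y^8 + 588482420720*x^5*y^9 + 659428786140*x^4*y^10 + 534954527712*x^3*y^11 + 295496171460*x^2*y^12 + 98957482000*x*y^13 + 15056359500*y^14 := by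
      subst hX hY
      simp only [R3, R4]
      ring
    rw [h]
    positivity
  have h2 : 0 ≤ (-1)*R2 X Y + (3)*R3 X Y + (-6)*R4 X Y + (-8)*((X^2 + Y^2)^7) := by
    have h : (-1)*R2 X Y + (3)*R3 X Y + (-6)*R4 X Y + (-8)*((X^2 + Y^2)^7) =
        953112*x^14 + 25072992*x^13*y + 311852168*x^12*y^2 + 2448820416*x^11*y^3 + 13637719256*x^10*y^4 + 57106092128*x^9*y^5 + 185128062472*x^8*y^6 + 469832628352*x^7*y^7 + 932052220424*x^6*y^8 + 1428482012704*x^5*y^9 + 1654207515480*x^4*y^10 + 1395372519616*x^3*y^11 + 806230287880*x^2*y^12 + 284151060000*x*y^13 + 45829311000*y^14 := by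
      subst hX hY
      simp only [R2, R3, R4]
      ring
    rw [h]
    positivity
  have h3 : 0 ≤ (1)*R1 X Y + (-2)*R2 X Y + (3)*R3 X Y + (-4)*R4 X Y + (-8)*((X^2 + Y^2)^7) := by
    have h : (1)*R1 X Y + (-2)*R2 X Y + (3)*R3 X Y + (-4)*R4 X Y + (-8)*((X^2 + Y^2)^7) =
        1071672*x^14 + 28210080*x^13*y + 350248104*x^12*y^2 + 2740064960*x^11*y^3 + 15192211608*x^10*y^4 + 63417023456*x^9*y^5 + 205667823048*x^8*y^6 + 524894644096*x^7*y^7 + 1053390603432*x^6*y^8 + 1642592512096*x^5*y^9 + 1944672544248*x^4*y^10 + 1683164987840*x^3*y^11 + 1000331789960*x^2*y^12 + 363198522400*x*y^13 + 60408559000*y^14 := by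
      subst hX hY
      simp only [R1, R2, R3, R4]
      ring
    rw [h]
    positivity
  have h4 : 0 ≤ (-1)*R0 X Y + (1)*R1 X Y + (-1)*R2 X Y + (1)*R3 X Y + (-1)*R4 X Y + (-4)*((X^2 + Y^2)^7) := by
    have h : (-1)*R0 X Y + (1)*R1 X Y + (-1)*R2 X Y + (1)*R3 X Y + (-1)*R4 X Y + (-4)*((X^2 + Y^2)^7) =
        539036*x^14 + 14372368*x^13*y + 180647508*x^12*y^2 + 1428194272*x^11*y^3 + 7978457932*x^10*y^4 + 33432255472*x^9*y^5 + 108460025060*x^8*y^6 + 276248120128*x^7*y^7 + 552920057300*x^6*y^8 + 860865777136*x^5*y^9 + 1020249917436*x^4*y^10 + 887204387552*x^3*y^11 + 532095941700*x^2*y^12 + 195947139600*x*y^13 + 33251095500*y^14 := by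
      subst hX hY
      simp only [R0, R1, R2, R3, R4]
      ring
    rw [h]
    positivity
  have h : -PR A B X Y - (A^2 + B^2)^2 * (X^2 + Y^2)^7 =
      c^4*((-1)*R4 X Y + (-1)*((X^2 + Y^2)^7)) +
      c^3*d*((1)*R3 X Y + (-4)*R4 X Y + (-4)*((X^2 + Y^2)^7)) +
      c^2*d^2*((-1)*R2 X Y + (3)*R3 X Y + (-6)*R4 X Y + (-8)*((X^2 + Y^2)^7)) +
      c*d^3*((1)*R1 X Y + (-2)*R2 X Y + (3)*R3 X Y + (-4)*R4 X Y + (-8)*((X^2 + Y^2)^7)) +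
      d^4*((-1)*R0 X Y + (1)*R1 X Y + (-1)*R2 X Y + (1)*R3 X Y + (-1)*R4 X Y + (-4)*((X^2 + Y^2)^7)) := by
    subst hA hB
    simp only [PR]
    generalize (X ^ 2 + Y ^ 2) = nn
    generalize R0 X Y = r0
    generalize R1 X Y = r1
    generalize R2 X Y = r2
    generalize R3 X Y = r3
    generalize R4 X Y = r4
    ring
  rw [h]
  positivity

theorem boxY_6 (c d x y : ℝ) (hc : 0 ≤ c) (hd : 0 ≤ d) (hx : 0 ≤ x) (hy : 0 ≤ y) (A B X Y : ℝ)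
    (hA : A = (0)*c + (-1)*d) (hB : B = (1)*c + (1)*d)
    (hX : X = (2)*x + (1)*y) (hY : Y = (1)*x + (1)*y) :
    0 ≤ -PY A B X Y - (A^2 + B^2)^2 * ((X^2 + Y^2)^4 * (X + Y)) := by
  have h0 : 0 ≤ (-1)*Y4 X Y + (-1)*((X^2 + Y^2)^4 * (X + Y)) := by
    have h : (-1)*Y4 X Y + (-1)*((X^2 + Y^2)^4 * (X + Y)) =
        194132525*x^9 + 1111496630*x^8*y + 2786696080*x^7*y^2 + 4042633520*x^6*y^3 + 3771426632*x^5*y^4 + 2373971024*x^4*y^5 + 1024144192*x^3*y^6 + 297326016*x^2*y^7 + 53534288*x*y^8 + 4582368*y^9 := by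
      subst hX hY
      simp only [Y4]
      ring
    rw [h]
    positivity
  have h1 : 0 ≤ (1)*Y3 X Y + (-4)*Y4 X Y + (-4)*((X^2 + Y^2)^4 * (X + Y)) := by
    have h : (1)*Y3 X Y + (-4)*Y4 X Y + (-4)*((X^2 + Y^2)^4 * (X + Y)) =
        792747700*x^9 + 4880119640*x^8*y + 13066707520*x^7*y^2 + 20127090880*x^6*y^3 + 19796751648*x^5*y^4 + 12997974336*x^4*y^5 + 5752057088*x^3*y^6 + 1673389824*x^2*y^7 + 293886272*x*y^8 + 23971712*y^9 := by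
      subst hX hY
      simp only [Y3, Y4]
      ring
    rw [h]
    positivity
  have h2 : 0 ≤ (-1)*Y2 X Y + (3)*Y3 X Y + (-6)*Y4 X Y + (-8)*((X^2 + Y^2)^4 * (X + Y)) := by
    have h : (-1)*Y2 X Y + (3)*Y3 X Y + (-6)*Y4 X Y + (-8)*((X^2 + Y^2)^4 * (X + Y)) =
        1576458600*x^9 + 10181945520*x^8*y + 28459615360*x^7*y^2 + 45572085120*x^6*y^3 + 46388593216*x^5*y^4 + 31332176512*x^4*y^5 + 14141241856*x^3*y^6 + 4145438208*x^2*y^7 + 722571904*x*y^8 + 57569024*y^9 := by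
      subst hX hY
      simp only [Y2, Y3, Y4]
      ring
    rw [h]
    positivity
  have h3 : 0 ≤ (1)*Y1 X Y + (-2)*Y2 X Y + (3)*Y3 X Y + (-4)*Y4 X Y + (-8)*((X^2 + Y^2)^4 * (X + Y)) := by
    have h : (1)*Y1 X Y + (-2)*Y2 X Y + (3)*Y3 X Y + (-4)*Y4 X Y + (-8)*((X^2 + Y^2)^4 * (X + Y)) =
        1298481000*x^9 + 8796724400*x^8*y + 25684145280*x^7*y^2 + 42877352320*x^6*y^3 + 45444926016*x^5*y^4 + 31909855872*x^4*y^5 + 14929517056*x^3*y^6 + 4514016768*x^2*y^7 + 805147264*x*y^8 + 64941824*y^9 := by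
      subst hX hY
      simp only [Y1, Y2, Y3, Y4]
      ring
    rw [h]
    positivity
  have h4 : 0 ≤ (-1)*Y0 X Y + (1)*Y1 X Y + (-1)*Y2 X Y + (1)*Y3 X Y + (-1)*Y4 X Y + (-4)*((X^2 + Y^2)^4 * (X + Y)) := by
    have h : (-1)*Y0 X Y + (1)*Y1 X Y + (-1)*Y2 X Y + (1)*Y3 X Y + (-1)*Y4 X Y + (-4)*((X^2 + Y^2)^4 * (X + Y)) =
        434187700*x^9 + 3110983640*x^8*y + 9663561280*x^7*y^2 + 17214768320*x^6*y^3 + 19480356128*x^5*y^4 + 14577125696*x^4*y^5 + 7236078848*x^3*y^6 + 2304399104*x^2*y^7 + 428460352*x*y^8 + 35553152*y^9 := by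
      subst hX hY
      simp only [Y0, Y1, Y2, Y3, Y4]
      ring
    rw [h]
    positivity
  have h : -PY A B X Y - (A^2 + B^2)^2 * ((X^2 + Y^2)^4 * (X + Y)) =
      c^4*((-1)*Y4 X Y + (-1)*((X^2 + Y^2)^4 * (X + Y))) +
      c^3*d*((1)*Y3 X Y + (-4)*Y4 X Y + (-4)*((X^2 + Y^2)^4 * (X + Y))) +
      c^2*d^2*((-1)*Y2 X Y + (3)*Y3 X Y + (-6)*Y4 X Y + (-8)*((X^2 + Y^2)^4 * (X + Y))) +
      c*d^3*((1)*Y1 X Y + (-2)*Y2 X Y + (3)*Y3 X Y + (-4)*Y4 X Y + (-8)*((X^2 + Y^2)^4 * (X + Y))) +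
      d^4*((-1)*Y0 X Y + (1)*Y1 X Y + (-1)*Y2 X Y + (1)*Y3 X Y + (-1)*Y4 X Y + (-4)*((X^2 + Y^2)^4 * (X + Y))) := by
    subst hA hB
    simp only [PY]
    generalize (X ^ 2 + Y ^ 2) = nn
    generalize Y0 X Y = r0
    generalize Y1 X Y = r1
    generalize Y2 X Y = r2
    generalize Y3 X Y = r3
    generalize Y4 X Y = r4
    ring
  rw [h]
  positivity

theorem boxY_7 (c d x y : ℝ) (hc : 0 ≤ c) (hd : 0 ≤ d) (hx : 0 ≤ x) (hy : 0 ≤ y) (A B X Y : ℝ)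
    (hA : A = (0)*c + (-1)*d) (hB : B = (1)*c + (1)*d)
    (hX : X = (1)*x + (0)*y) (hY : Y = (1)*x + (1)*y) :
    0 ≤ -PY A B X Y - (A^2 + B^2)^2 * ((X^2 + Y^2)^4 * (X + Y)) := by
  have h0 : 0 ≤ (-1)*Y4 X Y + (-1)*((X^2 + Y^2)^4 * (X + Y)) := by
    have h : (-1)*Y4 X Y + (-1)*((X^2 + Y^2)^4 * (X + Y)) =
        4582368*x^9 + 28948336*x^8*y + 100638400*x^7*y^2 + 221931072*x^6*y^3 + 314318928*x^5*y^4 + 288621784*x^4*y^5 + 170925936*x^3*y^6 + 63132112*x^2*y^7 + 13379510*x*y^8 + 1287679*y^9 := by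
      subst hX hY
      simp only [Y4]
      ring
    rw [h]
    positivity
  have h1 : 0 ≤ (1)*Y3 X Y + (-4)*Y4 X Y + (-4)*((X^2 + Y^2)^4 * (X + Y)) := by
    have h : (1)*Y3 X Y + (-4)*Y4 X Y + (-4)*((X^2 + Y^2)^4 * (X + Y)) =
        23971712*x^9 + 137604544*x^8*y + 423136000*x^7*y^2 + 869128448*x^6*y^3 + 1203956032*x^5*y^4 + 1110035296*x^4*y^5 + 668942784*x^3*y^6 + 253455168*x^2*y^7 + 55236440*x*y^8 + 5415676*y^9 := by
      subst hX hY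
      simp only [Y3, Y4]
      ring
    rw [h]
    positivity
  have h2 : 0 ≤ (-1)*Y2 X Y + (3)*Y3 X Y + (-6)*Y4 X Y + (-8)*((X^2 + Y^2)^4 * (X + Y)) := by
    have h : (-1)*Y2 X Y + (3)*Y3 X Y + (-6)*Y4 X Y + (-8)*((X^2 + Y^2)^4 * (X + Y)) =
        57569024*x^9 + 313670528*x^8*y + 874227200*x^7*y^2 + 1653223936*x^6*y^3 + 2201023104*x^5*y^4 + 2019131072*x^4*y^5 + 1239320448*x^3*y^6 + 486420096*x^2*y^7 + 110926000*x*y^8 + 11353592*y^9 := by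
      subst hX hY
      simp only [Y2, Y3, Y4]
      ring
    rw [h]
    positivity
  have h3 : 0 ≤ (1)*Y1 X Y + (-2)*Y2 X Y + (3)*Y3 X Y + (-4)*Y4 X Y + (-8)*((X^2 + Y^2)^4 * (X + Y)) := by
    have h : (1)*Y1 X Y + (-2)*Y2 X Y + (3)*Y3 X Y + (-4)*Y4 X Y + (-8)*((X^2 + Y^2)^4 * (X + Y)) =
        64941824*x^9 + 363805568*x^8*y + 983283200*x^7*y^2 + 1731129856*x^6*y^3 + 2149802624*x^5*y^4 + 1887803072*x^4*y^5 + 1142188928*x^3*y^6 + 453416576*x^2*y^7 + 106609840*x*y^8 + 11345912*y^9 := by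
      subst hX hY
      simp only [Y1, Y2, Y3, Y4]
      ring
    rw [h]
    positivity
  have h4 : 0 ≤ (-1)*Y0 X Y + (1)*Y1 X Y + (-1)*Y2 X Y + (1)*Y3 X Y + (-1)*Y4 X Y + (-4)*((X^2 + Y^2)^4 * (X + Y)) := by
    have h : (-1)*Y0 X Y + (1)*Y1 X Y + (-1)*Y2 X Y + (1)*Y3 X Y + (-1)*Y4 X Y + (-4)*((X^2 + Y^2)^4 * (X + Y)) =
        35553152*x^9 + 211496384*x^8*y + 568687360*x^7*y^2 + 929667328*x^6*y^3 + 1038620992*x^5*y^4 + 832633696*x^4*y^5 + 480624064*x^3*y^6 + 191805248*x^2*y^7 + 47339480*x*y^8 + 5407996*y^9 := by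
      subst hX hY
      simp only [Y0, Y1, Y2, Y3, Y4]
      ring
    rw [h]
    positivity
  have h : -PY A B X Y - (A^2 + B^2)^2 * ((X^2 + Y^2)^4 * (X + Y)) =
      c^4*((-1)*Y4 X Y + (-1)*((X^2 + Y^2)^4 * (X + Y))) +
      c^3*d*((1)*Y3 X Y + (-4)*Y4 X Y + (-4)*((X^2 + Y^2)^4 * (X + Y))) +
      c^2*d^2*((-1)*Y2 X Y + (3)*Y3 X Y + (-6)*Y4 X Y + (-8)*((X^2 + Y^2)^4 * (X + Y))) +
      c*d^3*((1)*Y1 X Y + (-2)*Y2 X Y + (3)*Y3 X Y + (-4)*Y4 X Y + (-8)*((X^2 + Y^2)^4 * (X + Y))) +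
      d^4*((-1)*Y0 X Y + (1)*Y1 X Y + (-1)*Y2 X Y + (1)*Y3 X Y + (-1)*Y4 X Y + (-4)*((X^2 + Y^2)^4 * (X + Y))) := by
    subst hA hB
    simp only [PY]
    generalize (X ^ 2 + Y ^ 2) = nn
    generalize Y0 X Y = r0
    generalize Y1 X Y = r1
    generalize Y2 X Y = r2
    generalize Y3 X Y = r3
    generalize Y4 X Y = r4
    ring
  rw [h]
  positivity

theorem boxR_8 (c d x y : ℝ) (hc : 0 ≤ c) (hd : 0 ≤ d) (hx : 0 ≤ x) (hy : 0 ≤ y) (A B X Y : ℝ)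
    (hA : A = (-1)*c + (-1)*d) (hB : B = (1)*c + (0)*d)
    (hX : X = (1)*x + (2)*y) (hY : Y = (0)*x + (1)*y) :
    0 ≤ -PR A B X Y - (A^2 + B^2)^2 * (X^2 + Y^2)^7 := by
  have h0 : 0 ≤ (-1)*R0 X Y + (1)*R1 X Y + (-1)*R2 X Y + (1)*R3 X Y + (-1)*R4 X Y + (-4)*((X^2 + Y^2)^7) := by
    have h : (-1)*R0 X Y + (1)*R1 X Y + (-1)*R2 X Y + (1)*R3 X Y + (-1)*R4 X Y + (-4)*((X^2 + Y^2)^7) =
        539036*x^14 + 14372368*x^13*y + 180647508*x^12*y^2 + 1428194272*x^11*y^3 + 7978457932*x^10*y^4 + 33432255472*x^9*y^5 + 108460025060*x^8*y^6 + 276248120128*x^7*y^7 + 552920057300*x^6*y^8 + 860865777136*x^5*y^9 + 1020249917436*x^4*y^10 + 887204387552*x^3*y^11 + 532095941700*x^2*y^12 + 195947139600*x*y^13 + 33251095500*y^14 := by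
      subst hX hY
      simp only [R0, R1, R2, R3, R4]
      ring
    rw [h]
    positivity
  have h1 : 0 ≤ (-4)*R0 X Y + (3)*R1 X Y + (-2)*R2 X Y + (1)*R3 X Y + (-8)*((X^2 + Y^2)^7) := by
    have h : (-4)*R0 X Y + (3)*R1 X Y + (-2)*R2 X Y + (1)*R3 X Y + (-8)*((X^2 + Y^2)^7) =
        1084472*x^14 + 29279392*x^13*y + 372341928*x^12*y^2 + 2972712128*x^11*y^3 + 16721620120*x^10*y^4 + 70311998432*x^9*y^5 + 228172277192*x^8*y^6 + 580097836416*x^7*y^7 + 1158289625768*x^6*y^8 + 1800870596448*x^5*y^9 + 2136327125496*x^4*y^10 + 1865652562368*x^3*y^11 + 1128051976840*x^2*y^12 + 420590036000*x*y^13 + 72595823000*y^14 := by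
      subst hX hY
      simp only [R0, R1, R2, R3]
      ring
    rw [h]
    positivity
  have h2 : 0 ≤ (-6)*R0 X Y + (3)*R1 X Y + (-1)*R2 X Y + (-8)*((X^2 + Y^2)^7) := by
    have h : (-6)*R0 X Y + (3)*R1 X Y + (-1)*R2 X Y + (-8)*((X^2 + Y^2)^7) =
        972312*x^14 + 26676960*x^13*y + 344992904*x^12*y^2 + 2797791168*x^11*y^3 + 15931832024*x^10*y^4 + 67448554592*x^9*y^5 + 218884743688*x^8*y^6 + 552637416832*x^7*y^7 + 1089400753928*x^6*y^8 + 1665899139232*x^5*y^9 + 1941689387352*x^4*y^10 + 1669103881408*x^3*y^11 + 997810568200*x^2*y^12 + 370238330400*x*y^13 + 64110207000*y^14 := by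
      subst hX hY
      simp only [R0, R1, R2]
      ring
    rw [h]
    positivity
  have h3 : 0 ≤ (-4)*R0 X Y + (1)*R1 X Y + (-4)*((X^2 + Y^2)^7) := by
    have h : (-4)*R0 X Y + (1)*R1 X Y + (-4)*((X^2 + Y^2)^7) =
        426876*x^14 + 11947664*x^13*y + 157919412*x^12*y^2 + 1308411232*x^11*y^3 + 7588420748*x^10*y^4 + 32537352816*x^9*y^5 + 106154923300*x^8*y^6 + 267268448960*x^7*y^7 + 521359330100*x^6*y^8 + 784167176944*x^5*y^9 + 895968281820*x^4*y^10 + 755113098208*x^3*y^11 + 444352801220*x^2*y^12 + 163537629200*x*y^13 + 28380967500*y^14 := by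
      subst hX hY
      simp only [R0, R1]
      ring
    rw [h]
    positivity
  have h4 : 0 ≤ (-1)*R0 X Y + (-1)*((X^2 + Y^2)^7) := by
    have h : (-1)*R0 X Y + (-1)*((X^2 + Y^2)^7) =
        105919*x^14 + 3054596*x^13*y + 41596301*x^12*y^2 + 353556792*x^11*y^3 + 2087867747*x^10*y^4 + 9027487228*x^9*y^5 + 29376306569*x^8*y^6 + 72916970960*x^7*y^7 + 138581832685*x^6*y^8 + 200757813116*x^5*y^9 + 218652177367*x^4*y^10 + 174259449720*x^3*y^11 + 96565272625*x^2*y^12 + 33494922500*x*y^13 + 5510561875*y^14 := by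
      subst hX hY
      simp only [R0]
      ring
    rw [h]
    positivity
  have h : -PR A B X Y - (A^2 + B^2)^2 * (X^2 + Y^2)^7 =
      c^4*((-1)*R0 X Y + (1)*R1 X Y + (-1)*R2 X Y + (1)*R3 X Y + (-1)*R4 X Y + (-4)*((X^2 + Y^2)^7)) +
      c^3*d*((-4)*R0 X Y + (3)*R1 X Y + (-2)*R2 X Y + (1)*R3 X Y + (-8)*((X^2 + Y^2)^7)) +
      c^2*d^2*((-6)*R0 X Y + (3)*R1 X Y + (-1)*R2 X Y + (-8)*((X^2 + Y^2)^7)) +
      c*d^3*((-4)*R0 X Y + (1)*R1 X Y + (-4)*((X^2 + Y^2)^7)) +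
      d^4*((-1)*R0 X Y + (-1)*((X^2 + Y^2)^7)) := by
    subst hA hB
    simp only [PR]
    generalize (X ^ 2 + Y ^ 2) = nn
    generalize R0 X Y = r0
    generalize R1 X Y = r1
    generalize R2 X Y = r2
    generalize R3 X Y = r3
    generalize R4 X Y = r4
    ring
  rw [h]
  positivity

theorem boxY_9 (c d x y : ℝ) (hc : 0 ≤ c) (hd : 0 ≤ d) (hx : 0 ≤ x) (hy : 0 ≤ y) (A B X Y : ℝ)
    (hA : A = (-1)*c + (-1)*d) (hB : B = (1)*c + (0)*d)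
    (hX : X = (2)*x + (1)*y) (hY : Y = (1)*x + (1)*y) :
    0 ≤ -PY A B X Y - (A^2 + B^2)^2 * ((X^2 + Y^2)^4 * (X + Y)) := by
  have h0 : 0 ≤ (-1)*Y0 X Y + (1)*Y1 X Y + (-1)*Y2 X Y + (1)*Y3 X Y + (-1)*Y4 X Y + (-4)*((X^2 + Y^2)^4 * (X + Y)) := by
    have h : (-1)*Y0 X Y + (1)*Y1 X Y + (-1)*Y2 X Y + (1)*Y3 X Y + (-1)*Y4 X Y + (-4)*((X^2 + Y^2)^4 * (X + Y)) =
        434187700*x^9 + 3110983640*x^8*y + 9663561280*x^7*y^2 + 17214768320*x^6*y^3 + 19480356128*x^5*y^4 + 14577125696*x^4*y^5 + 7236078848*x^3*y^6 + 2304399104*x^2*y^7 + 428460352*x*y^8 + 35553152*y^9 := by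
      subst hX hY
      simp only [Y0, Y1, Y2, Y3, Y4]
      ring
    rw [h]
    positivity
  have h1 : 0 ≤ (-4)*Y0 X Y + (3)*Y1 X Y + (-2)*Y2 X Y + (1)*Y3 X Y + (-8)*((X^2 + Y^2)^4 * (X + Y)) := by
    have h : (-4)*Y0 X Y + (3)*Y1 X Y + (-2)*Y2 X Y + (1)*Y3 X Y + (-8)*((X^2 + Y^2)^4 * (X + Y)) =
        438269800*x^9 + 3647210160*x^8*y + 12970099840*x^7*y^2 + 25981720960*x^6*y^3 + 32476498496*x^5*y^4 + 26398646912*x^4*y^5 + 14014798336*x^3*y^6 + 4703579648*x^2*y^7 + 908694144*x*y^8 + 77270784*y^9 := by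
      subst hX hY
      simp only [Y0, Y1, Y2, Y3]
      ring
    rw [h]
    positivity
  have h2 : 0 ≤ (-6)*Y0 X Y + (3)*Y1 X Y + (-1)*Y2 X Y + (-8)*((X^2 + Y^2)^4 * (X + Y)) := by
    have h : (-6)*Y0 X Y + (3)*Y1 X Y + (-1)*Y2 X Y + (-8)*((X^2 + Y^2)^4 * (X + Y)) =
        286141800*x^9 + 2457674160*x^8*y + 9388547200*x^7*y^2 + 20228638080*x^6*y^3 + 26935951936*x^5*y^4 + 23065363072*x^4*y^5 + 12769163776*x^3*y^6 + 4429782528*x^2*y^7 + 877892224*x*y^8 + 76062464*y^9 := by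
      subst hX hY
      simp only [Y0, Y1, Y2]
      ring
    rw [h]
    positivity
  have h3 : 0 ≤ (-4)*Y0 X Y + (1)*Y1 X Y + (-4)*((X^2 + Y^2)^4 * (X + Y)) := by
    have h : (-4)*Y0 X Y + (1)*Y1 X Y + (-4)*((X^2 + Y^2)^4 * (X + Y)) =
        201477300*x^9 + 1537532760*x^8*y + 5454332480*x^7*y^2 + 11244095680*x^6*y^3 + 14567081248*x^5*y^4 + 12245313856*x^4*y^5 + 6686190848*x^3*y^6 + 2293032704*x^2*y^7 + 449657152*x*y^8 + 38553472*y^9 := by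
      subst hX hY
      simp only [Y0, Y1]
      ring
    rw [h]
    positivity
  have h4 : 0 ≤ (-1)*Y0 X Y + (-1)*((X^2 + Y^2)^4 * (X + Y)) := by
    have h : (-1)*Y0 X Y + (-1)*((X^2 + Y^2)^4 * (X + Y)) =
        113550125*x^9 + 727581750*x^8*y + 2159019920*x^7*y^2 + 3825043760*x^6*y^3 + 4398698312*x^5*y^4 + 3375443024*x^4*y^5 + 1719890752*x^3*y^6 + 559756736*x^2*y^7 + 105533008*x*y^8 + 8791008*y^9 := by
      subst hX hY
      simp only [Y0]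
      ring
    rw [h]
    positivity
  have h : -PY A B X Y - (A^2 + B^2)^2 * ((X^2 + Y^2)^4 * (X + Y)) =
      c^4*((-1)*Y0 X Y + (1)*Y1 X Y + (-1)*Y2 X Y + (1)*Y3 X Y + (-1)*Y4 X Y + (-4)*((X^2 + Y^2)^4 * (X + Y))) +
      c^3*d*((-4)*Y0 X Y + (3)*Y1 X Y + (-2)*Y2 X Y + (1)*Y3 X Y + (-8)*((X^2 + Y^2)^4 * (X + Y))) +
      c^2*d^2*((-6)*Y0 X Y + (3)*Y1 X Y + (-1)*Y2 X Y + (-8)*((X^2 + Y^2)^4 * (X + Y))) +
      c*d^3*((-4)*Y0 X Y + (1)*Y1 X Y + (-4)*((X^2 + Y^2)^4 * (X + Y))) +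
      d^4*((-1)*Y0 X Y + (-1)*((X^2 + Y^2)^4 * (X + Y))) := by
    subst hA hB
    simp only [PY]
    generalize (X ^ 2 + Y ^ 2) = nn
    generalize Y0 X Y = r0
    generalize Y1 X Y = r1
    generalize Y2 X Y = r2
    generalize Y3 X Y = r3
    generalize Y4 X Y = r4
    ring
  rw [h]
  positivity

theorem boxY_10 (c d x y : ℝ) (hc : 0 ≤ c) (hd : 0 ≤ d) (hx : 0 ≤ x) (hy : 0 ≤ y) (A B X Y : ℝ)
    (hA : A = (-1)*c + (-1)*d) (hB : B = (1)*c + (0)*d)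
    (hX : X = (1)*x + (0)*y) (hY : Y = (1)*x + (1)*y) :
    0 ≤ -PY A B X Y - (A^2 + B^2)^2 * ((X^2 + Y^2)^4 * (X + Y)) := by
  have h0 : 0 ≤ (-1)*Y0 X Y + (1)*Y1 X Y + (-1)*Y2 X Y + (1)*Y3 X Y + (-1)*Y4 X Y + (-4)*((X^2 + Y^2)^4 * (X + Y)) := by
    have h : (-1)*Y0 X Y + (1)*Y1 X Y + (-1)*Y2 X Y + (1)*Y3 X Y + (-1)*Y4 X Y + (-4)*((X^2 + Y^2)^4 * (X + Y)) =
        35553152*x^9 + 211496384*x^8*y + 568687360*x^7*y^2 + 929667328*x^6*y^3 + 1038620992*x^5*y^4 + 832633696*x^4*y^5 + 480624064*x^3*y^6 + 191805248*x^2*y^7 + 47339480*x*y^8 + 5407996*y^9 := by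
      subst hX hY
      simp only [Y0, Y1, Y2, Y3, Y4]
      ring
    rw [h]
    positivity
  have h1 : 0 ≤ (-4)*Y0 X Y + (3)*Y1 X Y + (-2)*Y2 X Y + (1)*Y3 X Y + (-8)*((X^2 + Y^2)^4 * (X + Y)) := by
    have h : (-4)*Y0 X Y + (3)*Y1 X Y + (-2)*Y2 X Y + (1)*Y3 X Y + (-8)*((X^2 + Y^2)^4 * (X + Y)) =
        77270784*x^9 + 482179968*x^8*y + 1291466240*x^7*y^2 + 1987539456*x^6*y^3 + 2004681344*x^5*y^4 + 1442731712*x^4*y^5 + 780307328*x^3*y^6 + 313804416*x^2*y^7 + 82748080*x*y^8 + 10286072*y^9 := by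
      subst hX hY
      simp only [Y0, Y1, Y2, Y3]
      ring
    rw [h]
    positivity
  have h2 : 0 ≤ (-6)*Y0 X Y + (3)*Y1 X Y + (-1)*Y2 X Y + (-8)*((X^2 + Y^2)^4 * (X + Y)) := by
    have h : (-6)*Y0 X Y + (3)*Y1 X Y + (-1)*Y2 X Y + (-8)*((X^2 + Y^2)^4 * (X + Y)) =
        76062464*x^9 + 491232128*x^8*y + 1336501760*x^7*y^2 + 2037838336*x^6*y^3 + 1983341184*x^5*y^4 + 1351524032*x^4*y^5 + 696498048*x^3*y^6 + 277001856*x^2*y^7 + 75133360*x*y^8 + 9763832*y^9 := by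
      subst hX hY
      simp only [Y0, Y1, Y2]
      ring
    rw [h]
    positivity
  have h3 : 0 ≤ (-4)*Y0 X Y + (1)*Y1 X Y + (-4)*((X^2 + Y^2)^4 * (X + Y)) := by
    have h : (-4)*Y0 X Y + (1)*Y1 X Y + (-4)*((X^2 + Y^2)^4 * (X + Y)) =
        38553472*x^9 + 244305344*x^8*y + 650218240*x^7*y^2 + 962599168*x^6*y^3 + 903166272*x^5*y^4 + 595352416*x^4*y^5 + 305627584*x^3*y^6 + 126356288*x^2*y^7 + 36143960*x*y^8 + 4885756*y^9 := by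
      subst hX hY
      simp only [Y0, Y1]
      ring
    rw [h]
    positivity
  have h4 : 0 ≤ (-1)*Y0 X Y + (-1)*((X^2 + Y^2)^4 * (X + Y)) := by
    have h : (-1)*Y0 X Y + (-1)*((X^2 + Y^2)^4 * (X + Y)) =
        8791008*x^9 + 52705136*x^8*y + 137133760*x^7*y^2 + 204564032*x^6*y^3 + 200204368*x^5*y^4 + 142548184*x^4*y^5 + 79738736*x^3*y^6 + 34485712*x^2*y^7 + 9798710*x*y^8 + 1287679*y^9 := by
      subst hX hY
      simp only [Y0]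
      ring
    rw [h]
    positivity
  have h : -PY A B X Y - (A^2 + B^2)^2 * ((X^2 + Y^2)^4 * (X + Y)) =
      c^4*((-1)*Y0 X Y + (1)*Y1 X Y + (-1)*Y2 X Y + (1)*Y3 X Y + (-1)*Y4 X Y + (-4)*((X^2 + Y^2)^4 * (X + Y))) +
      c^3*d*((-4)*Y0 X Y + (3)*Y1 X Y + (-2)*Y2 X Y + (1)*Y3 X Y + (-8)*((X^2 + Y^2)^4 * (X + Y))) +
      c^2*d^2*((-6)*Y0 X Y + (3)*Y1 X Y + (-1)*Y2 X Y + (-8)*((X^2 + Y^2)^4 * (X + Y))) +
      c*d^3*((-4)*Y0 X Y + (1)*Y1 X Y + (-4)*((X^2 + Y^2)^4 * (X + Y))) +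
      d^4*((-1)*Y0 X Y + (-1)*((X^2 + Y^2)^4 * (X + Y))) := by
    subst hA hB
    simp only [PY]
    generalize (X ^ 2 + Y ^ 2) = nn
    generalize Y0 X Y = r0
    generalize Y1 X Y = r1
    generalize Y2 X Y = r2
    generalize Y3 X Y = r3
    generalize Y4 X Y = r4
    ring
  rw [h]
  positivity


/-- real part of the bracket -/
def Pn (X Y : ℝ) (j k : ℤ) : ℝ :=
  (2 * (X ^ 2 + Y ^ 2) + 5 * k * X ^ 2) ^ 2 - 100 * j ^ 2 * (X ^ 2 + Y ^ 2) ^ 2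

/-- imaginary part of the bracket -/
def Qn (X Y : ℝ) (j k : ℤ) : ℝ :=
  -20 * j * (X ^ 2 + Y ^ 2) * (2 * (X ^ 2 + Y ^ 2) + 5 * k * X ^ 2) + 25 * k * X ^ 3 * Y

/-- real part of a term -/
noncomputable def RT (V W : ℂ) (X Y : ℝ) (j k A B : ℤ) : ℝ :=
  (A * ((V ^ j).re * (W ^ k).re - (V ^ j).im * (W ^ k).im) -
    B * ((V ^ j).re * (W ^ k).im + (V ^ j).im * (W ^ k).re)) * Pn X Y j k -
  (A * ((V ^ j).re * (W ^ k).im + (V ^ j).im * (W ^ k).re) +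
    B * ((V ^ j).re * (W ^ k).re - (V ^ j).im * (W ^ k).im)) * Qn X Y j k

/-- imaginary part of a term -/
noncomputable def IT (V W : ℂ) (X Y : ℝ) (j k A B : ℤ) : ℝ :=
  (A * ((V ^ j).re * (W ^ k).re - (V ^ j).im * (W ^ k).im) -
    B * ((V ^ j).re * (W ^ k).im + (V ^ j).im * (W ^ k).re)) * Qn X Y j k +
  (A * ((V ^ j).re * (W ^ k).im + (V ^ j).im * (W ^ k).re) +
    B * ((V ^ j).re * (W ^ k).re - (V ^ j).im * (W ^ k).im)) * Pn X Y j k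

theorem term_eq (V W : ℂ) (X Y : ℝ) (hn : X ^ 2 + Y ^ 2 = 1)
    (h1 : 2 + W + W⁻¹ = 4 * (X : ℂ) ^ 2) (h2 : W - W⁻¹ = 4 * X * Y * I) (j k A B : ℤ) :
    40000 * ((((A : ℂ) + (B : ℂ) * I) / 400) * V ^ j * W ^ k *
      ((-(1 / 5) + I * j - k * (2 + W + W⁻¹) / 8) ^ 2
        + k * (W - W⁻¹) * (2 + W + W⁻¹) / 64)) =
    (RT V W X Y j k A B : ℂ) + (IT V W X Y j k A B : ℂ) * I := by
  have hz : V ^ j * W ^ k =
      (((V ^ j).re * (W ^ k).re - (V ^ j).im * (W ^ k).im : ℝ) : ℂ) +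
        (((V ^ j).re * (W ^ k).im + (V ^ j).im * (W ^ k).re : ℝ) : ℂ) * I := by
    conv_lhs => rw [← Complex.re_add_im (V ^ j), ← Complex.re_add_im (W ^ k)]
    push_cast
    linear_combination (((V ^ j).im : ℂ) * ((W ^ k).im : ℂ)) * I_sq
  have hP : ((Pn X Y j k : ℝ) : ℂ) = (2 + 5 * k * (X : ℂ) ^ 2) ^ 2 - 100 * (j : ℂ) ^ 2 := by
    unfold Pn
    rw [hn]
    push_cast
    ring
  have hQ : ((Qn X Y j k : ℝ) : ℂ) = -20 * j * (2 + 5 * k * (X : ℂ) ^ 2) +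
      25 * k * (X : ℂ) ^ 3 * Y := by
    unfold Qn
    rw [hn]
    push_cast
    ring
  have hL : 40000 * ((((A : ℂ) + (B : ℂ) * I) / 400) * V ^ j * W ^ k *
      ((-(1 / 5) + I * j - k * (2 + W + W⁻¹) / 8) ^ 2
        + k * (W - W⁻¹) * (2 + W + W⁻¹) / 64)) =
      ((A : ℂ) + (B : ℂ) * I) * (V ^ j * W ^ k) *
        (((Pn X Y j k : ℝ) : ℂ) + ((Qn X Y j k : ℝ) : ℂ) * I) := by
    rw [h1, h2, hP, hQ]
    linear_combination (100 * ((A : ℂ) + (B : ℂ) * I) * (V ^ j * W ^ k) * (j : ℂ) ^ 2) * I_sq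
  rw [hL, hz]
  unfold RT IT
  generalize (Pn X Y j k) = P
  generalize (Qn X Y j k) = Q
  generalize (V ^ j).re = a
  generalize (V ^ j).im = b
  generalize (W ^ k).re = a'
  generalize (W ^ k).im = b'
  push_cast
  linear_combination (((A : ℂ) * (a * b' + b * a') + (B : ℂ) * (a * a' - b * b')) * Q +
    (B : ℂ) * (a * b' + b * a') * P + (B : ℂ) * (a * b' + b * a') * Q * I) * I_sq

theorem flat_eq (V W : ℂ) (X Y : ℝ) (hn : X ^ 2 + Y ^ 2 = 1)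
    (h1 : 2 + W + W⁻¹ = 4 * (X : ℂ) ^ 2) (h2 : W - W⁻¹ = 4 * X * Y * I)
    (h : List (ℤ × ℤ × ℤ × ℤ)) :
    40000 * (((h.flatMap fun m =>
      [(m.1, m.2.1, ((m.2.2.1 : ℂ) + (m.2.2.2 : ℂ) * I) / 400),
       (-m.1, -m.2.1, ((m.2.2.1 : ℂ) - (m.2.2.2 : ℂ) * I) / 400)]).map
        fun m : ℤ × ℤ × ℂ => m.2.2 * V ^ m.1 * W ^ m.2.1 *
    ((-(1 / 5) + I * m.1 - m.2.1 * (2 + W + W⁻¹) / 8) ^ 2
      + m.2.1 * (W - W⁻¹) * (2 + W + W⁻¹) / 64)).sum) =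
    (((h.map fun m => RT V W X Y m.1 m.2.1 m.2.2.1 m.2.2.2 +
        RT V W X Y (-m.1) (-m.2.1) m.2.2.1 (-m.2.2.2)).sum : ℝ) : ℂ) +
    (((h.map fun m => IT V W X Y m.1 m.2.1 m.2.2.1 m.2.2.2 +
        IT V W X Y (-m.1) (-m.2.1) m.2.2.1 (-m.2.2.2)).sum : ℝ) : ℂ) * I := by
  induction h with
  | nil => simp
  | cons m h ih =>
    rw [List.flatMap_cons, List.map_append, List.sum_append, mul_add, ih]
    simp only [List.map_cons, List.map_nil, List.sum_cons, List.sum_nil, add_zero]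
    have e1 := term_eq V W X Y hn h1 h2 m.1 m.2.1 m.2.2.1 m.2.2.2
    have e2 := term_eq V W X Y hn h1 h2 (-m.1) (-m.2.1) m.2.2.1 (-m.2.2.2)
    push_cast at e1 e2 ⊢
    linear_combination e1 + e2

theorem Gs_eq (V W : ℂ) (X Y : ℝ) (hn : X ^ 2 + Y ^ 2 = 1)
    (h1 : 2 + W + W⁻¹ = 4 * (X : ℂ) ^ 2) (h2 : W - W⁻¹ = 4 * X * Y * I) :
    40000 * Gs (-(1 / 5)) V W =
    ((40000 + (halfModes.map fun m => RT V W X Y m.1 m.2.1 m.2.2.1 m.2.2.2 +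
        RT V W X Y (-m.1) (-m.2.1) m.2.2.1 (-m.2.2.2)).sum : ℝ) : ℂ) +
    (((halfModes.map fun m => IT V W X Y m.1 m.2.1 m.2.2.1 m.2.2.2 +
        IT V W X Y (-m.1) (-m.2.1) m.2.2.1 (-m.2.2.2)).sum : ℝ) : ℂ) * I := by
  unfold Gs modes
  rw [mul_add, flat_eq V W X Y hn h1 h2]
  push_cast
  ring

theorem pw_re_im (x y : ℝ) (z : ℂ) (hz : z = x + y * I) (a b : ℝ) (w : ℂ) (hw : w = a + b * I) :
    z * w = ((x * a - y * b : ℝ) : ℂ) + ((x * b + y * a : ℝ) : ℂ) * I := by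
  rw [hz, hw]
  push_cast
  linear_combination ((y : ℂ) * b) * I_sq

theorem re_of {z : ℂ} {x y : ℝ} (h : z = (x : ℂ) + (y : ℂ) * I) : z.re = x := by
  rw [h]; simp

theorem im_of {z : ℂ} {x y : ℝ} (h : z = (x : ℂ) + (y : ℂ) * I) : z.im = y := by
  rw [h]; simp

theorem neg_pow_of {V : ℂ} (hV : ‖V‖ = 1) (k : ℤ) :
    (V ^ (-k)).re = (V ^ k).re ∧ (V ^ (-k)).im = -(V ^ k).im := by
  have h1 : ‖V ^ k‖ = 1 := by rw [norm_zpow, hV, one_zpow]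
  have h2 : (V ^ k)⁻¹ = (starRingEnd ℂ) (V ^ k) := by
    rw [Complex.inv_def, Complex.normSq_eq_norm_sq, h1]
    simp
  rw [zpow_neg, h2]
  exact ⟨Complex.conj_re _, Complex.conj_im _⟩

/-- real part of a pair of terms, divided by two -/
noncomputable def RH (V W : ℂ) (X Y : ℝ) (j k A B : ℤ) : ℝ :=
  (A * ((V ^ j).re * (W ^ k).re - (V ^ j).im * (W ^ k).im) -
    B * ((V ^ j).re * (W ^ k).im + (V ^ j).im * (W ^ k).re)) *
      (8 * (X ^ 2 + Y ^ 2) ^ 2 + 50 * k ^ 2 * X ^ 4 - 200 * j ^ 2 * (X ^ 2 + Y ^ 2) ^ 2) -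
  (A * ((V ^ j).re * (W ^ k).im + (V ^ j).im * (W ^ k).re) +
    B * ((V ^ j).re * (W ^ k).re - (V ^ j).im * (W ^ k).im)) *
      (50 * k * X ^ 3 * Y - 80 * j * (X ^ 2 + Y ^ 2) ^ 2)

/-- imaginary part of a pair of terms, divided by `X ^ 2` -/
noncomputable def IH (V W : ℂ) (X Y : ℝ) (j k A B : ℤ) : ℝ :=
  (A * ((V ^ j).re * (W ^ k).re - (V ^ j).im * (W ^ k).im) -
    B * ((V ^ j).re * (W ^ k).im + (V ^ j).im * (W ^ k).re)) * (-200 * j * k) +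
  (A * ((V ^ j).re * (W ^ k).im + (V ^ j).im * (W ^ k).re) +
    B * ((V ^ j).re * (W ^ k).re - (V ^ j).im * (W ^ k).im)) * (40 * k)

theorem RT_pair {V W : ℂ} (hV : ‖V‖ = 1) (hW : ‖W‖ = 1) (X Y : ℝ) (j k A B : ℤ) :
    RT V W X Y j k A B + RT V W X Y (-j) (-k) A (-B) = RH V W X Y j k A B := by
  obtain ⟨e1, e2⟩ := neg_pow_of hV j
  obtain ⟨e3, e4⟩ := neg_pow_of hW k
  unfold RT RH Pn Qn
  rw [e1, e2, e3, e4]
  push_cast
  ring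

theorem IT_pair {V W : ℂ} (hV : ‖V‖ = 1) (hW : ‖W‖ = 1) (X Y : ℝ) (j k A B : ℤ) :
    IT V W X Y j k A B + IT V W X Y (-j) (-k) A (-B) =
      (X ^ 2 + Y ^ 2) * X ^ 2 * IH V W X Y j k A B := by
  obtain ⟨e1, e2⟩ := neg_pow_of hV j
  obtain ⟨e3, e4⟩ := neg_pow_of hW k
  unfold IT IH Pn Qn
  rw [e1, e2, e3, e4]
  push_cast
  ring

theorem Gs_re {V W : ℂ} (hV : ‖V‖ = 1) (hW : ‖W‖ = 1) (X Y : ℝ) (hn : X ^ 2 + Y ^ 2 = 1)
    (h1 : 2 + W + W⁻¹ = 4 * (X : ℂ) ^ 2) (h2 : W - W⁻¹ = 4 * X * Y * I) :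
    40000 * (Gs (-(1 / 5)) V W).re =
    40000 + (halfModes.map fun m => RH V W X Y m.1 m.2.1 m.2.2.1 m.2.2.2).sum := by
  have h := congrArg Complex.re (Gs_eq V W X Y hn h1 h2)
  simp only [RT_pair hV hW, IT_pair hV hW] at h
  rw [show (40000 : ℂ) = ((40000 : ℝ) : ℂ) by norm_num, Complex.re_ofReal_mul] at h
  rw [h]
  simp

theorem Gs_im {V W : ℂ} (hV : ‖V‖ = 1) (hW : ‖W‖ = 1) (X Y : ℝ) (hn : X ^ 2 + Y ^ 2 = 1)
    (h1 : 2 + W + W⁻¹ = 4 * (X : ℂ) ^ 2) (h2 : W - W⁻¹ = 4 * X * Y * I) :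
    40000 * (Gs (-(1 / 5)) V W).im =
    X ^ 2 * (halfModes.map fun m => IH V W X Y m.1 m.2.1 m.2.2.1 m.2.2.2).sum := by
  have h := congrArg Complex.im (Gs_eq V W X Y hn h1 h2)
  simp only [RT_pair hV hW, IT_pair hV hW] at h
  rw [show (40000 : ℂ) = ((40000 : ℝ) : ℂ) by norm_num, Complex.im_ofReal_mul] at h
  rw [h, im_of rfl, List.sum_map_mul_left, hn, one_mul]

theorem sqc (A B : ℝ) : ((A : ℂ) + B * I) ^ 2 = ((A ^ 2 - B ^ 2 : ℝ) : ℂ) + ((2 * A * B : ℝ) : ℂ) * I := by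
  push_cast
  linear_combination ((B : ℂ) ^ 2) * I_sq

theorem key {V W : ℂ} (A B X Y : ℝ) (hm : A ^ 2 + B ^ 2 = 1) (hn : X ^ 2 + Y ^ 2 = 1)
    (hV : V = ((A : ℂ) + B * I) ^ 2) (hW : W = ((X : ℂ) + Y * I) ^ 2) :
    40000 * (Gs (-(1 / 5)) V W).re = PR A B X Y ∧
    40000 * (Gs (-(1 / 5)) V W).im = X ^ 3 * PY A B X Y := by
  have hnorm : ∀ {z : ℂ} {a b : ℝ}, a ^ 2 + b ^ 2 = 1 → z = ((a : ℂ) + b * I) ^ 2 → ‖z‖ = 1 := by
    intro z a b hab hz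
    rw [hz, norm_pow]
    have h1 : ‖(a : ℂ) + b * I‖ ^ 2 = 1 := by
      rw [Complex.sq_norm, Complex.normSq_apply]
      simp
      linarith
    exact h1
  have hV1 := hnorm hm hV
  have hW1 := hnorm hn hW
  have hWinv : W⁻¹ = ((X : ℂ) - Y * I) ^ 2 := by
    rw [Complex.inv_def, Complex.normSq_eq_norm_sq, hW1, hW]
    simp
    ring
  have hnC : (X : ℂ) ^ 2 + (Y : ℂ) ^ 2 = 1 := by exact_mod_cast hn
  have h1 : 2 + W + W⁻¹ = 4 * (X : ℂ) ^ 2 := by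
    rw [hWinv, hW]
    linear_combination (-2) * hnC + (2 * (Y : ℂ) ^ 2) * I_sq
  have h2 : W - W⁻¹ = 4 * X * Y * I := by
    rw [hWinv, hW]
    ring
  -- powers of V
  have eV1 : V = ((A ^ 2 - B ^ 2 : ℝ) : ℂ) + ((2 * A * B : ℝ) : ℂ) * I := by rw [hV, sqc]
  have eV2 : V ^ 2 = (((A ^ 2 - B ^ 2) ^ 2 - (2 * A * B) ^ 2 : ℝ) : ℂ) +
      ((2 * (A ^ 2 - B ^ 2) * (2 * A * B) : ℝ) : ℂ) * I := by
    rw [eV1, sqc]
  have v0r : (V ^ (0 : ℤ)).re = (A ^ 2 + B ^ 2) ^ 2 := by rw [hm]; simp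
  have v0i : (V ^ (0 : ℤ)).im = 0 := by simp
  have v1r : (V ^ (1 : ℤ)).re = (A ^ 2 - B ^ 2) * (A ^ 2 + B ^ 2) := by
    rw [hm, zpow_one, re_of eV1, mul_one]
  have v1i : (V ^ (1 : ℤ)).im = 2 * A * B * (A ^ 2 + B ^ 2) := by
    rw [hm, zpow_one, im_of eV1, mul_one]
  have v2r : (V ^ (2 : ℤ)).re = (A ^ 2 - B ^ 2) ^ 2 - (2 * A * B) ^ 2 := by
    rw [show (V ^ (2 : ℤ)) = V ^ 2 by norm_cast, re_of eV2]
  have v2i : (V ^ (2 : ℤ)).im = 2 * (A ^ 2 - B ^ 2) * (2 * A * B) := by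
    rw [show (V ^ (2 : ℤ)) = V ^ 2 by norm_cast, im_of eV2]
  -- powers of W
  obtain ⟨p, hp⟩ : ∃ p, p = X ^ 2 - Y ^ 2 := ⟨_, rfl⟩
  obtain ⟨q, hq⟩ : ∃ q, q = 2 * X * Y := ⟨_, rfl⟩
  have eW1 : W = (p : ℂ) + (q : ℂ) * I := by rw [hW, sqc, ← hp, ← hq]
  have eW2 : W * W = ((p * p - q * q : ℝ) : ℂ) + ((p * q + q * p : ℝ) : ℂ) * I :=
    pw_re_im p q W eW1 p q W eW1
  have eW3 := pw_re_im p q W eW1 _ _ _ eW2
  have eW4 := pw_re_im p q W eW1 _ _ _ eW3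
  have eW5 := pw_re_im p q W eW1 _ _ _ eW4
  have z2 : W ^ (2 : ℤ) = W * W := by norm_cast; ring
  have z3 : W ^ (3 : ℤ) = W * (W * W) := by norm_cast; ring
  have z4 : W ^ (4 : ℤ) = W * (W * (W * W)) := by norm_cast; ring
  have z5 : W ^ (5 : ℤ) = W * (W * (W * (W * W))) := by norm_cast; ring
  have w1r : (W ^ (1 : ℤ)).re = p * (X ^ 2 + Y ^ 2) ^ 4 := by rw [hn, zpow_one, re_of eW1]; ring
  have w1i : (W ^ (1 : ℤ)).im = q * (X ^ 2 + Y ^ 2) ^ 4 := by rw [hn, zpow_one, im_of eW1]; ring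
  have w2r : (W ^ (2 : ℤ)).re = (p ^ 2 - q ^ 2) * (X ^ 2 + Y ^ 2) ^ 3 := by
    rw [hn, z2, re_of eW2]; ring
  have w2i : (W ^ (2 : ℤ)).im = (2 * p * q) * (X ^ 2 + Y ^ 2) ^ 3 := by
    rw [hn, z2, im_of eW2]; ring
  have w3r : (W ^ (3 : ℤ)).re = (p ^ 3 - 3 * p * q ^ 2) * (X ^ 2 + Y ^ 2) ^ 2 := by
    rw [hn, z3, re_of eW3]; ring
  have w3i : (W ^ (3 : ℤ)).im = (3 * p ^ 2 * q - q ^ 3) * (X ^ 2 + Y ^ 2) ^ 2 := by
    rw [hn, z3, im_of eW3]; ring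
  have w4r : (W ^ (4 : ℤ)).re = (p ^ 4 - 6 * p ^ 2 * q ^ 2 + q ^ 4) * (X ^ 2 + Y ^ 2) := by
    rw [hn, z4, re_of eW4]; ring
  have w4i : (W ^ (4 : ℤ)).im = (4 * p ^ 3 * q - 4 * p * q ^ 3) * (X ^ 2 + Y ^ 2) := by
    rw [hn, z4, im_of eW4]; ring
  have w5r : (W ^ (5 : ℤ)).re = p ^ 5 - 10 * p ^ 3 * q ^ 2 + 5 * p * q ^ 4 := by
    rw [z5, re_of eW5]; ring
  have w5i : (W ^ (5 : ℤ)).im = 5 * p ^ 4 * q - 10 * p ^ 2 * q ^ 3 + q ^ 5 := by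
    rw [z5, im_of eW5]; ring
  have u1r := (neg_pow_of hW1 1).1
  have u1i := (neg_pow_of hW1 1).2
  have u2r := (neg_pow_of hW1 2).1
  have u2i := (neg_pow_of hW1 2).2
  have u3r := (neg_pow_of hW1 3).1
  have u3i := (neg_pow_of hW1 3).2
  have u4r := (neg_pow_of hW1 4).1
  have u4i := (neg_pow_of hW1 4).2
  have u5r := (neg_pow_of hW1 5).1
  have u5i := (neg_pow_of hW1 5).2
  have hone : (1 : ℝ) = (A ^ 2 + B ^ 2) ^ 2 * (X ^ 2 + Y ^ 2) ^ 7 := by rw [hm, hn]; norm_num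
  constructor
  · rw [Gs_re hV1 hW1 X Y hn h1 h2, show (40000 : ℝ) = 40000 * 1 by norm_num]
    rw [show (40000 : ℝ) * 1 = 40000 * ((A ^ 2 + B ^ 2) ^ 2 * (X ^ 2 + Y ^ 2) ^ 7) by rw [← hone]]
    simp only [halfModes, List.map_cons, List.map_nil, List.sum_cons, List.sum_nil, RH,
      u1r, u1i, u2r, u2i, u3r, u3i, u4r, u4i, u5r, u5i,
      v0r, v0i, v1r, v1i, v2r, v2i, w1r, w1i, w2r, w2i, w3r, w3i, w4r, w4i, w5r, w5i]
    simp only [hp, hq, PR, R0, R1, R2, R3, R4]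
    push_cast
    ring
  · rw [Gs_im hV1 hW1 X Y hn h1 h2]
    simp only [halfModes, List.map_cons, List.map_nil, List.sum_cons, List.sum_nil, IH,
      u1r, u1i, u2r, u2i, u3r, u3i, u4r, u4i, u5r, u5i,
      v0r, v0i, v1r, v1i, v2r, v2i, w1r, w1i, w2r, w2i, w3r, w3i, w4r, w4i, w5r, w5i]
    simp only [hp, hq, PY, Y0, Y1, Y2, Y3, Y4]
    push_cast
    ring

theorem pos_add {X Y : ℝ} (hX : 0 ≤ X) (hY : 0 ≤ Y) (hn : X ^ 2 + Y ^ 2 = 1) : 0 < X + Y := by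
  by_contra h
  have h1 : X = 0 := by linarith
  have h2 : Y = 0 := by linarith
  rw [h1, h2] at hn
  norm_num at hn

theorem main (A B X Y : ℝ) (hm : A ^ 2 + B ^ 2 = 1) (hn : X ^ 2 + Y ^ 2 = 1) (hB : 0 ≤ B)
    (hX : 0 ≤ X) (hY : 0 ≤ Y) (h0 : PY A B X Y = 0) : PR A B X Y < 0 := by
  have hs := pos_add hX hY hn
  have fY : 0 ≤ -PY A B X Y - (A^2 + B^2)^2 * ((X^2 + Y^2)^4 * (X + Y)) → PR A B X Y < 0 := by
    intro h
    rw [h0, hm, hn] at h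
    linarith
  have fR : 0 ≤ -PR A B X Y - (A^2 + B^2)^2 * (X^2 + Y^2)^7 → PR A B X Y < 0 := by
    intro h
    rw [hm, hn] at h
    linarith
  rcases le_total B A with h1 | h1
  · rcases le_total X Y with h2 | h2
    · exact fY (boxY_1 (A - B) B X (Y - X) (by linarith) hB hX (by linarith) A B X Y
        (by ring) (by ring) (by ring) (by ring))
    · exact fY (boxY_0 (A - B) B (X - Y) Y (by linarith) hB (by linarith) hY A B X Y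
        (by ring) (by ring) (by ring) (by ring))
  · rcases le_total 0 A with h3 | h3
    · rcases le_total X Y with h2 | h2
      · exact fY (boxY_4 A (B - A) X (Y - X) h3 (by linarith) hX (by linarith) A B X Y
          (by ring) (by ring) (by ring) (by ring))
      · rcases le_total X (2 * Y) with h4 | h4
        · exact fY (boxY_3 A (B - A) (X - Y) (2 * Y - X) h3 (by linarith) (by linarith)
            (by linarith) A B X Y (by ring) (by ring) (by ring) (by ring))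
        · exact fR (boxR_2 A (B - A) (X - 2 * Y) Y h3 (by linarith) (by linarith)
            hY A B X Y (by ring) (by ring) (by ring) (by ring))
    · rcases le_total 0 (A + B) with h5 | h5
      · rcases le_total X Y with h2 | h2
        · exact fY (boxY_7 (A + B) (-A) X (Y - X) h5 (by linarith) hX (by linarith) A B X Y
            (by ring) (by ring) (by ring) (by ring))
        · rcases le_total X (2 * Y) with h4 | h4
          · exact fY (boxY_6 (A + B) (-A) (X - Y) (2 * Y - X) h5 (by linarith) (by linarith)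
              (by linarith) A B X Y (by ring) (by ring) (by ring) (by ring))
          · exact fR (boxR_5 (A + B) (-A) (X - 2 * Y) Y h5 (by linarith) (by linarith)
              hY A B X Y (by ring) (by ring) (by ring) (by ring))
      · rcases le_total X Y with h2 | h2
        · exact fY (boxY_10 B (-A - B) X (Y - X) hB (by linarith) hX (by linarith) A B X Y
            (by ring) (by ring) (by ring) (by ring))
        · rcases le_total X (2 * Y) with h4 | h4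
          · exact fY (boxY_9 B (-A - B) (X - Y) (2 * Y - X) hB (by linarith) (by linarith)
              (by linarith) A B X Y (by ring) (by ring) (by ring) (by ring))
          · exact fR (boxR_8 B (-A - B) (X - 2 * Y) Y hB (by linarith) (by linarith)
              hY A B X Y (by ring) (by ring) (by ring) (by ring))

theorem PR_neg (A B X Y : ℝ) : PR (-A) (-B) X Y = PR A B X Y := by
  unfold PR; ring

theorem PY_neg (A B X Y : ℝ) : PY (-A) (-B) X Y = PY A B X Y := by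
  unfold PY; ring

theorem PR_rot (A B X Y : ℝ) : PR (-B) A X (-Y) = PR A B X Y := by
  unfold PR R0 R1 R2 R3 R4; ring

theorem PY_rot (A B X Y : ℝ) : PY (-B) A X (-Y) = -PY A B X Y := by
  unfold PY Y0 Y1 Y2 Y3 Y4; ring

theorem main1 (A B X Y : ℝ) (hm : A ^ 2 + B ^ 2 = 1) (hn : X ^ 2 + Y ^ 2 = 1)
    (hX : 0 ≤ X) (hY : 0 ≤ Y) (h0 : PY A B X Y = 0) : PR A B X Y < 0 := by
  rcases le_total 0 B with hB | hB
  · exact main A B X Y hm hn hB hX hY h0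
  · rw [← PR_neg]
    rw [← PY_neg] at h0
    exact main (-A) (-B) X Y (by linarith) hn (by linarith) hX hY h0

theorem main2 (A B X Y : ℝ) (hm : A ^ 2 + B ^ 2 = 1) (hn : X ^ 2 + Y ^ 2 = 1)
    (hX : 0 ≤ X) (h0 : PY A B X Y = 0) : PR A B X Y < 0 := by
  rcases le_total 0 Y with hY | hY
  · exact main1 A B X Y hm hn hX hY h0
  · rw [← PR_rot]
    refine main1 (-B) A X (-Y) (by linarith) (by linarith) hX (by linarith) ?_
    rw [PY_rot, h0, neg_zero]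

theorem exists_sq {V : ℂ} (hV : ‖V‖ = 1) : ∃ A B : ℝ, 0 ≤ A ∧ A ^ 2 + B ^ 2 = 1 ∧
    V = ((A : ℂ) + B * I) ^ 2 := by
  obtain ⟨s, hs⟩ := IsAlgClosed.exists_pow_nat_eq V (n := 2) (by norm_num)
  have h1 : ‖s‖ ^ 2 = 1 := by rw [← norm_pow, hs, hV]
  have h2 : s.re ^ 2 + s.im ^ 2 = 1 := by
    rw [Complex.sq_norm, Complex.normSq_apply] at h1
    linarith
  rcases le_total 0 s.re with h | h
  · exact ⟨s.re, s.im, h, h2, by rw [Complex.re_add_im, hs]⟩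
  · refine ⟨-s.re, -s.im, by linarith, by linarith, ?_⟩
    have : (((-s.re : ℝ) : ℂ) + ((-s.im : ℝ) : ℂ) * I) = -s := by
      conv_rhs => rw [← Complex.re_add_im s]
      push_cast
      ring
    rw [this, neg_sq, hs]

theorem P2 (V W : ℂ) (hV : ‖V‖ = 1) (hW : ‖W‖ = 1) (hW1 : W ≠ -1)
    (him : (Gs (-(1 / 5)) V W).im = 0) : (Gs (-(1 / 5)) V W).re < 0 := by
  obtain ⟨A, B, -, hm, hVA⟩ := exists_sq hV
  obtain ⟨X, Y, hX, hn, hWX⟩ := exists_sq hW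
  obtain ⟨h1, h2⟩ := key A B X Y hm hn hVA hWX
  have hX0 : X ≠ 0 := by
    rintro rfl
    apply hW1
    have hY : (Y : ℂ) ^ 2 = 1 := by
      have : Y ^ 2 = 1 := by linarith
      exact_mod_cast this
    rw [hWX]
    push_cast
    linear_combination (Y : ℂ) ^ 2 * I_sq - hY
  rw [him, mul_zero] at h2
  have h3 : PY A B X Y = 0 := by
    rcases mul_eq_zero.1 h2.symm with h | h
    · exact absurd h (pow_ne_zero 3 hX0)
    · exact h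
  have h4 := main2 A B X Y hm hn hX h3
  linarith

end Pool.Agent.TH626.CJ3230
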