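import Pool.Agent.TH694.GP.Defs

/-!
# Globally rigid pinning: exchange lemma, part X4 (the hitting property)
-/

set_option autoImplicit false

namespace Pool.Agent.TH626.GPX4

open Pool.Agent.TH694.GP

variable {V : Type*} [DecidableEq V]

theorem nb_sub {U : Finset V} {Γ : Finset (Finset V)} {X Y : Finset V} (h : Y ⊆ X) :
    Nb U Γ Y ⊆ X ∪ Nb U Γ X := by
  intro v hv
  rw [mem_Nb] at hv
  obtain ⟨h1, h2, x, hx, h3⟩ := hv
  rw [Finset.mem_union, mem_Nb]
  by_cases hvX : v ∈ X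
  · exact Or.inl hvX
  · exact Or.inr ⟨h1, hvX, x, h hx, h3⟩

theorem nb_subU {U : Finset V} {Γ : Finset (Finset V)} {X : Finset V} : Nb U Γ X ⊆ U := by
  intro v hv
  exact (mem_Nb.mp hv).1

theorem unhit {U : Finset V} {Γ : Finset (Finset V)} {P C : Finset V} (hH : Hit U Γ P)
    (hC : C ⊆ U) (hCU : C ∪ Nb U Γ C ≠ U) (hne : (C \ P).Nonempty) :
    3 ≤ (Nb U Γ C).card + (P ∩ C).card := by
  by_contra hcon
  push Not at hcon
  have h1 : Nb U Γ (C \ P) ⊆ Nb U Γ C ∪ (P ∩ C) := by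
    intro v hv
    rw [mem_Nb] at hv
    obtain ⟨h1, h2, x, hx, h3⟩ := hv
    rw [Finset.mem_sdiff] at h2 hx
    rw [Finset.mem_union, mem_Nb, Finset.mem_inter]
    by_cases hvC : v ∈ C
    · right
      refine ⟨?_, hvC⟩
      by_contra hvP
      exact h2 ⟨hvC, hvP⟩
    · exact Or.inl ⟨h1, hvC, x, hx.1, h3⟩
  have h2 : (Nb U Γ (C \ P)).card ≤ 2 := by
    have h3 := Finset.card_le_card h1
    have h4 := Finset.card_union_le (Nb U Γ C) (P ∩ C)
    omega
  have h3 : Sepd U Γ (C \ P) := by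
    refine ⟨Finset.sdiff_subset.trans hC, hne, h2, ?_⟩
    intro h4
    apply hCU
    apply Finset.Subset.antisymm (Finset.union_subset hC nb_subU)
    refine Finset.Subset.trans h4.symm.subset ?_
    refine Finset.union_subset (Finset.Subset.trans Finset.sdiff_subset Finset.subset_union_left) ?_
    exact nb_sub Finset.sdiff_subset
  obtain ⟨x, hx⟩ := hH _ h3
  rw [Finset.mem_inter, Finset.mem_sdiff] at hx
  exact hx.1.2 hx.2

theorem cross_le {U : Finset V} {Γ : Finset (Finset V)} {X X' : Finset V} (hX : Sepd U Γ X)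
    (hmin : ∀ Y, Y ⊂ X → ¬ Sepd U Γ Y) (hX' : Sepd U Γ X') (hi : (X ∩ X').Nonempty)
    (hn : (X \ X').Nonempty) : (Nb U Γ (X ∪ X')).card ≤ 1 := by
  have h1 : X ∩ X' ⊂ X := by
    refine Finset.ssubset_iff_subset_ne.mpr ⟨Finset.inter_subset_left, ?_⟩
    intro h
    obtain ⟨x, hx⟩ := hn
    rw [Finset.mem_sdiff] at hx
    rw [← h, Finset.mem_inter] at hx
    exact hx.2 hx.1.2
  have h2 : 3 ≤ (Nb U Γ (X ∩ X')).card := by
    by_contra hcon
    push Not at hcon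
    refine hmin _ h1 ⟨Finset.inter_subset_left.trans hX.1, hi, by omega, ?_⟩
    intro h
    apply hX.2.2.2
    apply Finset.Subset.antisymm (Finset.union_subset hX.1 nb_subU)
    refine Finset.Subset.trans h.symm.subset ?_
    exact Finset.union_subset (Finset.Subset.trans Finset.inter_subset_left Finset.subset_union_left)
      (nb_sub Finset.inter_subset_left)
  have h3 := Nb_submod U Γ X X'
  have h4 := hX.2.2.1
  have h5 := hX'.2.2.1
  omega

/-- the consequences of a set `X'` which is not hit by `P'` -/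
theorem failing {U : Finset V} {Γ : Finset (Finset V)} {P P' X X' : Finset V} (hH : Hit U Γ P)
    (hX : Sepd U Γ X) (hmin : ∀ Y, Y ⊂ X → ¬ Sepd U Γ Y) {r : V}
    (hr : r ∈ X) (hr' : r ∈ P') (hPP : P \ X ⊆ P') (hX' : Sepd U Γ X') (hd : ¬ (X' ∩ P').Nonempty) :
    (Nb U Γ (X ∪ X')).card ≤ 1 ∧ P ∩ (X ∪ X') = P ∩ X ∧ Nb U Γ X \ X' ⊆ Nb U Γ (X ∪ X') := by
  have hd' : ∀ x, x ∈ X' → x ∉ P' := fun x h1 h2 => hd ⟨x, Finset.mem_inter.mpr ⟨h1, h2⟩⟩
  have hPX : ∀ x, x ∈ P → x ∈ X' → x ∈ X := by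
    intro x h1 h2
    by_contra h3
    exact hd' x h2 (hPP (Finset.mem_sdiff.mpr ⟨h1, h3⟩))
  have hi : (X ∩ X').Nonempty := by
    obtain ⟨x, hx⟩ := hH _ hX'
    rw [Finset.mem_inter] at hx
    exact ⟨x, Finset.mem_inter.mpr ⟨hPX x hx.2 hx.1, hx.1⟩⟩
  have hn : (X \ X').Nonempty := ⟨r, Finset.mem_sdiff.mpr ⟨hr, fun h => hd' r h hr'⟩⟩
  refine ⟨cross_le hX hmin hX' hi hn, ?_, ?_⟩
  · ext x
    rw [Finset.mem_inter, Finset.mem_inter, Finset.mem_union]
    constructor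
    · rintro ⟨h1, h2 | h2⟩
      · exact ⟨h1, h2⟩
      · exact ⟨h1, hPX x h1 h2⟩
    · rintro ⟨h1, h2⟩
      exact ⟨h1, Or.inl h2⟩
  · intro v hv
    rw [Finset.mem_sdiff, mem_Nb] at hv
    obtain ⟨⟨h1, h2, x, hx, h3⟩, h4⟩ := hv
    rw [mem_Nb]
    refine ⟨h1, ?_, x, Finset.mem_union_left _ hx, h3⟩
    rw [Finset.mem_union]
    rintro (h | h)
    · exact h2 h
    · exact h4 h

/-- if `P'` contains both neighbours of `X` -/
theorem hit_two {U : Finset V} {Γ : Finset (Finset V)} {P P' X : Finset V} (hH : Hit U Γ P)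
    (hX : Sepd U Γ X) (hmin : ∀ Y, Y ⊂ X → ¬ Sepd U Γ Y) (h2 : (Nb U Γ X).card = 2) {r : V}
    (hr : r ∈ X) (hr' : r ∈ P') (hPP : P \ X ⊆ P') (hN : Nb U Γ X ⊆ P') : Hit U Γ P' := by
  intro X' hX'
  by_contra hd
  obtain ⟨h1, -, h3⟩ := failing hH hX hmin hr hr' hPP hX' hd
  have h4 : Nb U Γ X \ X' = Nb U Γ X := by
    rw [Finset.sdiff_eq_self_iff_disjoint, Finset.disjoint_left]
    intro x hx hx'
    exact hd ⟨x, Finset.mem_inter.mpr ⟨hx', hN hx⟩⟩
  rw [h4] at h3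
  have := Finset.card_le_card h3
  omega

/-- a neighbour of `X` which is not in `P` has an outer neighbour if `|P ∩ X| = 1` -/
theorem nondeg_one {U : Finset V} {Γ : Finset (Finset V)} {P X : Finset V} (hH : Hit U Γ P)
    (hX : Sepd U Γ X) (h2 : (Nb U Γ X).card = 2) (h1 : (P ∩ X).card = 1) {s : V}
    (hs : s ∈ Nb U Γ X) (hsP : s ∉ P) : ∃ w ∈ U \ (X ∪ Nb U Γ X), {s, w} ∈ Γ := by
  by_contra hcon
  push Not at hcon
  have hsX : s ∉ X := (mem_Nb.mp hs).2.1
  have hsub : Nb U Γ (insert s X) ⊆ (Nb U Γ X).erase s := by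
    intro v hv
    rw [mem_Nb] at hv
    obtain ⟨a1, a2, x, hx, a3⟩ := hv
    rw [Finset.mem_insert, not_or] at a2
    rw [Finset.mem_erase]
    refine ⟨a2.1, ?_⟩
    rw [Finset.mem_insert] at hx
    rcases hx with rfl | hx
    · by_contra hvN
      refine hcon v ?_ ?_
      · rw [Finset.mem_sdiff, Finset.mem_union, not_or]
        exact ⟨a1, a2.2, hvN⟩
      · rw [Finset.pair_comm]
        exact a3
    · exact mem_Nb.mpr ⟨a1, a2.2, x, hx, a3⟩
  have hc : (Nb U Γ (insert s X)).card ≤ 1 := by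
    have b1 := Finset.card_le_card hsub
    rw [Finset.card_erase_of_mem hs] at b1
    omega
  have hCU : insert s X ⊆ U := Finset.insert_subset (nb_subU hs) hX.1
  have hPC : P ∩ insert s X = P ∩ X := by
    rw [Finset.inter_insert_of_notMem hsP]
  have h3 := unhit (C := insert s X) hH hCU (by
    intro h
    apply hX.2.2.2
    apply Finset.Subset.antisymm (Finset.union_subset hX.1 nb_subU)
    refine Finset.Subset.trans h.symm.subset ?_
    apply Finset.union_subset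
    · exact Finset.insert_subset (Finset.mem_union_right _ hs) Finset.subset_union_left
    · exact Finset.Subset.trans hsub
        (Finset.Subset.trans (Finset.erase_subset _ _) Finset.subset_union_right))
    ⟨s, Finset.mem_sdiff.mpr ⟨Finset.mem_insert_self _ _, hsP⟩⟩
  rw [hPC] at h3
  omega

/-- a closed set which contains exactly `P ∩ X` of `P` -/
theorem closed_false {U : Finset V} {Γ : Finset (Finset V)} {P X C : Finset V} (hPU : P ⊆ U)
    (h4 : 4 ≤ P.card) (hH : Hit U Γ P) (hP2 : (P ∩ X).card = 2) (hC : C ⊆ U)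
    (hN : Nb U Γ C = ∅) (hPC : P ∩ C = P ∩ X) {u : V} (hu : u ∈ C) (huP : u ∉ P) : False := by
  by_cases hCU : C = U
  · subst hCU
    rw [Finset.inter_eq_left.mpr hPU] at hPC
    rw [← hPC] at hP2
    omega
  · have h3 := unhit (C := C) hH hC (by rw [hN, Finset.union_empty]; exact hCU)
      ⟨u, Finset.mem_sdiff.mpr ⟨hu, huP⟩⟩
    rw [hN, hPC, Finset.card_empty] at h3
    omega

/-- a failing set for `insert r (insert t (P \ X))` -/
theorem fail_t {U : Finset V} {Γ : Finset (Finset V)} {P X X' : Finset V}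
    (hH : Hit U Γ P) (hX : Sepd U Γ X)
    (hmin : ∀ Y, Y ⊂ X → ¬ Sepd U Γ Y) {t s : V} (hts : t ≠ s)
    (hNX : Nb U Γ X = {t, s}) {r : V} (hr : r ∈ X) (hX' : Sepd U Γ X')
    (hd : ¬ (X' ∩ insert r (insert t (P \ X))).Nonempty) :
    Nb U Γ (X ∪ X') = {t} ∧ s ∈ X ∪ X' ∧ P ∩ (X ∪ X') = P ∩ X := by
  obtain ⟨h1, h2, h3⟩ := failing (P' := insert r (insert t (P \ X))) hH hX hmin hr
    (Finset.mem_insert_self _ _)
    ((Finset.subset_insert _ _).trans (Finset.subset_insert _ _)) hX' hd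
  have htN : t ∈ Nb U Γ X := by rw [hNX]; exact Finset.mem_insert_self _ _
  have hsN : s ∈ Nb U Γ X := by rw [hNX]; simp
  have htX' : t ∉ X' := by
    intro h
    exact hd ⟨t, Finset.mem_inter.mpr ⟨h, by simp⟩⟩
  have ht1 : t ∈ Nb U Γ (X ∪ X') := h3 (Finset.mem_sdiff.mpr ⟨htN, htX'⟩)
  have h4 : ({t} : Finset V) = Nb U Γ (X ∪ X') := by
    apply Finset.eq_of_subset_of_card_le
    · rw [Finset.singleton_subset_iff]
      exact ht1
    · rw [Finset.card_singleton]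
      exact h1
  refine ⟨h4.symm, ?_, h2⟩
  by_contra hs
  rw [Finset.mem_union, not_or] at hs
  have h5 : s ∈ Nb U Γ (X ∪ X') := h3 (Finset.mem_sdiff.mpr ⟨hsN, hs.2⟩)
  rw [← h4, Finset.mem_singleton] at h5
  exact hts h5.symm

/-- a degenerate neighbour -/
theorem deg_hit {U : Finset V} {Γ : Finset (Finset V)} {P X : Finset V} (hPU : P ⊆ U)
    (h4 : 4 ≤ P.card) (hH : Hit U Γ P) (hX : Sepd U Γ X)
    (hmin : ∀ Y, Y ⊂ X → ¬ Sepd U Γ Y)
    (hP2 : (P ∩ X).card = 2) (hNP : Disjoint (Nb U Γ X) P) {r : V} (hr : r ∈ X) {t s : V}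
    (hts : t ≠ s) (hNX : Nb U Γ X = {t, s})
    (hdeg : ∀ w ∈ U \ (X ∪ Nb U Γ X), {t, w} ∉ Γ) : Hit U Γ (insert r (insert t (P \ X))) := by
  intro X' hX'
  by_contra hd
  obtain ⟨h1, h2, h3⟩ := fail_t hH hX hmin hts hNX hr hX' hd
  have htN : t ∈ Nb U Γ X := by rw [hNX]; exact Finset.mem_insert_self _ _
  have htP : t ∉ P := fun h => (Finset.disjoint_left.mp hNP) htN h
  refine closed_false (C := insert t (X ∪ X')) hPU h4 hH hP2 ?_ ?_ ?_ (Finset.mem_insert_self _ _) htP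
  · exact Finset.insert_subset (nb_subU htN) (Finset.union_subset hX.1 hX'.1)
  · rw [Finset.eq_empty_iff_forall_notMem]
    intro y hy
    rw [mem_Nb] at hy
    obtain ⟨a1, a2, c, hc, a3⟩ := hy
    rw [Finset.mem_insert, not_or] at a2
    rw [Finset.mem_insert] at hc
    rcases hc with rfl | hc
    · refine hdeg y ?_ (by rw [Finset.pair_comm]; exact a3)
      rw [Finset.mem_sdiff, Finset.mem_union, not_or]
      refine ⟨a1, fun h => a2.2 (Finset.mem_union_left _ h), fun h => ?_⟩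
      rw [hNX, Finset.mem_insert, Finset.mem_singleton] at h
      rcases h with h | h
      · exact a2.1 h
      · rw [h] at a2
        exact a2.2 h2
    · have : y ∈ Nb U Γ (X ∪ X') := mem_Nb.mpr ⟨a1, a2.2, c, hc, a3⟩
      rw [h1, Finset.mem_singleton] at this
      exact a2.1 this
  · rw [Finset.inter_insert_of_notMem htP, h3]

/-- the case `|P ∩ X| = 2`, no neighbour of `X` in `P` -/
theorem hit_t {U : Finset V} {Γ : Finset (Finset V)} {P X : Finset V} (hPU : P ⊆ U)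
    (h4 : 4 ≤ P.card) (hH : Hit U Γ P) (hX : Sepd U Γ X)
    (hmin : ∀ Y, Y ⊂ X → ¬ Sepd U Γ Y) (h2 : (Nb U Γ X).card = 2)
    (hP2 : (P ∩ X).card = 2) (hNP : Disjoint (Nb U Γ X) P) {r : V} (hr : r ∈ X) :
    ∃ t ∈ Nb U Γ X, Hit U Γ (insert r (insert t (P \ X))) ∧
      ∀ s ∈ Nb U Γ X, s ≠ t → ∃ w ∈ U \ (X ∪ Nb U Γ X), {s, w} ∈ Γ := by
  obtain ⟨u, v, huv, hNX⟩ := Finset.card_eq_two.mp h2
  have hNX' : Nb U Γ X = {v, u} := by rw [hNX, Finset.pair_comm]
  have huN : u ∈ Nb U Γ X := by rw [hNX]; simp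
  have hvN : v ∈ Nb U Γ X := by rw [hNX]; simp
  have huP : u ∉ P := fun h => (Finset.disjoint_left.mp hNP) huN h
  have hvP : v ∉ P := fun h => (Finset.disjoint_left.mp hNP) hvN h
  have hmem : ∀ s, s ∈ Nb U Γ X → s = u ∨ s = v := by
    intro s hs
    rw [hNX, Finset.mem_insert, Finset.mem_singleton] at hs
    exact hs
  -- not both degenerate
  have hi : ¬ ((∀ w ∈ U \ (X ∪ Nb U Γ X), {u, w} ∉ Γ) ∧
      (∀ w ∈ U \ (X ∪ Nb U Γ X), {v, w} ∉ Γ)) := by
    rintro ⟨hu, hv⟩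
    refine closed_false (C := X ∪ Nb U Γ X) hPU h4 hH hP2 (Finset.union_subset hX.1 nb_subU) ?_ ?_
      (Finset.mem_union_right _ huN) huP
    · rw [Finset.eq_empty_iff_forall_notMem]
      intro y hy
      rw [mem_Nb] at hy
      obtain ⟨a1, a2, c, hc, a3⟩ := hy
      have a4 : y ∈ U \ (X ∪ Nb U Γ X) := Finset.mem_sdiff.mpr ⟨a1, a2⟩
      rw [Finset.mem_union] at hc
      rcases hc with hc | hc
      · rw [Finset.mem_union, not_or] at a2
        exact a2.2 (mem_Nb.mpr ⟨a1, a2.1, c, hc, a3⟩)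
      · rcases hmem c hc with rfl | rfl
        · exact hu y a4 (by rw [Finset.pair_comm]; exact a3)
        · exact hv y a4 (by rw [Finset.pair_comm]; exact a3)
    · ext x
      rw [Finset.mem_inter, Finset.mem_inter, Finset.mem_union]
      constructor
      · rintro ⟨b1, b2 | b2⟩
        · exact ⟨b1, b2⟩
        · exact absurd b1 (fun h => (Finset.disjoint_left.mp hNP) b2 h)
      · rintro ⟨b1, b2⟩
        exact ⟨b1, Or.inl b2⟩
  by_cases hu : ∀ w ∈ U \ (X ∪ Nb U Γ X), {u, w} ∉ Γ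
  · have hv : ∃ w ∈ U \ (X ∪ Nb U Γ X), {v, w} ∈ Γ := by
      by_contra hcon
      push Not at hcon
      exact hi ⟨hu, hcon⟩
    refine ⟨u, huN, deg_hit hPU h4 hH hX hmin hP2 hNP hr huv hNX hu, ?_⟩
    intro s hs hsu
    rcases hmem s hs with rfl | rfl
    · exact absurd rfl hsu
    · exact hv
  by_cases hv : ∀ w ∈ U \ (X ∪ Nb U Γ X), {v, w} ∉ Γ
  · push Not at hu
    refine ⟨v, hvN, deg_hit hPU h4 hH hX hmin hP2 hNP hr huv.symm hNX' hv, ?_⟩
    intro s hs hsv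
    rcases hmem s hs with rfl | rfl
    · exact hu
    · exact absurd rfl hsv
  push Not at hu hv
  have hall : ∀ s ∈ Nb U Γ X, ∃ w ∈ U \ (X ∪ Nb U Γ X), {s, w} ∈ Γ := by
    intro s hs
    rcases hmem s hs with rfl | rfl
    · exact hu
    · exact hv
  by_cases hHu : Hit U Γ (insert r (insert u (P \ X)))
  · exact ⟨u, huN, hHu, fun s hs _ => hall s hs⟩
  by_cases hHv : Hit U Γ (insert r (insert v (P \ X)))
  · exact ⟨v, hvN, hHv, fun s hs _ => hall s hs⟩
  exfalso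
  unfold Hit at hHu hHv
  push Not at hHu hHv
  obtain ⟨X₁, hX₁, hd₁⟩ := hHu
  obtain ⟨X₂, hX₂, hd₂⟩ := hHv
  have hd₁' : ¬ (X₁ ∩ insert r (insert u (P \ X))).Nonempty := by
    rw [Finset.not_nonempty_iff_eq_empty]
    exact hd₁
  have hd₂' : ¬ (X₂ ∩ insert r (insert v (P \ X))).Nonempty := by
    rw [Finset.not_nonempty_iff_eq_empty]
    exact hd₂
  obtain ⟨a1, a2, a3⟩ := fail_t hH hX hmin huv hNX hr hX₁ hd₁'
  obtain ⟨b1, b2, b3⟩ := fail_t hH hX hmin huv.symm hNX' hr hX₂ hd₂'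
  refine closed_false (C := (X ∪ X₁) ∪ (X ∪ X₂)) hPU h4 hH hP2 ?_ ?_ ?_
    (Finset.mem_union_right _ b2) huP
  · exact Finset.union_subset (Finset.union_subset hX.1 hX₁.1) (Finset.union_subset hX.1 hX₂.1)
  · rw [Finset.eq_empty_iff_forall_notMem]
    intro y hy
    rw [mem_Nb] at hy
    obtain ⟨c1, c2, c, hc, c3⟩ := hy
    rw [Finset.mem_union, not_or] at c2
    rw [Finset.mem_union] at hc
    rcases hc with hc | hc
    · have : y ∈ Nb U Γ (X ∪ X₁) := mem_Nb.mpr ⟨c1, c2.1, c, hc, c3⟩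
      rw [a1, Finset.mem_singleton] at this
      rw [this] at c2
      exact c2.2 b2
    · have : y ∈ Nb U Γ (X ∪ X₂) := mem_Nb.mpr ⟨c1, c2.2, c, hc, c3⟩
      rw [b1, Finset.mem_singleton] at this
      rw [this] at c2
      exact c2.1 a2
  · rw [Finset.inter_union_distrib_left, a3, b3, Finset.union_self]

end Pool.Agent.TH626.GPX4
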