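import Pool.Agent.TH806.LK.Defs
import Pool.Agent.TH806.Om

set_option autoImplicit false

/-!
Expansion of products of block polynomials into monomials (for AV0, AV1, AV2 of the LK project).

`ix J K` is the set of the choices of exponents, `mon I φ` the monomial, `cf c φ` its coefficient.
-/

namespace Pool.Agent.TH626.LK_EXP

open Finset Filter Topology MeasureTheory Complex MonoidAlgebra
open Pool.Agent.W184.NZ
open Pool.Agent.TH806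
open Pool.Agent.TH806.LK
open Pool.Agent.H306R2.SM (om cl Yf)
open Pool.Agent.H262R4.TM (Rng Ck)

noncomputable section

/-- extension of a choice of exponents -/
def ext {J : ℕ} (φ : Fin J → ℕ × ℕ) (i : ℕ) : ℕ × ℕ := if h : i < J then φ ⟨i, h⟩ else (0, 0)

/-- the choices of exponents -/
def ix (J : ℕ) (K : ℕ → ℕ) : Finset (Fin J → ℕ × ℕ) :=
  Fintype.piFinset fun i : Fin J => range (K i + 1) ×ˢ range (K i + 1)

/-- the monomials -/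
def mon {J : ℕ} (I : ℕ → Finset ℕ) (φ : Fin J → ℕ × ℕ) : DA :=
  ∏ i ∈ range J, (xI (I i) ^ (ext φ i).1 * yI (I i) ^ (ext φ i).2)

/-- the coefficients -/
def cf {J : ℕ} (c : ℕ → ℕ → ℕ → ℂ) (φ : Fin J → ℕ × ℕ) : ℂ :=
  ∏ i ∈ range J, c i (ext φ i).1 (ext φ i).2

lemma ext_fin {J : ℕ} (φ : Fin J → ℕ × ℕ) (i : Fin J) : ext φ i = φ i := by
  unfold ext
  rw [dif_pos i.isLt]

lemma ext_mem {J : ℕ} {K : ℕ → ℕ} {φ : Fin J → ℕ × ℕ} (h : φ ∈ ix J K) {i : ℕ} (hi : i < J) :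
    (ext φ i).1 ≤ K i ∧ (ext φ i).2 ≤ K i := by
  have h1 : φ ⟨i, hi⟩ ∈ range (K i + 1) ×ˢ range (K i + 1) := Fintype.mem_piFinset.1 h ⟨i, hi⟩
  rw [mem_product, mem_range, mem_range] at h1
  have h2 := ext_fin φ ⟨i, hi⟩
  simp only at h2
  rw [h2]
  exact ⟨by omega, by omega⟩

/-- expansion of a product of sums -/
lemma prod_exp {R : Type*} [CommSemiring R] (J : ℕ) (s : ℕ → Finset (ℕ × ℕ)) (g : ℕ → ℕ × ℕ → R) :
    ∏ i ∈ range J, ∑ p ∈ s i, g i p =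
      ∑ φ ∈ Fintype.piFinset (fun i : Fin J => s i), ∏ i ∈ range J, g i (ext φ i) := by
  rw [← Fin.prod_univ_eq_prod_range (fun i => ∑ p ∈ s i, g i p) J]
  rw [Finset.prod_univ_sum]
  refine sum_congr rfl fun φ _ => ?_
  rw [← Fin.prod_univ_eq_prod_range (fun i => g i (ext φ i)) J]
  exact prod_congr rfl fun i _ => by rw [ext_fin]

lemma Fc_eq (K : ℕ) (c : ℕ → ℕ → ℂ) (z : ℂ) :
    Fc K c z = ∑ p ∈ range (K + 1) ×ˢ range (K + 1), c p.1 p.2 * (z ^ p.1 * (starRingEnd ℂ z) ^ p.2) := by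
  unfold Fc
  rw [sum_product]

lemma ev_mon {J : ℕ} {I : ℕ → Finset ℕ} (hI : ∀ i, ∀ p ∈ I i, p.Prime) (t : ℝ) (φ : Fin J → ℕ × ℕ) :
    ev t (mon I φ) = ∏ i ∈ range J, ((zz I t i) ^ (ext φ i).1 * (starRingEnd ℂ (zz I t i)) ^ (ext φ i).2) := by
  unfold mon
  rw [map_prod]
  refine prod_congr rfl fun i _ => ?_
  rw [map_mul, map_pow, map_pow, ev_xI, ev_yI t (hI i)]
  rfl

/-- expansion of the product of the block polynomials -/
lemma exp_ev {I : ℕ → Finset ℕ} (hI : ∀ i, ∀ p ∈ I i, p.Prime) (J : ℕ) (K : ℕ → ℕ)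
    (c : ℕ → ℕ → ℕ → ℂ) (t : ℝ) :
    ∏ i ∈ range J, Fc (K i) (c i) (zz I t i) = ∑ φ ∈ ix J K, cf c φ * ev t (mon I φ) := by
  have h1 : ∀ i ∈ range J, Fc (K i) (c i) (zz I t i) =
      ∑ p ∈ range (K i + 1) ×ˢ range (K i + 1),
        c i p.1 p.2 * ((zz I t i) ^ p.1 * (starRingEnd ℂ (zz I t i)) ^ p.2) := fun i _ => Fc_eq _ _ _
  rw [prod_congr rfl h1, prod_exp J (fun i => range (K i + 1) ×ˢ range (K i + 1))
    (fun i p => c i p.1 p.2 * ((zz I t i) ^ p.1 * (starRingEnd ℂ (zz I t i)) ^ p.2))]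
  refine sum_congr rfl fun φ _ => ?_
  rw [prod_mul_distrib, ev_mon hI]
  rfl

/-- the moments of a law -/
lemma LW_Fc {w : ℕ × ℕ → ℝ} {κ₁ κ₂ Q C : ℝ} {I : Finset ℕ} {ν : Measure (ℂ × ℂ)}
    (h : LW w κ₁ κ₂ Q C I ν) (K : ℕ) (c : ℕ → ℕ → ℂ) :
    ∫ q, q.2 * Fc K c q.1 ∂ν =
      ∑ p ∈ range (K + 1) ×ˢ range (K + 1), c p.1 p.2 * ((lam w (xI I ^ p.1 * yI I ^ p.2) : ℝ) : ℂ) := by
  have hp := h.prob
  obtain ⟨B, hB⟩ := h.bdd
  have hint : ∀ k l : ℕ, Integrable (fun q : ℂ × ℂ => q.2 * (q.1 ^ k * (starRingEnd ℂ q.1) ^ l)) ν := by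
    intro k l
    refine Integrable.of_bound (C := |B| * (|B| ^ k * |B| ^ l)) ?_ ?_
    · have : Continuous fun q : ℂ × ℂ => q.2 * (q.1 ^ k * (starRingEnd ℂ q.1) ^ l) :=
        continuous_snd.mul ((continuous_fst.pow k).mul
          ((Complex.continuous_conj.comp continuous_fst).pow l))
      exact this.aestronglyMeasurable
    · filter_upwards [hB] with q hq
      have h1 : ‖q.1‖ ≤ |B| := hq.1.trans (le_abs_self _)
      have h2 : ‖q.2‖ ≤ |B| := hq.2.trans (le_abs_self _)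
      rw [norm_mul, norm_mul, norm_pow, norm_pow, RCLike.norm_conj]
      gcongr
  have h1 : ∀ q : ℂ × ℂ, q.2 * Fc K c q.1 =
      ∑ p ∈ range (K + 1) ×ˢ range (K + 1), c p.1 p.2 * (q.2 * (q.1 ^ p.1 * (starRingEnd ℂ q.1) ^ p.2)) := by
    intro q
    rw [Fc_eq, mul_sum]
    exact sum_congr rfl fun p _ => by ring
  simp_rw [h1]
  rw [integral_finsetSum _ fun p _ => (hint p.1 p.2).const_mul _]
  refine sum_congr rfl fun p _ => ?_
  rw [integral_const_mul, h.mom]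

/-- expansion of the product of the integrals -/
lemma exp_law {w : ℕ × ℕ → ℝ} {κ₁ κ₂ Q C : ℝ} {J : ℕ} {I : ℕ → Finset ℕ} {ν : ℕ → Measure (ℂ × ℂ)}
    (h : ∀ i < J, LW w κ₁ κ₂ Q C (I i) (ν i)) (K : ℕ → ℕ) (c : ℕ → ℕ → ℕ → ℂ)
    (hw : ∀ φ : Fin J → ℕ × ℕ, lam w (mon I φ) =
      ∏ i ∈ range J, lam w (xI (I i) ^ (ext φ i).1 * yI (I i) ^ (ext φ i).2)) :
    ∏ i ∈ range J, ∫ q, q.2 * Fc (K i) (c i) q.1 ∂(ν i) =
      ∑ φ ∈ ix J K, cf c φ * ((lam w (mon I φ) : ℝ) : ℂ) := by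
  rw [prod_congr rfl fun i hi => LW_Fc (h i (mem_range.1 hi)) (K i) (c i)]
  rw [prod_exp J (fun i => range (K i + 1) ×ˢ range (K i + 1))
    (fun i p => c i p.1 p.2 * ((lam w (xI (I i) ^ p.1 * yI (I i) ^ p.2) : ℝ) : ℂ))]
  refine sum_congr rfl fun φ _ => ?_
  rw [prod_mul_distrib, hw, Complex.ofReal_prod]
  rfl

/-- the monomials of one block -/
lemma blk_mem {I : Finset ℕ} (hI : ∀ p ∈ I, p.Prime) (k l : ℕ) : xI I ^ k * yI I ^ l ∈ SA (MI I) :=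
  Subalgebra.mul_mem _ (Subalgebra.pow_mem _ (xI_mem hI) _) (Subalgebra.pow_mem _ (yI_mem hI) _)

lemma mon_lam {w : ℕ × ℕ → ℝ} {κ : ℝ} (hw : GoodW w κ) {J : ℕ} {I : ℕ → Finset ℕ}
    (hI : ∀ i, ∀ p ∈ I i, p.Prime) (hd : ∀ i j, i < j → Disjoint (I i) (I j)) (φ : Fin J → ℕ × ℕ) :
    lam w (mon I φ) = ∏ i ∈ range J, lam w (xI (I i) ^ (ext φ i).1 * yI (I i) ^ (ext φ i).2) := by
  unfold mon
  exact lam_prod hw J hd fun i => blk_mem (hI i) _ _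

section size

variable {J : ℕ} {I : ℕ → Finset ℕ} {b : ℕ → ℝ} {K : ℕ → ℕ}

lemma blk_Bd {I : Finset ℕ} {b : ℝ} (hb : 1 ≤ b) (hI : ∀ p ∈ I, p.Prime ∧ (p:ℝ) ≤ b) {k l K : ℕ}
    (hk : k ≤ K) (hl : l ≤ K) : Bd (b ^ (2 * K)) (xI I ^ k * yI I ^ l) := by
  refine (((xI_Bd hI).pow k).mul ((yI_Bd hI).pow l)).mono ?_
  rw [← pow_add]
  exact pow_le_pow_right₀ hb (by omega)

lemma blk_l1 {I : Finset ℕ} {b : ℝ} (hb : 1 ≤ b) (hI : ∀ p ∈ I, p.Prime ∧ (p:ℝ) ≤ b) {k l K : ℕ}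
    (hk : k ≤ K) (hl : l ≤ K) : l1 (xI I ^ k * yI I ^ l) ≤ b ^ (2 * K) := by
  have hb0 : 0 ≤ b := by linarith
  have hx : l1 (xI I ^ k) ≤ b ^ k := (l1_pow _ _).trans (pow_le_pow_left₀ (l1_nonneg _) (xI_l1 hb0 hI) k)
  have hy : l1 (yI I ^ l) ≤ b ^ l := (l1_pow _ _).trans (pow_le_pow_left₀ (l1_nonneg _) (yI_l1 hb0 hI) l)
  refine (l1_mul _ _).trans ?_
  calc l1 (xI I ^ k) * l1 (yI I ^ l) ≤ b ^ k * b ^ l := mul_le_mul hx hy (l1_nonneg _) (by positivity)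
    _ = b ^ (k + l) := (pow_add _ _ _).symm
    _ ≤ _ := pow_le_pow_right₀ hb (by omega)

lemma mon_Bd (hb : ∀ i < J, 1 ≤ b i) (hI : ∀ i, ∀ p ∈ I i, p.Prime ∧ (p:ℝ) ≤ b i)
    {φ : Fin J → ℕ × ℕ} (hφ : φ ∈ ix J K) : Bd (∏ i ∈ range J, b i ^ (2 * K i)) (mon I φ) := by
  unfold mon
  refine Bd_prod J (fun i hi => ?_) fun i hi => ?_
  · have := hb i hi
    positivity
  · exact blk_Bd (hb i hi) (hI i) (ext_mem hφ hi).1 (ext_mem hφ hi).2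

lemma mon_l1 (hb : ∀ i < J, 1 ≤ b i) (hI : ∀ i, ∀ p ∈ I i, p.Prime ∧ (p:ℝ) ≤ b i)
    {φ : Fin J → ℕ × ℕ} (hφ : φ ∈ ix J K) : l1 (mon I φ) ≤ ∏ i ∈ range J, b i ^ (2 * K i) := by
  unfold mon
  refine l1_prod J (fun i hi => ?_) fun i hi => ?_
  · have := hb i hi
    positivity
  · exact blk_l1 (hb i hi) (hI i) (ext_mem hφ hi).1 (ext_mem hφ hi).2

/-- the sum of the absolute values of the coefficients -/
lemma sum_cf (c : ℕ → ℕ → ℕ → ℂ) :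
    ∑ φ ∈ ix J K, ‖cf c φ‖ = ∏ i ∈ range J, ∑ p ∈ range (K i + 1) ×ˢ range (K i + 1), ‖c i p.1 p.2‖ := by
  rw [prod_exp J (fun i => range (K i + 1) ×ˢ range (K i + 1)) (fun i p => ‖c i p.1 p.2‖)]
  refine sum_congr rfl fun φ _ => ?_
  unfold cf
  rw [norm_prod]

lemma two_pow_sq (n : ℕ) : (2:ℝ) ^ (n + 1) * ((n:ℝ) + 2) ^ 2 ≤ 10 ^ (n + 1) := by
  induction n with
  | zero => norm_num
  | succ n ih =>
    have h0 : (0:ℝ) ≤ n := Nat.cast_nonneg n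
    have h1 : (((n + 1 : ℕ) : ℝ) + 2) ^ 2 ≤ 5 * ((n:ℝ) + 2) ^ 2 := by
      push_cast
      nlinarith
    calc (2:ℝ) ^ (n + 1 + 1) * (((n + 1 : ℕ) : ℝ) + 2) ^ 2 ≤ (2:ℝ) ^ (n + 1 + 1) * (5 * ((n:ℝ) + 2) ^ 2) := by
          gcongr
      _ = 10 * ((2:ℝ) ^ (n + 1) * ((n:ℝ) + 2) ^ 2) := by ring
      _ ≤ 10 * 10 ^ (n + 1) := by gcongr
      _ = _ := by ring

/-- the coefficients of polynomials of the class `PB` -/
lemma PB_sum {K : ℕ} (hK : 1 ≤ K) {b : ℝ} (hb : 10 ≤ b) {c : ℕ → ℕ → ℂ} (hc : ∀ k l, ‖c k l‖ ≤ 2 ^ K) :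
    ∑ p ∈ range (K + 1) ×ˢ range (K + 1), ‖c p.1 p.2‖ ≤ b ^ K := by
  have h1 : ∑ p ∈ range (K + 1) ×ˢ range (K + 1), ‖c p.1 p.2‖ ≤
      ∑ _p ∈ range (K + 1) ×ˢ range (K + 1), (2:ℝ) ^ K := sum_le_sum fun p _ => hc _ _
  rw [sum_const, card_product, card_range, nsmul_eq_mul] at h1
  refine h1.trans ?_
  obtain ⟨n, rfl⟩ : ∃ n, K = n + 1 := ⟨K - 1, by omega⟩
  have h2 := two_pow_sq n
  calc (((n + 1 + 1) * (n + 1 + 1) : ℕ) : ℝ) * 2 ^ (n + 1) = (2:ℝ) ^ (n + 1) * ((n:ℝ) + 2) ^ 2 := by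
        push_cast; ring
    _ ≤ 10 ^ (n + 1) := h2
    _ ≤ b ^ (n + 1) := by gcongr

lemma sum_cf_PB (hK : ∀ i < J, 1 ≤ K i) (hb : ∀ i < J, 10 ≤ b i) {c : ℕ → ℕ → ℕ → ℂ}
    (hc : ∀ i < J, ∀ k l, ‖c i k l‖ ≤ 2 ^ (K i)) :
    ∑ φ ∈ ix J K, ‖cf c φ‖ ≤ ∏ i ∈ range J, b i ^ (K i) := by
  rw [sum_cf]
  refine prod_le_prod (fun i _ => sum_nonneg fun _ _ => norm_nonneg _) fun i hi => ?_
  have hi' := mem_range.1 hi
  exact PB_sum (hK i hi') (hb i hi') (hc i hi')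

/-- the products of the ends of the ranges -/
lemma prod_pow_le {T : ℝ} (hT : 0 < T) (hb : ∀ i < J, 0 < b i) {η : ℝ}
    (h : ∑ i ∈ range J, (K i : ℝ) * Real.log (b i) ≤ η * Real.log T) (m : ℕ) :
    ∏ i ∈ range J, b i ^ (m * K i) ≤ T ^ (m * η) := by
  have h1 : ∏ i ∈ range J, b i ^ (m * K i) = Real.exp (m * ∑ i ∈ range J, (K i : ℝ) * Real.log (b i)) := by
    rw [mul_sum, Real.exp_sum]
    refine prod_congr rfl fun i hi => ?_
    have h2 := hb i (mem_range.1 hi)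
    rw [← Real.exp_log (pow_pos h2 (m * K i)), Real.log_pow]
    congr 1
    push_cast
    ring
  rw [h1, Real.rpow_def_of_pos hT]
  refine Real.exp_le_exp.2 ?_
  calc (m:ℝ) * ∑ i ∈ range J, (K i : ℝ) * Real.log (b i) ≤ m * (η * Real.log T) :=
        mul_le_mul_of_nonneg_left h (Nat.cast_nonneg _)
    _ = _ := by ring

end size

/-- the monomials as exponentials -/
lemma mh_exp (t : ℝ) {m n : ℕ} (hm : m ≠ 0) (hn : n ≠ 0) :
    mh t (m, n) = ((((m:ℝ) * n) ^ (-(1 / 2 : ℝ)) : ℝ) : ℂ) *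
      Complex.exp ((((Real.log n - Real.log m) * t : ℝ) : ℂ) * Complex.I) := by
  have m0 : (0:ℝ) < m := by exact_mod_cast Nat.pos_of_ne_zero hm
  have n0 : (0:ℝ) < n := by exact_mod_cast Nat.pos_of_ne_zero hn
  have e0 : mh t (m, n) = (m : ℂ) ^ (-(1 / 2 + t * Complex.I)) * (n : ℂ) ^ (-(1 / 2 - t * Complex.I)) := rfl
  have mc : (m:ℂ) ≠ 0 := by exact_mod_cast hm
  have nc : (n:ℂ) ≠ 0 := by exact_mod_cast hn
  have e1 : ((m:ℝ) * n) ^ (-(1 / 2 : ℝ)) = Real.exp (-(Real.log m + Real.log n) / 2) := by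
    rw [Real.rpow_def_of_pos (by positivity), Real.log_mul m0.ne' n0.ne']
    congr 1; ring
  rw [e0, e1, Complex.cpow_def_of_ne_zero mc, Complex.cpow_def_of_ne_zero nc, ← Complex.exp_add,
    Complex.ofReal_exp, ← Complex.exp_add, ← Complex.natCast_log, ← Complex.natCast_log]
  congr 1
  push_cast
  ring

lemma om_mh_int {κ : ℕ} {δ : ℝ} (hδ : 0 < δ) {x : ℕ × ℕ} (h1 : x.1 ≠ 0) (h2 : x.2 ≠ 0) :
    IntegrableOn (fun t : ℝ => ((om κ δ t : ℝ) : ℂ) * mh t x) (Set.Ioi 0) := by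
  have h3 : IntegrableOn (fun t : ℝ => ((om κ δ t : ℝ) : ℂ)) (Set.Ioi 0) := (om_int0 κ hδ).ofReal
  exact h3.mul_bdd (c := 1) (mh_cont h1 h2).aestronglyMeasurable
    (Eventually.of_forall fun t => mh_norm_le h1 h2)

/-- complex averages without zeta -/
theorem avgOc {N : ℝ} {f : DA} (hf : Bd N f) {κ : ℕ} {T : ℝ} (hT : 0 < T) (hκ : 1 ≤ κ) (hN : 1 ≤ N)
    (h1 : N * κ / T ≤ 1) :
    IntegrableOn (fun t : ℝ => ((om κ (κ / T) t : ℝ) : ℂ) * ev t f) (Set.Ioi 0) ∧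
    ‖(∫ t in Set.Ioi (0:ℝ), ((om κ (κ / T) t : ℝ) : ℂ) * ev t f) - ((lam w0 f : ℝ) : ℂ)‖ ≤
      (N * κ / T) * l1 f := by
  have hκ0 : (0:ℝ) < κ := by exact_mod_cast hκ
  have hδ : 0 < (κ:ℝ) / T := by positivity
  have e1 : ∀ t : ℝ, ((om κ (κ / T) t : ℝ) : ℂ) * ev t f =
      ∑ x ∈ f.coeff.support, (f.coeff x : ℂ) * (((om κ (κ / T) t : ℝ) : ℂ) * mh t x) := by
    intro t
    rw [ev_apply, mul_sum]
    refine sum_congr rfl fun x _ => ?_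
    ring
  have hint : ∀ x ∈ f.coeff.support, IntegrableOn (fun t => ((om κ (κ / T) t : ℝ) : ℂ) * mh t x) (Set.Ioi 0) :=
    fun x hx => om_mh_int hδ (hf x hx).1.1 (hf x hx).1.2
  simp_rw [e1]
  refine ⟨integrable_finsetSum _ fun x hx => (hint x hx).const_mul _, ?_⟩
  rw [integral_finsetSum _ fun x hx => (hint x hx).const_mul _, lam_apply, Finsupp.sum, Complex.ofReal_sum,
    ← sum_sub_distrib]
  refine (norm_sum_le _ _).trans ?_
  unfold l1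
  rw [mul_sum]
  refine sum_le_sum fun x hx => ?_
  rw [integral_const_mul, Complex.ofReal_mul, ← mul_sub, norm_mul, Complex.norm_real, Real.norm_eq_abs, mul_comm]
  refine mul_le_mul_of_nonneg_right ?_ (abs_nonneg _)
  obtain ⟨⟨h2, h3⟩, h4, h5⟩ := hf x hx
  obtain ⟨m, n⟩ := x
  simp only at h2 h3 h4 h5
  have hm0 : (0:ℝ) < m := by exact_mod_cast Nat.pos_of_ne_zero h2
  have hn0 : (0:ℝ) < n := by exact_mod_cast Nat.pos_of_ne_zero h3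
  have e2 : ∀ t : ℝ, ((om κ (κ / T) t : ℝ) : ℂ) * mh t (m, n) =
      ((((m:ℝ) * n) ^ (-(1 / 2 : ℝ)) : ℝ) : ℂ) * (((om κ (κ / T) t : ℝ) : ℂ) *
        Complex.exp ((((Real.log n - Real.log m) * t : ℝ) : ℂ) * Complex.I)) := by
    intro t
    rw [mh_exp t h2 h3]; ring
  simp_rw [e2]
  rw [integral_const_mul, om_four κ hδ]
  by_cases hmn : m = n
  · subst hmn
    have hδc : (((κ:ℝ) / T : ℝ) : ℂ) ≠ 0 := by exact_mod_cast hδ.ne'
    have hw : w0 (m, m) = ((m:ℝ) * m) ^ (-(1 / 2 : ℝ)) := by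
      unfold w0
      rw [if_pos rfl, ← pow_two, ← Real.rpow_natCast, ← Real.rpow_mul hm0.le]
      norm_num
      rw [Real.rpow_neg_one]
    rw [sub_self, Complex.ofReal_zero, zero_mul, sub_zero, div_self hδc, one_pow, mul_one, hw, sub_self,
      norm_zero]
    positivity
  · have hw : w0 (m, n) = 0 := by unfold w0; rw [if_neg hmn]
    rw [hw, Complex.ofReal_zero, sub_zero, norm_mul, Complex.norm_real, Real.norm_eq_abs]
    have h6 := log_sub_ge h2 h3 h4 h5 hmn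
    have hφ : Real.log n - Real.log m ≠ 0 := by
      intro h0
      rw [h0, abs_zero] at h6
      have : 0 < 1 / N := by positivity
      linarith
    have h8 : |((m:ℝ) * n) ^ (-(1 / 2 : ℝ))| ≤ 1 := by
      rw [abs_of_nonneg (by positivity)]
      refine Real.rpow_le_one_of_one_le_of_nonpos ?_ (by norm_num)
      have a1 : (1:ℝ) ≤ m := by exact_mod_cast Nat.pos_of_ne_zero h2
      have a2 : (1:ℝ) ≤ n := by exact_mod_cast Nat.pos_of_ne_zero h3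
      nlinarith
    have h9 : (κ / T / |Real.log n - Real.log m|) ≤ N * κ / T := by
      rw [div_le_iff₀ (abs_pos.mpr hφ)]
      calc (κ:ℝ) / T = N * κ / T * (1 / N) := by field_simp
        _ ≤ _ := by gcongr
    have h10 : ‖((((κ:ℝ) / T : ℝ) : ℂ) / ((((κ:ℝ) / T : ℝ) : ℂ) -
        ((Real.log n - Real.log m : ℝ) : ℂ) * Complex.I)) ^ (κ + 1)‖ ≤ N * κ / T := by
      rw [norm_pow, norm_div, Complex.norm_real, Real.norm_eq_abs, abs_of_pos hδ]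
      have h11' : ∀ ψ : ℝ, |ψ| ≤ ‖(((κ:ℝ) / T : ℝ) : ℂ) - (ψ : ℂ) * Complex.I‖ := by
        intro ψ
        have := Complex.abs_im_le_norm ((((κ:ℝ) / T : ℝ) : ℂ) - (ψ : ℂ) * Complex.I)
        simpa using this
      have h11 := h11' (Real.log n - Real.log m)
      have h12 : 0 < |Real.log n - Real.log m| := abs_pos.mpr hφ
      have h13 : (κ:ℝ) / T / ‖(((κ:ℝ) / T : ℝ) : ℂ) - ((Real.log n - Real.log m : ℝ) : ℂ) * Complex.I‖ ≤
          N * κ / T := (div_le_div_of_nonneg_left hδ.le h12 h11).trans h9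
      calc _ ≤ (N * κ / T) ^ (κ + 1) := by gcongr
        _ ≤ (N * κ / T) ^ 1 := pow_le_pow_of_le_one (by positivity) h1 (by omega)
        _ = _ := pow_one _
    calc _ ≤ 1 * (N * κ / T) := mul_le_mul h8 h10 (norm_nonneg _) zero_le_one
      _ = _ := one_mul _

end

end Pool.Agent.TH626.LK_EXP
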