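import Pool.Agent.TH84.UA.Plan
set_option autoImplicit false
namespace Pool.Agent.TH626.UA_CHAIN
open Finset Filter
open scoped Classical
open Pool.Agent.TH84.UA

variable {n : ℕ}

/-- weighted count of the members of `W` inside `E` -/
noncomputable def Hw (W : Finset (Finset (Fin n))) (g : Finset (Fin n) → ℝ)
    (E : Finset (Fin n)) : ℝ :=
  ∑ A ∈ W.filter (fun A => A ⊆ E), g A / ((E.card.choose A.card : ℕ) : ℝ)

lemma choose_rel {m j : ℕ} (h : j ≤ m) (g : ℝ) :
    ((m : ℝ) + 1 - j) * (g / ((m.choose j : ℕ) : ℝ)) =
      ((m : ℝ) + 1) * (g / (((m + 1).choose j : ℕ) : ℝ)) := by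
  have h1 : (0 : ℝ) < ((m.choose j : ℕ) : ℝ) := by exact_mod_cast Nat.choose_pos h
  have h2 : (0 : ℝ) < (((m + 1).choose j : ℕ) : ℝ) := by
    exact_mod_cast Nat.choose_pos (by omega : j ≤ m + 1)
  have h3 := Nat.choose_mul_succ_eq m j
  have h4 : ((m.choose j : ℕ) : ℝ) * ((m : ℝ) + 1) =
      (((m + 1).choose j : ℕ) : ℝ) * ((m : ℝ) + 1 - j) := by
    have h5 : ((m.choose j * (m + 1) : ℕ) : ℝ) = (((m + 1).choose j * (m + 1 - j) : ℕ) : ℝ) := by
      rw [h3]
    rw [Nat.cast_mul, Nat.cast_mul, Nat.cast_sub (by omega)] at h5
    push_cast at h5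
    exact h5
  field_simp
  linear_combination (-g) * h4

lemma Hw_rec (W : Finset (Finset (Fin n))) (g : Finset (Fin n) → ℝ) (E : Finset (Fin n)) (m : ℕ)
    (hE : E.card = m + 1) :
    ∑ z ∈ E, Hw W g (E.erase z) = ((m : ℝ) + 1) * (Hw W g E - if E ∈ W then g E else 0) := by
  have h1 : ∀ z ∈ E, Hw W g (E.erase z) =
      ∑ A ∈ W, if A ⊆ E.erase z then g A / ((m.choose A.card : ℕ) : ℝ) else 0 := by
    intro z hz
    unfold Hw
    rw [Finset.sum_filter, card_erase_of_mem hz, hE, Nat.add_sub_cancel]
  have h2 : (if E ∈ W then g E else 0) = ∑ A ∈ W, if A = E then g E else 0 := by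
    rw [Finset.sum_ite_eq' W E]
  rw [Finset.sum_congr rfl h1, Finset.sum_comm, h2]
  unfold Hw
  rw [Finset.sum_filter, ← Finset.sum_sub_distrib, Finset.mul_sum, hE]
  refine Finset.sum_congr rfl fun A _ => ?_
  by_cases hA : A ⊆ E
  · have h3 : E.filter (fun z => A ⊆ E.erase z) = E \ A := by
      ext z
      rw [mem_filter, Finset.mem_sdiff]
      constructor
      · rintro ⟨k1, k2⟩
        exact ⟨k1, fun h => (mem_erase.1 (k2 h)).1 rfl⟩
      · rintro ⟨k1, k2⟩
        refine ⟨k1, fun x hx => mem_erase.2 ⟨?_, hA hx⟩⟩
        rintro rfl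
        exact k2 hx
    rw [← Finset.sum_filter, h3, Finset.sum_const, card_sdiff_of_subset hA, nsmul_eq_mul, hE,
      if_pos hA]
    have hc := card_le_card hA
    rw [hE] at hc
    rw [Nat.cast_sub hc]
    push_cast
    by_cases hAE : A = E
    · rw [if_pos hAE, hAE, hE, Nat.choose_self]
      push_cast
      ring
    · rw [if_neg hAE, sub_zero]
      have hlt : A.card < E.card := card_lt_card (hA.ssubset_of_ne hAE)
      exact choose_rel (by omega) (g A)
  · have h4 : A ≠ E := fun h => hA (h ▸ Finset.Subset.refl _)
    rw [if_neg hA, if_neg h4]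
    rw [Finset.sum_eq_zero]
    · ring
    · intro z _
      rw [if_neg]
      exact fun h => hA (h.trans (erase_subset _ _))

/-- the probabilities, with fuel -/
noncomputable def ph (V : Finset (Finset (Fin n))) : ℕ → Finset (Fin n) → ℝ
  | 0, E => if E ∈ V then 1 else 0
  | (m + 1), E => if E ∈ V then 1 else (∑ z ∈ E, ph V m (E.erase z)) / (E.card : ℝ)

/-- the probability that a random chain going down from `E` meets `V` -/
noncomputable def phi (a : ℕ) (V : Finset (Finset (Fin n))) (E : Finset (Fin n)) : ℝ :=
  ph V (E.card - a) E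

lemma ph_mem (V : Finset (Finset (Fin n))) (m : ℕ) : ∀ E, 0 ≤ ph V m E ∧ ph V m E ≤ 1 := by
  induction m with
  | zero =>
    intro E
    unfold ph
    split_ifs <;> norm_num
  | succ m ih =>
    intro E
    unfold ph
    split_ifs
    · norm_num
    · constructor
      · exact div_nonneg (Finset.sum_nonneg fun z _ => (ih _).1) (Nat.cast_nonneg _)
      · by_cases h0 : E.card = 0
        · rw [h0]; norm_num
        · have h1 : (0 : ℝ) < E.card := by exact_mod_cast Nat.pos_of_ne_zero h0
          rw [div_le_one h1]
          calc ∑ z ∈ E, ph V m (E.erase z) ≤ ∑ _z ∈ E, (1 : ℝ) :=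
                Finset.sum_le_sum fun z _ => (ih _).2
            _ = E.card := by simp

lemma phi_nonneg (a : ℕ) (V : Finset (Finset (Fin n))) (E : Finset (Fin n)) : 0 ≤ phi a V E :=
  (ph_mem V _ E).1

lemma phi_le_one (a : ℕ) (V : Finset (Finset (Fin n))) (E : Finset (Fin n)) : phi a V E ≤ 1 :=
  (ph_mem V _ E).2

lemma phi_small (a : ℕ) (V : Finset (Finset (Fin n))) (E : Finset (Fin n)) (h : E.card ≤ a) :
    phi a V E = if E ∈ V then 1 else 0 := by
  unfold phi
  rw [Nat.sub_eq_zero_of_le h]
  rfl

/-- the average over the erased sets -/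
noncomputable def psi (a : ℕ) (V : Finset (Finset (Fin n))) (E : Finset (Fin n)) : ℝ :=
  (∑ z ∈ E, phi a V (E.erase z)) / (E.card : ℝ)

lemma phi_step (a : ℕ) (V : Finset (Finset (Fin n))) (E : Finset (Fin n)) (h : a < E.card) :
    phi a V E = if E ∈ V then 1 else psi a V E := by
  obtain ⟨m, hm⟩ : ∃ m, E.card - a = m + 1 := ⟨E.card - a - 1, by omega⟩
  unfold psi phi
  rw [hm]
  show (if E ∈ V then (1 : ℝ) else (∑ z ∈ E, ph V m (E.erase z)) / (E.card : ℝ)) = _
  congr 2
  refine Finset.sum_congr rfl fun z hz => ?_
  rw [card_erase_of_mem hz]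
  congr 1
  omega

lemma phi_of_mem (a : ℕ) (V : Finset (Finset (Fin n))) (E : Finset (Fin n)) (h : E ∈ V) :
    phi a V E = 1 := by
  rcases Nat.lt_or_ge a E.card with h1 | h1
  · rw [phi_step a V E h1, if_pos h]
  · rw [phi_small a V E h1, if_pos h]

lemma Hw_nonneg (W : Finset (Finset (Fin n))) (g : Finset (Fin n) → ℝ) (hg : ∀ A, 0 ≤ g A)
    (E : Finset (Fin n)) : 0 ≤ Hw W g E :=
  Finset.sum_nonneg fun A _ => div_nonneg (hg A) (Nat.cast_nonneg _)

lemma Hw_ge (W : Finset (Finset (Fin n))) (g : Finset (Fin n) → ℝ) (hg : ∀ A, 0 ≤ g A)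
    (E : Finset (Fin n)) (hE : E ∈ W) : g E ≤ Hw W g E := by
  unfold Hw
  have h1 : g E / ((E.card.choose E.card : ℕ) : ℝ) = g E := by
    rw [Nat.choose_self, Nat.cast_one, div_one]
  rw [← h1]
  exact Finset.single_le_sum (f := fun A => g A / ((E.card.choose A.card : ℕ) : ℝ))
    (fun A _ => div_nonneg (hg A) (Nat.cast_nonneg _))
    (mem_filter.2 ⟨hE, Finset.Subset.refl _⟩)

section main

variable (a b T : ℕ) (V : Finset (Finset (Fin n)))

/-- the main estimate of the averages -/
lemma five (ha : 0 < a) (y : Fin n) : ∀ m : ℕ, ∀ E : Finset (Fin n), E.card = a + m → y ∈ E →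
    phi a V E ≤ Hw (V.filter (fun A => y ∈ A)) (fun _ => 1) E +
      ((E.card : ℝ) - a) / E.card ∧
    (0 < m → psi a V E ≤ Hw (V.filter (fun A => y ∈ A)) (fun _ => 1) E -
      (if E ∈ V.filter (fun A => y ∈ A) then 1 else 0) + ((E.card : ℝ) - a) / E.card) := by
  intro m
  induction m with
  | zero =>
    intro E hE hy
    refine ⟨?_, fun h => absurd h (lt_irrefl _)⟩
    rw [phi_small a V E (by omega)]
    have h0 : ((E.card : ℝ) - a) / E.card = 0 := by
      rw [hE]; simp
    rw [h0, add_zero]
    by_cases hEV : E ∈ V
    · rw [if_pos hEV]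
      exact Hw_ge _ (fun _ => 1) (fun _ => zero_le_one) E (mem_filter.2 ⟨hEV, hy⟩)
    · rw [if_neg hEV]
      exact Hw_nonneg _ _ (fun _ => zero_le_one) E
  | succ m ih =>
    intro E hE hy
    have hcard : (E.card : ℝ) = (a : ℝ) + m + 1 := by rw [hE]; push_cast; ring
    have ha' : (0 : ℝ) < a := by exact_mod_cast ha
    have hpos : (0 : ℝ) < (a : ℝ) + m := by positivity
    have hpsi : psi a V E ≤ Hw (V.filter (fun A => y ∈ A)) (fun _ => 1) E -
      (if E ∈ V.filter (fun A => y ∈ A) then 1 else 0) + ((E.card : ℝ) - a) / E.card := by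
      have hrec := Hw_rec (V.filter (fun A => y ∈ A)) (fun _ => 1) E (a + m) (by omega)
      unfold psi
      have h1 : ∑ z ∈ E, phi a V (E.erase z) ≤
          ∑ z ∈ E, (Hw (V.filter (fun A => y ∈ A)) (fun _ => 1) (E.erase z)) +
            ((m : ℝ) + 1) := by
        rw [← Finset.add_sum_erase E _ hy, ← Finset.add_sum_erase E (fun z =>
          Hw (V.filter (fun A => y ∈ A)) (fun _ => 1) (E.erase z)) hy]
        have h2 : ∑ z ∈ E.erase y, phi a V (E.erase z) ≤
            ∑ z ∈ E.erase y, (Hw (V.filter (fun A => y ∈ A)) (fun _ => 1) (E.erase z) +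
              (m : ℝ) / ((a : ℝ) + m)) := by
          refine Finset.sum_le_sum fun z hz => ?_
          have hz' := mem_erase.1 hz
          have hc : (E.erase z).card = a + m := by
            rw [card_erase_of_mem hz'.2]; omega
          have h3 := (ih (E.erase z) hc (mem_erase.2 ⟨hz'.1.symm, hy⟩)).1
          have h4 : (((E.erase z).card : ℝ) - a) / (E.erase z).card = (m : ℝ) / ((a : ℝ) + m) := by
            rw [hc]; push_cast; congr 1; ring
          rw [h4] at h3
          exact h3
        rw [Finset.sum_add_distrib, Finset.sum_const, card_erase_of_mem hy, nsmul_eq_mul] at h2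
        have h5 : ((E.card - 1 : ℕ) : ℝ) * ((m : ℝ) / ((a : ℝ) + m)) = m := by
          have : E.card - 1 = a + m := by omega
          rw [this]; push_cast
          field_simp
        rw [h5] at h2
        have h6 := phi_le_one a V (E.erase y)
        have h7 := Hw_nonneg (V.filter (fun A => y ∈ A)) (fun _ => 1) (fun _ => zero_le_one)
          (E.erase y)
        linarith
      rw [hrec] at h1
      rw [hcard, div_le_iff₀ (by positivity)]
      push_cast at h1
      have h8 : ((a : ℝ) + m + 1 - a) / ((a : ℝ) + m + 1) * ((a : ℝ) + m + 1) = (m : ℝ) + 1 := by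
        field_simp
        ring
      rw [add_mul, h8]
      linarith
    refine ⟨?_, fun _ => hpsi⟩
    rw [phi_step a V E (by omega)]
    by_cases hEV : E ∈ V
    · rw [if_pos hEV]
      have h1 := Hw_ge (V.filter (fun A => y ∈ A)) (fun _ => 1) (fun _ => zero_le_one) E
        (mem_filter.2 ⟨hEV, hy⟩)
      have h2 : 0 ≤ ((E.card : ℝ) - a) / E.card := by
        rw [hcard]
        apply div_nonneg
        · have : (0 : ℝ) ≤ m := Nat.cast_nonneg _
          linarith
        · positivity
      linarith
    · rw [if_neg hEV]
      rw [if_neg (fun h => hEV (mem_filter.1 h).1)] at hpsi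
      linarith

lemma le_choose (k : ℕ) : ∀ j, 1 ≤ j → j ≤ k → k + 1 ≤ (k + 1).choose j := by
  induction k with
  | zero => intro j h1 h2; omega
  | succ k ih =>
    intro j h1 h2
    obtain ⟨i, rfl⟩ : ∃ i, j = i + 1 := ⟨j - 1, by omega⟩
    rw [Nat.choose_succ_succ]
    by_cases hi : i = 0
    · subst hi
      simp
    · have h3 := ih i (by omega) (by omega)
      have h4 : 0 < (k + 1).choose (i + 1) := Nat.choose_pos h2
      have h5 : (k + 1).choose i.succ = (k + 1).choose (i + 1) := rfl
      omega

/-- the average for a set with an almost uncovered element -/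
lemma psi_le (ha : 0 < a) (y : Fin n) (E : Finset (Fin n)) (hE : a < E.card) (hy : y ∈ E)
    (hT : (V.filter (fun A => A ⊂ E ∧ y ∈ A)).card ≤ T) :
    psi a V E ≤ ((E.card : ℝ) - a + T) / E.card := by
  obtain ⟨m, hm⟩ : ∃ m, E.card = a + (m + 1) := ⟨E.card - a - 1, by omega⟩
  have h1 := (five a V ha y (m + 1) E hm hy).2 (by omega)
  have hpos : (0 : ℝ) < E.card := by exact_mod_cast (by omega : 0 < E.card)
  have h2 : Hw (V.filter (fun A => y ∈ A)) (fun _ => 1) E -
      (if E ∈ V.filter (fun A => y ∈ A) then 1 else 0) ≤ (T : ℝ) / E.card := by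
    have e2 : (if E ∈ V.filter (fun A => y ∈ A) then (1 : ℝ) else 0) =
        ∑ A ∈ V.filter (fun A => y ∈ A), if A = E then (1 : ℝ) else 0 := by
      rw [Finset.sum_ite_eq']
    rw [e2]
    unfold Hw
    rw [Finset.sum_filter, ← Finset.sum_sub_distrib]
    have h3 : ∀ A ∈ V.filter (fun A => y ∈ A),
        (if A ⊆ E then 1 / ((E.card.choose A.card : ℕ) : ℝ) else 0) - (if A = E then (1 : ℝ) else 0)
          ≤ if A ⊂ E then 1 / (E.card : ℝ) else 0 := by
      intro A hA
      have hyA := (mem_filter.1 hA).2
      by_cases hAE : A = E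
      · rw [if_pos hAE, hAE, if_pos (Finset.Subset.refl _), if_neg (fun h => h.2 (Finset.Subset.refl _)),
          Nat.choose_self]
        norm_num
      · rw [if_neg hAE, sub_zero]
        by_cases hs : A ⊆ E
        · have hss : A ⊂ E := hs.ssubset_of_ne hAE
          rw [if_pos hs, if_pos hss]
          have hlt := card_lt_card hss
          have hpA : 1 ≤ A.card := Finset.card_pos.2 ⟨y, hyA⟩
          have h4 : E.card ≤ E.card.choose A.card := by
            have := le_choose (E.card - 1) A.card hpA (by omega)
            rwa [Nat.sub_add_cancel (by omega)] at this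
          exact one_div_le_one_div_of_le hpos (by exact_mod_cast h4)
        · rw [if_neg hs]
          split_ifs
          · exact one_div_nonneg.2 hpos.le
          · exact le_rfl
    refine (Finset.sum_le_sum h3).trans ?_
    rw [← Finset.sum_filter, Finset.sum_const, Finset.filter_filter, nsmul_eq_mul]
    have h5 : (V.filter (fun A => y ∈ A ∧ A ⊂ E)).card ≤ T := by
      refine le_trans (le_of_eq ?_) hT
      congr 1
      ext A
      simp only [mem_filter]
      tauto
    have h6 : ((V.filter (fun A => y ∈ A ∧ A ⊂ E)).card : ℝ) ≤ T := by exact_mod_cast h5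
    calc ((V.filter (fun A => y ∈ A ∧ A ⊂ E)).card : ℝ) * (1 / (E.card : ℝ)) ≤
        T * (1 / (E.card : ℝ)) := mul_le_mul_of_nonneg_right h6 (one_div_nonneg.2 hpos.le)
      _ = _ := by ring
  calc psi a V E ≤ (T : ℝ) / E.card + ((E.card : ℝ) - a) / E.card := by linarith
    _ = _ := by ring

end main

theorem t_CHAIN : P_CHAIN := by
  intro n a b T V ha hab hV hVy
  have ha' : (0 : ℝ) < a := by exact_mod_cast ha
  have hab' : (a : ℝ) ≤ b := by exact_mod_cast hab
  have hT0 : (0 : ℝ) ≤ T := Nat.cast_nonneg _
  have huniv : (univ : Finset (Fin n)).card = n := by rw [card_univ, Fintype.card_fin]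
  refine ⟨phi a V univ, phi_nonneg _ _ _, phi_le_one _ _ _, ?_, ?_, ?_⟩
  · -- (i)
    set eps : ℝ := ((b : ℝ) - a + T) / a with heps
    have heps0 : 0 ≤ eps := div_nonneg (by linarith) ha'.le
    have key : ∀ m : ℕ, ∀ E : Finset (Fin n), E.card = m →
        (1 - eps) * Hw V (fun _ => 1) E ≤ phi a V E := by
      intro m
      induction m with
      | zero =>
        intro E hE
        have : Hw V (fun _ => 1) E = 0 := by
          unfold Hw
          rw [Finset.filter_eq_empty_iff.2, Finset.sum_empty]
          intro A hA hAE
          have h1 := card_le_card hAE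
          have h2 := (hV A hA).1
          omega
        rw [this, mul_zero]
        exact phi_nonneg _ _ _
      | succ m ih =>
        intro E hE
        have hH0 := Hw_nonneg V (fun _ => (1 : ℝ)) (fun _ => zero_le_one) E
        by_cases he1 : 1 ≤ eps
        · have : (1 - eps) * Hw V (fun _ => 1) E ≤ 0 :=
            mul_nonpos_of_nonpos_of_nonneg (by linarith) hH0
          exact this.trans (phi_nonneg _ _ _)
        push Not at he1
        rcases Nat.lt_trichotomy E.card a with hlt | heq | hgt
        · have : Hw V (fun _ => (1 : ℝ)) E = 0 := by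
            unfold Hw
            rw [Finset.filter_eq_empty_iff.2, Finset.sum_empty]
            intro A hA hAE
            have h1 := card_le_card hAE
            have h2 := (hV A hA).1
            omega
          rw [this, mul_zero]
          exact phi_nonneg _ _ _
        · have : Hw V (fun _ => (1 : ℝ)) E ≤ phi a V E := by
            rw [phi_small a V E heq.le]
            unfold Hw
            by_cases hEV : E ∈ V
            · rw [if_pos hEV]
              have : V.filter (fun A => A ⊆ E) = {E} := by
                ext A
                rw [mem_filter, mem_singleton]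
                constructor
                · rintro ⟨h1, h2⟩
                  exact Finset.eq_of_subset_of_card_le h2 (by rw [heq]; exact (hV A h1).1)
                · rintro rfl
                  exact ⟨hEV, Finset.Subset.refl _⟩
              rw [this, Finset.sum_singleton, Nat.choose_self]
              norm_num
            · rw [if_neg hEV, Finset.filter_eq_empty_iff.2, Finset.sum_empty]
              intro A hA hAE
              have : A = E := Finset.eq_of_subset_of_card_le hAE (by rw [heq]; exact (hV A hA).1)
              exact hEV (this ▸ hA)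
          have h2 : (1 - eps) * Hw V (fun _ => (1 : ℝ)) E ≤ 1 * Hw V (fun _ => (1 : ℝ)) E :=
            mul_le_mul_of_nonneg_right (by linarith) hH0
          linarith
        · have hrec := Hw_rec V (fun _ => (1 : ℝ)) E m hE
          have hm1 : (0 : ℝ) < (m : ℝ) + 1 := by positivity
          have havg : (1 - eps) * (Hw V (fun _ => (1 : ℝ)) E - if E ∈ V then 1 else 0) ≤
              psi a V E := by
            unfold psi
            rw [hE]
            push_cast
            rw [le_div_iff₀ hm1]
            have e : (1 - eps) * (Hw V (fun _ => (1 : ℝ)) E - if E ∈ V then 1 else 0) *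
                ((m : ℝ) + 1) = (1 - eps) * (((m : ℝ) + 1) *
                  (Hw V (fun _ => (1 : ℝ)) E - if E ∈ V then 1 else 0)) := by ring
            rw [e, ← hrec, Finset.mul_sum]
            refine Finset.sum_le_sum fun z hz => ?_
            exact ih _ (by rw [card_erase_of_mem hz]; omega)
          rw [phi_step a V E hgt]
          by_cases hEV : E ∈ V
          · rw [if_pos hEV] at havg ⊢
            obtain ⟨y, hy, hyT⟩ := hVy E hEV
            have h1 := psi_le a T V ha y E hgt hy hyT
            have h2 : ((E.card : ℝ) - a + T) / E.card ≤ eps := by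
              rw [heps]
              have hEb : (E.card : ℝ) ≤ b := by exact_mod_cast (hV E hEV).2
              have hEa : (a : ℝ) < E.card := by exact_mod_cast hgt
              exact div_le_div₀ (by linarith) (by linarith) ha' hEa.le
            linarith
          · rw [if_neg hEV] at havg ⊢
            linarith
    have h1 := key n univ huniv
    have h2 : Hw V (fun _ => (1 : ℝ)) univ = ∑ A ∈ V, 1 / (n.choose A.card : ℝ) := by
      unfold Hw
      rw [huniv, Finset.filter_true_of_mem (fun A _ => Finset.subset_univ A)]
    rw [h2] at h1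
    exact h1
  · -- (ii)
    intro k X hk hX
    have hak : a < k := by omega
    by_cases hkn : n < k
    · have hXe : X = ∅ := by
        rw [Finset.eq_empty_iff_forall_notMem]
        intro D hD
        have h1 := (hX D hD).1
        have h2 := card_le_univ D
        rw [Fintype.card_fin] at h2
        omega
      rw [hXe, Nat.choose_eq_zero_of_lt hkn]
      simp
    push Not at hkn
    set W : Finset (Finset (Fin n)) := powersetCard k univ with hW
    have key : ∀ m : ℕ, ∀ E : Finset (Fin n), E.card = k + m → phi a V E = Hw W (phi a V) E := by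
      intro m
      induction m with
      | zero =>
        intro E hE
        unfold Hw
        have : W.filter (fun A => A ⊆ E) = {E} := by
          ext A
          rw [mem_filter, mem_singleton, hW, mem_powersetCard]
          constructor
          · rintro ⟨⟨_, h1⟩, h2⟩
            exact Finset.eq_of_subset_of_card_le h2 (by rw [h1, hE]; simp)
          · rintro rfl
            exact ⟨⟨Finset.subset_univ _, hE⟩, Finset.Subset.refl _⟩
        rw [this, Finset.sum_singleton, Nat.choose_self]
        norm_num
      | succ m ih =>
        intro E hE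
        have hrec := Hw_rec W (phi a V) E (k + m) (by omega)
        have hEW : E ∉ W := by
          rw [hW, mem_powersetCard]
          rintro ⟨_, h⟩
          omega
        have hEV : E ∉ V := fun h => by
          have := (hV E h).2
          omega
        rw [if_neg hEW, sub_zero] at hrec
        rw [phi_step a V E (by omega), if_neg hEV]
        unfold psi
        have h1 : ∑ z ∈ E, phi a V (E.erase z) = ∑ z ∈ E, Hw W (phi a V) (E.erase z) :=
          Finset.sum_congr rfl fun z hz => ih _ (by rw [card_erase_of_mem hz]; omega)
        rw [h1, hrec, hE]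
        push_cast
        have : (0 : ℝ) < (k : ℝ) + m + 1 := by positivity
        field_simp
        ring
    have h1 := key (n - k) univ (by rw [huniv]; omega)
    have hCpos : (0 : ℝ) < (n.choose k : ℝ) := by exact_mod_cast Nat.choose_pos hkn
    have hWc : W.card = n.choose k := by rw [hW, card_powersetCard, huniv]
    have h2 : Hw W (phi a V) univ = (∑ A ∈ W, phi a V A) / (n.choose k : ℝ) := by
      unfold Hw
      rw [huniv, Finset.filter_true_of_mem (fun A _ => Finset.subset_univ A), Finset.sum_div]
      refine Finset.sum_congr rfl fun A hA => ?_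
      rw [(mem_powersetCard.1 hA).2]
    rw [h2, eq_div_iff hCpos.ne'] at h1
    have hXW : X ⊆ W := by
      intro D hD
      rw [hW, mem_powersetCard]
      exact ⟨Finset.subset_univ _, (hX D hD).1⟩
    have h3 : ∑ A ∈ X, phi a V A ≤ X.card * (((k : ℝ) - a + T) / a) := by
      have : ∑ A ∈ X, phi a V A ≤ ∑ _A ∈ X, (((k : ℝ) - a + T) / a) := by
        refine Finset.sum_le_sum fun D hD => ?_
        obtain ⟨hDk, y, hy, hyT⟩ := hX D hD
        have hDV : D ∉ V := fun h => by
          have := (hV D h).2
          omega
        rw [phi_step a V D (by omega), if_neg hDV]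
        refine (psi_le a T V ha y D (by omega) hy hyT).trans ?_
        rw [hDk]
        have hak' : (a : ℝ) < k := by exact_mod_cast hak
        exact div_le_div_of_nonneg_left (by linarith) ha' hak'.le
      rwa [Finset.sum_const, nsmul_eq_mul] at this
    have h4 : ∑ A ∈ W \ X, phi a V A ≤ (n.choose k : ℝ) - X.card := by
      have : ∑ A ∈ W \ X, phi a V A ≤ ∑ _A ∈ W \ X, (1 : ℝ) :=
        Finset.sum_le_sum fun A _ => phi_le_one _ _ _
      rw [Finset.sum_const, nsmul_eq_mul, mul_one, card_sdiff_of_subset hXW,
        Nat.cast_sub (card_le_card hXW), hWc] at this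
      exact this
    have h5 := Finset.sum_sdiff (f := phi a V) hXW
    rw [← h5] at h1
    have e : (1 - ((k : ℝ) - a + T) / a) * (X.card : ℝ) =
      X.card - X.card * (((k : ℝ) - a + T) / a) := by ring
    rw [e, sub_mul, one_mul, h1]
    linarith
  · -- (iii)
    intro k X hk hXk hVX
    have hkb : (k : ℝ) ≤ b := by exact_mod_cast (by omega : k ≤ b)
    have hq0 : 0 ≤ ((b : ℝ) - k) / a := div_nonneg (by linarith) ha'.le
    by_cases hna : n < a
    · have hVe : V = ∅ := by
        rw [Finset.eq_empty_iff_forall_notMem]
        intro D hD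
        have h1 := (hV D hD).1
        have h2 := card_le_univ D
        rw [Fintype.card_fin] at h2
        omega
      have h0 : phi a V univ = 0 := by
        rw [phi_small a V univ (by rw [huniv]; omega), if_neg]
        rw [hVe]; simp
      have hXc : X.card ≤ n.choose k := by
        have : X ⊆ powersetCard k univ := by
          intro A hA
          rw [mem_powersetCard]
          exact ⟨Finset.subset_univ _, hXk A hA⟩
        have := card_le_card this
        rwa [card_powersetCard, huniv] at this
      have hXc' : (X.card : ℝ) ≤ (n.choose k : ℝ) := by exact_mod_cast hXc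
      rw [h0]
      have hC0 : (0 : ℝ) ≤ (n.choose k : ℝ) := Nat.cast_nonneg _
      nlinarith
    push Not at hna
    -- the density of `X` inside `E`
    have hHX : ∀ E : Finset (Fin n), Hw X (fun _ => (1 : ℝ)) E =
        ((X.filter (fun A => A ⊆ E)).card : ℝ) / (E.card.choose k : ℝ) := by
      intro E
      unfold Hw
      have : ∀ A ∈ X.filter (fun A => A ⊆ E), 1 / ((E.card.choose A.card : ℕ) : ℝ) =
          1 / ((E.card.choose k : ℕ) : ℝ) := by
        intro A hA
        rw [hXk A (mem_filter.1 hA).1]
      rw [Finset.sum_congr rfl this, Finset.sum_const, nsmul_eq_mul]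
      ring
    have key : ∀ m : ℕ, ∀ E : Finset (Fin n), E.card = a + m →
        Hw X (fun _ => (1 : ℝ)) E ≤ 1 - phi a V E + ((b : ℝ) - k) / a := by
      intro m
      induction m with
      | zero =>
        intro E hE
        by_cases hEV : E ∈ V
        · rw [phi_of_mem a V E hEV, sub_self, zero_add, hHX]
          obtain ⟨y, hy, hyX⟩ := hVX E hEV
          have hsub : X.filter (fun A => A ⊆ E) ⊆ powersetCard k (E.erase y) := by
            intro A hA
            rw [mem_filter] at hA
            rw [mem_powersetCard]
            have hc := hXk A hA.1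
            have hne : A ≠ E := by
              rintro rfl
              omega
            have hya := hyX A hA.1 (hA.2.ssubset_of_ne hne)
            refine ⟨fun x hx => mem_erase.2 ⟨?_, hA.2 hx⟩, hc⟩
            rintro rfl
            exact hya hx
          have h1 := card_le_card hsub
          rw [card_powersetCard, card_erase_of_mem hy] at h1
          obtain ⟨j, hj⟩ : ∃ j, E.card = j + 1 := ⟨E.card - 1, by omega⟩
          rw [hj, Nat.add_sub_cancel] at h1
          have h2 := choose_rel (m := j) (j := k) (by omega) 1
          rw [hj]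
          have hjR : (E.card : ℝ) = (j : ℝ) + 1 := by rw [hj]; push_cast; ring
          have hCj : (0 : ℝ) < (j.choose k : ℝ) := by
            exact_mod_cast Nat.choose_pos (by omega : k ≤ j)
          have hCj1 : (0 : ℝ) < ((j + 1).choose k : ℝ) := by
            exact_mod_cast Nat.choose_pos (by omega : k ≤ j + 1)
          have h3 : (j.choose k : ℝ) / ((j + 1).choose k : ℝ) = ((j : ℝ) + 1 - k) / ((j : ℝ) + 1) := by
            rw [div_eq_div_iff hCj1.ne' (by positivity)]
            field_simp at h2
            linarith
          calc ((X.filter (fun A => A ⊆ E)).card : ℝ) / ((j + 1).choose k : ℝ) ≤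
              (j.choose k : ℝ) / ((j + 1).choose k : ℝ) := by
                have h1' : ((X.filter (fun A => A ⊆ E)).card : ℝ) ≤ (j.choose k : ℝ) := by
                  exact_mod_cast h1
                gcongr
            _ = ((j : ℝ) + 1 - k) / ((j : ℝ) + 1) := h3
            _ ≤ ((b : ℝ) - k) / a := by
                have hEb : (E.card : ℝ) ≤ b := by exact_mod_cast (hV E hEV).2
                have hEa : (a : ℝ) ≤ E.card := by exact_mod_cast (hV E hEV).1
                rw [hjR] at hEb hEa
                exact div_le_div₀ (by linarith) (by linarith) ha' hEa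
        · rw [phi_small a V E (by omega), if_neg hEV, sub_zero, hHX]
          have hsub : X.filter (fun A => A ⊆ E) ⊆ powersetCard k E := by
            intro A hA
            rw [mem_filter] at hA
            rw [mem_powersetCard]
            exact ⟨hA.2, hXk A hA.1⟩
          have h1 := card_le_card hsub
          rw [card_powersetCard] at h1
          have hC : (0 : ℝ) < (E.card.choose k : ℝ) := by
            exact_mod_cast Nat.choose_pos (by omega : k ≤ E.card)
          have h2 : ((X.filter (fun A => A ⊆ E)).card : ℝ) / (E.card.choose k : ℝ) ≤ 1 := by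
            rw [div_le_one hC]
            exact_mod_cast h1
          linarith
      | succ m ih =>
        intro E hE
        by_cases hEV : E ∈ V
        · rw [phi_of_mem a V E hEV, sub_self, zero_add, hHX]
          obtain ⟨y, hy, hyX⟩ := hVX E hEV
          have hsub : X.filter (fun A => A ⊆ E) ⊆ powersetCard k (E.erase y) := by
            intro A hA
            rw [mem_filter] at hA
            rw [mem_powersetCard]
            have hc := hXk A hA.1
            have hne : A ≠ E := by
              rintro rfl
              omega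
            have hya := hyX A hA.1 (hA.2.ssubset_of_ne hne)
            refine ⟨fun x hx => mem_erase.2 ⟨?_, hA.2 hx⟩, hc⟩
            rintro rfl
            exact hya hx
          have h1 := card_le_card hsub
          rw [card_powersetCard, card_erase_of_mem hy] at h1
          obtain ⟨j, hj⟩ : ∃ j, E.card = j + 1 := ⟨E.card - 1, by omega⟩
          rw [hj, Nat.add_sub_cancel] at h1
          have h2 := choose_rel (m := j) (j := k) (by omega) 1
          rw [hj]
          have hjR : (E.card : ℝ) = (j : ℝ) + 1 := by rw [hj]; push_cast; ring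
          have hCj : (0 : ℝ) < (j.choose k : ℝ) := by
            exact_mod_cast Nat.choose_pos (by omega : k ≤ j)
          have hCj1 : (0 : ℝ) < ((j + 1).choose k : ℝ) := by
            exact_mod_cast Nat.choose_pos (by omega : k ≤ j + 1)
          have h3 : (j.choose k : ℝ) / ((j + 1).choose k : ℝ) = ((j : ℝ) + 1 - k) / ((j : ℝ) + 1) := by
            rw [div_eq_div_iff hCj1.ne' (by positivity)]
            field_simp at h2
            linarith
          calc ((X.filter (fun A => A ⊆ E)).card : ℝ) / ((j + 1).choose k : ℝ) ≤
              (j.choose k : ℝ) / ((j + 1).choose k : ℝ) := by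
                have h1' : ((X.filter (fun A => A ⊆ E)).card : ℝ) ≤ (j.choose k : ℝ) := by
                  exact_mod_cast h1
                gcongr
            _ = ((j : ℝ) + 1 - k) / ((j : ℝ) + 1) := h3
            _ ≤ ((b : ℝ) - k) / a := by
                have hEb : (E.card : ℝ) ≤ b := by exact_mod_cast (hV E hEV).2
                have hEa : (a : ℝ) ≤ E.card := by exact_mod_cast (hV E hEV).1
                rw [hjR] at hEb hEa
                exact div_le_div₀ (by linarith) (by linarith) ha' hEa
        · have hrec := Hw_rec X (fun _ => (1 : ℝ)) E (a + m) (by omega)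
          have hEX : E ∉ X := fun h => by
            have := hXk E h
            omega
          rw [if_neg hEX, sub_zero] at hrec
          rw [phi_step a V E (by omega), if_neg hEV]
          have hcard : (E.card : ℝ) = (a : ℝ) + m + 1 := by rw [hE]; push_cast; ring
          have hpos : (0 : ℝ) < (a : ℝ) + m + 1 := by positivity
          have h1 : ∑ z ∈ E, Hw X (fun _ => (1 : ℝ)) (E.erase z) ≤
              ∑ z ∈ E, (1 - phi a V (E.erase z) + ((b : ℝ) - k) / a) :=
            Finset.sum_le_sum fun z hz => ih _ (by rw [card_erase_of_mem hz]; omega)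
          rw [hrec, Finset.sum_add_distrib, Finset.sum_sub_distrib, Finset.sum_const,
            Finset.sum_const, nsmul_eq_mul, nsmul_eq_mul, hcard] at h1
          push_cast at h1
          have h2 : psi a V E * ((a : ℝ) + m + 1) = ∑ z ∈ E, phi a V (E.erase z) := by
            unfold psi
            rw [hcard]
            field_simp
          rw [← h2] at h1
          have h3 : ((a : ℝ) + m + 1) * Hw X (fun _ => (1 : ℝ)) E ≤
              ((a : ℝ) + m + 1) * (1 - psi a V E + ((b : ℝ) - k) / a) := by
            linarith
          exact le_of_mul_le_mul_left h3 hpos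
    have h1 := key (n - a) univ (by rw [huniv]; omega)
    rw [hHX, huniv, Finset.filter_true_of_mem (fun A _ => Finset.subset_univ A)] at h1
    have hC : (0 : ℝ) < (n.choose k : ℝ) := by
      exact_mod_cast Nat.choose_pos (by omega : k ≤ n)
    rwa [div_le_iff₀ hC] at h1

end Pool.Agent.TH626.UA_CHAIN
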